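import Pool.Agent.H.MP_20495c_lc.B.Str

/-!
# Part B, module Amal: amalgamation of two structures over a common member
-/

set_option autoImplicit false
set_option linter.unusedSectionVars false

namespace Pool.Agent.H.MP_20495c_lc

open Pool.Agent.H.MP_07d118_lc Pool.Agent.H.MP_a163f2_lc

universe u v w x

variable {M : Type u} [SetStr M] [ZFC M] [Std M] {W : Type v} [LinearOrder W] [Cd M W] [Om1 M W]
variable {c : W × Hc → ℕ → ℕ} [hL : Fact (Luz M W c)]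

/-! ### Amalgamation -/

/-- union of two structures -/
noncomputable def stA (S₁ S₂ : Stc M W) : Stc M W :=
  (plU S₁.1 S₂.1, ISet.mk (P := fun y : W × Pl M W => y ∈ S₁.2.1 ∨ y ∈ S₂.2.1)
      (S₁.2.1.in_mem.or S₂.2.1.in_mem),
    ISet.mk (P := fun y : Pl M W × Nm M W × Nm M W => y ∈ S₁.2.2 ∨ y ∈ S₂.2.2)
      (S₁.2.2.in_mem.or S₂.2.2.in_mem))

theorem mem_stA {S₁ S₂ : Stc M W} {D : Pl M W} : Mem (stA S₁ S₂) D ↔ Mem S₁ D ∨ Mem S₂ D := by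
  constructor
  · rintro ⟨α, h | h⟩
    · exact Or.inl ⟨α, h⟩
    · exact Or.inr ⟨α, h⟩
  · rintro (⟨α, h⟩ | ⟨α, h⟩)
    · exact ⟨α, Or.inl h⟩
    · exact ⟨α, Or.inr h⟩

theorem stA_comm (S₁ S₂ : Stc M W) : stA S₁ S₂ = stA S₂ S₁ := by
  refine Stc_ext (plU_comm _ _) (fun α D => ?_) (fun D n m => ?_)
  · exact or_comm
  · exact or_comm

/-- The data of an amalgamation over the common member `D`. -/
structure AmD (c : W × Hc → ℕ → ℕ) (S₁ S₂ : Stc M W) (D : Pl M W) : Prop where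
  sv1 : SV c S₁
  sv2 : SV c S₂
  m1 : Mem S₁ D
  m2 : Mem S₂ D
  eq : res S₁ D = res S₂ D
  dis : ∀ ν ∈ S₁.1.dom, ν ∈ S₂.1.dom → ν ∈ D.dom

theorem AmD.symm {S₁ S₂ : Stc M W} {D : Pl M W} (h : AmD c S₁ S₂ D) : AmD c S₂ S₁ D :=
  ⟨h.sv2, h.sv1, h.m2, h.m1, h.eq.symm, fun ν a b => h.dis ν b a⟩

theorem Amal_sb {S₁ S₂ : Stc M W} {D : Pl M W} (h : AmD c S₁ S₂ D) {E C : Pl M W}
    (hE : Mem S₁ E) (hC : Mem S₂ C) (hs : Sb C E) : Sb C D := by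
  have h1 := (h.sv1.sub E hE).2
  have h2 := (h.sv2.sub C hC).2
  exact sb_of_dom h2 (h.sv2.sub D h.m2).2 fun ν hν =>
    h.dis ν (h1.dom (hs.dom hν)) (h2.dom hν)

theorem Amal_tr {S₁ S₂ : Stc M W} {D : Pl M W} (h : AmD c S₁ S₂ D) {E C : Pl M W} {α : W}
    (hE : Mem S₁ E) (hC : (α, C) ∈ S₂.2.1) (hs : Sb C E) : (α, C) ∈ S₁.2.1 := by
  have h1 := Amal_sb h hE ⟨α, hC⟩ hs
  have h2 : (α, C) ∈ (MP_20495c_lc.res S₂ D).2.1 := mem_res1.2 ⟨hC, h1⟩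
  rw [← h.eq] at h2
  exact (mem_res1.1 h2).1

theorem Amal_tl {S₁ S₂ : Stc M W} {D : Pl M W} (h : AmD c S₁ S₂ D) {E C : Pl M W} {n m : Nm M W}
    (hE : Mem S₁ E) (hC : (C, n, m) ∈ S₂.2.2) (hs : Sb C E) : (C, n, m) ∈ S₁.2.2 := by
  have h1 := Amal_sb h hE (h.sv2.labs C n m hC).1 hs
  have h2 : (C, n, m) ∈ (MP_20495c_lc.res S₂ D).2.2 := mem_res2.2 ⟨hC, h1⟩
  rw [← h.eq] at h2
  exact (mem_res2.1 h2).1

theorem Amal_cap {S₁ S₂ : Stc M W} {D : Pl M W} (h : AmD c S₁ S₂ D) {E₁ E₂ : Pl M W}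
    (h1 : Mem S₁ E₁) (h2 : Mem S₂ E₂) : Mem S₂ (plI E₁ E₂) := by
  have a1 := (h.sv1.sub E₁ h1).2
  have a2 := (h.sv2.sub E₂ h2).2
  have hD1 := (h.sv1.sub D h.m1).2
  have hD2 := (h.sv2.sub D h.m2).2
  have e : plI E₁ E₂ = plI (plI E₁ D) (plI E₂ D) := by
    refine ISet.ext fun x => ?_
    rw [mem_plI, mem_plI, mem_plI, mem_plI]
    constructor
    · rintro ⟨h3, h4⟩
      obtain ⟨ν, q, t⟩ := x
      have h5 : (ν, q, t) ∈ D := hD1.2 ν q t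
        (h.dis ν (a1.dom ⟨q, t, h3⟩) (a2.dom ⟨q, t, h4⟩)) (a1.1 _ h3)
      exact ⟨⟨h3, h5⟩, h4, h5⟩
    · rintro ⟨⟨h3, _⟩, h4, _⟩
      exact ⟨h3, h4⟩
  rw [e]
  refine h.sv2.cap _ _ ?_ (h.sv2.cap _ _ h2 h.m2)
  obtain ⟨α, hα⟩ := h.sv1.cap _ _ h1 h.m1
  exact ⟨α, Amal_tr h.symm h.m2 hα (plI_sb_right a1 hD1)⟩

/-- A member of `S₂` which is a subplan of a member `E` of `S₁` is a subplan of `D`, hence a member of `res S₂ D = res S₁ D`. -/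
theorem stA_res1 {S₁ S₂ : Stc M W} {D : Pl M W} (h : AmD c S₁ S₂ D) {E : Pl M W}
    (hE : Mem S₁ E) : MP_20495c_lc.res (stA S₁ S₂) E = MP_20495c_lc.res S₁ E := by
  refine Stc_ext rfl (fun α C => ?_) (fun C n m => ?_)
  · rw [mem_res1, mem_res1]
    constructor
    · rintro ⟨h1 | h1, h2⟩
      · exact ⟨h1, h2⟩
      · exact ⟨Amal_tr h hE h1 h2, h2⟩
    · rintro ⟨h1, h2⟩
      exact ⟨Or.inl h1, h2⟩
  · rw [mem_res2, mem_res2]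
    constructor
    · rintro ⟨h1 | h1, h2⟩
      · exact ⟨h1, h2⟩
      · exact ⟨Amal_tl h hE h1 h2, h2⟩
    · rintro ⟨h1, h2⟩
      exact ⟨Or.inl h1, h2⟩

theorem stA_res2 {S₁ S₂ : Stc M W} {D : Pl M W} (h : AmD c S₁ S₂ D) {E : Pl M W}
    (hE : Mem S₂ E) : MP_20495c_lc.res (stA S₁ S₂) E = MP_20495c_lc.res S₂ E := by
  rw [stA_comm]
  exact stA_res1 h.symm hE

/-- `Valid_plU` with `f = D`; subplans: `Sb_plU_left`, `Sb_plU_right`. `cap` for `E₁ ∈ S₁`, `E₂ ∈ S₂`: the domain of `plI E₁ E₂` is in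
`D.dom`; `plI E₁ E₂ = plI (plI E₁ D) (plI E₂ D)`, `plI E₁ D` is a member of `S₁` below `D`, hence a member of `S₂` (`eq`). `fn`, `rk`: a common member or `Sb E₁ E₂`
with `E₁ ∈ S₁`, `E₂ ∈ S₂` implies `Sb E₁ D`, so `E₁` is a member of both with the same rank. Labels: the same. -/
theorem stA_HS {S₁ S₂ : Stc M W} {D : Pl M W} (h : AmD c S₁ S₂ D) : HS c (stA S₁ S₂) := by
  have hD1 := (h.sv1.sub D h.m1).2
  have hD2 := (h.sv2.sub D h.m2).2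
  have hd : S₁.1.dom ∩ S₂.1.dom ⊆ D.dom := fun ν hν => h.dis ν hν.1 hν.2
  have s1 : Sb S₁.1 (plU S₁.1 S₂.1) := Sb_plU_left hD1 hD2 hd
  have s2 : Sb S₂.1 (plU S₁.1 S₂.1) := Sb_plU_right hD1 hD2 hd
  refine ⟨Valid_plU hD1 hD2 hd h.sv1.val h.sv2.val, ?_, ?_, ?_, ?_, ?_, ?_, ?_, ?_, ?_, ?_⟩
  · intro E hE
    rcases mem_stA.1 hE with hE | hE
    · exact ⟨(h.sv1.sub E hE).1, (h.sv1.sub E hE).2.trans s1⟩
    · exact ⟨(h.sv2.sub E hE).1, (h.sv2.sub E hE).2.trans s2⟩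
  · rintro α α' E (h1 | h1) (h2 | h2)
    · exact h.sv1.fn _ _ _ h1 h2
    · exact h.sv1.fn _ _ _ h1 (Amal_tr h ⟨α, h1⟩ h2 (Sb.refl E))
    · exact h.sv1.fn _ _ _ (Amal_tr h ⟨α', h2⟩ h1 (Sb.refl E)) h2
    · exact h.sv2.fn _ _ _ h1 h2
  · rintro α α' E E' (h1 | h1) (h2 | h2) hs hne
    · exact h.sv1.rk _ _ _ _ h1 h2 hs hne
    · exact h.sv2.rk _ _ _ _ (Amal_tr h.symm ⟨α', h2⟩ h1 hs) h2 hs hne
    · exact h.sv1.rk _ _ _ _ (Amal_tr h ⟨α', h2⟩ h1 hs) h2 hs hne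
    · exact h.sv2.rk _ _ _ _ h1 h2 hs hne
  · obtain ⟨β, hβ⟩ := h.sv1.rbd
    obtain ⟨β', hβ'⟩ := h.sv2.rbd
    refine ⟨max β β', ?_⟩
    rintro α E (h1 | h1)
    · exact (hβ α E h1).trans_le (le_max_left _ _)
    · exact (hβ' α E h1).trans_le (le_max_right _ _)
  · intro E E' hE hE'
    rcases mem_stA.1 hE with hE | hE <;> rcases mem_stA.1 hE' with hE' | hE'
    · exact mem_stA.2 (Or.inl (h.sv1.cap _ _ hE hE'))
    · exact mem_stA.2 (Or.inr (Amal_cap h hE hE'))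
    · exact mem_stA.2 (Or.inl (Amal_cap h.symm hE hE'))
    · exact mem_stA.2 (Or.inr (h.sv2.cap _ _ hE hE'))
  · intro ν hν
    have hν' : ν ∈ S₁.1.dom ∪ S₂.1.dom := by
      have h0 : ν ∈ (plU S₁.1 S₂.1).dom := hν
      rwa [plU_dom] at h0
    rcases hν' with h1 | h1
    · obtain ⟨E, hE, h2, h3⟩ := h.sv1.sup ν h1
      refine ⟨E, mem_stA.2 (Or.inl hE), h2, ?_⟩
      have e : (stA S₁ S₂).1.nm ν = S₁.1.nm ν := s1.nm_eq h1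
      rw [e]
      exact h3
    · obtain ⟨E, hE, h2, h3⟩ := h.sv2.sup ν h1
      refine ⟨E, mem_stA.2 (Or.inr hE), h2, ?_⟩
      have e : (stA S₁ S₂).1.nm ν = S₂.1.nm ν := s2.nm_eq h1
      rw [e]
      exact h3
  · intro E hE n hn
    rcases mem_stA.1 hE with hE | hE
    · obtain ⟨m, hm⟩ := h.sv1.lab E hE n hn
      exact ⟨m, Or.inl hm⟩
    · obtain ⟨m, hm⟩ := h.sv2.lab E hE n hn
      exact ⟨m, Or.inr hm⟩
  · rintro E n m m' (h1 | h1) (h2 | h2)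
    · exact h.sv1.lab1 _ _ _ _ h1 h2
    · exact h.sv1.lab1 _ _ _ _ h1 (Amal_tl h (h.sv1.labs _ _ _ h1).1 h2 (Sb.refl E))
    · exact h.sv1.lab1 _ _ _ _ (Amal_tl h (h.sv1.labs _ _ _ h2).1 h1 (Sb.refl E)) h2
    · exact h.sv2.lab1 _ _ _ _ h1 h2
  · rintro E n n' m (h1 | h1) (h2 | h2)
    · exact h.sv1.labi _ _ _ _ h1 h2
    · exact h.sv1.labi _ _ _ _ h1 (Amal_tl h (h.sv1.labs _ _ _ h1).1 h2 (Sb.refl E))
    · exact h.sv1.labi _ _ _ _ (Amal_tl h (h.sv1.labs _ _ _ h2).1 h1 (Sb.refl E)) h2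
    · exact h.sv2.labi _ _ _ _ h1 h2
  · rintro E n m (h1 | h1)
    · exact ⟨mem_stA.2 (Or.inl (h.sv1.labs _ _ _ h1).1), (h.sv1.labs _ _ _ h1).2⟩
    · exact ⟨mem_stA.2 (Or.inr (h.sv2.labs _ _ _ h1).1), (h.sv2.labs _ _ _ h1).2⟩

/-- The intersection of the two plans in any bigger plan. -/
theorem AmD.plI_eq {S₁ S₂ : Stc M W} {D : Pl M W} (h : AmD c S₁ S₂ D) : plI S₁.1 S₂.1 = D := by
  have hD1 := (h.sv1.sub D h.m1).2
  have hD2 := (h.sv2.sub D h.m2).2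
  refine ISet.ext fun x => ?_
  rw [mem_plI]
  constructor
  · rintro ⟨h1, h2⟩
    obtain ⟨ν, q, t⟩ := x
    exact hD1.2 ν q t (h.dis ν ⟨q, t, h1⟩ ⟨q, t, h2⟩) h1
  · intro h1
    exact ⟨hD1.1 _ h1, hD2.1 _ h1⟩

end Pool.Agent.H.MP_20495c_lc
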