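import Pool.Agent.H.MP_20495c_lc.B.GoodS

/-!
# Part B, module Bc: change of the base
-/

set_option autoImplicit false
set_option linter.unusedSectionVars false

namespace Pool.Agent.H.MP_20495c_lc

open Pool.Agent.H.MP_07d118_lc Pool.Agent.H.MP_a163f2_lc

universe u v w x

variable {M : Type u} [SetStr M] [ZFC M] [Std M] {W : Type v} [LinearOrder W] [Cd M W] [Om1 M W]
variable {c : W × Hc → ℕ → ℕ} [hL : Fact (Luz M W c)]
variable {K : Set (ℕ → ℕ) → (ℕ → ℕ) → (ℕ → ℕ) → Prop} {r : Nm M W → Nm M W → Prop}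
variable {S S' F F₁ : Stc M W} {T T₁ : Tt M W} [hK : Fact (KOK M W c K)] [hr : Fact (WOr M r)]

/-- A member `D` of `S` is comparable with `F₁.1`; if `Sb F₁.1 D` then `Sb F.1 D`; if `Sb D F₁.1` then `D` is a member of `F₁` (`SLe.mem_iff`), use `Cmp F F₁`. -/
theorem Cmp_base (hS : SV c S) (hle : SLe F₁ S) (hC : Cmp F₁ S) (hF₁ : KK c F T F₁) :
    Cmp F S := by
  intro D hD
  rcases hC D hD with h1 | h1
  · exact hF₁.cmp D (hle.mem_iff.2 ⟨hD, h1⟩)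
  · exact Or.inr ((hF₁.le.sb hF₁.sv.toHS).trans h1)

/-- The class over the bigger base is smaller. `SLe.trans`, `Cmp_base`. `ok`: a node `ν` outside `F₁.1`: the hypothesis. A node `ν ∈ F₁.1.dom` outside `F.1`: if `ev (S.1.nm ν) G = T3 x z 0` then `x ∈ RR c F₁.1 G` (`node_RR`; `S.1.nm ν = F₁.1.nm ν`,
`Sb.nm_eq`), so a protection of `(x, z)` in `S` is one in `res S F₁.1 = F₁` (`LOC`), hence at `G ∩ PP c F₁.1` (`PT_inter`); this contradicts `hF₁.ok` (`Gen.restrict`; the value of the node at `G ∩ PP c F₁.1` is the same). -/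
theorem KK_base [Countable M] (hI0 : I0 c T) (hI2 : I2 c F T) (hF₁ : KK c F T F₁)
    (h : KK c F₁ T S) : KK c F T S := by
  have hle : SLe F S := hF₁.le.trans h.le
  have hcmp : Cmp F S := Cmp_base h.sv h.le h.cmp hF₁
  refine ⟨h.sv, hle, hcmp, ?_⟩
  intro ν hν hνF G hG hp x z he hpt
  by_cases hν₁ : ν ∈ F₁.1.dom
  · have hsb : Sb F₁.1 S.1 := h.le.sb h.sv.toHS
    have he1 : ev (F₁.1.nm ν) G = T3 x z 0 := by
      rw [← hsb.nm_eq hν₁]
      exact he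
    obtain ⟨h2, h3, h4⟩ := Kk_loc hI0 hI2 h.sv hle hcmp h.le hF₁.sv (hF₁.le.sb hF₁.sv.toHS) hG
      (hF₁.sv.val.nm ν hν₁) he1 hpt
    exact hF₁.ok ν hν₁ hνF _ h2 h2.empty_mem x z h3 h4
  · exact h.ok ν hν hν₁ G hG hp x z he hpt

theorem Kb_base [Countable M] (hI0 : I0 c T) (hI2 : I2 c F T) (hF₁ : KK c F T F₁)
    {G : Set (Cond W)} {x z : ℕ → ℕ} (h : Kb c K F₁ T S G x z) : Kb c K F T S G x z := by
  obtain ⟨S', h1, h2⟩ := h
  exact ⟨S', KK_base hI0 hI2 hF₁ h1, h2⟩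

/-- `I1`: a permutation fixing `F₁.1.dom` fixes `F.1.dom` (`SLe.sb`, `Sb.dom`). `I2`: `Cmp_base`, `SLe.trans`. `I3`, `I4`, `I5`: `KK_base`, `Kb_base`. -/
theorem INV_base [Countable M] (h : INV c K F T) (hF₁ : KK c F T F₁) : INV c K F₁ T := by
  have hsb : Sb F.1 F₁.1 := hF₁.le.sb hF₁.sv.toHS
  refine ⟨hF₁.sv, h.i0, ?_, ?_, ?_, ?_, ?_⟩
  · intro π hπ hf
    exact h.i1 π hπ fun ν hν => hf ν (hsb.dom hν)
  · intro S hS hle hC D hD p a b hm D' hD' hFD' G hG hp hx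
    exact h.i2 S hS (hF₁.le.trans hle) (Cmp_base hS hle hC hF₁) D hD p a b hm D' hD'
      (hsb.trans hFD') G hG hp hx
  · intro S hS
    exact h.i3 S (KK_base h.i0 h.i2 hF₁ hS)
  · intro S hS G hG x z hpt hk
    exact h.i4 S (KK_base h.i0 h.i2 hF₁ hS) G hG x z hpt (Kb_base h.i0 h.i2 hF₁ hk)
  · intro S hS
    exact h.i5 S (KK_base h.i0 h.i2 hF₁ hS)

/-- Suppose the node `ν` codes `(x, z)` at `G` and `x` has no protected partner in `F₁` for `T₁`, hence none for `T` (`PT_mono`). If not `K`, `GoodS` gives `w ∈ RR c F₁.1 G`, uncoded, not `Kb c K F T F₁ G x w`. `K9` for `(F₁, T₁)` at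
`S = F₁` (`KK_self`), `D = F₁.1` (`res_self`; `x` lies over `F₁.1` by `node_RR`) gives `Kb c K F₁ T₁ F₁ G x w`, then `Kb_anti` and `Kb_base` give a contradiction. -/
theorem Clean_of_good [Countable M] (h : INV c K F T) (hF₁ : KK c F T F₁)
    (hg : GoodS c K F T F₁) (hT : ∀ q, q ∈ T → q ∈ T₁) (h₁ : INV c K F₁ T₁)
    (hfix : ∀ y, GamP c K r F₁ T₁ y → y ∈ T₁) : Clean c K F₁ T₁ := by
  intro ν hν G hG hp x z he
  by_contra hcon
  rw [not_or, not_exists] at hcon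
  obtain ⟨hn, hnK⟩ := hcon
  rcases hg ν hν G hG x z he with ⟨z', h2⟩ | h2 | ⟨w, hw, hel, hnk⟩
  · exact hn z' (PT_mono hT h2)
  · exact hnK h2
  · have hx : x ∈ RR c F₁.1 G := (node_RR hF₁.sv.val hF₁.sv.val (Sb.refl _) hG
      (hF₁.sv.val.nm ν hν) he).1
    have h3 := K9 (r := r) h₁ hfix (KK_self h₁.base) hG hn h₁.base.top (Sb.refl _) hx
      (fun D' _ h4 _ => h4) hw hel
    rw [res_self h₁.base] at h3
    exact hnk (Kb_base h.i0 h.i2 hF₁ (Kb_anti hT h3))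

/-- **Successors of states.** `exists_good`, `INV_base`, `exists_fix`, `Clean_of_good`. -/
theorem State_succ [Countable M] (hst : State c K r (F, T)) (hS : KK c F T S) :
    ∃ F₂ T₂, KK c F T F₂ ∧ SLe S F₂ ∧ State c K r (F₂, T₂) ∧ StLe c K r (F₂, T₂) (F, T) := by
  obtain ⟨F₂, h1, h2, h3⟩ := exists_good hst hS
  have hinv : INV c K F T := hst.inv
  obtain ⟨T₂, a1, a2, a3⟩ := exists_fix (r := r) (INV_base hinv h1)
  have hst2 : State c K r (F₂, T₂) := ⟨a2, a3, Clean_of_good hinv h1 h3 a1 a2 a3⟩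
  exact ⟨F₂, T₂, h1, h2, hst2, Or.inr ⟨hst2, hst, h1, a1⟩⟩

theorem StLe_trans [Countable M] {a b d : Stc M W × Tt M W} (h : StLe c K r a b)
    (h' : StLe c K r b d) : StLe c K r a d := by
  rcases h with h | ⟨h1, h2, h3, h4⟩
  · rw [h]
    exact h'
  · rcases h' with h' | ⟨k1, k2, k3, k4⟩
    · rw [← h']
      exact Or.inr ⟨h1, h2, h3, h4⟩
    · exact Or.inr ⟨h1, k2, KK_base k2.inv.i0 k2.inv.i2 k3 (KK.anti k4 h3),
        fun q hq => h4 q (k4 q hq)⟩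

theorem StLe_sle {a b : Stc M W × Tt M W} (h : StLe c K r a b) (hb : State c K r b) :
    SLe b.1 a.1 := by
  rcases h with h | ⟨_, _, h3, _⟩
  · rw [h]
    exact SLe.refl hb.inv.base
  · exact h3.le

end Pool.Agent.H.MP_20495c_lc
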