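import Pool.Agent.H.MP_a163f2_lc.R.D3b
import Pool.Agent.H.MP_a163f2_lc.R.Nuc
import Pool.Agent.H.MP_a163f2_lc.R.Perm2
import Pool.Agent.H.MP_a163f2_lc.R.CodN
import Pool.Agent.H.MP_a163f2_lc.R.Un

/-!
# MP_20495c_lc, part B (uniformization from an exact coding): definitions

Text: `/team-store/h54_20495c_B.md`.
-/

set_option autoImplicit false
set_option linter.unusedSectionVars false

namespace Pool.Agent.H.MP_20495c_lc

open Pool.Agent.H.MP_07d118_lc Pool.Agent.H.MP_a163f2_lc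

universe u v w x

section

variable (M : Type u) [SetStr M] [ZF M] [Std M] (W : Type v) [LinearOrder W] [Cd M W]

/-- Structures: a plan, a ranked family of closed subplans, and for every subplan of the family a
labelling of the names. -/
abbrev Stc : Type v := Pl M W × ISet M (W × Pl M W) × ISet M (Pl M W × Nm M W × Nm M W)

/-- Quadruples: structure, condition, two names. -/
abbrev Qd : Type v := Stc M W × Cond W × Nm M W × Nm M W

/-- Internal sets of quadruples (protections). -/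
abbrev Tt : Type v := ISet M (Qd M W)

end

section

variable {M : Type u} [SetStr M] [ZF M] [Std M] {W : Type v} [LinearOrder W] [Cd M W] [Om1 M W]
variable (c : W × Hc → ℕ → ℕ)

/-- `D` is a member of the family of `S`. -/
def Mem (S : Stc M W) (D : Pl M W) : Prop := ∃ α, (α, D) ∈ S.2.1

/-- intersection of plans (as sets of triples) -/
noncomputable def plI (D D' : Pl M W) : Pl M W :=
  ISet.mk (P := fun x : W × Cond W × Fs => x ∈ D ∧ x ∈ D') (D.in_mem.and D'.in_mem)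

/-- Headless structures (the reals of the subplan `D`, evaluated with a generic filter `G` of a
bigger plan, are `RR c D G`, since `RR c D G = RR c D (G ∩ PP c D)`): all properties of structures except that the plan itself is a member. -/
structure HS (S : Stc M W) : Prop where
  val : Valid c S.1
  sub : ∀ D, Mem S D → Valid c D ∧ Sb D S.1
  fn : ∀ α α' D, (α, D) ∈ S.2.1 → (α', D) ∈ S.2.1 → α = α'
  rk : ∀ α α' D D', (α, D) ∈ S.2.1 → (α', D') ∈ S.2.1 → Sb D D' → D ≠ D' → α < α'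
  rbd : ∃ β, ∀ α D, (α, D) ∈ S.2.1 → α < β
  cap : ∀ D D', Mem S D → Mem S D' → Mem S (plI D D')
  sup : ∀ ν ∈ S.1.dom, ∃ D, Mem S D ∧ ν ∉ D.dom ∧ IsNm c D (S.1.nm ν)
  lab : ∀ D, Mem S D → ∀ n, IsNm c D n → ∃ m, (D, n, m) ∈ S.2.2
  lab1 : ∀ D n m m', (D, n, m) ∈ S.2.2 → (D, n, m') ∈ S.2.2 → m = m'
  labi : ∀ D n n' m, (D, n, m) ∈ S.2.2 → (D, n', m) ∈ S.2.2 → n = n'
  labs : ∀ D n m, (D, n, m) ∈ S.2.2 → Mem S D ∧ IsNm c D n

/-- Structures. -/
structure SV (S : Stc M W) : Prop extends HS c S where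
  top : Mem S S.1

/-- restriction of the structure `S` to the subplan `D` -/
noncomputable def res (S : Stc M W) (D : Pl M W) : Stc M W :=
  (D, ISet.mk (P := fun y : W × Pl M W => y ∈ S.2.1 ∧ Sb y.2 D)
      (S.2.1.in_mem.and (In.sb IF.snd (IF.const D))),
    ISet.mk (P := fun y : Pl M W × Nm M W × Nm M W => y ∈ S.2.2 ∧ Sb y.1 D)
      (S.2.2.in_mem.and (In.sb IF.fst (IF.const D))))

/-- `S` is a substructure of `S'`. -/
def SLe (S S' : Stc M W) : Prop := Mem S' S.1 ∧ res S' S.1 = S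

/-- all members of `S` are comparable with the base `F` -/
def Cmp (F S : Stc M W) : Prop := ∀ D, Mem S D → Sb D F.1 ∨ Sb F.1 D

/-- some node of the plan `g` codes the pair `(x, z)` -/
def Elc (g : Pl M W) (G : Set (Cond W)) (x z : ℕ → ℕ) : Prop := ∃ ν ∈ g.dom, ev (g.nm ν) G = T3 x z 0

/-- the pair `(x, z)` is protected in `S` by the protections `T` -/
def PT (T : Tt M W) (S : Stc M W) (G : Set (Cond W)) (x z : ℕ → ℕ) : Prop :=
  ∃ D, Mem S D ∧ ∃ p ∈ G, ∃ a b : Nm M W, (res S D, p, a, b) ∈ T ∧ ev a G = x ∧ ev b G = z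

/-- The class of structures over the base `F` which respect the protections `T`. -/
structure KK (F : Stc M W) (T : Tt M W) (S : Stc M W) : Prop where
  sv : SV c S
  le : SLe F S
  cmp : Cmp F S
  ok : ∀ ν ∈ S.1.dom, ν ∉ F.1.dom → Fo c S.1 (∅, ∅) (fun G => ∀ x z,
    ev (S.1.nm ν) G = T3 x z 0 → ¬ PT T S G x z)

variable (K : Set (ℕ → ℕ) → (ℕ → ℕ) → (ℕ → ℕ) → Prop)

/-- kickable: some structure of the class above `S` forces `K` -/
def Kb (F : Stc M W) (T : Tt M W) (S : Stc M W) (G : Set (Cond W)) (x z : ℕ → ℕ) : Prop :=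
  ∃ S', KK c F T S' ∧ SLe S S' ∧ ∃ p ∈ PP c S'.1, crs S.1.dom p ∈ G ∧
    ∃ a b : Nm M W, IsNm c S.1 a ∧ IsNm c S.1 b ∧ ev a G = x ∧ ev b G = z ∧
      Fo c S'.1 p (fun G' => K (RR c S'.1 G') (ev a G') (ev b G'))

/-- the name `n` is a candidate for the real `x` -/
def Cand (F : Stc M W) (T : Tt M W) (S : Stc M W) (G : Set (Cond W)) (x : ℕ → ℕ) (n : Nm M W) :
    Prop :=
  IsNm c S.1 n ∧ ¬ Elc S.1 G x (ev n G) ∧ ¬ Kb c K F T S G x (ev n G)

/-- the real `x` is new in `S`, relative to the base `F` -/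
def New (F S : Stc M W) (G : Set (Cond W)) (x : ℕ → ℕ) : Prop :=
  ∀ D, Mem S D → D ≠ S.1 → Sb F.1 D → x ∉ RR c D G

variable (r : Nm M W → Nm M W → Prop)

/-- the label of `n'` is below the label of `n` (at the top of `S`) -/
def Lower (S : Stc M W) (n' n : Nm M W) : Prop :=
  ∃ m' m, (S.1, n', m') ∈ S.2.2 ∧ (S.1, n, m) ∈ S.2.2 ∧ r m' m

/-- The value of `b` is the first candidate for the value of `a`, which is new and has no
protected partner. -/
structure Th (F : Stc M W) (T : Tt M W) (S : Stc M W) (G : Set (Cond W)) (a b : Nm M W) : Prop where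
  new : New c F S G (ev a G)
  np : ∀ z, ¬ PT T S G (ev a G) z
  cand : ∃ n, Cand c K F T S G (ev a G) n ∧ ev n G = ev b G ∧
    ∀ n', Cand c K F T S G (ev a G) n' → ¬ Lower r S n' n

/-- The new protections. -/
structure GamP (F : Stc M W) (T : Tt M W) (y : Qd M W) : Prop where
  kk : KK c F T y.1
  cond : y.2.1 ∈ PP c y.1.1
  nma : IsNm c y.1.1 y.2.2.1
  nmb : IsNm c y.1.1 y.2.2.2
  fo : Fo c y.1.1 y.2.1 (fun G => Th c K r F T y.1 G y.2.2.1 y.2.2.2)

/-- the entries of `T` have the right form -/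
def I0 (T : Tt M W) : Prop := ∀ y : Qd M W, y ∈ T → SV c y.1 ∧ y.2.1 ∈ PP c y.1.1 ∧
  IsNm c y.1.1 y.2.2.1 ∧ IsNm c y.1.1 y.2.2.2

/-- a protected real lies in no small member above the base -/
def I2 (F : Stc M W) (T : Tt M W) : Prop :=
  ∀ S, SV c S → SLe F S → Cmp F S → ∀ D, Mem S D → ∀ p a b, (res S D, p, a, b) ∈ T →
    ∀ D', Mem S D' → Sb F.1 D' → ∀ G, Gen c S.1 G → p ∈ G → ev a G ∈ RR c D' G → Sb D D'

/-- protections are functional -/
def I3 (F : Stc M W) (T : Tt M W) : Prop :=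
  ∀ S, KK c F T S → ∀ G, Gen c S.1 G → ∀ x z z', PT T S G x z → PT T S G x z' → z = z'

/-- protected pairs are not kickable -/
def I4 (F : Stc M W) (T : Tt M W) : Prop :=
  ∀ S, KK c F T S → ∀ G, Gen c S.1 G → ∀ x z, PT T S G x z → ¬ Kb c K F T S G x z

/-- protected pairs are not coded -/
def I5 (F : Stc M W) (T : Tt M W) : Prop :=
  ∀ S, KK c F T S → ∀ G, Gen c S.1 G → ∀ x z, PT T S G x z → ¬ Elc S.1 G x z

/-- every coded real is protected or dead -/
def Clean (F : Stc M W) (T : Tt M W) : Prop :=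
  ∀ ν ∈ F.1.dom, Fo c F.1 (∅, ∅) (fun G => ∀ x z, ev (F.1.nm ν) G = T3 x z 0 →
    (∃ z', PT T F G x z') ∨ K (RR c F.1 G) x z)

/-- The name of the constant real `1`, over every plan. -/
noncomputable def dfn : Nm M W :=
  ISet.mk (P := fun y : Cond W × Fs => y.1 = (∅, ∅) ∧ ∀ i : ℕ, i < y.2.length → y.2.getD i 0 = 1)
    ((In.eq IF.fst (IF.const _)).and (In.all (P := fun (y : Cond W × Fs) (i : ℕ) =>
      i < y.2.length → y.2.getD i 0 = 1) (In.imp (In.lt IF.snd (IF.length (IF.comp IF.snd IF.fst)))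
        (In.nat_eq (IF.getD (IF.comp IF.snd IF.fst) IF.snd) 1))))

end

section

variable (M : Type u) [SetStr M] [ZF M] [Std M] (W : Type v) [LinearOrder W] [Cd M W] [Om1 M W]
variable (c : W × Hc → ℕ → ℕ)

/-- The properties of the predicate `K` that are used. -/
structure KOK (K : Set (ℕ → ℕ) → (ℕ → ℕ) → (ℕ → ℕ) → Prop) : Prop where
  good : ∀ (T : Type v) [Cd M T] (f : T → Pl M W), IF M f → ∀ X Z : T → Set (Cond W) → ℕ → ℕ,
    GoodR c f X → GoodR c f Z → Good c f (fun t G => K (RR c (f t) G) (X t G) (Z t G))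
  up : ∀ f g : Pl M W, Valid c f → Valid c g → Sb f g → ∀ G, Gen c g G →
    ∀ x ∈ RR c f G, ∀ z ∈ RR c f G, K (RR c f G) x z → K (RR c g G) x z

/-- an internal well order of the type `X`, well founded in the metatheory -/
structure WOr {X : Type v} [Cd M X] (r : X → X → Prop) : Prop where
  int : In M (fun y : X × X => r y.1 y.2)
  wf : WellFounded r
  tri : ∀ a b, r a b ∨ a = b ∨ r b a
  tr : ∀ a b d, r a b → r b d → r a d

end

section perm

variable {M : Type u} [SetStr M] [ZFC M] [Std M] {W : Type v} [LinearOrder W] [Cd M W] [Om1 M W]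

theorem IF_pmP (π : Equiv.Perm W) (hπ : IF M π) :
    IF M (fun f : Pl M W => pmP π hπ f) := by
  refine IF.of_mem (A := fun f : Pl M W => pmP π hπ f) (In.congr (P := fun y : Pl M W ×
    (W × Cond W × Fs) => (π.symm y.2.1, pmC π.symm y.2.2.1, y.2.2.2) ∈ y.1) ?_ fun y => Iff.rfl)
  exact In.mem ((IF.comp (IF.symm hπ) (IF.comp IF.fst IF.snd)).pair ((IF.pmC (IF.symm hπ)
    (IF.comp IF.fst (IF.comp IF.snd IF.snd))).pair (IF.comp IF.snd (IF.comp IF.snd IF.snd))))
    IF.fst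

theorem IF_pmN (π : Equiv.Perm W) (hπ : IF M π) :
    IF M (fun x : Nm M W => pmN π hπ x) := by
  refine IF.of_mem (A := fun x : Nm M W => pmN π hπ x) (In.congr (P := fun y : Nm M W ×
    (Cond W × Fs) => (pmC π.symm y.2.1, y.2.2) ∈ y.1) ?_ fun y => Iff.rfl)
  exact In.mem ((IF.pmC (IF.symm hπ) (IF.comp IF.fst IF.snd)).pair (IF.comp IF.snd IF.snd))
    IF.fst

/-- the structure moved by the permutation `π` of the nodes (labels are not moved) -/
noncomputable def pmS (π : Equiv.Perm W) (hπ : IF M π) (S : Stc M W) : Stc M W :=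
  (pmP π hπ S.1,
    ISet.mk (P := fun y : W × Pl M W => (y.1, pmP π.symm (IF.symm hπ) y.2) ∈ S.2.1)
      (In.mem (IF.fst.pair (IF.comp (IF_pmP π.symm (IF.symm hπ)) IF.snd)) (IF.const S.2.1)),
    ISet.mk (P := fun y : Pl M W × Nm M W × Nm M W =>
        (pmP π.symm (IF.symm hπ) y.1, pmN π.symm (IF.symm hπ) y.2.1, y.2.2) ∈ S.2.2)
      (In.mem ((IF.comp (IF_pmP π.symm (IF.symm hπ)) IF.fst).pair
        ((IF.comp (IF_pmN π.symm (IF.symm hπ)) (IF.comp IF.fst IF.snd)).pair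
          (IF.comp IF.snd IF.snd))) (IF.const S.2.2)))

variable (c : W × Hc → ℕ → ℕ)

/-- the protections are invariant under the permutations which fix the base -/
def I1 (F : Stc M W) (T : Tt M W) : Prop :=
  ∀ (π : Equiv.Perm W) (hπ : IF M π), (∀ ν ∈ F.1.dom, π ν = ν) → ∀ S p a b, (S, p, a, b) ∈ T →
    (pmS π hπ S, pmC π p, pmN π hπ a, pmN π hπ b) ∈ T

/-- The invariant of the pairs (base, protections). -/
structure INV (K : Set (ℕ → ℕ) → (ℕ → ℕ) → (ℕ → ℕ) → Prop) (F : Stc M W) (T : Tt M W) : Prop where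
  base : SV c F
  i0 : I0 c T
  i1 : I1 F T
  i2 : I2 c F T
  i3 : I3 c F T
  i4 : I4 c K F T
  i5 : I5 c F T

/-- States. -/
structure State (K : Set (ℕ → ℕ) → (ℕ → ℕ) → (ℕ → ℕ) → Prop) (r : Nm M W → Nm M W → Prop)
    (x : Stc M W × Tt M W) : Prop where
  inv : INV c K x.1 x.2
  fix : ∀ y, GamP c K r x.1 x.2 y → y ∈ x.2
  clean : Clean c K x.1 x.2

/-- The order of the states. -/
def StLe (K : Set (ℕ → ℕ) → (ℕ → ℕ) → (ℕ → ℕ) → Prop) (r : Nm M W → Nm M W → Prop)
    (y x : Stc M W × Tt M W) : Prop :=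
  y = x ∨ (State c K r y ∧ State c K r x ∧ KK c x.1 x.2 y.1 ∧ ∀ q, q ∈ x.2 → q ∈ y.2)

end perm

end Pool.Agent.H.MP_20495c_lc
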