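import Pool.Agent.H.MP_a163f2_lc.Z.Wo
import Pool.Agent.H.MP_20495c_lc.B.Defs

/-!
# Part B, module Bw: internal well orders and the internal Bourbaki-Witt theorem
-/

set_option autoImplicit false
set_option linter.unusedSectionVars false

namespace Pool.Agent.H.MP_20495c_lc

open Pool.Agent.H.MP_07d118_lc Pool.Agent.H.MP_a163f2_lc

universe u v w x

variable {M : Type u} [SetStr M] [ZFC M] [Std M]

/-- Every coded type has an internal well order: `exists_inj_od (Cd.car X)` (Z/Wo) gives `f : M` injecting the codes into the ordinals; `r a b := ap f (code a) ∈ ap f (code b)`; it is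
definable from codes (`In.of_df` on pairs), well founded by `Std.wf`, total by `od_trich`, transitive by the transitivity of ordinals. -/
theorem exists_wo (X : Type v) [Cd M X] : ∃ r : X → X → Prop, WOr M r := by
  obtain ⟨f, -, hod, hinj⟩ := exists_inj_od (Cd.car X : M)
  have hcar : ∀ a : X, (Cd.code a : M) ∈ (Cd.car X : M) := fun a => code_mem_car a
  refine ⟨fun a b => ap f (Cd.code a) ∈ ap f (Cd.code b), ?_, ?_, ?_, ?_⟩
  · refine In.of_df (R := fun x => ∃ a, ∃ b, x = opair a b ∧ ap f a ∈ ap f b) ?_ fun y => ?_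
    · refine Df.ex (P := fun a (w : Fin 1 → M) => ∃ b, w 0 = opair a b ∧ ap f a ∈ ap f b) ?_
      refine Df.ex (P := fun b (w : Fin 2 → M) => w 1 = opair (w 0) b ∧ ap f (w 0) ∈ ap f b) ?_
      exact (Df.eq (DfF.var 2) (DfF.Opair (DfF.var 1) (DfF.var 0))).and
        (Df.mem (DfF.Ap (DfF.const _) (DfF.var 1)) (DfF.Ap (DfF.const _) (DfF.var 0)))
    · obtain ⟨t, s⟩ := y
      constructor
      · intro h
        exact ⟨_, _, rfl, h⟩
      · rintro ⟨a, b, h1, h2⟩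
        obtain ⟨rfl, rfl⟩ := opair_inj.1 h1
        exact h2
  · exact InvImage.wf (fun a : X => ap f (Cd.code a)) (Std.wf (M := M))
  · intro a b
    rcases od_trich (hod _ (hcar a)) (hod _ (hcar b)) with h | h | h
    · exact Or.inl h
    · exact Or.inr (Or.inl (Cd.inj (hinj _ _ (hcar a) (hcar b) h)))
    · exact Or.inr (Or.inr h)
  · intro a b d hab hbd
    exact (hod _ (hcar d)).1 _ hbd _ hab

section bw

variable {X : Type v} [Cd M X]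

/-- inclusion of internal sets -/
def Bw_sb (M : Type u) [SetStr M] {X : Type v} [Cd M X] (A B : ISet M X) : Prop :=
  ∀ x, x ∈ A → x ∈ B

theorem Bw_in_sb {S : Type w} [Cd M S] {f g : S → ISet M X} (hf : IF M f) (hg : IF M g) :
    In M (fun s => Bw_sb M (f s) (g s)) :=
  In.all (P := fun s x => x ∈ f s → x ∈ g s)
    (In.imp (In.mem IF.snd (IF.comp hf IF.fst)) (In.mem IF.snd (IF.comp hg IF.fst)))

theorem Bw_sb_antisymm {A B : ISet M X} (h : Bw_sb M A B) (h' : Bw_sb M B A) : A = B :=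
  ISet.ext fun x => ⟨h x, h' x⟩

theorem Bw_sb_trans {A B C : ISet M X} (h : Bw_sb M A B) (h' : Bw_sb M B C) : Bw_sb M A C :=
  fun x hx => h' x (h x hx)

theorem Bw_uni_in : In M (fun y : ISet M (ISet M X) × X => ∃ T : ISet M X, T ∈ y.1 ∧ y.2 ∈ T) :=
  In.ex (P := fun (y : ISet M (ISet M X) × X) (T : ISet M X) => T ∈ y.1 ∧ y.2 ∈ T)
    (In.and (In.mem IF.snd (IF.comp IF.fst IF.fst)) (In.mem (IF.comp IF.snd IF.fst) IF.snd))

/-- the union of an internal family -/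
noncomputable def Bw_uni (C : ISet M (ISet M X)) : ISet M X :=
  ISet.sec (P := fun (C : ISet M (ISet M X)) (x : X) => ∃ T : ISet M X, T ∈ C ∧ x ∈ T) Bw_uni_in C

theorem Bw_mem_uni {C : ISet M (ISet M X)} {x : X} : x ∈ Bw_uni C ↔ ∃ T, T ∈ C ∧ x ∈ T := Iff.rfl

theorem Bw_if_uni : IF M (Bw_uni : ISet M (ISet M X) → ISet M X) :=
  IF.sec (P := fun (C : ISet M (ISet M X)) (x : X) => ∃ T : ISet M X, T ∈ C ∧ x ∈ T) Bw_uni_in

theorem Bw_step_in {Φ : ISet M X → ISet M X} (hΦ : IF M Φ) :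
    In M (fun y : ISet M X × X => y.2 ∈ y.1 ∨ y.2 ∈ Φ y.1) :=
  In.or (In.mem IF.snd IF.fst) (In.mem IF.snd (IF.comp hΦ IF.fst))

/-- `T ∪ Φ T` -/
noncomputable def Bw_step {Φ : ISet M X → ISet M X} (hΦ : IF M Φ) (T : ISet M X) : ISet M X :=
  ISet.sec (P := fun (T : ISet M X) (x : X) => x ∈ T ∨ x ∈ Φ T) (Bw_step_in hΦ) T

theorem Bw_mem_step {Φ : ISet M X → ISet M X} (hΦ : IF M Φ) {T : ISet M X} {x : X} :
    x ∈ Bw_step hΦ T ↔ x ∈ T ∨ x ∈ Φ T := Iff.rfl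

theorem Bw_if_step {Φ : ISet M X → ISet M X} (hΦ : IF M Φ) : IF M (Bw_step hΦ) :=
  IF.sec (P := fun (T : ISet M X) (x : X) => x ∈ T ∨ x ∈ Φ T) (Bw_step_in hΦ)

/-- internal chains -/
def Bw_ch (C : ISet M (ISet M X)) : Prop :=
  ∀ T : ISet M X, ∀ T' : ISet M X, T ∈ C → T' ∈ C → Bw_sb M T T' ∨ Bw_sb M T' T

theorem Bw_in_ch : In M (Bw_ch : ISet M (ISet M X) → Prop) := by
  refine In.all (P := fun (C : ISet M (ISet M X)) (T : ISet M X) => ∀ T' : ISet M X,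
    T ∈ C → T' ∈ C → Bw_sb M T T' ∨ Bw_sb M T' T) ?_
  refine In.all (P := fun (y : ISet M (ISet M X) × ISet M X) (T' : ISet M X) =>
    y.2 ∈ y.1 → T' ∈ y.1 → Bw_sb M y.2 T' ∨ Bw_sb M T' y.2) ?_
  refine In.imp (In.mem (IF.comp IF.snd IF.fst) (IF.comp IF.fst IF.fst))
    (In.imp (In.mem IF.snd (IF.comp IF.fst IF.fst)) (In.or ?_ ?_))
  · exact Bw_in_sb (IF.comp IF.snd IF.fst) IF.snd
  · exact Bw_in_sb IF.snd (IF.comp IF.snd IF.fst)

/-- closed families -/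
def Bw_cl {Φ : ISet M X → ISet M X} (hΦ : IF M Φ) (T₀ : ISet M X) (Q : ISet M X → Prop) : Prop :=
  Q T₀ ∧ (∀ T, Q T → Q (Bw_step hΦ T)) ∧
    ∀ C : ISet M (ISet M X), ((∃ T, T ∈ C) ∧ Bw_ch C ∧ ∀ T, T ∈ C → Q T) → Q (Bw_uni C)

theorem Bw_in_cl {Φ : ISet M X → ISet M X} (hΦ : IF M Φ) (T₀ : ISet M X) :
    In M (fun A : ISet M (ISet M X) => Bw_cl hΦ T₀ (fun T => T ∈ A)) := by
  refine In.and (In.mem (IF.const T₀) IF.id) (In.and ?_ ?_)
  · refine In.all (P := fun (A : ISet M (ISet M X)) (T : ISet M X) =>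
      T ∈ A → Bw_step hΦ T ∈ A) ?_
    exact In.imp (In.mem IF.snd IF.fst) (In.mem (IF.comp (Bw_if_step hΦ) IF.snd) IF.fst)
  · refine In.all (P := fun (A C : ISet M (ISet M X)) =>
      ((∃ T, T ∈ C) ∧ Bw_ch C ∧ ∀ T, T ∈ C → T ∈ A) → Bw_uni C ∈ A) ?_
    refine In.imp (In.and ?_ (In.and ?_ ?_)) (In.mem (IF.comp Bw_if_uni IF.snd) IF.fst)
    · exact In.ex (P := fun (y : ISet M (ISet M X) × ISet M (ISet M X)) (T : ISet M X) => T ∈ y.2)
        (In.mem IF.snd (IF.comp IF.snd IF.fst))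
    · exact In.comp Bw_in_ch IF.snd
    · exact In.all (P := fun (y : ISet M (ISet M X) × ISet M (ISet M X)) (T : ISet M X) =>
        T ∈ y.2 → T ∈ y.1) (In.imp (In.mem IF.snd (IF.comp IF.snd IF.fst))
          (In.mem IF.snd (IF.comp IF.fst IF.fst)))

/-- the tower -/
def Bw_tau {Φ : ISet M X → ISet M X} (hΦ : IF M Φ) (T₀ T : ISet M X) : Prop :=
  ∀ A : ISet M (ISet M X), Bw_cl hΦ T₀ (fun T => T ∈ A) → T ∈ A

theorem Bw_in_tau {Φ : ISet M X → ISet M X} (hΦ : IF M Φ) (T₀ : ISet M X) :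
    In M (Bw_tau hΦ T₀) := by
  refine In.all (P := fun (T : ISet M X) (A : ISet M (ISet M X)) =>
    Bw_cl hΦ T₀ (fun T => T ∈ A) → T ∈ A) ?_
  exact In.imp (In.comp (Bw_in_cl hΦ T₀) IF.snd) (In.mem IF.fst IF.snd)

theorem Bw_tau_cl {Φ : ISet M X → ISet M X} (hΦ : IF M Φ) (T₀ : ISet M X) :
    Bw_cl hΦ T₀ (Bw_tau hΦ T₀) := by
  refine ⟨fun A hA => hA.1, fun T hT A hA => hA.2.1 T (hT A hA), fun C hC A hA => ?_⟩
  exact hA.2.2 C ⟨hC.1, hC.2.1, fun T hT => hC.2.2 T hT A hA⟩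

/-- induction over the tower -/
theorem Bw_tau_ind {Φ : ISet M X → ISet M X} {hΦ : IF M Φ} {T₀ : ISet M X}
    {Q : ISet M X → Prop} (hQ : In M Q) (h0 : Q T₀)
    (hs : ∀ T, Bw_tau hΦ T₀ T → Q T → Q (Bw_step hΦ T))
    (hu : ∀ C : ISet M (ISet M X), (∃ T, T ∈ C) → Bw_ch C →
      (∀ T, T ∈ C → Bw_tau hΦ T₀ T ∧ Q T) → Q (Bw_uni C)) {T : ISet M X}
    (hT : Bw_tau hΦ T₀ T) : Q T := by
  have hc := Bw_tau_cl hΦ T₀
  have h1 : Bw_cl hΦ T₀ (fun T => Bw_tau hΦ T₀ T ∧ Q T) := by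
    refine ⟨⟨hc.1, h0⟩, fun T hT => ⟨hc.2.1 T hT.1, hs T hT.1 hT.2⟩, fun C hC => ⟨?_, ?_⟩⟩
    · exact hc.2.2 C ⟨hC.1, hC.2.1, fun T hT => (hC.2.2 T hT).1⟩
    · exact hu C hC.1 hC.2.1 hC.2.2
  exact (hT (ISet.mk (P := fun T => Bw_tau hΦ T₀ T ∧ Q T) ((Bw_in_tau hΦ T₀).and hQ)) h1).2

theorem Bw_sb_step {Φ : ISet M X → ISet M X} (hΦ : IF M Φ) (T : ISet M X) :
    Bw_sb M T (Bw_step hΦ T) := fun _ hx => Or.inl hx

theorem Bw_sb_uni {C : ISet M (ISet M X)} {T : ISet M X} (hT : T ∈ C) : Bw_sb M T (Bw_uni C) :=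
  fun _ hx => ⟨T, hT, hx⟩

theorem Bw_uni_sb {C : ISet M (ISet M X)} {B : ISet M X} (h : ∀ T, T ∈ C → Bw_sb M T B) :
    Bw_sb M (Bw_uni C) B := by
  rintro x ⟨T, hT, hx⟩
  exact h T hT x hx

theorem Bw_tau_base {Φ : ISet M X → ISet M X} {hΦ : IF M Φ} {T₀ T : ISet M X}
    (hT : Bw_tau hΦ T₀ T) : Bw_sb M T₀ T := by
  refine Bw_tau_ind (Q := fun T => Bw_sb M T₀ T) (Bw_in_sb (IF.const T₀) IF.id)
    (fun x hx => hx) (fun T _ h => Bw_sb_trans h (Bw_sb_step hΦ T)) ?_ hT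
  rintro C ⟨T, hT⟩ - h
  exact Bw_sb_trans (h T hT).2 (Bw_sb_uni hT)

/-- nodes of the tower -/
def Bw_node {Φ : ISet M X → ISet M X} (hΦ : IF M Φ) (T₀ C : ISet M X) : Prop :=
  ∀ T, Bw_tau hΦ T₀ T → Bw_sb M T C → ¬ Bw_sb M C T → Bw_sb M (Bw_step hΦ T) C

theorem Bw_in_node {Φ : ISet M X → ISet M X} (hΦ : IF M Φ) (T₀ : ISet M X) :
    In M (Bw_node hΦ T₀) := by
  refine In.all (P := fun (C T : ISet M X) => Bw_tau hΦ T₀ T → Bw_sb M T C →
    ¬ Bw_sb M C T → Bw_sb M (Bw_step hΦ T) C) ?_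
  refine In.imp (In.comp (Bw_in_tau hΦ T₀) IF.snd) (In.imp (Bw_in_sb IF.snd IF.fst)
    (In.imp (In.not (Bw_in_sb IF.fst IF.snd)) ?_))
  exact Bw_in_sb (IF.comp (Bw_if_step hΦ) IF.snd) IF.fst

theorem Bw_node_cmp {Φ : ISet M X → ISet M X} {hΦ : IF M Φ} {T₀ C : ISet M X}
    (hC : Bw_tau hΦ T₀ C) (hn : Bw_node hΦ T₀ C) {T : ISet M X} (hT : Bw_tau hΦ T₀ T) :
    Bw_sb M T C ∨ Bw_sb M (Bw_step hΦ C) T := by
  refine Bw_tau_ind (Q := fun T => Bw_sb M T C ∨ Bw_sb M (Bw_step hΦ C) T)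
    (In.or (Bw_in_sb IF.id (IF.const C)) (Bw_in_sb (IF.const _) IF.id))
    (Or.inl (Bw_tau_base hC)) ?_ ?_ hT
  · intro T hT h
    rcases h with h | h
    · by_cases h' : Bw_sb M C T
      · obtain rfl := Bw_sb_antisymm h h'
        exact Or.inr fun x hx => hx
      · exact Or.inl (hn T hT h h')
    · exact Or.inr (Bw_sb_trans h (Bw_sb_step hΦ T))
  · intro D _ _ hD
    by_cases h : ∀ T, T ∈ D → Bw_sb M T C
    · exact Or.inl (Bw_uni_sb h)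
    · push Not at h
      obtain ⟨T, hT, h1⟩ := h
      rcases (hD T hT).2 with h2 | h2
      · exact absurd h2 h1
      · exact Or.inr (Bw_sb_trans h2 (Bw_sb_uni hT))

theorem Bw_all_node {Φ : ISet M X → ISet M X} {hΦ : IF M Φ} {T₀ C : ISet M X}
    (hC : Bw_tau hΦ T₀ C) : Bw_node hΦ T₀ C := by
  refine Bw_tau_ind (Q := Bw_node hΦ T₀) (Bw_in_node hΦ T₀) ?_ ?_ ?_ hC
  · intro T hT _ h
    exact absurd (Bw_tau_base hT) h
  · intro C hC hn T hT h1 h2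
    rcases Bw_node_cmp hC hn hT with h3 | h3
    · by_cases h4 : Bw_sb M C T
      · obtain rfl := Bw_sb_antisymm h3 h4
        exact fun x hx => hx
      · exact Bw_sb_trans (hn T hT h3 h4) (Bw_sb_step hΦ C)
    · exact absurd h3 h2
  · intro D _ _ hD T hT _ h2
    have h3 : ∃ C, C ∈ D ∧ ¬ Bw_sb M C T := by
      by_contra h
      push Not at h
      exact h2 (Bw_uni_sb h)
    obtain ⟨C, hCD, h4⟩ := h3
    obtain ⟨hCt, hn⟩ := hD C hCD
    rcases Bw_node_cmp hCt hn hT with h5 | h5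
    · exact Bw_sb_trans (hn T hT h5 h4) (Bw_sb_uni hCD)
    · exact absurd (Bw_sb_trans (Bw_sb_step hΦ C) h5) h4

end bw

/-- **Internal Bourbaki-Witt theorem.** `step T = T ∪ Φ T` (as an internal set). Call a family `A : ISet M (ISet M X)` closed if `T₀ ∈ A`, `T ∈ A → step T ∈ A`, and the union of every nonempty
internal chain `C ⊆ A` is in `A` (every internal chain has a union in `ISet M X`). The tower `τ = {T | T ∈ A for all closed A}` is internal (`In.all` over `ISet M (ISet M X)`) and closed. Elements of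
the tower contain `T₀` (the family `{T | T₀ ⊆ T}` is closed).  Call `C ∈ τ` a node if for all `T ∈ τ`: `T ⊊ C → step T ⊆ C`. (1) If `C` is a node then for all `T ∈ τ`: `T ⊆ C` or `step C ⊆ T` (the
family of these `T` is closed). (2) All `C ∈ τ` are nodes (the family of the nodes is closed, by (1)). So `τ` is a chain; its union `U` is in `τ`, `step U ∈ τ`, so `step U ⊆ U`.  `{T | P T}` is
closed, so `P U`. -/
theorem bourbaki_witt {X : Type v} [Cd M X] {Φ : ISet M X → ISet M X} (hΦ : IF M Φ)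
    {P : ISet M X → Prop} (hP : In M P) {T₀ : ISet M X} (h0 : P T₀)
    (hs : ∀ T, P T → ∀ T', (∀ x, x ∈ T' ↔ x ∈ T ∨ x ∈ Φ T) → P T')
    (hu : ∀ C : ISet M (ISet M X), (∃ T, T ∈ C) →
      (∀ T ∈ C, ∀ T' ∈ C, (∀ x, x ∈ T → x ∈ T') ∨ ∀ x, x ∈ T' → x ∈ T) → (∀ T ∈ C, P T) →
      ∀ U : ISet M X, (∀ x, x ∈ U ↔ ∃ T, T ∈ C ∧ x ∈ T) → P U) :
    ∃ T, (∀ x, x ∈ T₀ → x ∈ T) ∧ P T ∧ ∀ x, x ∈ Φ T → x ∈ T := by
  have hc := Bw_tau_cl hΦ T₀
  obtain ⟨D, hDe⟩ : ∃ D : ISet M (ISet M X), ∀ T, T ∈ D ↔ Bw_tau hΦ T₀ T :=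
    ⟨ISet.mk (Bw_in_tau hΦ T₀), fun T => Iff.rfl⟩
  have hch : Bw_ch D := by
    intro T T' hT hT'
    rw [hDe] at hT hT'
    rcases Bw_node_cmp hT' (Bw_all_node hT') hT with h | h
    · exact Or.inl h
    · exact Or.inr (Bw_sb_trans (Bw_sb_step hΦ T') h)
  have hU : Bw_tau hΦ T₀ (Bw_uni D) :=
    hc.2.2 D ⟨⟨T₀, (hDe T₀).2 hc.1⟩, hch, fun T hT => (hDe T).1 hT⟩
  refine ⟨Bw_uni D, Bw_tau_base hU, ?_, ?_⟩
  · refine Bw_tau_ind (Q := P) hP h0 (fun T _ hT => hs T hT _ fun x => Iff.rfl) ?_ hU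
    intro C hne hC h
    exact hu C hne (fun T hT T' hT' => hC T T' hT hT') (fun T hT => (h T hT).2) _ fun x => Iff.rfl
  · intro x hx
    have h1 := hc.2.1 _ hU
    have h2 := Bw_sb_uni (C := D) ((hDe _).2 h1)
    exact h2 x (Or.inr hx)

end Pool.Agent.H.MP_20495c_lc
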