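import Pool.Agent.H.MP_20495c_lc.B.Defs

/-!
# Part B, module Cap: intersections of closed subplans; the reals over an intersection

`D`, `D'` are closed subplans of a plan `g` (`Sb D g`, `Sb D' g`); `plI D D'` is the intersection of
the two sets of triples, that is, the restriction of `g` to `D.dom ∩ D'.dom`.
-/

set_option autoImplicit false
set_option linter.unusedSectionVars false

namespace Pool.Agent.H.MP_20495c_lc

open Pool.Agent.H.MP_07d118_lc Pool.Agent.H.MP_a163f2_lc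

universe u v w x

variable {M : Type u} [SetStr M] [ZFC M] [Std M] {W : Type v} [LinearOrder W] [Cd M W] [Om1 M W]
variable {c : W × Hc → ℕ → ℕ} [hL : Fact (Luz M W c)]

theorem mem_plI {D D' : Pl M W} {x : W × Cond W × Fs} : x ∈ plI D D' ↔ x ∈ D ∧ x ∈ D' := Iff.rfl

theorem plI_comm (D D' : Pl M W) : plI D D' = plI D' D := by
  refine ISet.ext fun x => ?_
  rw [mem_plI, mem_plI, and_comm]

theorem plI_self (D : Pl M W) : plI D D = D := by
  refine ISet.ext fun x => ?_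
  rw [mem_plI, and_self]

/-- (a): from `h.1`. -/
theorem plI_eq_left {D D' : Pl M W} (h : Sb D D') : plI D D' = D := by
  refine ISet.ext fun x => ?_
  rw [mem_plI]
  exact ⟨fun hx => hx.1, fun hx => ⟨hx, h.1 _ hx⟩⟩

/-- A closed subplan with smaller domain is a subplan: a triple `(ν, q, t)` of `D` is in `g`, `ν` is in
`D'.dom`, so it is in `D'` by `hD'.2`; conversely `hD.2`. -/
theorem sb_of_dom {D D' g : Pl M W} (hD : Sb D g) (hD' : Sb D' g) (h : ∀ ν ∈ D.dom, ν ∈ D'.dom) :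
    Sb D D' := by
  exact ⟨fun x hx => hD'.2 x.1 x.2.1 x.2.2 (h x.1 ⟨x.2.1, x.2.2, hx⟩) (hD.1 x hx),
    fun ν q t hν hx => hD.2 ν q t hν (hD'.1 _ hx)⟩

theorem plI_eq_left_iff {D D' g : Pl M W} (hD : Sb D g) (hD' : Sb D' g) :
    plI D D' = D ↔ Sb D D' := by
  refine ⟨fun h => sb_of_dom hD hD' fun ν hν => ?_, fun h => plI_eq_left h⟩
  obtain ⟨q, t, hx⟩ := hν
  rw [← h] at hx
  exact ⟨q, t, hx.2⟩

/-- `ν ∈ D.dom ∩ D'.dom`: a triple `(ν, q, t)` of `D` is in `g`, hence in `D'`. -/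
theorem plI_dom {D D' g : Pl M W} (hD : Sb D g) (hD' : Sb D' g) {ν : W} :
    ν ∈ (plI D D').dom ↔ ν ∈ D.dom ∧ ν ∈ D'.dom := by
  constructor
  · rintro ⟨q, t, hx⟩
    exact ⟨⟨q, t, hx.1⟩, ⟨q, t, hx.2⟩⟩
  · rintro ⟨⟨q, t, hx⟩, hν⟩
    exact ⟨q, t, hx, hD'.2 ν q t hν (hD.1 _ hx)⟩

theorem plI_sb_left {D D' g : Pl M W} (hD : Sb D g) (hD' : Sb D' g) : Sb (plI D D') D := by
  exact ⟨fun x hx => hx.1, fun ν q t hν hx =>
    ⟨hx, hD'.2 ν q t ((plI_dom hD hD').1 hν).2 (hD.1 _ hx)⟩⟩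

theorem plI_sb_right {D D' g : Pl M W} (hD : Sb D g) (hD' : Sb D' g) : Sb (plI D D') D' := by
  exact ⟨fun x hx => hx.2, fun ν q t hν hx =>
    ⟨hD.2 ν q t ((plI_dom hD hD').1 hν).1 (hD'.1 _ hx), hx⟩⟩

theorem plI_sb {D D' g : Pl M W} (hD : Sb D g) (hD' : Sb D' g) : Sb (plI D D') g := by
  exact (plI_sb_left hD hD').trans hD

/-- The intersection is the largest common subplan. -/
theorem sb_plI {C D D' : Pl M W} (h : Sb C D) (h' : Sb C D') : Sb C (plI D D') := by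
  exact ⟨fun x hx => ⟨h.1 x hx, h'.1 x hx⟩, fun ν q t hν hx => h.2 ν q t hν hx.1⟩

/-- two mutual subplans are equal, `Sb.antisymm`; monotonicity of `Sb` in a common bigger plan:
if `Sb D g`, `Sb E g` and `Sb D D'`, ... (this one: `Sb D g` and `D` contained in `E`). -/
theorem sb_of_sub {D E g : Pl M W} (hD : Sb D g) (hE : Sb E g) (h : ∀ x, x ∈ D → x ∈ E) :
    Sb D E := by
  refine sb_of_dom hD hE fun ν hν => ?_
  obtain ⟨q, t, hx⟩ := hν
  exact ⟨q, t, h _ hx⟩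

/-- Promises `(ν, κ)` of `p` at a node `ν` of both plans: the witness `(ν, q, t)` of `D` lies in `D'`. -/
theorem PP_plI {D D' g : Pl M W} (hD : Sb D g) (hD' : Sb D' g) {p : Cond W} :
    p ∈ PP c (plI D D') ↔ p ∈ PP c D ∧ p ∈ PP c D' := by
  constructor
  · intro hp
    exact ⟨PP_mono (plI_sb_left hD hD') hp, PP_mono (plI_sb_right hD hD') hp⟩
  · rintro ⟨h1, h2⟩
    refine ⟨fun ν m hm => (plI_dom hD hD').2 ⟨h1.1 ν m hm, h2.1 ν m hm⟩, fun ν κ hκ => ?_⟩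
    obtain ⟨q, t, a, b, e⟩ := h1.2 ν κ hκ
    obtain ⟨q', t', a', -⟩ := h2.2 ν κ hκ
    exact ⟨q, t, ⟨a, hD'.2 ν q t ⟨q', t', a'⟩ (hD.1 _ a)⟩, b, e⟩

/-- `IsNm` over the intersection. `sub`: `PP_plI`. `tot`: for `p` over the intersection take the
witness `r ∈ PP c D`, `r ≤ q`, `(q, t) ∈ n` for `p` over `D`; `crs (plI D D').dom r` is a condition over the
intersection (its promises: an entry `(ν, q', t')` of `D` with `r ≤ q'`, `ν` in both domains, is an entry of the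
intersection, `q'` is a condition over `D` and over `D'` (validity of `D`, `D'`), hence over the intersection, so
`crs .. q' = q'` and `crs .. r ≤ q'`, `crs_le_crs`), it is below `crs .. p = p` and below `crs .. q = q` (`PP.crs_eq`). -/
theorem IsNm_plI {D D' g : Pl M W} (h : Valid c D) (h' : Valid c D') (hD : Sb D g) (hD' : Sb D' g)
    {n : Nm M W} (hn : IsNm c D n) (hn' : IsNm c D' n) : IsNm c (plI D D') n := by
  have hs := plI_sb_left hD hD'
  refine ⟨fun q t hq => (PP_plI hD hD').2 ⟨hn.sub q t hq, hn'.sub q t hq⟩, ?_, ?_, hn.bdd⟩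
  · intro q t q' t' h1 h2 r hr h3 h4
    exact hn.cons q t q' t' h1 h2 r ((PP_plI hD hD').1 hr).1 h3 h4
  · intro k p hp
    obtain ⟨r, hr, h1, q, t, h2, h3, h4⟩ := hn.tot k p ((PP_plI hD hD').1 hp).1
    refine ⟨crs (plI D D').dom r, ⟨fun ν m hm => (mem_crs1.1 hm).2, fun ν κ hκ => ?_⟩,
      crs_le_of_le hp h1, q, t, h2,
      crs_le_of_le ((PP_plI hD hD').2 ⟨hn.sub q t h2, hn'.sub q t h2⟩) h3, h4⟩
    obtain ⟨hκ1, hκ2⟩ := mem_crs2.1 hκ
    obtain ⟨q', t', a, b, e⟩ := hr.2 ν κ hκ1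
    have h6 : (ν, q', t') ∈ plI D D' := hs.2 ν q' t' hκ2 a
    exact ⟨q', t', h6, crs_le_of_le ((PP_plI hD hD').2 ⟨h.PP h6.1, h'.PP h6.2⟩) b, e⟩

/-- names of the nodes: `(plI D D').nm ν = g.nm ν = D.nm ν = D'.nm ν` (`Sb.nm_eq`), then `IsNm_plI`. -/
theorem Valid_plI {D D' g : Pl M W} (h : Valid c D) (h' : Valid c D') (hD : Sb D g)
    (hD' : Sb D' g) : Valid c (plI D D') := by
  constructor
  · obtain ⟨ζ, hζ⟩ := h.bdd
    exact ⟨ζ, fun ν q t hx => hζ ν q t hx.1⟩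
  · intro ν hν
    have h1 := (plI_sb_left hD hD').nm_eq hν
    have h2 := (plI_sb_right hD hD').nm_eq hν
    have h3 := (plI_dom hD hD').1 hν
    refine IsNm_plI h h' hD hD' ?_ ?_
    · rw [← h1]
      exact h.nm ν h3.1
    · rw [← h2]
      exact h'.nm ν h3.2

theorem Cap_ev_inter {D : Pl M W} {n : Nm M W} (hn : IsNm c D n) {G : Set (Cond W)} :
    ev n (G ∩ PP c D) = ev n G := by
  have h : Ev n (G ∩ PP c D) = Ev n G := by
    funext x
    refine propext ⟨fun hx => ⟨fun q t h1 h2 => hx.1 q t h1 ⟨h2, hn.sub q t h1⟩, fun k => ?_⟩,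
      fun hx => ⟨fun q t h1 h2 => hx.1 q t h1 h2.1, fun k => ?_⟩⟩
    · obtain ⟨q, t, h1, h2, h3⟩ := hx.2 k
      exact ⟨q, t, h1, h2.1, h3⟩
    · obtain ⟨q, t, h1, h2, h3⟩ := hx.2 k
      exact ⟨q, t, h1, ⟨h2, hn.sub q t h1⟩, h3⟩
  unfold ev
  rw [h]

/-- The reals of the subplan `D` do not depend on the part of the filter outside `PP c D`
(`Ev n (G ∩ PP c D) x ↔ Ev n G x` for names over `D`, by `IsNm.sub`). -/
theorem RR_inter {D : Pl M W} {G : Set (Cond W)} : RR c D (G ∩ PP c D) = RR c D G := by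
  ext x
  constructor
  · rintro ⟨n, hn, he⟩
    exact ⟨n, hn, by rw [← he, Cap_ev_inter hn]⟩
  · rintro ⟨n, hn, he⟩
    exact ⟨n, hn, by rw [← he, Cap_ev_inter hn]⟩

theorem ev_inter {D : Pl M W} {n : Nm M W} (hn : IsNm c D n) {G : Set (Cond W)} :
    ev n (G ∩ PP c D) = ev n G := by
  exact Cap_ev_inter hn

theorem RR_mono {D g : Pl M W} (hv : Valid c D) (h : Sb D g) {G : Set (Cond W)} :
    RR c D G ⊆ RR c g G := by
  rintro x ⟨n, hn, he⟩
  exact ⟨n, hn.mono hv h, he⟩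

end Pool.Agent.H.MP_20495c_lc
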