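import Pool.Agent.H.MP_20495c_lc.B.Cap
import Pool.Agent.H.MP_a163f2_lc.R.Re1

/-!
# Part B, module CapR: the intersection property of the reals over closed subplans
-/

set_option autoImplicit false
set_option linter.unusedSectionVars false

namespace Pool.Agent.H.MP_20495c_lc

open Pool.Agent.H.MP_07d118_lc Pool.Agent.H.MP_a163f2_lc

universe u v w x

variable {M : Type u} [SetStr M] [ZFC M] [Std M] {W : Type v} [LinearOrder W] [Cd M W] [Om1 M W]
variable {c : W × Hc → ℕ → ℕ} [hL : Fact (Luz M W c)]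

/-- Below every condition there is one which decides the value of a name at `n`. -/
theorem CapR_decide [Countable M] (f : Pl M W) (a : Nm M W) (n : ℕ) {p : Cond W}
    (hp : p ∈ PP c f) :
    ∃ r ∈ PP c f, CLe c r p ∧ ∃ k : ℕ, Fo c f r (fun G' => ev a G' n = k) := by
  obtain ⟨G, hG, hpG⟩ := exists_gen hp
  have hgood : Good c (fun _ : ℕ => f) (fun k G' => ev a G' n = k) :=
    GoodF_ev_good (f := fun _ : ℕ => f) (x := fun _ => a) (i := fun _ => n) (l := fun k => k)
      (IF.const f) (IF.const a) (IF.const n) IF.id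
  obtain ⟨s, hs, hfo⟩ := hgood.truth (IF.const f) (t := ev a G n) hG rfl
  obtain ⟨h1, h2, h3⟩ := hG.cup_mem hpG hs
  exact ⟨_, hG.sub _ h1, h2, ev a G n, hfo.mono (hG.sub _ hs) h3⟩

/-- The union of two closed subplans is a closed subplan. -/
theorem CapR_Sb_plU {D D' g : Pl M W} (hD : Sb D g) (hD' : Sb D' g) : Sb (plU D D') g := by
  refine ⟨?_, ?_⟩
  · rintro x (hx | hx)
    · exact hD.1 x hx
    · exact hD'.1 x hx
  · intro ν q t hν hx
    rw [plU_dom] at hν
    rcases hν with hν | hν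
    · exact Or.inl (hD.2 ν q t hν hx)
    · exact Or.inr (hD'.2 ν q t hν hx)

/-- Amalgamation: a condition `r` over `D` and a condition `r'` over `D'` which agree on the
intersection and extend the restrictions of `p` are compatible with `p`. -/
theorem CapR_amal [Countable M] {D D' g : Pl M W} (h : Valid c D) (h' : Valid c D')
    (hD : Sb D g) (hD' : Sb D' g) {p r r' : Cond W} (hp : p ∈ PP c g) (hr : r ∈ PP c D)
    (hr' : r' ∈ PP c D') (hrp : CLe c r (crs D.dom p)) (hrp' : CLe c r' (crs D'.dom p))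
    (hle : CLe c (crs (plI D D').dom r') (crs (plI D D').dom r)) :
    ∃ G, Gen c g G ∧ p ∈ G ∧ r ∈ G ∩ PP c D ∧ r' ∈ G ∩ PP c D' := by
  have hEv : Valid c (plI D D') := Valid_plI h h' hD hD'
  have hED : Sb (plI D D') D := plI_sb_left hD hD'
  have hED' : Sb (plI D D') D' := plI_sb_right hD hD'
  have hd : D.dom ∩ D'.dom ⊆ (plI D D').dom := fun ν hν => (plI_dom hD hD').2 hν
  obtain ⟨h1, h2, h3, -⟩ := amal3 hED hED' hd hr hr' (crs_PP hEv hED' hr') hle (CLe.refl _)
  have hU : Sb (plU D D') g := CapR_Sb_plU hD hD'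
  have e : cup (crs D.dom p) (crs D'.dom p) = crs (plU D D').dom p := by
    rw [plU_dom]
    refine Prod.ext (Finset.ext fun x => ?_) (Finset.ext fun x => ?_)
    · rw [mem_cup1, mem_crs1, mem_crs1, mem_crs1, Set.mem_union]
      tauto
    · rw [mem_cup2, mem_crs2, mem_crs2, mem_crs2, Set.mem_union]
      tauto
  have h4 := le_cup (h2.trans hrp) (h3.trans hrp')
  rw [e] at h4
  obtain ⟨h5, h6, h7⟩ := amal hU hp h1 h4
  obtain ⟨G, hG, hG'⟩ := exists_gen h5
  exact ⟨G, hG, hG.up _ hG' p hp h6, ⟨hG.up _ hG' r (PP_mono hD hr) (h7.trans h2), hr⟩,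
    ⟨hG.up _ hG' r' (PP_mono hD' hr') (h7.trans h3), hr'⟩⟩

/-- **Intersection property.** `→` is `RR_mono`.
`←`: `x = ev a G = ev b G`, `a` over `D`, `b` over `D'`. The statement `ev a G = ev b G` is good over `g`
(`GoodR.ev`, `Good.eqR`), so some `p ∈ G` forces it over `g` (`Good.truth`).  Put `E = plI D D'`, `pD = crs D.dom p`,
`pE = crs E.dom p`.  For `n k` let `Q n k G₀ := ∃ q ∈ G₀, q ∈ PP c E ∧ CLe c q pE ∧ Fo c D (cup pD q) (fun G' => ev a G' n = k)`.
It is good over `E` (`Good.ex`, `Good.mem`, `Good.of_in`, `Good.fo`).  By `mem_RR_of_good` it is enough that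
`x n = k ↔ Q n k (G ∩ PP c E)`.  If `q` witnesses `Q n k` then `cup pD q ∈ G ∩ PP c D`, which is generic for `D`
(`Gen.restrict`), so `x n = k`.  Conversely the set of `q ∈ PP c E` which are incompatible with `pE` in `PP c E`, or below `pE`
and decide (`∃ k, Fo c D (cup pD q) (ev a · n = k)`), is dense in `PP c E`: otherwise there is `q₀ ≤ pE` none of whose
extensions decides. Take `r₁ ∈ PP c D` below `cup pD q₀` (`amal`) which decides `ev a · n = k₁` (`Good.decide`/`Good.truth`), put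
`q₁ = crs E.dom r₁`; as `q₁` does not decide, there is `r₂ ∈ PP c D` below `cup pD q₁` with `ev a · n = k₂ ≠ k₁` forced;
`q₂ = crs E.dom r₂`; take `r' ∈ PP c D'` below `cup (crs D'.dom p) q₂` which decides `ev b · n = k'`; one `i` has `kᵢ ≠ k'`, and `r'`, `rᵢ`
and `p` have the common extension given by `amal3` (over `E`: `D.dom ∩ D'.dom = E.dom`; `crs E.dom r' ≤ q₂ ≤ q₁`, so `crs E.dom r' ≤ crs E.dom rᵢ`),
first in `PP c (plU D D')`, and with `p` by `amal` (`Sb (plU D D') g`, `Valid_plU`); it forces `ev a = ev b`, contradiction. The dense set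
is internal, so it meets `G ∩ PP c E`, and the incompatible case is impossible since `pE ∈ G ∩ PP c E`. -/
theorem RR_plI [Countable M] {D D' g : Pl M W} (h : Valid c D) (h' : Valid c D') (hg : Valid c g)
    (hD : Sb D g) (hD' : Sb D' g) {G : Set (Cond W)} (hG : Gen c g G) {x : ℕ → ℕ} :
    x ∈ RR c (plI D D') G ↔ x ∈ RR c D G ∧ x ∈ RR c D' G := by
  have hEv : Valid c (plI D D') := Valid_plI h h' hD hD'
  have hED : Sb (plI D D') D := plI_sb_left hD hD'
  have hED' : Sb (plI D D') D' := plI_sb_right hD hD'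
  have hEg : Sb (plI D D') g := plI_sb hD hD'
  refine ⟨fun hx => ⟨RR_mono hEv hED hx, RR_mono hEv hED' hx⟩, ?_⟩
  rintro ⟨⟨a, ha, hax⟩, ⟨b, hb, hbx⟩⟩
  have hab : Good c (fun _ : ℕ => g) (fun _ G' => ev a G' = ev b G') :=
    Good.eqR (IF.const g) (Re1_ev a) (Re1_ev b)
  obtain ⟨p, hp, hfo⟩ := hab.truth (IF.const g) (t := 0) hG (hax.trans hbx.symm)
  have hpg : p ∈ PP c g := hG.sub p hp
  have hpD : crs D.dom p ∈ PP c D := crs_PP h hD hpg
  have hpD' : crs D'.dom p ∈ PP c D' := crs_PP h' hD' hpg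
  have hpE : crs (plI D D').dom p ∈ PP c (plI D D') := crs_PP hEv hEg hpg
  have eD : crs (plI D D').dom (crs D.dom p) = crs (plI D D').dom p := by
    rw [crs_crs, Set.inter_eq_left.2 hED.dom]
  have eD' : crs (plI D D').dom (crs D'.dom p) = crs (plI D D').dom p := by
    rw [crs_crs, Set.inter_eq_left.2 hED'.dom]
  have hgood : Good c (fun _ : (ℕ × ℕ) × Cond W => D) (fun z G' => ev a G' z.1.1 = z.1.2) :=
    GoodF_ev_good (f := fun _ : (ℕ × ℕ) × Cond W => D) (x := fun _ => a) (i := fun z => z.1.1)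
      (l := fun z => z.1.2) (IF.const D) (IF.const a) (IF.comp IF.fst IF.fst)
      (IF.comp IF.snd IF.fst)
  have hin : In M (fun z : (ℕ × ℕ) × Cond W =>
      Fo c D (cup z.2 (crs D.dom p)) (fun G' => ev a G' z.1.1 = z.1.2)) :=
    Good.fo (IF.const D) hgood (p := fun z => cup z.2 (crs D.dom p))
      (IF.cup IF.snd (IF.const (crs D.dom p)))
  have hGE := hG.restrict hEv hEg
  have hGD := hG.restrict h hD
  -- witnesses give the right value
  have hval : ∀ n k, (∃ q, q ∈ G ∩ PP c (plI D D') ∧ q ∈ PP c (plI D D') ∧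
      CLe c q (crs (plI D D').dom p) ∧
      Fo c D (cup q (crs D.dom p)) (fun G' => ev a G' n = k)) → x n = k := by
    rintro n k ⟨q, hq, hqE, -, hqf⟩
    obtain ⟨h1, -, -⟩ := hGD.cup_mem ⟨hq.1, PP_mono hED hqE⟩ (Gen.crs_mem h hD hG hp)
    have h2 : ev a (G ∩ PP c D) n = k := hqf _ hGD h1
    rw [ev_restrict h hD hG ha, hax] at h2
    exact h2
  -- density
  have hdense : ∀ n : ℕ, ∀ q ∈ PP c (plI D D'), CLe c q (crs (plI D D').dom p) →
      ∃ r ∈ PP c (plI D D'), CLe c r q ∧ ∃ k : ℕ,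
        Fo c D (cup r (crs D.dom p)) (fun G' => ev a G' n = k) := by
    intro n q₀ hq₀ hle₀
    by_contra hcon
    push Not at hcon
    have h0 := amal hED hpD hq₀ (by rw [eD]; exact hle₀)
    obtain ⟨r₁, hr₁, hr₁le, k₁, hk₁⟩ := CapR_decide D a n h0.1
    have hq₁ : crs (plI D D').dom r₁ ∈ PP c (plI D D') := crs_PP hEv hED hr₁
    have hq₁le : CLe c (crs (plI D D').dom r₁) q₀ := crs_le_of_le hq₀ (hr₁le.trans h0.2.2)
    have h1 := amal hED hpD hq₁ (by rw [eD]; exact hq₁le.trans hle₀)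
    have hgood' : Good c (fun _ : ℕ => D) (fun k G' => ev a G' n = k) :=
      GoodF_ev_good (f := fun _ : ℕ => D) (x := fun _ => a) (i := fun _ => n) (l := fun k => k)
        (IF.const D) (IF.const a) (IF.const n) IF.id
    obtain ⟨r₂, hr₂, hr₂le, hk₂⟩ := hgood'.exists_not (IF.const D) (t := k₁) h1.1
      (hcon _ hq₁ hq₁le k₁)
    have hq₂ : crs (plI D D').dom r₂ ∈ PP c (plI D D') := crs_PP hEv hED hr₂
    have hq₂le : CLe c (crs (plI D D').dom r₂) (crs (plI D D').dom r₁) :=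
      crs_le_of_le hq₁ (hr₂le.trans h1.2.2)
    have h2 := amal hED' hpD' hq₂ (by rw [eD']; exact (hq₂le.trans hq₁le).trans hle₀)
    obtain ⟨r', hr', hr'le, k', hk'⟩ := CapR_decide D' b n h2.1
    have hq'le : CLe c (crs (plI D D').dom r') (crs (plI D D').dom r₂) :=
      crs_le_of_le hq₂ (hr'le.trans h2.2.2)
    have hr'p := hr'le.trans h2.2.1
    by_cases hkk : k₁ = k'
    · obtain ⟨G₁, hG₁, hp₁, hr₂G, hr'G⟩ := CapR_amal h h' hD hD' hpg hr₂ hr'
        (hr₂le.trans h1.2.1) hr'p hq'le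
      have e1 : ¬ ev a (G₁ ∩ PP c D) n = k₁ := hk₂ _ (hG₁.restrict h hD) hr₂G
      have e2 : ev b (G₁ ∩ PP c D') n = k' := hk' _ (hG₁.restrict h' hD') hr'G
      rw [ev_restrict h hD hG₁ ha] at e1
      rw [ev_restrict h' hD' hG₁ hb] at e2
      have e3 := hfo G₁ hG₁ hp₁
      apply e1
      rw [e3, e2, hkk]
    · obtain ⟨G₁, hG₁, hp₁, hr₁G, hr'G⟩ := CapR_amal h h' hD hD' hpg hr₁ hr'
        (hr₁le.trans h0.2.1) hr'p (hq'le.trans hq₂le)
      have e1 : ev a (G₁ ∩ PP c D) n = k₁ := hk₁ _ (hG₁.restrict h hD) hr₁G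
      have e2 : ev b (G₁ ∩ PP c D') n = k' := hk' _ (hG₁.restrict h' hD') hr'G
      rw [ev_restrict h hD hG₁ ha] at e1
      rw [ev_restrict h' hD' hG₁ hb] at e2
      have e3 := hfo G₁ hG₁ hp₁
      apply hkk
      rw [← e1, ← e2, e3]
  have hQ : Good c (fun _ : ℕ × ℕ => plI D D') (fun y G₀ => ∃ q : Cond W, q ∈ G₀ ∧
      q ∈ PP c (plI D D') ∧ CLe c q (crs (plI D D').dom p) ∧
      Fo c D (cup q (crs D.dom p)) (fun G' => ev a G' y.1 = y.2)) := by
    refine Good.ex (S := Cond W) (Q := fun (y : ℕ × ℕ) (q : Cond W) G₀ => q ∈ G₀ ∧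
      q ∈ PP c (plI D D') ∧ CLe c q (crs (plI D D').dom p) ∧
      Fo c D (cup q (crs D.dom p)) (fun G' => ev a G' y.1 = y.2)) ?_
    exact Good.and (Good.mem (IF.const _) IF.snd) (Good.of_in (In.and
      (In.pp (IF.const _) IF.snd) (In.and (In.cle IF.snd (IF.const _)) hin)))
  have hfin : x ∈ RR c (plI D D') (G ∩ PP c (plI D D')) := by
    refine mem_RR_of_good hEv hGE (Q := fun n k G₀ => ∃ q : Cond W, q ∈ G₀ ∧
      q ∈ PP c (plI D D') ∧ CLe c q (crs (plI D D').dom p) ∧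
      Fo c D (cup q (crs D.dom p)) (fun G' => ev a G' n = k)) hQ fun n k => ⟨?_, hval n k⟩
    rintro rfl
    have hinD : In M (fun q : Cond W => ∃ k : ℕ,
        Fo c D (cup q (crs D.dom p)) (fun G' => ev a G' n = k)) := by
      refine In.ex (P := fun (q : Cond W) (k : ℕ) =>
        Fo c D (cup q (crs D.dom p)) (fun G' => ev a G' n = k)) ?_
      exact In.comp (f := fun y : Cond W × ℕ => (((n, y.2), y.1) : (ℕ × ℕ) × Cond W)) hin
        (((IF.const n).pair IF.snd).pair IF.fst)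
    obtain ⟨q, hq, hqle, k, hk⟩ := hGE.meets_below (Gen.crs_mem hEv hEg hG hp) (ISet.mk hinD)
      (fun q hq hle => hdense n q hq hle)
    have h1 := hval n k ⟨q, hq, hq.2, hqle, hk⟩
    rw [h1]
    exact ⟨q, hq, hq.2, hqle, hk⟩
  rwa [RR_inter] at hfin

end Pool.Agent.H.MP_20495c_lc
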