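import Pool.Agent.H.MP_20495c_lc.B.Str

/-!
# Part B, module Chain: unions of countable chains of structures
-/

set_option autoImplicit false
set_option linter.unusedSectionVars false

namespace Pool.Agent.H.MP_20495c_lc

open Pool.Agent.H.MP_07d118_lc Pool.Agent.H.MP_a163f2_lc

universe u v w x

variable {M : Type u} [SetStr M] [ZFC M] [Std M] {W : Type v} [LinearOrder W] [Cd M W] [Om1 M W]
variable {c : W × Hc → ℕ → ℕ} [hL : Fact (Luz M W c)]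
variable {X : Type v} [Cd M X]

/-! ### Unions of countable chains -/

/-- union of a family of structures -/
noncomputable def stUn (P : X → Prop) (hP : In M P) (Fm : X → Stc M W) (hFm : IF M Fm) :
    Stc M W :=
  (plUn P hP (fun t => (Fm t).1) (IF.comp IF.fst hFm),
    ISet.mk (P := fun y : W × Pl M W => ∃ t, P t ∧ y ∈ (Fm t).2.1)
      (In.ex (P := fun (y : W × Pl M W) (t : X) => P t ∧ y ∈ (Fm t).2.1)
        ((hP.comp IF.snd).and (In.mem IF.fst (IF.comp (IF.comp IF.fst IF.snd)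
          (IF.comp hFm IF.snd))))),
    ISet.mk (P := fun y : Pl M W × Nm M W × Nm M W => ∃ t, P t ∧ y ∈ (Fm t).2.2)
      (In.ex (P := fun (y : Pl M W × Nm M W × Nm M W) (t : X) => P t ∧ y ∈ (Fm t).2.2)
        ((hP.comp IF.snd).and (In.mem IF.fst (IF.comp (IF.comp IF.snd IF.snd)
          (IF.comp hFm IF.snd))))))

section chain

variable {P : X → Prop} {hP : In M P} {Fm : X → Stc M W} {hFm : IF M Fm}

theorem Chain_mem1 {S S' : Stc M W} (h : SLe S S') {α : W} {D : Pl M W} :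
    (α, D) ∈ S.2.1 ↔ (α, D) ∈ S'.2.1 ∧ Sb D S.1 := by
  have h1 : (α, D) ∈ (MP_20495c_lc.res S' S.1).2.1 ↔ (α, D) ∈ S'.2.1 ∧ Sb D S.1 := mem_res1
  rwa [h.2] at h1

theorem Chain_mem2 {S S' : Stc M W} (h : SLe S S') {D : Pl M W} {n m : Nm M W} :
    (D, n, m) ∈ S.2.2 ↔ (D, n, m) ∈ S'.2.2 ∧ Sb D S.1 := by
  have h1 : (D, n, m) ∈ (MP_20495c_lc.res S' S.1).2.2 ↔ (D, n, m) ∈ S'.2.2 ∧ Sb D S.1 := mem_res2
  rwa [h.2] at h1

theorem Chain_iff1 {α : W} {D : Pl M W} :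
    (α, D) ∈ (stUn P hP Fm hFm).2.1 ↔ ∃ t, P t ∧ (α, D) ∈ (Fm t).2.1 := Iff.rfl

theorem Chain_iff2 {D : Pl M W} {n m : Nm M W} :
    (D, n, m) ∈ (stUn P hP Fm hFm).2.2 ↔ ∃ t, P t ∧ (D, n, m) ∈ (Fm t).2.2 := Iff.rfl

theorem mem_stUn {D : Pl M W} : Mem (stUn P hP Fm hFm) D ↔ ∃ t, P t ∧ Mem (Fm t) D := by
  constructor
  · rintro ⟨α, t, ht, h⟩
    exact ⟨t, ht, α, h⟩
  · rintro ⟨t, ht, α, h⟩
    exact ⟨α, t, ht, h⟩

theorem stUn_dom {ν : W} : ν ∈ (stUn P hP Fm hFm).1.dom ↔ ∃ t, P t ∧ ν ∈ (Fm t).1.dom := by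
  constructor
  · rintro ⟨q, s, t, ht, h⟩
    exact ⟨t, ht, q, s, h⟩
  · rintro ⟨t, ht, q, s, h⟩
    exact ⟨q, s, t, ht, h⟩

/-- Members of the union below a member `D` of `Fm t` are members of `Fm t`: if `E` is a member of `Fm t'` and `Sb E D`: when
`SLe (Fm t) (Fm t')` use `SLe.mem_iff` (`Sb E (Fm t).1` by transitivity); the other case is `SLe.mem`.  The same for ranks and labels. -/
theorem stUn_res (hch : ∀ i j, P i → P j → SLe (Fm i) (Fm j) ∨ SLe (Fm j) (Fm i))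
    (hv : ∀ t, P t → SV c (Fm t)) {t : X} (ht : P t) {D : Pl M W} (hD : Mem (Fm t) D) :
    MP_20495c_lc.res (stUn P hP Fm hFm) D = MP_20495c_lc.res (Fm t) D := by
  have hDt : Sb D (Fm t).1 := ((hv t ht).sub D hD).2
  refine Stc_ext rfl (fun α E => ?_) (fun E n m => ?_)
  · rw [mem_res1, mem_res1]
    constructor
    · rintro ⟨⟨t', ht', h⟩, hE⟩
      refine ⟨?_, hE⟩
      rcases hch t t' ht ht' with h1 | h1
      · exact (Chain_mem1 h1).2 ⟨h, Sb.trans hE hDt⟩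
      · exact ((Chain_mem1 h1).1 h).1
    · rintro ⟨h, hE⟩
      exact ⟨⟨t, ht, h⟩, hE⟩
  · rw [mem_res2, mem_res2]
    constructor
    · rintro ⟨⟨t', ht', h⟩, hE⟩
      refine ⟨?_, hE⟩
      rcases hch t t' ht ht' with h1 | h1
      · exact (Chain_mem2 h1).2 ⟨h, Sb.trans hE hDt⟩
      · exact ((Chain_mem2 h1).1 h).1
    · rintro ⟨h, hE⟩
      exact ⟨⟨t, ht, h⟩, hE⟩

theorem Chain_bd (hP : In M P) (hFm : IF M Fm) (hct : ICt M {t | P t})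
    (hv : ∀ t, P t → SV c (Fm t)) :
    ∃ β : W, ∀ t, P t → ∀ α D, (α, D) ∈ (Fm t).2.1 → α < β := by
  have h1 : In M (fun y : X × W => P y.1 → ∀ α : W, ∀ D : Pl M W,
      (α, D) ∈ (Fm y.1).2.1 → α < y.2) := by
    refine In.imp (hP.comp IF.fst) ?_
    refine In.all (S := W) (P := fun (y : X × W) α => ∀ D : Pl M W,
      (α, D) ∈ (Fm y.1).2.1 → α < y.2) ?_
    refine In.all (S := Pl M W) (P := fun (y : (X × W) × W) D =>
      (y.2, D) ∈ (Fm y.1.1).2.1 → y.2 < y.1.2) ?_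
    have e1 : IF M (fun y : ((X × W) × W) × Pl M W => y.1.1.1) :=
      IF.fst.comp (IF.fst.comp IF.fst)
    have e2 : IF M (fun y : ((X × W) × W) × Pl M W => y.1.1.2) :=
      IF.snd.comp (IF.fst.comp IF.fst)
    have e3 : IF M (fun y : ((X × W) × W) × Pl M W => y.1.2) := IF.snd.comp IF.fst
    exact In.imp (In.mem (e3.pair IF.snd) (IF.comp IF.fst (IF.comp IF.snd (hFm.comp e1))))
      (In.ltW e3 e2)
  obtain ⟨Z, hZ, hR⟩ := In.choice (R := fun (t : X) (ζ : W) => P t → ∀ α : W, ∀ D : Pl M W,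
      (α, D) ∈ (Fm t).2.1 → α < ζ) h1 (by
    intro t
    by_cases ht : P t
    · obtain ⟨ζ, hζ⟩ := (hv t ht).rbd
      exact ⟨ζ, fun _ => hζ⟩
    · obtain ⟨ζ⟩ := Om1.ne (M := M) (W := W)
      exact ⟨ζ, fun h2 => absurd h2 ht⟩)
  obtain ⟨ζ, hζ⟩ := ICt.bdd hct hP hZ
  exact ⟨ζ, fun t ht α D hx => (hR t ht α D hx).trans (hζ t ht)⟩

/-- `Valid_plUn`, `Sb_plUn`. Every axiom concerns at most two members, which lie in one of the structures. Rank bound: the bounds of the `Fm t`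
have a common bound as `{t | P t}` is countable (`ICt.bdd` after an internal choice, as in `Un_bd`). -/
theorem stUn_HS (hch : ∀ i j, P i → P j → SLe (Fm i) (Fm j) ∨ SLe (Fm j) (Fm i))
    (hct : ICt M {t | P t}) (hv : ∀ t, P t → SV c (Fm t)) : HS c (stUn P hP Fm hFm) := by
  have hsb : ∀ i j, P i → P j → Sb (Fm i).1 (Fm j).1 ∨ Sb (Fm j).1 (Fm i).1 := by
    intro i j hi hj
    rcases hch i j hi hj with h | h
    · exact Or.inl (SLe.sb h (hv j hj).toHS)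
    · exact Or.inr (SLe.sb h (hv i hi).toHS)
  have hU : ∀ t, P t → Sb (Fm t).1 (stUn P hP Fm hFm).1 := fun t ht =>
    Sb_plUn (hP := hP) (hF := IF.comp IF.fst hFm) hsb ht
  have hcom : ∀ i j, P i → P j → ∃ t, P t ∧ SLe (Fm i) (Fm t) ∧ SLe (Fm j) (Fm t) := by
    intro i j hi hj
    rcases hch i j hi hj with h | h
    · exact ⟨j, hj, h, SLe.refl (hv j hj)⟩
    · exact ⟨i, hi, SLe.refl (hv i hi), h⟩
  constructor
  · exact Valid_plUn (hP := hP) (hF := IF.comp IF.fst hFm) hsb (fun t ht => (hv t ht).val) hct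
  · rintro D ⟨α, t, ht, h⟩
    obtain ⟨h1, h2⟩ := (hv t ht).sub D ⟨α, h⟩
    exact ⟨h1, Sb.trans h2 (hU t ht)⟩
  · rintro α α' D ⟨t, ht, h⟩ ⟨t', ht', h'⟩
    obtain ⟨s, hs, h1, h2⟩ := hcom t t' ht ht'
    exact (hv s hs).fn α α' D ((Chain_mem1 h1).1 h).1 ((Chain_mem1 h2).1 h').1
  · rintro α α' D D' ⟨t, ht, h⟩ ⟨t', ht', h'⟩ hD hne
    obtain ⟨s, hs, h1, h2⟩ := hcom t t' ht ht'
    exact (hv s hs).rk α α' D D' ((Chain_mem1 h1).1 h).1 ((Chain_mem1 h2).1 h').1 hD hne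
  · obtain ⟨β, hβ⟩ := Chain_bd hP hFm hct hv
    refine ⟨β, ?_⟩
    rintro α D ⟨t, ht, h⟩
    exact hβ t ht α D h
  · rintro D D' ⟨α, t, ht, h⟩ ⟨α', t', ht', h'⟩
    obtain ⟨s, hs, h1, h2⟩ := hcom t t' ht ht'
    obtain ⟨γ, hγ⟩ := (hv s hs).cap D D' ⟨α, ((Chain_mem1 h1).1 h).1⟩
      ⟨α', ((Chain_mem1 h2).1 h').1⟩
    exact ⟨γ, s, hs, hγ⟩
  · intro ν hν
    obtain ⟨t, ht, h⟩ := stUn_dom.1 hν
    obtain ⟨D, ⟨α, hD⟩, h1, h2⟩ := (hv t ht).sup ν h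
    refine ⟨D, ⟨α, t, ht, hD⟩, h1, ?_⟩
    rw [(hU t ht).nm_eq h]
    exact h2
  · rintro D ⟨α, t, ht, h⟩ n hn
    obtain ⟨m, hm⟩ := (hv t ht).lab D ⟨α, h⟩ n hn
    exact ⟨m, t, ht, hm⟩
  · rintro D n m m' ⟨t, ht, h⟩ ⟨t', ht', h'⟩
    obtain ⟨s, hs, h1, h2⟩ := hcom t t' ht ht'
    exact (hv s hs).lab1 D n m m' ((Chain_mem2 h1).1 h).1 ((Chain_mem2 h2).1 h').1
  · rintro D n n' m ⟨t, ht, h⟩ ⟨t', ht', h'⟩
    obtain ⟨s, hs, h1, h2⟩ := hcom t t' ht ht'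
    exact (hv s hs).labi D n n' m ((Chain_mem2 h1).1 h).1 ((Chain_mem2 h2).1 h').1
  · rintro D n m ⟨t, ht, h⟩
    obtain ⟨⟨α, h1⟩, h2⟩ := (hv t ht).labs D n m h
    exact ⟨⟨α, t, ht, h1⟩, h2⟩

end chain

end Pool.Agent.H.MP_20495c_lc
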