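import Pool.Agent.H.MP_20495c_lc.B.Task

/-!
# Part B, module Clo: all nodes of a structure are solved in a bigger one
-/

set_option autoImplicit false
set_option linter.unusedSectionVars false

namespace Pool.Agent.H.MP_20495c_lc

open Pool.Agent.H.MP_07d118_lc Pool.Agent.H.MP_a163f2_lc

universe u v w x

variable {M : Type u} [SetStr M] [ZFC M] [Std M] {W : Type v} [LinearOrder W] [Cd M W] [Om1 M W]
variable {c : W × Hc → ℕ → ℕ} [hL : Fact (Luz M W c)]
variable {K : Set (ℕ → ℕ) → (ℕ → ℕ) → (ℕ → ℕ) → Prop} {r : Nm M W → Nm M W → Prop}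
variable {S S' F : Stc M W} {T : Tt M W} [hK : Fact (KOK M W c K)] [hr : Fact (WOr M r)]

/-- A solution for the condition `q` persists: `MLe.trans`; for `G` generic for `t.1.1` with `r' ∈ G` the filter `G ∩ PP c s.1.1` is generic and contains `q` (`Gen.up`, `PP_mono`), `SolN.up`. -/
theorem Dec_mono [Countable M] (hI0 : I0 c T) {s t : MS M W} (hs : MV c F T s)
    (h : MLe c F T t s) {ν : W} (hν : ν ∈ s.1.1.dom) {q r' : Cond W} (hq : q ∈ PP c s.1.1)
    (hr' : r' ∈ PP c t.1.1) (hle : CLe c r' q)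
    (hd : Fo c s.1.1 q (fun G => SolN c K F T s ν G)) :
    Fo c t.1.1 r' (fun G => SolN c K F T t ν G) := by
  intro G hG hr'G
  have ht : MV c F T t := by
    rcases h with h1 | h1
    · rw [h1]
      exact hs
    · exact h1.1
  have hsb : Sb s.1.1 t.1.1 := (h.sle hs).sb ht.1.sv.toHS
  exact SolN.up hI0 hs h hν hG
    (hd _ (Gen.restrict hs.1.sv.val hsb hG) ⟨hG.up r' hr'G q (PP_mono hsb hq) hle, hq⟩)

theorem Clo_sb {s t : MS M W} (hs : MV c F T s) (h : MLe c F T t s) : Sb s.1.1 t.1.1 := by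
  have ht : MV c F T t := by
    rcases h with h1 | h1
    · rw [h1]
      exact hs
    · exact h1.1
  exact (h.sle hs).sb ht.1.sv.toHS

/-- Let `e : ℕ → W` be an internal enumeration of the domain of `s.1.1` (`Valid` plans have countable domains, `ICt.enum`; if it is empty take `t = s`). `(marks_sys h).decide_all` with
`Dec n u q := MLe c F T u s ∧ Fo c u.1.1 q (fun G => SolN c K F T u (e n) G)` (internal: `In_MLe`, `Good_SolN`, `Good.fo`; monotone: `Dec_mono`), `s₀ = s`, `p₀ = (∅, ∅)`, `hex`: `one_task`. For the resulting `t` and `G` generic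
for `t.1.1`: the set of `r'` with `Dec n t r'` is internal and dense, so `G` contains such an `r'` (`Gen.meets_below`). -/
theorem closure_step [Countable M] (hst : State c K r (F, T)) {s : MS M W} (hs : MV c F T s) :
    ∃ t, MV c F T t ∧ MLe c F T t s ∧
      ∀ ν ∈ s.1.1.dom, Fo c t.1.1 (∅, ∅) (fun G => SolN c K F T t ν G) := by
  have h : INV c K F T := hst.inv
  by_cases hne : s.1.1.dom.Nonempty
  · have hA : In M (fun ν : W => ν ∈ s.1.1.dom) := In.pdom IF.id (IF.const s.1.1)
    have hct : ICt M s.1.1.dom := by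
      obtain ⟨ζ, hζ⟩ := hs.1.sv.val.bdd
      refine (ICt.below (M := M) ζ).mono ?_
      rintro ν ⟨q, t, hx⟩
      exact (hζ ν q t hx).1
    obtain ⟨e, he, he1, he2⟩ := hct.enum hA hne
    have hD : In M (fun y : ℕ × MS M W × Cond W => MLe c F T y.2.1 s ∧
        Fo c y.2.1.1.1 y.2.2 (fun G => SolN c K F T y.2.1 (e y.1) G)) := by
      have hs1 : IF M (fun y : ℕ × MS M W × Cond W => y.2.1) := IF.comp IF.fst IF.snd
      refine In.and ?_ ?_
      · exact In.comp2 (P := MLe c F T) In_MLe hs1 (IF.const s)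
      · exact Good.fo (f := fun y : ℕ × MS M W × Cond W => y.2.1.1.1)
          (IF.comp IF.fst (IF.comp IF.fst hs1))
          (Good_SolN (s := fun y : ℕ × MS M W × Cond W => y.2.1)
            (ν := fun y : ℕ × MS M W × Cond W => e y.1) hs1 (IF.comp he IF.fst))
          (IF.comp IF.snd IF.snd)
    obtain ⟨t, ht, hts, hall⟩ := (marks_sys h).decide_all
      (Dec := fun n u q => MLe c F T u s ∧ Fo c u.1.1 q (fun G => SolN c K F T u (e n) G)) hD
      (by
        rintro n u t q r' hu ht htu hq hr' hle ⟨h1, h2⟩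
        exact ⟨htu.trans h1, Dec_mono h.i0 hu htu ((Clo_sb hs h1).dom (he1 n)) hq hr' hle h2⟩)
      hs (p₀ := (∅, ∅)) (empty_PP _)
      (by
        intro n u hu hus q hq _
        obtain ⟨t, ht, htu, r', hr', hle, hfo⟩ :=
          one_task hst hu ((Clo_sb hs hus).dom (he1 n)) hq
        exact ⟨t, ht, htu, r', hr', hle, htu.trans hus, hfo⟩)
    refine ⟨t, ht, hts, fun ν hν G hG _ => ?_⟩
    obtain ⟨n, rfl⟩ := he2 ν hν
    have hin : In M (fun q : Cond W => MLe c F T t s ∧
        Fo c t.1.1 q (fun G => SolN c K F T t (e n) G)) :=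
      In.comp (P := fun y : ℕ × MS M W × Cond W => MLe c F T y.2.1 s ∧
        Fo c y.2.1.1.1 y.2.2 (fun G => SolN c K F T y.2.1 (e y.1) G)) hD
        (f := fun q : Cond W => (n, t, q)) (IF.pair (IF.const n) (IF.pair (IF.const t) IF.id))
    obtain ⟨q, hq, -, -, hfo⟩ := hG.meets_below hG.empty_mem (ISet.mk hin) (by
      intro q hq hle
      obtain ⟨r', h1, h2, h3⟩ := hall n q hq hle
      exact ⟨r', h1, h2, h3⟩)
    exact hfo G hG hq
  · exact ⟨s, hs, Or.inl rfl, fun ν hν => absurd ⟨ν, hν⟩ hne⟩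

end Pool.Agent.H.MP_20495c_lc
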