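import Pool.Agent.H.MP_20495c_lc.B.PermS

/-!
# Part B, module IntP: invariance under permutations is internal

`I1 F T` quantifies over the internal permutations of `W`; these are the pairs `k, k' : IFn M W W` of mutually inverse internal functions.
-/

set_option autoImplicit false
set_option linter.unusedSectionVars false

namespace Pool.Agent.H.MP_20495c_lc

open Pool.Agent.H.MP_07d118_lc Pool.Agent.H.MP_a163f2_lc

universe u v w x

variable {M : Type u} [SetStr M] [ZFC M] [Std M] {W : Type v} [LinearOrder W] [Cd M W] [Om1 M W]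
variable {c : W × Hc → ℕ → ℕ} [hL : Fact (Luz M W c)]
variable {T : Type w} [Cd M T]

/-- the action of an internal function of the nodes on conditions -/
def IntP_C (k : IFn M W W) (p : Cond W) : Cond W :=
  (p.1.image (fun x => (k.1 x.1, x.2)), p.2.image (fun x => (k.1 x.1, x.2)))

theorem IntP_IFC {k : T → IFn M W W} (hk : IF M k) {p : T → Cond W} (hp : IF M p) :
    IF M (fun t => IntP_C (k t) (p t)) := by
  unfold IntP_C
  exact IF.pair
    (IF.fimage (F := fun t x => ((k t).1 x.1, x.2)) (IF.comp IF.fst hp)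
      ((IF.app (IF.comp hk IF.fst) (IF.comp IF.fst IF.snd)).pair (IF.comp IF.snd IF.snd)))
    (IF.fimage (F := fun t x => ((k t).1 x.1, x.2)) (IF.comp IF.snd hp)
      ((IF.app (IF.comp hk IF.fst) (IF.comp IF.fst IF.snd)).pair (IF.comp IF.snd IF.snd)))

/-- the action on plans (`k` is the inverse of the moving function) -/
noncomputable def IntP_P (k : IFn M W W) (f : Pl M W) : Pl M W :=
  ISet.mk (P := fun y : W × Cond W × Fs => (k.1 y.1, IntP_C k y.2.1, y.2.2) ∈ f)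
    (In.mem ((IF.app (IF.const k) IF.fst).pair ((IntP_IFC (IF.const k)
      (IF.comp IF.fst IF.snd)).pair (IF.comp IF.snd IF.snd))) (IF.const f))

/-- the action on names (`k` is the inverse of the moving function) -/
noncomputable def IntP_N (k : IFn M W W) (n : Nm M W) : Nm M W :=
  ISet.mk (P := fun y : Cond W × Fs => (IntP_C k y.1, y.2) ∈ n)
    (In.mem ((IntP_IFC (IF.const k) IF.fst).pair IF.snd) (IF.const n))

theorem IntP_IFP {k : T → IFn M W W} (hk : IF M k) {f : T → Pl M W} (hf : IF M f) :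
    IF M (fun t => IntP_P (k t) (f t)) := by
  refine IF.of_mem (A := fun t => IntP_P (k t) (f t)) (In.congr (P := fun y : T ×
    (W × Cond W × Fs) => ((k y.1).1 y.2.1, IntP_C (k y.1) y.2.2.1, y.2.2.2) ∈ f y.1) ?_
    fun y => Iff.rfl)
  exact In.mem ((IF.app (IF.comp hk IF.fst) (IF.comp IF.fst IF.snd)).pair
    ((IntP_IFC (IF.comp hk IF.fst) (IF.comp IF.fst (IF.comp IF.snd IF.snd))).pair
      (IF.comp IF.snd (IF.comp IF.snd IF.snd)))) (IF.comp hf IF.fst)

theorem IntP_IFN {k : T → IFn M W W} (hk : IF M k) {n : T → Nm M W} (hn : IF M n) :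
    IF M (fun t => IntP_N (k t) (n t)) := by
  refine IF.of_mem (A := fun t => IntP_N (k t) (n t)) (In.congr (P := fun y : T ×
    (Cond W × Fs) => (IntP_C (k y.1) y.2.1, y.2.2) ∈ n y.1) ?_ fun y => Iff.rfl)
  exact In.mem ((IntP_IFC (IF.comp hk IF.fst) (IF.comp IF.fst IF.snd)).pair
    (IF.comp IF.snd IF.snd)) (IF.comp hn IF.fst)

/-- the action on structures: `k` moves, `k'` is the inverse -/
noncomputable def IntP_S (k k' : IFn M W W) (S : Stc M W) : Stc M W :=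
  (IntP_P k' S.1,
    ISet.mk (P := fun y : W × Pl M W => (y.1, IntP_P k y.2) ∈ S.2.1)
      (In.mem (IF.fst.pair (IntP_IFP (IF.const k) IF.snd)) (IF.const S.2.1)),
    ISet.mk (P := fun y : Pl M W × Nm M W × Nm M W =>
        (IntP_P k y.1, IntP_N k y.2.1, y.2.2) ∈ S.2.2)
      (In.mem ((IntP_IFP (IF.const k) IF.fst).pair ((IntP_IFN (IF.const k)
        (IF.comp IF.fst IF.snd)).pair (IF.comp IF.snd IF.snd))) (IF.const S.2.2)))

theorem IntP_IFS {k k' : T → IFn M W W} (hk : IF M k) (hk' : IF M k') {S : T → Stc M W}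
    (hS : IF M S) : IF M (fun t => IntP_S (k t) (k' t) (S t)) := by
  refine IF.pair (IntP_IFP hk' (IF.comp IF.fst hS)) (IF.pair ?_ ?_)
  · refine IF.of_mem (In.congr (P := fun y : T × (W × Pl M W) =>
      (y.2.1, IntP_P (k y.1) y.2.2) ∈ (S y.1).2.1) ?_ fun y => Iff.rfl)
    exact In.mem ((IF.comp IF.fst IF.snd).pair (IntP_IFP (IF.comp hk IF.fst)
      (IF.comp IF.snd IF.snd))) (IF.comp IF.fst (IF.comp IF.snd (IF.comp hS IF.fst)))
  · refine IF.of_mem (In.congr (P := fun y : T × (Pl M W × Nm M W × Nm M W) =>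
      (IntP_P (k y.1) y.2.1, IntP_N (k y.1) y.2.2.1, y.2.2.2) ∈ (S y.1).2.2) ?_
      fun y => Iff.rfl)
    exact In.mem ((IntP_IFP (IF.comp hk IF.fst) (IF.comp IF.fst IF.snd)).pair
      ((IntP_IFN (IF.comp hk IF.fst) (IF.comp IF.fst (IF.comp IF.snd IF.snd))).pair
        (IF.comp IF.snd (IF.comp IF.snd IF.snd))))
      (IF.comp IF.snd (IF.comp IF.snd (IF.comp hS IF.fst)))

theorem IntP_iff (F : Stc M W) (Tm : Tt M W) : I1 F Tm ↔ ∀ k k' : IFn M W W,
    (∀ ν, k'.1 (k.1 ν) = ν ∧ k.1 (k'.1 ν) = ν) → (∀ ν, ν ∈ F.1.dom → k.1 ν = ν) →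
    ∀ y : Qd M W, y ∈ Tm →
      (IntP_S k k' y.1, IntP_C k y.2.1, IntP_N k' y.2.2.1, IntP_N k' y.2.2.2) ∈ Tm := by
  constructor
  · intro h k k' h1 h2 y hy
    exact h (⟨k.1, k'.1, fun ν => (h1 ν).1, fun ν => (h1 ν).2⟩ : Equiv.Perm W) k.2 h2
      y.1 y.2.1 y.2.2.1 y.2.2.2 hy
  · intro h π hπ h2 S p a b hy
    exact h ⟨π, hπ⟩ ⟨π.symm, IF.symm hπ⟩
      (fun ν => ⟨Equiv.symm_apply_apply π ν, Equiv.apply_symm_apply π ν⟩) h2 (S, p, a, b) hy

/-- For `k : IFn M W W` let `pmCk k p` be the condition with the nodes moved by `k` (images of the two finite sets), `pmPk k' f = {(ν, q, t) | (k' ν, pmCk k' q, t) ∈ f}`,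
`pmNk k' n = {(q, t) | (pmCk k' q, t) ∈ n}` and `pmSk k' S` the corresponding structure (preimages under `k'` and the inverse `k`). For a permutation `π` with
`k = π`, `k' = π.symm` these are `pmC π`, `pmP π`, `pmN π`, `pmS π`.  All are internal functions of `(k, k', ..)` (`IF.fimage`, `IF.of_mem`). Then
`I1 F T ↔ ∀ k k' : IFn M W W, (∀ ν, k' (k ν) = ν ∧ k (k' ν) = ν) → (∀ ν ∈ F.1.dom, k ν = ν) → ∀ y ∈ T, (pmSk .., ..) ∈ T` is internal. -/
theorem In_I1 {F : T → Stc M W} (hF : IF M F) {Tm : T → Tt M W} (hT : IF M Tm) :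
    In M (fun t => I1 (F t) (Tm t)) := by
  refine In.congr ?_ fun t => IntP_iff (F t) (Tm t)
  refine In.all (S := IFn M W W) (P := fun t k => ∀ k' : IFn M W W,
    (∀ ν, k'.1 (k.1 ν) = ν ∧ k.1 (k'.1 ν) = ν) → (∀ ν, ν ∈ (F t).1.dom → k.1 ν = ν) →
    ∀ y : Qd M W, y ∈ Tm t →
      (IntP_S k k' y.1, IntP_C k y.2.1, IntP_N k' y.2.2.1, IntP_N k' y.2.2.2) ∈ Tm t) ?_
  refine In.all (S := IFn M W W) (P := fun (z : T × IFn M W W) k' =>
    (∀ ν, k'.1 (z.2.1 ν) = ν ∧ z.2.1 (k'.1 ν) = ν) → (∀ ν, ν ∈ (F z.1).1.dom → z.2.1 ν = ν) →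
    ∀ y : Qd M W, y ∈ Tm z.1 →
      (IntP_S z.2 k' y.1, IntP_C z.2 y.2.1, IntP_N k' y.2.2.1, IntP_N k' y.2.2.2) ∈ Tm z.1) ?_
  refine In.imp ?_ (In.imp ?_ ?_)
  · refine In.all (S := W) (P := fun (z : (T × IFn M W W) × IFn M W W) ν =>
      z.2.1 (z.1.2.1 ν) = ν ∧ z.1.2.1 (z.2.1 ν) = ν) ?_
    have e1 : IF M (fun z : ((T × IFn M W W) × IFn M W W) × W => z.1.1.2) :=
      IF.snd.comp (IF.fst.comp IF.fst)
    have e2 : IF M (fun z : ((T × IFn M W W) × IFn M W W) × W => z.1.2) :=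
      IF.snd.comp IF.fst
    exact In.and (In.eq (IF.app e2 (IF.app e1 IF.snd)) IF.snd)
      (In.eq (IF.app e1 (IF.app e2 IF.snd)) IF.snd)
  · refine In.all (S := W) (P := fun (z : (T × IFn M W W) × IFn M W W) ν =>
      ν ∈ (F z.1.1).1.dom → z.1.2.1 ν = ν) ?_
    have e0 : IF M (fun z : ((T × IFn M W W) × IFn M W W) × W => z.1.1.1) :=
      IF.fst.comp (IF.fst.comp IF.fst)
    have e1 : IF M (fun z : ((T × IFn M W W) × IFn M W W) × W => z.1.1.2) :=
      IF.snd.comp (IF.fst.comp IF.fst)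
    exact In.imp (In.pdom IF.snd (IF.comp IF.fst (IF.comp hF e0)))
      (In.eq (IF.app e1 IF.snd) IF.snd)
  · refine In.all (S := Qd M W) (P := fun (z : (T × IFn M W W) × IFn M W W) (y : Qd M W) =>
      y ∈ Tm z.1.1 → (IntP_S z.1.2 z.2 y.1, IntP_C z.1.2 y.2.1, IntP_N z.2 y.2.2.1,
        IntP_N z.2 y.2.2.2) ∈ Tm z.1.1) ?_
    have e0 : IF M (fun z : ((T × IFn M W W) × IFn M W W) × Qd M W => z.1.1.1) :=
      IF.fst.comp (IF.fst.comp IF.fst)
    have e1 : IF M (fun z : ((T × IFn M W W) × IFn M W W) × Qd M W => z.1.1.2) :=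
      IF.snd.comp (IF.fst.comp IF.fst)
    have e2 : IF M (fun z : ((T × IFn M W W) × IFn M W W) × Qd M W => z.1.2) :=
      IF.snd.comp IF.fst
    have e3 : IF M (fun z : ((T × IFn M W W) × IFn M W W) × Qd M W => z.2.2) :=
      IF.snd.comp IF.snd
    have e4 : IF M (fun z : ((T × IFn M W W) × IFn M W W) × Qd M W => z.2.2.2) :=
      IF.snd.comp e3
    exact In.imp (In.mem IF.snd (IF.comp hT e0))
      (In.mem ((IntP_IFS e1 e2 (IF.fst.comp IF.snd)).pair ((IntP_IFC e1 (IF.fst.comp e3)).pair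
        ((IntP_IFN e2 (IF.fst.comp e4)).pair (IntP_IFN e2 (IF.snd.comp e4)))))
        (IF.comp hT e0))

end Pool.Agent.H.MP_20495c_lc
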