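import Pool.Agent.H.MP_20495c_lc.B.Int3
import Pool.Agent.H.MP_20495c_lc.B.IntP

/-!
# Part B, module Int4: invariants and states
-/

set_option autoImplicit false
set_option linter.unusedSectionVars false

namespace Pool.Agent.H.MP_20495c_lc

open Pool.Agent.H.MP_07d118_lc Pool.Agent.H.MP_a163f2_lc

universe u v w x

variable {M : Type u} [SetStr M] [ZFC M] [Std M] {W : Type v} [LinearOrder W] [Cd M W] [Om1 M W]
variable {c : W × Hc → ℕ → ℕ} [hL : Fact (Luz M W c)]
variable {K : Set (ℕ → ℕ) → (ℕ → ℕ) → (ℕ → ℕ) → Prop} {r : Nm M W → Nm M W → Prop}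
variable {T : Type v} [Cd M T] [hK : Fact (KOK M W c K)]

theorem In_INV [Countable M] {F : T → Stc M W} (hF : IF M F) {Tm : T → Tt M W} (hT : IF M Tm) :
    In M (fun t => INV c K (F t) (Tm t)) :=
  ((In_SV (c := c) hF).and ((In_I0 (c := c) hT).and ((In_I1 hF hT).and ((In_I2 (c := c) hF hT).and
    ((In_I3 (c := c) hF hT).and ((In_I4 (c := c) (K := K) hF hT).and
      (In_I5 (c := c) hF hT))))))).congr fun _ =>
    ⟨fun h => ⟨h.base, h.i0, h.i1, h.i2, h.i3, h.i4, h.i5⟩,
      fun h => ⟨h.1, h.2.1, h.2.2.1, h.2.2.2.1, h.2.2.2.2.1, h.2.2.2.2.2.1, h.2.2.2.2.2.2⟩⟩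

theorem In_State [Countable M] (hr : In M (fun y : Nm M W × Nm M W => r y.1 y.2))
    {x : T → Stc M W × Tt M W} (hx : IF M x) : In M (fun t => State c K r (x t)) := by
  have h1 : IF M (fun t => (x t).1) := IF.comp IF.fst hx
  have h2 : IF M (fun t => (x t).2) := IF.comp IF.snd hx
  have hfix : In M (fun t => ∀ y : Qd M W, GamP c K r (x t).1 (x t).2 y → y ∈ (x t).2) :=
    In.all (P := fun (t : T) (y : Qd M W) => GamP c K r (x t).1 (x t).2 y → y ∈ (x t).2)
      ((In_GamP (c := c) (K := K) (r := r) hr (F := fun z : T × Qd M W => (x z.1).1)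
        (IF.comp h1 IF.fst) (Tm := fun z : T × Qd M W => (x z.1).2) (IF.comp h2 IF.fst)
        (y := fun z : T × Qd M W => z.2) IF.snd).imp
        (In.mem IF.snd (IF.comp h2 IF.fst)))
  exact ((In_INV (c := c) (K := K) h1 h2).and (hfix.and (In_Clean (c := c) (K := K) h1 h2))).congr
    fun _ => ⟨fun h => ⟨h.inv, h.fix, h.clean⟩, fun h => ⟨h.1, h.2.1, h.2.2⟩⟩

theorem In_StLe [Countable M] (hr : In M (fun y : Nm M W × Nm M W => r y.1 y.2))
    {y x : T → Stc M W × Tt M W} (hy : IF M y) (hx : IF M x) :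
    In M (fun t => StLe c K r (y t) (x t)) := by
  have hx1 : IF M (fun t => (x t).1) := IF.comp IF.fst hx
  have hx2 : IF M (fun t => (x t).2) := IF.comp IF.snd hx
  have hy1 : IF M (fun t => (y t).1) := IF.comp IF.fst hy
  have hy2 : IF M (fun t => (y t).2) := IF.comp IF.snd hy
  have hsub : In M (fun t => ∀ q : Qd M W, q ∈ (x t).2 → q ∈ (y t).2) :=
    In.all (P := fun (t : T) (q : Qd M W) => q ∈ (x t).2 → q ∈ (y t).2)
      ((In.mem IF.snd (IF.comp hx2 IF.fst)).imp (In.mem IF.snd (IF.comp hy2 IF.fst)))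
  exact ((In.eq hy hx).or ((In_State (c := c) (K := K) hr hy).and
    ((In_State (c := c) (K := K) hr hx).and ((In_KK (c := c) hx1 hx2 hy1).and hsub)))).congr
      fun _ => Iff.rfl

end Pool.Agent.H.MP_20495c_lc
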