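import Pool.Agent.H.MP_20495c_lc.B.Step
import Pool.Agent.H.MP_20495c_lc.B.Bw
import Pool.Agent.H.MP_20495c_lc.B.Int4

/-!
# Part B, module Fix: fixed points of the recursion, and their main property
-/

set_option autoImplicit false
set_option linter.unusedSectionVars false

namespace Pool.Agent.H.MP_20495c_lc

open Pool.Agent.H.MP_07d118_lc Pool.Agent.H.MP_a163f2_lc

universe u v w x

variable {M : Type u} [SetStr M] [ZFC M] [Std M] {W : Type v} [LinearOrder W] [Cd M W] [Om1 M W]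
variable {c : W × Hc → ℕ → ℕ} [hL : Fact (Luz M W c)]
variable {K : Set (ℕ → ℕ) → (ℕ → ℕ) → (ℕ → ℕ) → Prop} {r : Nm M W → Nm M W → Prop}
variable {S F : Stc M W} {T T' : Tt M W} [hK : Fact (KOK M W c K)] [hr : Fact (WOr M r)]

/-- `bourbaki_witt` with `Φ = Gam c K r F`, `P = INV c K F` (`In_INV`, `step_INV`, `INV_union`). -/
theorem exists_fix [Countable M] (h : INV c K F T) : ∃ T', (∀ q, q ∈ T → q ∈ T') ∧
    INV c K F T' ∧ ∀ y, GamP c K r F T' y → y ∈ T' := by
  have hΦ : IF M (fun T : Tt M W => Gam c K r F T) :=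
    IF.of_mem (A := fun T : Tt M W => Gam c K r F T)
      (In.congr (P := fun y : Tt M W × Qd M W => GamP c K r F y.1 y.2)
        (In_GamP hr.out.int (IF.const F) IF.fst IF.snd) fun y => Iff.rfl)
  have hP : In M (fun T : Tt M W => INV c K F T) := In_INV (IF.const F) IF.id
  obtain ⟨T', h1, h2, h3⟩ := bourbaki_witt hΦ hP h (fun T1 hT1 T2 hT2 => by
    have e : T2 = uT T1 (Gam c K r F T1) := ISet.ext fun q => hT2 q
    rw [e]
    exact step_INV hT1) (fun C hne hch hI U hU => INV_union C hne hch hI hU)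
  exact ⟨T', h1, h2, fun y hy => h3 y hy⟩

/-- At the fixed point a new unprotected real has no candidate: otherwise take the candidate `n` with the least label (`HS.lab`, `hr.out.wf`), `x = ev a G`, `a` over `S.1`. `Th c K r F T S G a n` holds; `Good_Th`,
`Good.truth`: some `p ∈ G` forces it, so `GamP c K r F T (S, p, a, n)`, hence `(S, p, a, n) ∈ T` and `PT T S G x (ev n G)` (member `S.1`, `res_self`), contradiction. -/
theorem no_cand [Countable M] (hfix : ∀ y, GamP c K r F T y → y ∈ T) (hS : KK c F T S)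
    {G : Set (Cond W)} (hG : Gen c S.1 G) {x : ℕ → ℕ} (hx : x ∈ RR c S.1 G)
    (hnew : New c F S G x) (hn : ∀ z, ¬ PT T S G x z) (n : Nm M W) : ¬ Cand c K F T S G x n := by
  intro hc
  have hA : {m : Nm M W | ∃ n, (S.1, n, m) ∈ S.2.2 ∧ Cand c K F T S G x n}.Nonempty := by
    obtain ⟨m, hm⟩ := hS.sv.lab S.1 hS.sv.top n hc.1
    exact ⟨m, n, hm, hc⟩
  obtain ⟨m₀, ⟨n₀, hm₀, hc₀⟩, hmin⟩ := hr.out.wf.has_min _ hA
  obtain ⟨a, ha, hax⟩ := hx
  have hTh : Th c K r F T S G a n₀ := by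
    refine ⟨?_, ?_, n₀, ?_, rfl, ?_⟩
    · rw [hax]
      exact hnew
    · rw [hax]
      exact hn
    · rw [hax]
      exact hc₀
    · rw [hax]
      rintro n' hc' ⟨m', m, h1, h2, h3⟩
      have e : m = m₀ := hS.sv.lab1 _ _ _ _ h2 hm₀
      rw [e] at h3
      exact hmin m' ⟨n', h1, hc'⟩ h3
  have hg := Good_Th (c := c) (K := K) (T := Nm M W) hr.out.int (f := fun _ => S.1)
    (IF.const S.1) (F := fun _ => F) (IF.const F) (Tm := fun _ => T) (IF.const T)
    (S := fun _ => S) (IF.const S) (a := fun _ => a) (b := fun _ => n₀) (IF.const a)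
    (IF.const n₀)
  obtain ⟨p, hp, hfo⟩ := hg.truth (IF.const S.1) (t := a) hG hTh
  have hmem : ((S, p, a, n₀) : Qd M W) ∈ T :=
    hfix (S, p, a, n₀) ⟨hS, hG.sub p hp, ha, hc₀.1, hfo⟩
  refine hn (ev n₀ G) ⟨S.1, hS.sv.top, p, hp, a, n₀, ?_, hax, rfl⟩
  rw [res_self hS.sv]
  exact hmem

/-- **(K9)** in `S`, at the least member `D` of `x`: `no_cand` for `res S D` (in the class: `KK_res`) at `G ∩ PP c D` (generic: `Gen.restrict`); `x` is new there by minimality; no protection of `x` in `res S D`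
(`PT_up`, `PT_inter`); `z = ev n G` with `n` over `D`; so `n` is not a candidate, and as `(x, z)` is not coded in `D` it is kickable (`El_inter`, `Kb_inter`). -/
theorem K9 [Countable M] (h : INV c K F T) (hfix : ∀ y, GamP c K r F T y → y ∈ T)
    (hS : KK c F T S) {G : Set (Cond W)} (hG : Gen c S.1 G) {x z : ℕ → ℕ}
    (hn : ∀ w, ¬ PT T S G x w) {D : Pl M W} (hD : Mem S D) (hFD : Sb F.1 D)
    (hx : x ∈ RR c D G) (hmin : ∀ D', Mem S D' → Sb F.1 D' → x ∈ RR c D' G → Sb D D')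
    (hz : z ∈ RR c D G) (hel : ¬ Elc D G x z) : Kb c K F T (res S D) G x z := by
  by_contra hnk
  obtain ⟨vD, sD⟩ := hS.sv.sub D hD
  have hKD : KK c F T (res S D) := KK_res h.i0 hS hD hFD
  have hGD : Gen c D (G ∩ PP c D) := hG.restrict vD sD
  have hxD : x ∈ RR c (res S D).1 (G ∩ PP c D) := by
    show x ∈ RR c D (G ∩ PP c D)
    rw [RR_inter]
    exact hx
  have hnew : New c F (res S D) (G ∩ PP c D) x := by
    intro D' hD' hne hFD' hx'
    obtain ⟨hm', hs'⟩ := Mem_res.1 hD'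
    have e : RR c D' (G ∩ PP c D) = RR c D' G := by
      rw [← RR_inter (D := D') (G := G ∩ PP c D), ← RR_inter (D := D') (G := G),
        Set.inter_assoc, Set.inter_eq_right.2 (PP_mono hs')]
    rw [e] at hx'
    exact hne ((hmin D' hm' hFD' hx').antisymm hs').symm
  have hnp : ∀ w, ¬ PT T (res S D) (G ∩ PP c D) x w := by
    intro w hw
    have h1 : PT T (res S D) G x w := (PT_inter h.i0 (SV_res hS.sv.toHS hD).toHS).1 hw
    exact hn w (PT_up (SLe_res hD) h1)
  obtain ⟨n, hnm, hev⟩ := hz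
  refine no_cand hfix hKD hGD hxD hnew hnp n ⟨hnm, ?_, ?_⟩
  · rw [ev_inter hnm, hev]
    intro h1
    exact hel ((El_inter vD).1 h1)
  · rw [ev_inter hnm, hev]
    intro h1
    exact hnk ((Kb_inter (S := res S D) vD).1 h1)

end Pool.Agent.H.MP_20495c_lc
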