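import Pool.Agent.H.MP_20495c_lc.B.Str
import Pool.Agent.H.MP_a163f2_lc.R.Re

/-!
# Part B, module GenX: extension of generic filters to bigger plans; locality of the notions
-/

set_option autoImplicit false
set_option linter.unusedSectionVars false

namespace Pool.Agent.H.MP_20495c_lc

open Pool.Agent.H.MP_07d118_lc Pool.Agent.H.MP_a163f2_lc

universe u v w x

variable {M : Type u} [SetStr M] [ZFC M] [Std M] {W : Type v} [LinearOrder W] [Cd M W] [Om1 M W]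
variable {c : W × Hc → ℕ → ℕ} [hL : Fact (Luz M W c)]
variable {K : Set (ℕ → ℕ) → (ℕ → ℕ) → (ℕ → ℕ) → Prop} {r : Nm M W → Nm M W → Prop}
variable {S S' F : Stc M W} {T T' : Tt M W}

/-- One step: a condition of `g` below `q` in the dense set `D`, with restriction in `G'`. -/
theorem GenX_step {f g : Pl M W} (hf : Valid c f) (h : Sb f g) {G' : Set (Cond W)}
    (hG' : Gen c f G') {q : Cond W} (hq : q ∈ PP c g) (hqG : crs f.dom q ∈ G')
    (D : ISet M (Cond W)) (hD : ∀ p ∈ PP c g, ∃ q ∈ PP c g, CLe c q p ∧ q ∈ D) :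
    ∃ r, r ∈ PP c g ∧ crs f.dom r ∈ G' ∧ CLe c r q ∧ r ∈ D := by
  have hin : In M (fun s : Cond W => ∃ r : Cond W, r ∈ PP c g ∧ CLe c r q ∧ r ∈ D ∧
      crs f.dom r = s) := by
    refine In.ex (P := fun (s r : Cond W) => r ∈ PP c g ∧ CLe c r q ∧ r ∈ D ∧
      crs f.dom r = s) ?_
    exact In.and (In.pp (IF.const g) IF.snd) (In.and (In.cle IF.snd (IF.const q))
      (In.and (In.mem IF.snd (IF.const D)) (In.eq (IF.crs (IF.const f) IF.snd) IF.fst)))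
  obtain ⟨s, hs, -, r, hr, h1, h2, h3⟩ := hG'.meets_below hqG (ISet.mk hin) (by
    intro s₀ hs₀ hle
    obtain ⟨a1, a2, a3⟩ := amal h hq hs₀ hle
    obtain ⟨r, hr, h1, h2⟩ := hD _ a1
    exact ⟨crs f.dom r, crs_PP hf h hr, crs_le_of_le hs₀ (h1.trans a3), r, hr, h1.trans a2, h2,
      rfl⟩)
  exact ⟨r, hr, by rw [h3]; exact hs, h1, h2⟩

/-- **Extension of generic filters.** Enumerate the internal sets `Dₙ : ISet M (Cond W)` which are dense in `PP c g` (countably many, `iset_countable`). Starting with `p₀ = p`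
choose `pₙ₊₁ ≤ pₙ` in `Dₙ ∩ PP c g` with `crs f.dom pₙ₊₁ ∈ G'`: the set of `s ∈ PP c f` such that `s = crs f.dom q` for some `q ∈ Dₙ ∩ PP c g`, `q ≤ pₙ`, or `s` is incompatible with
`crs f.dom pₙ`, is internal and predense below (for `s₀ ≤ crs f.dom pₙ` take `q ∈ Dₙ` below `cup s₀ pₙ`, `amal`; then `crs f.dom q ≤ s₀`), so `G'` contains such `s`. Let
`G = {q ∈ PP c g | ∃ n, pₙ ≤ q}`; it is generic.  `G ∩ PP c f = G'`: if `pₙ ≤ q`, `q ∈ PP c f` then `crs f.dom pₙ ≤ q` so `q ∈ G'`. If `s ∈ G'`: the set of `q ∈ PP c g` which are below `s` or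
incompatible with `s` in `PP c g` is internal dense, so some `pₙ` is in it; `pₙ` is compatible with `s` (`t ∈ G'` below `s` and `crs f.dom pₙ`, `amal`); so `pₙ ≤ s`. -/
theorem exists_gen_ext [Countable M] {f g : Pl M W} (hf : Valid c f) (hg : Valid c g)
    (h : Sb f g) {G' : Set (Cond W)} (hG' : Gen c f G') {p : Cond W} (hp : p ∈ PP c g)
    (hpG : crs f.dom p ∈ G') : ∃ G, Gen c g G ∧ p ∈ G ∧ G ∩ PP c f = G' := by
  classical
  haveI : Countable (ISet M (Cond W)) := iset_countable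
  haveI : Nonempty (ISet M (Cond W)) := ⟨ISet.mk (In.const True)⟩
  obtain ⟨e, he⟩ := exists_surjective_nat (ISet M (Cond W))
  have step : ∀ (D : ISet M (Cond W)) (q : {q // q ∈ PP c g ∧ crs f.dom q ∈ G'}),
      ∃ r : {r // r ∈ PP c g ∧ crs f.dom r ∈ G'},
      CLe c r.1 q.1 ∧ ((∀ p ∈ PP c g, ∃ q ∈ PP c g, CLe c q p ∧ q ∈ D) → r.1 ∈ D) := by
    intro D q
    by_cases hD : ∀ p ∈ PP c g, ∃ q ∈ PP c g, CLe c q p ∧ q ∈ D
    · obtain ⟨r, h1, h2, h3, h4⟩ := GenX_step hf h hG' q.2.1 q.2.2 D hD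
      exact ⟨⟨r, h1, h2⟩, h3, fun _ => h4⟩
    · exact ⟨q, CLe.refl _, fun h => absurd h hD⟩
  choose s hs1 hs2 using step
  let a : ℕ → {q // q ∈ PP c g ∧ crs f.dom q ∈ G'} :=
    fun n => Nat.rec ⟨p, hp, hpG⟩ (fun n q => s (e n) q) n
  have ha0 : a 0 = ⟨p, hp, hpG⟩ := rfl
  have haS : ∀ n, a (n + 1) = s (e n) (a n) := fun n => rfl
  have hmono : ∀ m n, m ≤ n → CLe c (a n).1 (a m).1 := by
    intro m n h
    induction n, h using Nat.le_induction with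
    | base => exact CLe.refl _
    | succ n _ ih =>
      rw [haS]
      exact (hs1 _ _).trans ih
  have hmeet : ∀ D : ISet M (Cond W), (∀ p ∈ PP c g, ∃ q ∈ PP c g, CLe c q p ∧ q ∈ D) →
      ∃ n, (a n).1 ∈ D := by
    intro D hD
    obtain ⟨n, rfl⟩ := he D
    refine ⟨n + 1, ?_⟩
    rw [haS]
    exact hs2 _ _ hD
  refine ⟨{q | q ∈ PP c g ∧ ∃ n, CLe c (a n).1 q}, ⟨?_, ?_, ?_, ?_, ?_⟩,
    ⟨hp, 0, CLe.refl _⟩, ?_⟩
  · rintro q ⟨h1, -⟩
    exact h1
  · exact ⟨p, hp, 0, CLe.refl _⟩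
  · rintro q ⟨-, n, h2⟩ r hr h3
    exact ⟨hr, n, h2.trans h3⟩
  · rintro q ⟨-, n, h2⟩ r ⟨-, m, h4⟩
    refine ⟨(a (max n m)).1, ⟨(a (max n m)).2.1, max n m, CLe.refl _⟩, ?_, ?_⟩
    · exact (hmono _ _ (le_max_left _ _)).trans h2
    · exact (hmono _ _ (le_max_right _ _)).trans h4
  · intro D hD
    obtain ⟨n, hn⟩ := hmeet D hD
    exact ⟨(a n).1, ⟨(a n).2.1, n, CLe.refl _⟩, hn⟩
  · refine Set.Subset.antisymm ?_ ?_
    · rintro q ⟨⟨-, n, h2⟩, h3⟩
      exact hG'.up _ (a n).2.2 q h3 (crs_le_of_le h3 h2)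
    · intro t ht
      have htf := hG'.sub t ht
      refine ⟨⟨PP_mono h htf, ?_⟩, htf⟩
      have hin : In M (fun q : Cond W => CLe c q t ∨
          ¬ ∃ r : Cond W, r ∈ PP c g ∧ CLe c r q ∧ CLe c r t) := by
        refine In.or (In.cle IF.id (IF.const t)) (In.not ?_)
        refine In.ex (P := fun (q r : Cond W) => r ∈ PP c g ∧ CLe c r q ∧ CLe c r t) ?_
        exact In.and (In.pp (IF.const g) IF.snd) (In.and (In.cle IF.snd IF.fst)
          (In.cle IF.snd (IF.const t)))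
      obtain ⟨n, hn⟩ := hmeet (ISet.mk hin) (by
        intro q hq
        by_cases h1 : ∃ r : Cond W, r ∈ PP c g ∧ CLe c r q ∧ CLe c r t
        · obtain ⟨r, hr, h2, h3⟩ := h1
          exact ⟨r, hr, h2, Or.inl h3⟩
        · exact ⟨q, hq, CLe.refl _, Or.inr h1⟩)
      refine ⟨n, ?_⟩
      rcases hn with h1 | h1
      · exact h1
      · exfalso
        apply h1
        obtain ⟨u, hu, h2, h3⟩ := hG'.dir _ (a n).2.2 t ht
        obtain ⟨a1, a2, a3⟩ := amal h (a n).2.1 (hG'.sub u hu) h2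
        exact ⟨_, a1, a2, a3.trans h3⟩

theorem exists_gen_ext0 [Countable M] {f g : Pl M W} (hf : Valid c f) (hg : Valid c g)
    (h : Sb f g) {G' : Set (Cond W)} (hG' : Gen c f G') : ∃ G, Gen c g G ∧ G ∩ PP c f = G' := by
  obtain ⟨G, h1, -, h2⟩ := exists_gen_ext hf hg h hG' (empty_PP g) (by
    rw [PP.crs_eq (c := c) (empty_PP f)]
    exact hG'.empty_mem)
  exact ⟨G, h1, h2⟩

/-- A condition of the subplan `D` is in `G` iff it is in `G ∩ PP c D`; `ev_inter`. -/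
theorem El_inter {D : Pl M W} (hv : Valid c D) {G : Set (Cond W)} {x z : ℕ → ℕ} :
    Elc D (G ∩ PP c D) x z ↔ Elc D G x z := by
  constructor
  · rintro ⟨ν, hν, h⟩
    rw [ev_inter (hv.nm ν hν)] at h
    exact ⟨ν, hν, h⟩
  · rintro ⟨ν, hν, h⟩
    refine ⟨ν, hν, ?_⟩
    rw [ev_inter (hv.nm ν hν)]
    exact h

/-- `IsNm c D b`, `IsNm c D a`, `p ∈ PP c D` for the entries `(res S D, p, a, b)` of `T` (`I0`), `PP_mono`, `ev_inter`. -/
theorem PT_inter (hT : I0 c T) (hS : HS c S) {G : Set (Cond W)} {x z : ℕ → ℕ} :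
    PT T S (G ∩ PP c S.1) x z ↔ PT T S G x z := by
  have key : ∀ (D : Pl M W), Mem S D → ∀ (p : Cond W) (a b : Nm M W), (res S D, p, a, b) ∈ T →
      p ∈ PP c S.1 ∧ ev a (G ∩ PP c S.1) = ev a G ∧ ev b (G ∩ PP c S.1) = ev b G := by
    intro D hD p a b hm
    obtain ⟨-, h1, h2, h3⟩ := hT _ hm
    obtain ⟨h4, h5⟩ := hS.sub D hD
    exact ⟨PP_mono h5 h1, ev_inter (IsNm.mono h4 h5 h2), ev_inter (IsNm.mono h4 h5 h3)⟩
  constructor
  · rintro ⟨D, hD, p, hp, a, b, hm, h1, h2⟩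
    obtain ⟨-, k2, k3⟩ := key D hD p a b hm
    rw [k2] at h1
    rw [k3] at h2
    exact ⟨D, hD, p, hp.1, a, b, hm, h1, h2⟩
  · rintro ⟨D, hD, p, hp, a, b, hm, h1, h2⟩
    obtain ⟨k1, k2, k3⟩ := key D hD p a b hm
    exact ⟨D, hD, p, ⟨hp, k1⟩, a, b, hm, by rw [k2]; exact h1, by rw [k3]; exact h2⟩

/-- `crs S.1.dom p ∈ PP c S.1` for `p ∈ PP c S'.1` (`crs_PP`), `ev_inter`. -/
theorem Kb_inter (hS : Valid c S.1) {G : Set (Cond W)} {x z : ℕ → ℕ} :
    Kb c K F T S (G ∩ PP c S.1) x z ↔ Kb c K F T S G x z := by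
  constructor
  · rintro ⟨S', hS', hle, p, hp, hpG, a, b, ha, hb, h1, h2, h3⟩
    rw [ev_inter ha] at h1
    rw [ev_inter hb] at h2
    exact ⟨S', hS', hle, p, hp, hpG.1, a, b, ha, hb, h1, h2, h3⟩
  · rintro ⟨S', hS', hle, p, hp, hpG, a, b, ha, hb, h1, h2, h3⟩
    have h4 : Sb S.1 S'.1 := hle.sb hS'.sv.toHS
    exact ⟨S', hS', hle, p, hp, ⟨hpG, crs_PP hS h4 hp⟩, a, b, ha, hb, by rw [ev_inter ha]; exact h1,
      by rw [ev_inter hb]; exact h2, h3⟩

theorem PT_mono (h : ∀ q, q ∈ T → q ∈ T') {G : Set (Cond W)} {x z : ℕ → ℕ}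
    (hp : PT T S G x z) : PT T' S G x z := by
  obtain ⟨D, hD, p, hpG, a, b, hm, h1, h2⟩ := hp
  exact ⟨D, hD, p, hpG, a, b, h _ hm, h1, h2⟩

/-- members of `S` are members of `S'` with the same restriction -/
theorem PT_up (h : SLe S S') {G : Set (Cond W)} {x z : ℕ → ℕ} (hp : PT T S G x z) :
    PT T S' G x z := by
  obtain ⟨D, hD, p, hpG, a, b, hm, h1, h2⟩ := hp
  exact ⟨D, h.mem hD, p, hpG, a, b, by rw [h.res_eq hD]; exact hm, h1, h2⟩

/-- **Locality.** The witness `D₁` of `PT T S G x z` satisfies `Sb D₁ D` by `I2`. -/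
theorem LOC (hI2 : I2 c F T) (hS : SV c S) (hF : SLe F S) (hC : Cmp F S) {D : Pl M W}
    (hD : Mem S D) (hFD : Sb F.1 D) {G : Set (Cond W)} (hG : Gen c S.1 G) {x z : ℕ → ℕ}
    (hx : x ∈ RR c D G) (h : PT T S G x z) : PT T (res S D) G x z := by
  obtain ⟨D₁, hD₁, p, hpG, a, b, hm, h1, h2⟩ := h
  have hs : Sb D₁ D := hI2 S hS hF hC D₁ hD₁ p a b hm D hD hFD G hG hpG (by rw [h1]; exact hx)
  exact ⟨D₁, Mem_res.2 ⟨hD₁, hs⟩, p, hpG, a, b, by rw [res_res hs]; exact hm, h1, h2⟩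

theorem GenX_zx (x z : ℕ → ℕ) : zx (T3 x z 0) = x := by
  funext n
  unfold zx T3
  rw [if_neg (by omega), if_pos (by omega)]
  congr 1
  omega

theorem GenX_za (x z : ℕ → ℕ) : za (T3 x z 0) = z := by
  funext n
  unfold za T3
  rw [if_neg (by omega), if_neg (by omega)]
  congr 1
  omega

/-- the reals coded by a node lie over every plan over which its name lives -/
theorem node_RR [Countable M] {g D : Pl M W} (hg : Valid c g) (hv : Valid c D) (hD : Sb D g)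
    {G : Set (Cond W)} (hG : Gen c g G) {n : Nm M W} (hn : IsNm c D n) {x z : ℕ → ℕ}
    (h : ev n G = T3 x z 0) : x ∈ RR c D G ∧ z ∈ RR c D G := by
  have hG1 := hG.restrict hv hD
  have h1 : T3 x z 0 ∈ RR c D (G ∩ PP c D) := by
    rw [RR_inter, ← h]
    exact ⟨n, hn, rfl⟩
  have h2 := RR_zx hv hG1 h1
  have h3 := RR_za hv hG1 h1
  rw [GenX_zx, RR_inter] at h2
  rw [GenX_za, RR_inter] at h3
  exact ⟨h2, h3⟩

end Pool.Agent.H.MP_20495c_lc
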