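import Pool.Agent.H.MP_20495c_lc.B.Clo

/-!
# Part B, module GoodS: every structure of the class is below a good one
-/

set_option autoImplicit false
set_option linter.unusedSectionVars false

namespace Pool.Agent.H.MP_20495c_lc

open Pool.Agent.H.MP_07d118_lc Pool.Agent.H.MP_a163f2_lc

universe u v w x

variable {M : Type u} [SetStr M] [ZFC M] [Std M] {W : Type v} [LinearOrder W] [Cd M W] [Om1 M W]
variable {c : W × Hc → ℕ → ℕ} [hL : Fact (Luz M W c)]
variable {K : Set (ℕ → ℕ) → (ℕ → ℕ) → (ℕ → ℕ) → Prop} {r : Nm M W → Nm M W → Prop}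
variable {S S' F : Stc M W} {T : Tt M W} [hK : Fact (KOK M W c K)] [hr : Fact (WOr M r)]

/-- Good structures: for every coded pair `(x, z)`, `x` has a protected partner, or `(x, z)` is dead, or there is `w` with `(x, w)` uncoded and not kickable. -/
def GoodS (c : W × Hc → ℕ → ℕ) (K : Set (ℕ → ℕ) → (ℕ → ℕ) → (ℕ → ℕ) → Prop) (F : Stc M W)
    (T : Tt M W) (S : Stc M W) : Prop :=
  ∀ ν ∈ S.1.dom, ∀ G, Gen c S.1 G → ∀ x z, ev (S.1.nm ν) G = T3 x z 0 →
    (∃ z', PT T S G x z') ∨ K (RR c S.1 G) x z ∨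
      ∃ w ∈ RR c S.1 G, ¬ Elc S.1 G x w ∧ ¬ Kb c K F T S G x w

/-- Marks in the union of a chain of pairs with a default node on top: as in `marks_sys`. For a mark `E ∈ (Fm t).2` and a node `ν` of `S'` outside the base: `ν` is in some `(Fm u).1.1.dom`, `P u` (`stUn_dom`); in the bigger one `v` of `t`, `u`
both `E ∈ (Fm v).2` and `ν` is a node; `MV` at `v` gives a support, which is a member of `S'`, with the same name (`Sb.nm_eq`); or `ν` is the default top node (`dfn_support`). -/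
theorem MK_chain [Countable M] {X : Type v} [Cd M X] {P : X → Prop} (hP : In M P)
    {Fm : X → MS M W} (hFm : IF M (fun t => (Fm t).1))
    (hch : ∀ i j, P i → P j → MLe c F T (Fm i) (Fm j) ∨ MLe c F T (Fm j) (Fm i))
    (hK : ∀ t, P t → MV c F T (Fm t)) {ν : W}
    (hS' : IsTop c (stUn P hP (fun t => (Fm t).1) hFm) S' ν dfn) (hk : KK c F T S')
    (hle : ∀ t, P t → SLe (Fm t).1 S') {t : X} (ht : P t) {E : Pl M W} (hE : E ∈ (Fm t).2) :
    MK c F S' E := by
  have hMK := (hK t ht).2 E hE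
  refine ⟨(hle t ht).mem hMK.mem, hMK.nb, fun μ hμ hμF => ?_⟩
  rcases (hS'.dom μ).1 hμ with h1 | h1
  · rw [h1] at hμF ⊢
    exact dfn_support hS' hk.le.1 hμF hMK.nb
  · obtain ⟨u, hu, h2⟩ := stUn_dom.1 h1
    have key : ∀ v, P v → E ∈ (Fm v).2 → μ ∈ (Fm v).1.1.dom →
        ∃ D, Mem S' D ∧ μ ∉ D.dom ∧ IsNm c D (S'.1.nm μ) ∧ ¬ Sb E D := by
      intro v hv hEv hμv
      obtain ⟨D, hD, h3, h4, h5⟩ := ((hK v hv).2 E hEv).sup μ hμv hμF
      refine ⟨D, (hle v hv).mem hD, h3, ?_, h5⟩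
      rw [((hle v hv).sb hk.sv.toHS).nm_eq hμv]
      exact h4
    rcases hch t u ht hu with h3 | h3
    · have h4 : SLe (Fm u).1 (Fm t).1 := h3.sle (hK u hu)
      exact key t ht hE ((h4.sb (hK t ht).1.sv.toHS).dom h2)
    · refine key u hu ?_ h2
      rcases h3 with h3 | h3
      · rw [h3]
        exact hE
      · exact h3.2.2.2 E hE

/-- A solution in `t`, seen in a structure `S'` above `t.1` in which the marks of `t` are marks, is a good one. `PT_up`; `hK.out.up`; for a witness `E`, `w`: `Wit.up`, `Wit_inter`, then `Wit.not_el` gives `¬ Elc`, `Wit.wE` gives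
`w ∈ RR c S'.1 G`, and `Kb_down` (`SLe_res`) and `Wit.unk` give `¬ Kb`. (`SolN` at `G ∩ PP c t.1.1`, which is generic for `t.1.1`; the value of `ν` is the same.) -/
theorem good_of_SolN [Countable M] (hI0 : I0 c T) {t : MS M W} (ht : MV c F T t)
    (hk : KK c F T S') (hle : SLe t.1 S') (hm : ∀ E, E ∈ t.2 → MK c F S' E) {ν : W}
    (hν : ν ∈ t.1.1.dom) {G : Set (Cond W)} (hG : Gen c S'.1 G)
    (hs : SolN c K F T t ν (G ∩ PP c t.1.1)) {x z : ℕ → ℕ} (he : ev (S'.1.nm ν) G = T3 x z 0) :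
    (∃ z', PT T S' G x z') ∨ K (RR c S'.1 G) x z ∨
      ∃ w ∈ RR c S'.1 G, ¬ Elc S'.1 G x w ∧ ¬ Kb c K F T S' G x w := by
  have hv := ht.1.sv.val
  have hsb : Sb t.1.1 S'.1 := hle.sb hk.sv.toHS
  have hn : IsNm c t.1.1 (t.1.1.nm ν) := hv.nm ν hν
  rw [hsb.nm_eq hν] at he
  have he' : ev (t.1.1.nm ν) (G ∩ PP c t.1.1) = T3 x z 0 := by
    rw [ev_inter hn]
    exact he
  have hR : RR c t.1.1 (G ∩ PP c t.1.1) = RR c t.1.1 G := RR_inter
  rcases hs x z he' with ⟨z', h1⟩ | h1 | ⟨E, hE, w, hw⟩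
  · exact Or.inl ⟨z', PT_up hle ((PT_inter hI0 ht.1.sv.toHS).1 h1)⟩
  · obtain ⟨hx, hz⟩ := node_RR hk.sv.val hv hsb hG hn he
    rw [hR] at h1
    exact Or.inr (Or.inl (hK.out.up _ _ hv hk.sv.val hsb G hG x hx z hz h1))
  · have hEt := (ht.2 E hE).mem
    have hw1 : Wit c K F T t.1 E G x w := (Wit_inter ht.1.sv hEt).1 hw
    have hw2 : Wit c K F T S' E G x w := hw1.up hk.sv hle hEt
    have hES := hle.mem hEt
    have hw3 : ¬ Elc S'.1 G x w := Wit.not_el hk (hm E hE) hG hw2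
    obtain ⟨hEv, hEs⟩ := hk.sv.sub E hES
    exact Or.inr (Or.inr ⟨w, RR_mono hEv hEs hw2.wE, hw3, fun h2 =>
      hw2.unk (Kb_down hk.sv (SLe_res hES) hG hw2.xE hw2.wE h2)⟩)

/-- Choose internally a function `step : MS M W → MS M W` with the property of `closure_step` (`In.choice`; `In_MV`, `In_MLe`, `Good_SolN`, `Good.fo`, `In.pdom`), iterate: `e 0 = (S, ∅)`, `e (n+1) = step (e n)` (`IF.natRec`, see
`Sys.decide_all` for the pattern). The structures `(e n).1` form a chain; `KK_chain` with `X = ℕ` if `ℕ` is coded in the universe of `X`, otherwise `X = MS M W`, `P u := ∃ n, e n = u`, `Fm = Prod.fst` (countable: `ICt.range`), gives `S'` in the class with a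
default node on top. `GoodS`: a node `ν` of `S'` is the top one (`dfn_ne`) or in some `(e n).1.1.dom`, then it is solved in `e (n+1)`: `good_of_SolN` with `MK_chain`. -/
theorem exists_good [Countable M] (hst : State c K r (F, T)) (hS : KK c F T S) :
    ∃ S', KK c F T S' ∧ SLe S S' ∧ GoodS c K F T S' := by
  have hI0 : I0 c T := hst.inv.i0
  have hI2 : I2 c F T := hst.inv.i2
  obtain ⟨step, hstep, hR⟩ := In.choice (M := M) (R := fun (s t : MS M W) => MV c F T s →
      (MV c F T t ∧ MLe c F T t s ∧ ∀ ν, ν ∈ s.1.1.dom →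
        Fo c t.1.1 (∅, ∅) (fun G => SolN c K F T t ν G))) (by
    refine In.imp (In_MV.comp IF.fst) (In.and (In_MV.comp IF.snd) (In.and
      (In_MLe.comp (IF.snd.pair IF.fst)) ?_))
    refine In.all (P := fun (y : MS M W × MS M W) (ν : W) => ν ∈ y.1.1.1.dom →
      Fo c y.2.1.1 (∅, ∅) (fun G => SolN c K F T y.2 ν G)) (In.imp ?_ ?_)
    · exact In.pdom IF.snd (IF.comp IF.fst (IF.comp IF.fst (IF.comp IF.fst IF.fst)))
    · exact Good.fo (f := fun y : (MS M W × MS M W) × W => y.1.2.1.1)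
        (IF.comp IF.fst (IF.comp IF.fst (IF.comp IF.snd IF.fst)))
        (Good_SolN (IF.comp IF.snd IF.fst) IF.snd) (IF.const (∅, ∅))) (by
    intro s
    by_cases hs : MV c F T s
    · obtain ⟨t, h1, h2, h3⟩ := closure_step hst hs
      exact ⟨t, fun _ => ⟨h1, h2, h3⟩⟩
    · exact ⟨s, fun h => absurd h hs⟩)
  let s₀ : MS M W := (S, ISet.mk (In.const False))
  have hs₀ : MV c F T s₀ := ⟨hS, fun E hE => hE.elim⟩
  let e : ℕ → MS M W := fun n => Nat.rec (motive := fun _ => MS M W) s₀ (fun _ t => step t) n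
  have he : IF M e := by
    have h1 := IF.natRec (M := M) (S := ℕ) (T := MS M W) (a := fun _ => s₀) (IF.const s₀)
      (g := fun y => step y.2.2) (IF.comp hstep (IF.comp IF.snd IF.snd))
    exact IF.comp h1 (f := fun n : ℕ => (0, n)) (IF.pair (IF.const 0) IF.id)
  have e0 : e 0 = s₀ := rfl
  have es : ∀ n, e (n + 1) = step (e n) := fun n => rfl
  have hinv : ∀ n, MV c F T (e n) := by
    intro n
    induction n with
    | zero => exact hs₀
    | succ n ih =>
      rw [es]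
      exact (hR (e n) ih).1
  have hle : ∀ n k, MLe c F T (e (n + k)) (e n) := by
    intro n k
    induction k with
    | zero => exact Or.inl rfl
    | succ k ih =>
      rw [← add_assoc, es]
      exact (hR (e (n + k)) (hinv _)).2.1.trans ih
  have hC : In M (fun x : MS M W => ∃ n : ℕ, e n = x) :=
    In.ex (P := fun (x : MS M W) (n : ℕ) => e n = x) (In.eq (IF.comp he IF.snd) IF.fst)
  have hch : ∀ i j : MS M W, (∃ n : ℕ, e n = i) → (∃ n : ℕ, e n = j) →
      MLe c F T i j ∨ MLe c F T j i := by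
    rintro _ _ ⟨n, rfl⟩ ⟨m, rfl⟩
    rcases le_total n m with h | h
    · right
      obtain ⟨k, rfl⟩ := Nat.exists_eq_add_of_le h
      exact hle n k
    · left
      obtain ⟨k, rfl⟩ := Nat.exists_eq_add_of_le h
      exact hle m k
  have hMV : ∀ t : MS M W, (∃ n : ℕ, e n = t) → MV c F T t := by
    rintro _ ⟨n, rfl⟩
    exact hinv n
  have hfst : IF M (fun t : MS M W => t.1) := IF.fst
  obtain ⟨ν₀, S', htop, hk, hsle⟩ := KK_chain (X := MS M W) hI0 hI2 hC hfst (by
    intro i j hi hj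
    rcases hch i j hi hj with h | h
    · exact Or.inr (h.sle (hMV j hj))
    · exact Or.inl (h.sle (hMV i hi))) ⟨_, 0, rfl⟩ ((ICt.range he).mono (fun x hx => hx))
    (fun t ht => (hMV t ht).1)
  refine ⟨S', hk, hsle s₀ ⟨0, rfl⟩, ?_⟩
  intro ν hν G hG x z hx
  rcases (htop.dom ν).1 hν with h1 | h1
  · rw [h1, htop.nm] at hx
    exact absurd hx (dfn_ne hG x z)
  · obtain ⟨_, ⟨n, rfl⟩, h2⟩ := stUn_dom.1 h1
    have h3 := (hR (e n) (hinv n)).2.2 ν h2
    rw [← es] at h3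
    have ht := hinv (n + 1)
    have hl : SLe (e (n + 1)).1 S' := hsle (e (n + 1)) ⟨n + 1, rfl⟩
    have hs1 : SLe (e n).1 (e (n + 1)).1 := (hle n 1).sle (hinv n)
    have hν' : ν ∈ (e (n + 1)).1.1.dom := (hs1.sb ht.1.sv.toHS).dom h2
    have hG' : Gen c (e (n + 1)).1.1 (G ∩ PP c (e (n + 1)).1.1) :=
      Gen.restrict ht.1.sv.val (hl.sb hk.sv.toHS) hG
    exact good_of_SolN hI0 ht hk hl (fun E hE => MK_chain (X := MS M W) (Fm := fun u => u) hC
      hfst hch hMV htop hk hsle ⟨n + 1, rfl⟩ hE) hν' hG (h3 _ hG' hG'.empty_mem) hx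

end Pool.Agent.H.MP_20495c_lc
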