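import Pool.Agent.H.MP_20495c_lc.B.Str

/-!
# Part B, module Int1: internality of the basic relations on structures
-/

set_option autoImplicit false
set_option linter.unusedSectionVars false

namespace Pool.Agent.H.MP_20495c_lc

open Pool.Agent.H.MP_07d118_lc Pool.Agent.H.MP_a163f2_lc

universe u v w x

variable {M : Type u} [SetStr M] [ZFC M] [Std M] {W : Type v} [LinearOrder W] [Cd M W] [Om1 M W]
variable {c : W × Hc → ℕ → ℕ} [hL : Fact (Luz M W c)]
variable {T : Type w} [Cd M T]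

theorem In_Mem {S : T → Stc M W} (hS : IF M S) {D : T → Pl M W} (hD : IF M D) :
    In M (fun t => Mem (S t) (D t)) := by
  exact In.ex (P := fun (t : T) (α : W) => (α, D t) ∈ (S t).2.1)
    (In.mem (IF.snd.pair (hD.comp IF.fst)) (IF.fst.comp (IF.snd.comp (hS.comp IF.fst))))

theorem IF_plI {D D' : T → Pl M W} (hD : IF M D) (hD' : IF M D') :
    IF M (fun t => plI (D t) (D' t)) := by
  refine IF.of_mem (In.congr (P := fun y : T × (W × Cond W × Fs) => y.2 ∈ D y.1 ∧ y.2 ∈ D' y.1) ?_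
    fun y => Iff.rfl)
  exact In.and (In.mem IF.snd (hD.comp IF.fst)) (In.mem IF.snd (hD'.comp IF.fst))

/-- `IF.pair`, `IF.of_mem`, `In.sb`. -/
theorem IF_res {S : T → Stc M W} (hS : IF M S) {D : T → Pl M W} (hD : IF M D) :
    IF M (fun t => res (S t) (D t)) := by
  refine IF.pair (f := fun t => D t) (g := fun t => (res (S t) (D t)).2) hD
    (IF.pair (f := fun t => (res (S t) (D t)).2.1) (g := fun t => (res (S t) (D t)).2.2) ?_ ?_)
  · refine IF.of_mem (A := fun t => (res (S t) (D t)).2.1) (In.congr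
      (P := fun y : T × (W × Pl M W) => y.2 ∈ (S y.1).2.1 ∧ Sb y.2.2 (D y.1)) ?_ fun y => Iff.rfl)
    exact In.and (In.mem IF.snd (IF.fst.comp (IF.snd.comp (hS.comp IF.fst))))
      (In.sb (IF.snd.comp IF.snd) (hD.comp IF.fst))
  · refine IF.of_mem (A := fun t => (res (S t) (D t)).2.2) (In.congr
      (P := fun y : T × (Pl M W × Nm M W × Nm M W) => y.2 ∈ (S y.1).2.2 ∧ Sb y.2.1 (D y.1)) ?_
      fun y => Iff.rfl)
    exact In.and (In.mem IF.snd (IF.snd.comp (IF.snd.comp (hS.comp IF.fst))))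
      (In.sb (IF.fst.comp IF.snd) (hD.comp IF.fst))

/-- the statement for the identity -/
theorem Int1_HS : In M (fun S : Stc M W => HS c S) := by
  have s1 : IF M (fun S : Stc M W => S.1) := IF.fst
  have s2 : IF M (fun S : Stc M W => S.2.1) := IF.fst.comp IF.snd
  have s3 : IF M (fun S : Stc M W => S.2.2) := IF.snd.comp IF.snd
  have h1 : In M (fun S : Stc M W => Valid c S.1) := In.valid s1
  have h2 : In M (fun S : Stc M W => ∀ D : Pl M W, Mem S D → Valid c D ∧ Sb D S.1) :=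
    In.all (P := fun (S : Stc M W) (D : Pl M W) => Mem S D → Valid c D ∧ Sb D S.1)
      (In.imp (In_Mem IF.fst IF.snd) (In.and (In.valid IF.snd) (In.sb IF.snd (s1.comp IF.fst))))
  have h3 : In M (fun S : Stc M W => ∀ y : W × W × Pl M W, (y.1, y.2.2) ∈ S.2.1 →
      (y.2.1, y.2.2) ∈ S.2.1 → y.1 = y.2.1) := by
    refine In.all (P := fun (S : Stc M W) (y : W × W × Pl M W) => (y.1, y.2.2) ∈ S.2.1 →
      (y.2.1, y.2.2) ∈ S.2.1 → y.1 = y.2.1) ?_
    have e1 : IF M (fun z : Stc M W × (W × W × Pl M W) => z.2.1) := IF.fst.comp IF.snd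
    have e2 : IF M (fun z : Stc M W × (W × W × Pl M W) => z.2.2.1) :=
      IF.fst.comp (IF.snd.comp IF.snd)
    have e3 : IF M (fun z : Stc M W × (W × W × Pl M W) => z.2.2.2) :=
      IF.snd.comp (IF.snd.comp IF.snd)
    exact In.imp (In.mem (e1.pair e3) (s2.comp IF.fst)) (In.imp (In.mem (e2.pair e3)
      (s2.comp IF.fst)) (In.eq e1 e2))
  have h4 : In M (fun S : Stc M W => ∀ y : W × W × Pl M W × Pl M W, (y.1, y.2.2.1) ∈ S.2.1 →
      (y.2.1, y.2.2.2) ∈ S.2.1 → Sb y.2.2.1 y.2.2.2 → ¬ y.2.2.1 = y.2.2.2 → y.1 < y.2.1) := by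
    refine In.all (P := fun (S : Stc M W) (y : W × W × Pl M W × Pl M W) =>
      (y.1, y.2.2.1) ∈ S.2.1 →
      (y.2.1, y.2.2.2) ∈ S.2.1 → Sb y.2.2.1 y.2.2.2 → ¬ y.2.2.1 = y.2.2.2 → y.1 < y.2.1) ?_
    have e1 : IF M (fun z : Stc M W × (W × W × Pl M W × Pl M W) => z.2.1) := IF.fst.comp IF.snd
    have e2 : IF M (fun z : Stc M W × (W × W × Pl M W × Pl M W) => z.2.2.1) :=
      IF.fst.comp (IF.snd.comp IF.snd)
    have e3 : IF M (fun z : Stc M W × (W × W × Pl M W × Pl M W) => z.2.2.2.1) :=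
      IF.fst.comp (IF.snd.comp (IF.snd.comp IF.snd))
    have e4 : IF M (fun z : Stc M W × (W × W × Pl M W × Pl M W) => z.2.2.2.2) :=
      IF.snd.comp (IF.snd.comp (IF.snd.comp IF.snd))
    exact In.imp (In.mem (e1.pair e3) (s2.comp IF.fst)) (In.imp (In.mem (e2.pair e4)
      (s2.comp IF.fst)) (In.imp (In.sb e3 e4) (In.imp (In.not (In.eq e3 e4)) (In.ltW e1 e2))))
  have h5 : In M (fun S : Stc M W => ∃ β : W, ∀ y : W × Pl M W, y ∈ S.2.1 → y.1 < β) := by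
    refine In.ex (P := fun (S : Stc M W) (β : W) => ∀ y : W × Pl M W, y ∈ S.2.1 → y.1 < β) ?_
    refine In.all (P := fun (u : Stc M W × W) (y : W × Pl M W) => y ∈ u.1.2.1 → y.1 < u.2) ?_
    exact In.imp (In.mem IF.snd (s2.comp (IF.fst.comp IF.fst))) (In.ltW (IF.fst.comp IF.snd)
      (IF.snd.comp IF.fst))
  have h6 : In M (fun S : Stc M W => ∀ y : Pl M W × Pl M W, Mem S y.1 → Mem S y.2 →
      Mem S (plI y.1 y.2)) := by
    refine In.all (P := fun (S : Stc M W) (y : Pl M W × Pl M W) => Mem S y.1 → Mem S y.2 →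
      Mem S (plI y.1 y.2)) ?_
    exact In.imp (In_Mem IF.fst (IF.fst.comp IF.snd)) (In.imp (In_Mem IF.fst
      (IF.snd.comp IF.snd)) (In_Mem IF.fst (IF_plI (IF.fst.comp IF.snd) (IF.snd.comp IF.snd))))
  have h7 : In M (fun S : Stc M W => ∀ ν : W, ν ∈ S.1.dom → ∃ D : Pl M W, Mem S D ∧
      ¬ ν ∈ D.dom ∧ IsNm c D (S.1.nm ν)) := by
    refine In.all (P := fun (S : Stc M W) (ν : W) => ν ∈ S.1.dom → ∃ D : Pl M W, Mem S D ∧
      ¬ ν ∈ D.dom ∧ IsNm c D (S.1.nm ν)) ?_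
    refine In.imp (In.pdom IF.snd (s1.comp IF.fst)) ?_
    refine In.ex (P := fun (u : Stc M W × W) (D : Pl M W) => Mem u.1 D ∧
      ¬ u.2 ∈ D.dom ∧ IsNm c D (u.1.1.nm u.2)) ?_
    exact In.and (In_Mem (IF.fst.comp IF.fst) IF.snd) (In.and (In.not (In.pdom
      (IF.snd.comp IF.fst) IF.snd)) (In.isNm IF.snd (IF.nmP (s1.comp (IF.fst.comp IF.fst))
        (IF.snd.comp IF.fst))))
  have h8 : In M (fun S : Stc M W => ∀ y : Pl M W × Nm M W, Mem S y.1 → IsNm c y.1 y.2 →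
      ∃ m : Nm M W, (y.1, y.2, m) ∈ S.2.2) := by
    refine In.all (P := fun (S : Stc M W) (y : Pl M W × Nm M W) => Mem S y.1 →
      IsNm c y.1 y.2 → ∃ m : Nm M W, (y.1, y.2, m) ∈ S.2.2) ?_
    refine In.imp (In_Mem IF.fst (IF.fst.comp IF.snd)) (In.imp (In.isNm (IF.fst.comp IF.snd)
      (IF.snd.comp IF.snd)) ?_)
    refine In.ex (P := fun (u : Stc M W × (Pl M W × Nm M W)) (m : Nm M W) =>
      (u.2.1, u.2.2, m) ∈ u.1.2.2) ?_
    exact In.mem ((IF.fst.comp (IF.snd.comp IF.fst)).pair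
      ((IF.snd.comp (IF.snd.comp IF.fst)).pair IF.snd)) (s3.comp (IF.fst.comp IF.fst))
  have h9 : In M (fun S : Stc M W => ∀ y : Pl M W × Nm M W × Nm M W × Nm M W,
      (y.1, y.2.1, y.2.2.1) ∈ S.2.2 → (y.1, y.2.1, y.2.2.2) ∈ S.2.2 →
      y.2.2.1 = y.2.2.2) := by
    refine In.all (P := fun (S : Stc M W) (y : Pl M W × Nm M W × Nm M W × Nm M W) =>
      (y.1, y.2.1, y.2.2.1) ∈ S.2.2 → (y.1, y.2.1, y.2.2.2) ∈ S.2.2 →
      y.2.2.1 = y.2.2.2) ?_
    have e1 : IF M (fun z : Stc M W × (Pl M W × Nm M W × Nm M W × Nm M W) => z.2.1) :=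
      IF.fst.comp IF.snd
    have e2 : IF M (fun z : Stc M W × (Pl M W × Nm M W × Nm M W × Nm M W) => z.2.2.1) :=
      IF.fst.comp (IF.snd.comp IF.snd)
    have e3 : IF M (fun z : Stc M W × (Pl M W × Nm M W × Nm M W × Nm M W) => z.2.2.2.1) :=
      IF.fst.comp (IF.snd.comp (IF.snd.comp IF.snd))
    have e4 : IF M (fun z : Stc M W × (Pl M W × Nm M W × Nm M W × Nm M W) => z.2.2.2.2) :=
      IF.snd.comp (IF.snd.comp (IF.snd.comp IF.snd))
    exact In.imp (In.mem (e1.pair (e2.pair e3)) (s3.comp IF.fst)) (In.imp (In.mem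
      (e1.pair (e2.pair e4)) (s3.comp IF.fst)) (In.eq e3 e4))
  have h10 : In M (fun S : Stc M W => ∀ y : Pl M W × Nm M W × Nm M W × Nm M W,
      (y.1, y.2.1, y.2.2.2) ∈ S.2.2 → (y.1, y.2.2.1, y.2.2.2) ∈ S.2.2 →
      y.2.1 = y.2.2.1) := by
    refine In.all (P := fun (S : Stc M W) (y : Pl M W × Nm M W × Nm M W × Nm M W) =>
      (y.1, y.2.1, y.2.2.2) ∈ S.2.2 → (y.1, y.2.2.1, y.2.2.2) ∈ S.2.2 →
      y.2.1 = y.2.2.1) ?_
    have e1 : IF M (fun z : Stc M W × (Pl M W × Nm M W × Nm M W × Nm M W) => z.2.1) :=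
      IF.fst.comp IF.snd
    have e2 : IF M (fun z : Stc M W × (Pl M W × Nm M W × Nm M W × Nm M W) => z.2.2.1) :=
      IF.fst.comp (IF.snd.comp IF.snd)
    have e3 : IF M (fun z : Stc M W × (Pl M W × Nm M W × Nm M W × Nm M W) => z.2.2.2.1) :=
      IF.fst.comp (IF.snd.comp (IF.snd.comp IF.snd))
    have e4 : IF M (fun z : Stc M W × (Pl M W × Nm M W × Nm M W × Nm M W) => z.2.2.2.2) :=
      IF.snd.comp (IF.snd.comp (IF.snd.comp IF.snd))
    exact In.imp (In.mem (e1.pair (e2.pair e4)) (s3.comp IF.fst)) (In.imp (In.mem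
      (e1.pair (e3.pair e4)) (s3.comp IF.fst)) (In.eq e2 e3))
  have h11 : In M (fun S : Stc M W => ∀ y : Pl M W × Nm M W × Nm M W, y ∈ S.2.2 →
      Mem S y.1 ∧ IsNm c y.1 y.2.1) := by
    refine In.all (P := fun (S : Stc M W) (y : Pl M W × Nm M W × Nm M W) => y ∈ S.2.2 →
      Mem S y.1 ∧ IsNm c y.1 y.2.1) ?_
    exact In.imp (In.mem IF.snd (s3.comp IF.fst)) (In.and (In_Mem IF.fst (IF.fst.comp IF.snd))
      (In.isNm (IF.fst.comp IF.snd) (IF.fst.comp (IF.snd.comp IF.snd))))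
  refine (h1.and (h2.and (h3.and (h4.and (h5.and (h6.and (h7.and (h8.and (h9.and
    (h10.and h11)))))))))).congr fun S => ?_
  constructor
  · intro h
    obtain ⟨β, hβ⟩ := h.rbd
    exact ⟨h.val, h.sub, fun y => h.fn _ _ _, fun y => h.rk _ _ _ _, ⟨β, fun y => hβ _ _⟩,
      fun y => h.cap _ _, h.sup, fun y h1 => h.lab _ h1 _, fun y => h.lab1 _ _ _ _,
      fun y => h.labi _ _ _ _, fun y => h.labs _ _ _⟩
  · rintro ⟨k1, k2, k3, k4, ⟨β, k5⟩, k6, k7, k8, k9, k10, k11⟩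
    exact ⟨k1, k2, fun α α' D => k3 (α, α', D), fun α α' D D' => k4 (α, α', D, D'),
      ⟨β, fun α D => k5 (α, D)⟩, fun D D' => k6 (D, D'), k7, fun D h1 n => k8 (D, n) h1,
      fun D n m m' => k9 (D, n, m, m'), fun D n n' m => k10 (D, n, n', m),
      fun D n m => k11 (D, n, m)⟩

/-- `HS c S ↔` the conjunction of its fields, then `In.all`, `In.imp`, `In.valid`, `In.sb`, `In.isNm`, `In.pdom`, `IF.nmP`, `In.ltW`, `In_Mem`, `IF_plI`. -/
theorem In_HS {S : T → Stc M W} (hS : IF M S) : In M (fun t => HS c (S t)) := by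
  exact In.comp (P := fun S : Stc M W => HS c S) Int1_HS hS

theorem In_SV {S : T → Stc M W} (hS : IF M S) : In M (fun t => SV c (S t)) := by
  exact ((In_HS (c := c) hS).and (In_Mem hS (IF.fst.comp hS))).congr fun t =>
    ⟨fun h => ⟨h.toHS, h.top⟩, fun h => ⟨h.1, h.2⟩⟩

theorem In_SLe {S S' : T → Stc M W} (hS : IF M S) (hS' : IF M S') :
    In M (fun t => SLe (S t) (S' t)) := by
  exact (In_Mem hS' (IF.fst.comp hS)).and (In.eq (IF_res hS' (IF.fst.comp hS)) hS)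

theorem In_Cmp {F S : T → Stc M W} (hF : IF M F) (hS : IF M S) :
    In M (fun t => Cmp (F t) (S t)) := by
  exact In.all (P := fun (t : T) (D : Pl M W) => Mem (S t) D → Sb D (F t).1 ∨ Sb (F t).1 D)
    (In.imp (In_Mem (hS.comp IF.fst) IF.snd) (In.or
      (In.sb IF.snd (IF.fst.comp (hF.comp IF.fst)))
      (In.sb (IF.fst.comp (hF.comp IF.fst)) IF.snd)))

/-! ### Good statements -/

/-- `X ∈ RR c D G ↔ ∃ n, IsNm c D n ∧ ev n G = X`: `Good.ex`, `Good.of_in`, `GoodR.ev`, `Good.eqR`. -/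
theorem Good_RR {f : T → Pl M W} (hf : IF M f) {D : T → Pl M W} (hD : IF M D)
    {X : T → Set (Cond W) → ℕ → ℕ} (hX : GoodR c f X) :
    Good c f (fun t G => X t G ∈ RR c (D t) G) := by
  exact (Good.ex (Q := fun (t : T) (n : Nm M W) G => IsNm c (D t) n ∧ ev n G = X t G)
    (Good.and (Good.of_in (In.isNm (hD.comp IF.fst) IF.snd))
      (Good.eqR (hf.comp IF.fst) (GoodR.ev (hf.comp IF.fst) IF.snd)
        (GoodR.comp hX IF.fst)))).congr fun t G _ => Iff.rfl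

/-- the real `T3 X Z 0` is good -/
theorem GoodR_T3 {f : T → Pl M W} (hf : IF M f) {X Z : T → Set (Cond W) → ℕ → ℕ}
    (hX : GoodR c f X) (hZ : GoodR c f Z) : GoodR c f (fun t G => T3 (X t G) (Z t G) 0) := by
  have hd : IF M (fun n : ℕ => n / 2) :=
    IF.prim (Primrec.nat_div.comp Primrec.id (Primrec.const 2))
  have hd1 : IF M (fun n : ℕ => n / 2 - 1) :=
    IF.prim (Primrec.nat_sub.comp (Primrec.nat_div.comp Primrec.id (Primrec.const 2))
      (Primrec.const 1))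
  have hP : In M (fun n : ℕ => n % 2 = 1) :=
    In.eq (IF.prim (Primrec.nat_mod.comp Primrec.id (Primrec.const 2))) (IF.const 1)
  have hP0 : In M (fun n : ℕ => n = 0) := In.eq IF.id (IF.const 0)
  have h1 : GoodF c (fun y : T × ℕ => f y.1) (fun y G => X y.1 G (y.2 / 2)) := GoodF_appI hX hd
  have h2 : GoodF c (fun y : T × ℕ => f y.1) (fun y G => Z y.1 G (y.2 / 2 - 1)) :=
    GoodF_appI hZ hd1
  have h3 := GoodF_iteI (P := fun y : T × ℕ => y.2 % 2 = 1) (In.comp hP IF.snd) h1 h2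
  refine (GoodF_iteI (P := fun y : T × ℕ => y.2 = 0) (In.comp hP0 IF.snd)
    (GoodF.of_if (IF.const 0)) h3).congr fun y G _ => ?_
  unfold T3
  by_cases h : y.2 = 0
  · simp [h]
  · by_cases h' : y.2 % 2 = 1 <;> simp [h, h']

theorem Good_El {f : T → Pl M W} (hf : IF M f) {g : T → Pl M W} (hg : IF M g)
    {X Z : T → Set (Cond W) → ℕ → ℕ} (hX : GoodR c f X) (hZ : GoodR c f Z) :
    Good c f (fun t G => Elc (g t) G (X t G) (Z t G)) := by
  exact (Good.ex (Q := fun (t : T) (ν : W) G => ν ∈ (g t).dom ∧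
      ev ((g t).nm ν) G = T3 (X t G) (Z t G) 0)
    (Good.and (Good.of_in (In.pdom IF.snd (hg.comp IF.fst)))
      (Good.eqR (hf.comp IF.fst) (GoodR.ev (hf.comp IF.fst) (IF.nmP (hg.comp IF.fst) IF.snd))
        (GoodR.comp (GoodR_T3 hf hX hZ) IF.fst)))).congr fun t G _ => Iff.rfl

theorem Good_PT {f : T → Pl M W} (hf : IF M f) {Tm : T → Tt M W} (hT : IF M Tm)
    {S : T → Stc M W} (hS : IF M S) {X Z : T → Set (Cond W) → ℕ → ℕ} (hX : GoodR c f X)
    (hZ : GoodR c f Z) : Good c f (fun t G => PT (Tm t) (S t) G (X t G) (Z t G)) := by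
  have hf' : IF M (fun y : T × (Pl M W × Cond W × Nm M W × Nm M W) => f y.1) := hf.comp IF.fst
  have hS' : IF M (fun y : T × (Pl M W × Cond W × Nm M W × Nm M W) => S y.1) := hS.comp IF.fst
  have hT' : IF M (fun y : T × (Pl M W × Cond W × Nm M W × Nm M W) => Tm y.1) := hT.comp IF.fst
  have e1 : IF M (fun y : T × (Pl M W × Cond W × Nm M W × Nm M W) => y.2.1) := IF.fst.comp IF.snd
  have e2 : IF M (fun y : T × (Pl M W × Cond W × Nm M W × Nm M W) => y.2.2.1) :=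
    IF.fst.comp (IF.snd.comp IF.snd)
  have e3 : IF M (fun y : T × (Pl M W × Cond W × Nm M W × Nm M W) => y.2.2.2.1) :=
    IF.fst.comp (IF.snd.comp (IF.snd.comp IF.snd))
  have e4 : IF M (fun y : T × (Pl M W × Cond W × Nm M W × Nm M W) => y.2.2.2.2) :=
    IF.snd.comp (IF.snd.comp (IF.snd.comp IF.snd))
  have hX' : GoodR c (fun y : T × (Pl M W × Cond W × Nm M W × Nm M W) => f y.1)
      (fun y G => X y.1 G) := GoodR.comp hX IF.fst
  have hZ' : GoodR c (fun y : T × (Pl M W × Cond W × Nm M W × Nm M W) => f y.1)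
      (fun y G => Z y.1 G) := GoodR.comp hZ IF.fst
  refine (Good.ex (Q := fun (t : T) (y : Pl M W × Cond W × Nm M W × Nm M W) G =>
      Mem (S t) y.1 ∧ y.2.1 ∈ G ∧ (res (S t) y.1, y.2.1, y.2.2.1, y.2.2.2) ∈ Tm t ∧
        ev y.2.2.1 G = X t G ∧ ev y.2.2.2 G = Z t G) ?_).congr fun t G _ => ?_
  · exact Good.and (Good.of_in (In_Mem hS' e1)) (Good.and (Good.mem hf' e2) (Good.and
      (Good.of_in (In.mem ((IF_res hS' e1).pair (e2.pair (e3.pair e4))) hT'))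
      (Good.and (Good.eqR hf' (GoodR.ev hf' e3) hX') (Good.eqR hf' (GoodR.ev hf' e4) hZ'))))
  · constructor
    · rintro ⟨D, h1, p, h2, a, b, h3⟩
      exact ⟨(D, p, a, b), h1, h2, h3⟩
    · rintro ⟨⟨D, p, a, b⟩, h1, h2, h3⟩
      exact ⟨D, h1, p, h2, a, b, h3⟩

/-- `∃ z, PT T S G X z ↔ ∃ b : Nm M W, PT T S G X (ev b G)`. -/
theorem Good_exPT {f : T → Pl M W} (hf : IF M f) {Tm : T → Tt M W} (hT : IF M Tm)
    {S : T → Stc M W} (hS : IF M S) {X : T → Set (Cond W) → ℕ → ℕ} (hX : GoodR c f X) :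
    Good c f (fun t G => ∃ z, PT (Tm t) (S t) G (X t G) z) := by
  refine (Good.ex (Q := fun (t : T) (b : Nm M W) G => PT (Tm t) (S t) G (X t G) (ev b G))
    (Good_PT (hf.comp IF.fst) (hT.comp IF.fst) (hS.comp IF.fst) (GoodR.comp hX IF.fst)
      (GoodR.ev (hf.comp IF.fst) IF.snd))).congr fun t G _ => ?_
  constructor
  · rintro ⟨z, D, h1, p, h2, a, b, h3, h4, h5⟩
    exact ⟨b, D, h1, p, h2, a, b, h3, h4, rfl⟩
  · rintro ⟨b, h⟩
    exact ⟨_, h⟩

theorem Int1_zx_T3 (x z : ℕ → ℕ) (i : ℕ) : zx (T3 x z i) = x := by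
  funext n
  have h1 : ¬ (2 * n + 1 = 0) := by omega
  have h2 : (2 * n + 1) % 2 = 1 := by omega
  have h3 : (2 * n + 1) / 2 = n := by omega
  unfold zx T3
  simp only [h1, h2, h3, if_false, if_true]

theorem Int1_za_T3 (x z : ℕ → ℕ) (i : ℕ) : za (T3 x z i) = z := by
  funext n
  have h1 : ¬ (2 * n + 2 = 0) := by omega
  have h2 : ¬ ((2 * n + 2) % 2 = 1) := by omega
  have h3 : (2 * n + 2) / 2 - 1 = n := by omega
  unfold za T3
  simp only [h1, h2, h3, if_false]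

theorem Int1_T3_eta {z : ℕ → ℕ} (h : z 0 = 0) : T3 (zx z) (za z) 0 = z := by
  funext n
  unfold zx za T3
  by_cases h0 : n = 0
  · rw [if_pos h0, h0, h]
  · rw [if_neg h0]
    by_cases h1 : n % 2 = 1
    · rw [if_pos h1]
      show z (2 * (n / 2) + 1) = z n
      congr 1
      omega
    · rw [if_neg h1]
      show z (2 * (n / 2 - 1) + 2) = z n
      congr 1
      omega

/-- `KK` is the conjunction of `SV`, `SLe`, `Cmp` and, for all nodes, the forced statement; in the latter replace `∀ x z, ev n G = T3 x z 0 → ..` by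
`ev n G 0 = 0 → ¬ PT T S G (zx (ev n G)) (za (ev n G))` (`ev n G = T3 x z 0` iff `ev n G 0 = 0`, `x = zx ..`, `z = za ..`), `GoodR.zx`, `GoodR.za`, `Good.fo`. -/
theorem In_KK [Countable M] {F : T → Stc M W} (hF : IF M F) {Tm : T → Tt M W} (hT : IF M Tm)
    {S : T → Stc M W} (hS : IF M S) : In M (fun t => KK c (F t) (Tm t) (S t)) := by
  have hS1 : IF M (fun y : T × W => (S y.1).1) := IF.fst.comp (hS.comp IF.fst)
  have hF1 : IF M (fun y : T × W => (F y.1).1) := IF.fst.comp (hF.comp IF.fst)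
  have hn : GoodR c (fun y : T × W => (S y.1).1) (fun y G => ev ((S y.1).1.nm y.2) G) :=
    GoodR.ev hS1 (IF.nmP hS1 IF.snd)
  have hQ : Good c (fun y : T × W => (S y.1).1) (fun y G =>
      ev ((S y.1).1.nm y.2) G 0 = 0 → ¬ PT (Tm y.1) (S y.1) G (zx (ev ((S y.1).1.nm y.2) G))
        (za (ev ((S y.1).1.nm y.2) G))) :=
    Good.imp hS1 (Good.eq (GoodR.app hn (GoodF.of_if (IF.const 0))) (GoodF.of_if (IF.const 0)))
      (Good.not hS1 (Good_PT hS1 (hT.comp IF.fst) (hS.comp IF.fst) (GoodR.zx hn) (GoodR.za hn)))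
  have h4 : In M (fun t => ∀ ν : W, ν ∈ (S t).1.dom → ν ∉ (F t).1.dom →
      Fo c (S t).1 (∅, ∅) (fun G => ev ((S t).1.nm ν) G 0 = 0 →
        ¬ PT (Tm t) (S t) G (zx (ev ((S t).1.nm ν) G)) (za (ev ((S t).1.nm ν) G)))) := by
    refine In.all (P := fun (t : T) (ν : W) => ν ∈ (S t).1.dom → ν ∉ (F t).1.dom →
      Fo c (S t).1 (∅, ∅) (fun G => ev ((S t).1.nm ν) G 0 = 0 →
        ¬ PT (Tm t) (S t) G (zx (ev ((S t).1.nm ν) G)) (za (ev ((S t).1.nm ν) G)))) ?_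
    exact In.imp (In.pdom IF.snd hS1) (In.imp (In.not (In.pdom IF.snd hF1))
      (Good.fo hS1 hQ (IF.const _)))
  refine ((In_SV (c := c) hS).and ((In_SLe hF hS).and ((In_Cmp hF hS).and h4))).congr fun t => ?_
  constructor
  · intro h
    exact ⟨h.sv, h.le, h.cmp, fun ν h1 h2 G hG hp h3 h5 => h.ok ν h1 h2 G hG hp _ _
      (Int1_T3_eta h3).symm h5⟩
  · rintro ⟨h1, h2, h3, h5⟩
    refine ⟨h1, h2, h3, fun ν h6 h7 G hG hp x z e h8 => ?_⟩
    refine h5 ν h6 h7 G hG hp ?_ ?_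
    · rw [e]
      rfl
    · rw [e, Int1_zx_T3, Int1_za_T3]
      exact h8

end Pool.Agent.H.MP_20495c_lc
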