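import Pool.Agent.H.MP_20495c_lc.B.Int1

/-!
# Part B, module Int2: kicks, candidates, new protections are good / internal
-/

set_option autoImplicit false
set_option linter.unusedSectionVars false

namespace Pool.Agent.H.MP_20495c_lc

open Pool.Agent.H.MP_07d118_lc Pool.Agent.H.MP_a163f2_lc

universe u v w x

variable {M : Type u} [SetStr M] [ZFC M] [Std M] {W : Type v} [LinearOrder W] [Cd M W] [Om1 M W]
variable {c : W × Hc → ℕ → ℕ} [hL : Fact (Luz M W c)]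
variable {K : Set (ℕ → ℕ) → (ℕ → ℕ) → (ℕ → ℕ) → Prop} {r : Nm M W → Nm M W → Prop}
variable {T : Type v} [Cd M T] [hK : Fact (KOK M W c K)]

/-- `Good.ex` for `S'`, `p`, `a`, `b`; the statement about `crs S.1.dom p ∈ G` is `Good.mem` with `IF.crs`; `Fo c S'.1 p (K ..)` is internal by `hK.out.good` in the context
`T × Stc × Cond × Nm × Nm` and `Good.fo`; the rest is internal or `Good.eqR`. -/
theorem Good_Kb [Countable M] {f : T → Pl M W} (hf : IF M f) {F : T → Stc M W} (hF : IF M F)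
    {Tm : T → Tt M W} (hT : IF M Tm) {S : T → Stc M W} (hS : IF M S)
    {X Z : T → Set (Cond W) → ℕ → ℕ} (hX : GoodR c f X) (hZ : GoodR c f Z) :
    Good c f (fun t G => Kb c K (F t) (Tm t) (S t) G (X t G) (Z t G)) := by
  refine Good.ex (Q := fun (t : T) (S' : Stc M W) G => KK c (F t) (Tm t) S' ∧ SLe (S t) S' ∧
    ∃ p ∈ PP c S'.1, crs (S t).1.dom p ∈ G ∧ ∃ a b : Nm M W, IsNm c (S t).1 a ∧
      IsNm c (S t).1 b ∧ ev a G = X t G ∧ ev b G = Z t G ∧
      Fo c S'.1 p (fun G' => K (RR c S'.1 G') (ev a G') (ev b G'))) ?_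
  refine Good.and (Good.of_in (In_KK (IF.comp hF IF.fst) (IF.comp hT IF.fst) IF.snd))
    (Good.and (Good.of_in (In_SLe (IF.comp hS IF.fst) IF.snd)) ?_)
  refine Good.ex (Q := fun (y : T × Stc M W) (p : Cond W) G => p ∈ PP c y.2.1 ∧
    crs (S y.1).1.dom p ∈ G ∧ ∃ a b : Nm M W, IsNm c (S y.1).1 a ∧
      IsNm c (S y.1).1 b ∧ ev a G = X y.1 G ∧ ev b G = Z y.1 G ∧
      Fo c y.2.1 p (fun G' => K (RR c y.2.1 G') (ev a G') (ev b G'))) ?_
  refine Good.and (Good.of_in (In.pp (IF.comp IF.fst (IF.comp IF.snd IF.fst)) IF.snd))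
    (Good.and (Good.mem (IF.comp hf (IF.comp IF.fst IF.fst))
      (IF.crs (IF.comp IF.fst (IF.comp hS (IF.comp IF.fst IF.fst))) IF.snd)) ?_)
  refine Good.ex (Q := fun (y : (T × Stc M W) × Cond W) (a : Nm M W) G => ∃ b : Nm M W,
    IsNm c (S y.1.1).1 a ∧ IsNm c (S y.1.1).1 b ∧ ev a G = X y.1.1 G ∧ ev b G = Z y.1.1 G ∧
      Fo c y.1.2.1 y.2 (fun G' => K (RR c y.1.2.1 G') (ev a G') (ev b G'))) ?_
  refine Good.ex (Q := fun (y : ((T × Stc M W) × Cond W) × Nm M W) (b : Nm M W) G =>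
    IsNm c (S y.1.1.1).1 y.2 ∧ IsNm c (S y.1.1.1).1 b ∧ ev y.2 G = X y.1.1.1 G ∧
      ev b G = Z y.1.1.1 G ∧
      Fo c y.1.1.2.1 y.1.2 (fun G' => K (RR c y.1.1.2.1 G') (ev y.2 G') (ev b G'))) ?_
  have h0 : IF M (fun y : (((T × Stc M W) × Cond W) × Nm M W) × Nm M W => y.1.1.1.1) :=
    IF.comp IF.fst (IF.comp IF.fst (IF.comp IF.fst IF.fst))
  have h1 : IF M (fun y : (((T × Stc M W) × Cond W) × Nm M W) × Nm M W => y.1.1.1.2) :=
    IF.comp IF.snd (IF.comp IF.fst (IF.comp IF.fst IF.fst))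
  have h2 : IF M (fun y : (((T × Stc M W) × Cond W) × Nm M W) × Nm M W => y.1.1.2) :=
    IF.comp IF.snd (IF.comp IF.fst IF.fst)
  have h3 : IF M (fun y : (((T × Stc M W) × Cond W) × Nm M W) × Nm M W => y.1.2) :=
    IF.comp IF.snd IF.fst
  have h4 : IF M (fun y : (((T × Stc M W) × Cond W) × Nm M W) × Nm M W => y.2) := IF.snd
  have hf4 : IF M (fun y : (((T × Stc M W) × Cond W) × Nm M W) × Nm M W => f y.1.1.1.1) :=
    IF.comp hf h0
  have hS4 : IF M (fun y : (((T × Stc M W) × Cond W) × Nm M W) × Nm M W => (S y.1.1.1.1).1) :=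
    IF.comp IF.fst (IF.comp hS h0)
  have hg4 : IF M (fun y : (((T × Stc M W) × Cond W) × Nm M W) × Nm M W => y.1.1.1.2.1) :=
    IF.comp IF.fst h1
  refine Good.and (Good.of_in (In.isNm hS4 h3)) (Good.and (Good.of_in (In.isNm hS4 h4))
    (Good.and (Good.eqR hf4 (GoodR.ev hf4 h3) (GoodR.comp hX h0))
      (Good.and (Good.eqR hf4 (GoodR.ev hf4 h4) (GoodR.comp hZ h0)) (Good.of_in ?_))))
  exact Good.fo hg4 (hK.out.good _ _ hg4 (fun y G => ev y.1.2 G) (fun y G => ev y.2 G)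
    (GoodR.ev hg4 h3) (GoodR.ev hg4 h4)) h2

theorem Good_Cand [Countable M] {f : T → Pl M W} (hf : IF M f) {F : T → Stc M W} (hF : IF M F)
    {Tm : T → Tt M W} (hT : IF M Tm) {S : T → Stc M W} (hS : IF M S)
    {X : T → Set (Cond W) → ℕ → ℕ} (hX : GoodR c f X) {n : T → Nm M W} (hn : IF M n) :
    Good c f (fun t G => Cand c K (F t) (Tm t) (S t) G (X t G) (n t)) := by
  exact Good.and (Good.of_in (In.isNm (IF.comp IF.fst hS) hn))
    (Good.and ((Good_El hf (IF.comp IF.fst hS) hX (GoodR.ev hf hn)).not hf)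
      ((Good_Kb hf hF hT hS hX (GoodR.ev hf hn)).not hf))

theorem Good_New {f : T → Pl M W} (hf : IF M f) {F : T → Stc M W} (hF : IF M F)
    {S : T → Stc M W} (hS : IF M S) {X : T → Set (Cond W) → ℕ → ℕ} (hX : GoodR c f X) :
    Good c f (fun t G => New c (F t) (S t) G (X t G)) := by
  have hf1 : IF M (fun y : T × Pl M W => f y.1) := IF.comp hf IF.fst
  refine Good.all hf (Q := fun (t : T) (D : Pl M W) G => Mem (S t) D → D ≠ (S t).1 →
    Sb (F t).1 D → X t G ∉ RR c D G) ?_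
  refine Good.imp hf1 (Good.of_in (In_Mem (IF.comp hS IF.fst) IF.snd)) (Good.imp hf1
    (Good.of_in (In.not (In.eq IF.snd (IF.comp IF.fst (IF.comp hS IF.fst))))) (Good.imp hf1
      (Good.of_in (In.sb (IF.comp IF.fst (IF.comp hF IF.fst)) IF.snd)) ?_))
  exact (Good_RR hf1 IF.snd (GoodR.comp hX IF.fst)).not hf1

theorem In_Lower (hr : In M (fun y : Nm M W × Nm M W => r y.1 y.2)) {S : T → Stc M W}
    (hS : IF M S) {n n' : T → Nm M W} (hn : IF M n) (hn' : IF M n') :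
    In M (fun t => Lower r (S t) (n' t) (n t)) := by
  refine In.ex (P := fun (t : T) (m' : Nm M W) => ∃ m : Nm M W, ((S t).1, n' t, m') ∈ (S t).2.2 ∧
    ((S t).1, n t, m) ∈ (S t).2.2 ∧ r m' m) ?_
  refine In.ex (P := fun (y : T × Nm M W) (m : Nm M W) => ((S y.1).1, n' y.1, y.2) ∈ (S y.1).2.2 ∧
    ((S y.1).1, n y.1, m) ∈ (S y.1).2.2 ∧ r y.2 m) ?_
  have h0 : IF M (fun y : (T × Nm M W) × Nm M W => y.1.1) := IF.comp IF.fst IF.fst
  have h1 : IF M (fun y : (T × Nm M W) × Nm M W => y.1.2) := IF.comp IF.snd IF.fst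
  have hS1 : IF M (fun y : (T × Nm M W) × Nm M W => (S y.1.1).1) := IF.comp IF.fst (IF.comp hS h0)
  have hS2 : IF M (fun y : (T × Nm M W) × Nm M W => (S y.1.1).2.2) :=
    IF.comp IF.snd (IF.comp IF.snd (IF.comp hS h0))
  exact In.and (In.mem (hS1.pair ((IF.comp hn' h0).pair h1)) hS2)
    (In.and (In.mem (hS1.pair ((IF.comp hn h0).pair IF.snd)) hS2)
      (In.comp2 (P := r) hr h1 IF.snd))

theorem Good_Th [Countable M] (hr : In M (fun y : Nm M W × Nm M W => r y.1 y.2))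
    {f : T → Pl M W} (hf : IF M f) {F : T → Stc M W} (hF : IF M F)
    {Tm : T → Tt M W} (hT : IF M Tm) {S : T → Stc M W} (hS : IF M S) {a b : T → Nm M W}
    (ha : IF M a) (hb : IF M b) :
    Good c f (fun t G => Th c K r (F t) (Tm t) (S t) G (a t) (b t)) := by
  have hA : GoodR c f (fun t G => ev (a t) G) := GoodR.ev hf ha
  have hnew : Good c f (fun t G => New c (F t) (S t) G (ev (a t) G)) := Good_New hf hF hS hA
  have hnp : Good c f (fun t G => ¬ ∃ z, PT (Tm t) (S t) G (ev (a t) G) z) :=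
    (Good_exPT hf hT hS hA).not hf
  have hcand : Good c f (fun t G => ∃ n, Cand c K (F t) (Tm t) (S t) G (ev (a t) G) n ∧
      ev n G = ev (b t) G ∧ ∀ n', Cand c K (F t) (Tm t) (S t) G (ev (a t) G) n' →
        ¬ Lower r (S t) n' n) := by
    refine Good.ex (Q := fun (t : T) (n : Nm M W) G => Cand c K (F t) (Tm t) (S t) G (ev (a t) G) n ∧
      ev n G = ev (b t) G ∧ ∀ n', Cand c K (F t) (Tm t) (S t) G (ev (a t) G) n' →
        ¬ Lower r (S t) n' n) ?_
    have hf1 : IF M (fun y : T × Nm M W => f y.1) := IF.comp hf IF.fst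
    refine Good.and (Good_Cand hf1 (IF.comp hF IF.fst) (IF.comp hT IF.fst) (IF.comp hS IF.fst)
      (GoodR.comp hA IF.fst) IF.snd) (Good.and (Good.eqR hf1 (GoodR.ev hf1 IF.snd)
        (GoodR.ev hf1 (IF.comp hb IF.fst))) ?_)
    refine Good.all hf1 (Q := fun (y : T × Nm M W) (n' : Nm M W) G =>
      Cand c K (F y.1) (Tm y.1) (S y.1) G (ev (a y.1) G) n' → ¬ Lower r (S y.1) n' y.2) ?_
    have h0 : IF M (fun y : (T × Nm M W) × Nm M W => y.1.1) := IF.comp IF.fst IF.fst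
    have hf2 : IF M (fun y : (T × Nm M W) × Nm M W => f y.1.1) := IF.comp hf h0
    exact Good.imp hf2 (Good_Cand hf2 (IF.comp hF h0) (IF.comp hT h0) (IF.comp hS h0)
      (GoodR.comp hA h0) IF.snd) (Good.of_in (In.not (In_Lower hr (IF.comp hS h0)
        (IF.comp IF.snd IF.fst) IF.snd)))
  refine ((hnew.and hnp).and hcand).congr fun t G _ => ⟨fun h => ⟨⟨h.new, ?_⟩, h.cand⟩,
    fun h => ⟨h.1.1, fun z hz => h.1.2 ⟨z, hz⟩, h.2⟩⟩
  rintro ⟨z, hz⟩
  exact h.np z hz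

theorem In_GamP [Countable M] (hr : In M (fun y : Nm M W × Nm M W => r y.1 y.2))
    {F : T → Stc M W} (hF : IF M F) {Tm : T → Tt M W} (hT : IF M Tm) {y : T → Qd M W}
    (hy : IF M y) : In M (fun t => GamP c K r (F t) (Tm t) (y t)) := by
  have h1 : IF M (fun t => (y t).1) := IF.comp IF.fst hy
  have h11 : IF M (fun t => (y t).1.1) := IF.comp IF.fst h1
  have h2 : IF M (fun t => (y t).2.1) := IF.comp IF.fst (IF.comp IF.snd hy)
  have h3 : IF M (fun t => (y t).2.2.1) := IF.comp IF.fst (IF.comp IF.snd (IF.comp IF.snd hy))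
  have h4 : IF M (fun t => (y t).2.2.2) := IF.comp IF.snd (IF.comp IF.snd (IF.comp IF.snd hy))
  refine (In.and (In_KK (c := c) hF hT h1) (In.and (In.pp h11 h2) (In.and (In.isNm h11 h3)
    (In.and (In.isNm h11 h4) (Good.fo h11 (Good_Th (K := K) hr h11 hF hT h1 h3 h4) h2))))).congr
    fun t => ⟨fun h => ⟨h.kk, h.cond, h.nma, h.nmb, h.fo⟩,
      fun h => ⟨h.1, h.2.1, h.2.2.1, h.2.2.2.1, h.2.2.2.2⟩⟩

end Pool.Agent.H.MP_20495c_lc
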