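import Pool.Agent.H.MP_20495c_lc.B.Int2

/-!
# Part B, module Int3: the invariants and the states are internal
-/

set_option autoImplicit false
set_option linter.unusedSectionVars false

namespace Pool.Agent.H.MP_20495c_lc

open Pool.Agent.H.MP_07d118_lc Pool.Agent.H.MP_a163f2_lc

universe u v w x

variable {M : Type u} [SetStr M] [ZFC M] [Std M] {W : Type v} [LinearOrder W] [Cd M W] [Om1 M W]
variable {c : W × Hc → ℕ → ℕ} [hL : Fact (Luz M W c)]
variable {K : Set (ℕ → ℕ) → (ℕ → ℕ) → (ℕ → ℕ) → Prop} {r : Nm M W → Nm M W → Prop}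
variable {T : Type v} [Cd M T] [hK : Fact (KOK M W c K)]

theorem Int3_zx (x y : ℕ → ℕ) (i : ℕ) : zx (T3 x y i) = x := by
  funext n
  unfold zx T3
  rw [if_neg (by omega), if_pos (by omega)]
  congr 1
  omega

theorem Int3_za (x y : ℕ → ℕ) (i : ℕ) : za (T3 x y i) = y := by
  funext n
  unfold za T3
  rw [if_neg (by omega), if_neg (by omega)]
  congr 1
  omega

theorem Int3_zero (x y : ℕ → ℕ) (i : ℕ) : T3 x y i 0 = i := by
  unfold T3
  rw [if_pos rfl]

theorem Int3_eta (z : ℕ → ℕ) (hz : z 0 = 0) : z = T3 (zx z) (za z) 0 := by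
  funext n
  unfold zx za T3
  by_cases h0 : n = 0
  · rw [if_pos h0, h0, hz]
  · rw [if_neg h0]
    by_cases h1 : n % 2 = 1
    · rw [if_pos h1]
      congr 1
      omega
    · rw [if_neg h1]
      congr 1
      omega

theorem In_I0 {Tm : T → Tt M W} (hT : IF M Tm) : In M (fun t => I0 c (Tm t)) := by
  refine In.all (S := Qd M W) (P := fun t y => y ∈ Tm t → SV c y.1 ∧ y.2.1 ∈ PP c y.1.1 ∧
    IsNm c y.1.1 y.2.2.1 ∧ IsNm c y.1.1 y.2.2.2) ?_
  have e1 : IF M (fun y : T × Qd M W => y.2.1) := IF.fst.comp IF.snd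
  have e2 : IF M (fun y : T × Qd M W => y.2.1.1) := IF.fst.comp e1
  have e3 : IF M (fun y : T × Qd M W => y.2.2.1) := IF.fst.comp (IF.snd.comp IF.snd)
  have e4 : IF M (fun y : T × Qd M W => y.2.2.2.1) :=
    IF.fst.comp (IF.snd.comp (IF.snd.comp IF.snd))
  have e5 : IF M (fun y : T × Qd M W => y.2.2.2.2) :=
    IF.snd.comp (IF.snd.comp (IF.snd.comp IF.snd))
  exact In.imp (In.mem IF.snd (hT.comp IF.fst)) (In.and (In_SV e1) (In.and (In.pp e2 e3)
    (In.and (In.isNm e2 e4) (In.isNm e2 e5))))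

/-- The quantifier over generic filters is `Fo c S.1 p (..)` for `p ∈ PP c S.1` (generic filters contain only conditions). -/
theorem In_I2 [Countable M] {F : T → Stc M W} (hF : IF M F) {Tm : T → Tt M W} (hT : IF M Tm) :
    In M (fun t => I2 c (F t) (Tm t)) := by
  have key : In M (fun t => ∀ s : Stc M W × Pl M W × Pl M W × Cond W × Nm M W × Nm M W,
      SV c s.1 → SLe (F t) s.1 → Cmp (F t) s.1 → Mem s.1 s.2.1 →
      (res s.1 s.2.1, s.2.2.2.1, s.2.2.2.2.1, s.2.2.2.2.2) ∈ Tm t → Mem s.1 s.2.2.1 →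
      Sb (F t).1 s.2.2.1 → Fo c s.1.1 s.2.2.2.1 (fun G => ev s.2.2.2.2.1 G ∈ RR c s.2.2.1 G →
        Sb s.2.1 s.2.2.1)) := by
    refine In.all (S := Stc M W × Pl M W × Pl M W × Cond W × Nm M W × Nm M W)
      (P := fun t s => SV c s.1 → SLe (F t) s.1 → Cmp (F t) s.1 → Mem s.1 s.2.1 →
      (res s.1 s.2.1, s.2.2.2.1, s.2.2.2.2.1, s.2.2.2.2.2) ∈ Tm t → Mem s.1 s.2.2.1 →
      Sb (F t).1 s.2.2.1 → Fo c s.1.1 s.2.2.2.1 (fun G => ev s.2.2.2.2.1 G ∈ RR c s.2.2.1 G →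
        Sb s.2.1 s.2.2.1)) ?_
    have e1 : IF M (fun y : T × (Stc M W × Pl M W × Pl M W × Cond W × Nm M W × Nm M W) =>
        y.2.1) := IF.fst.comp IF.snd
    have e2 : IF M (fun y : T × (Stc M W × Pl M W × Pl M W × Cond W × Nm M W × Nm M W) =>
        y.2.2.1) := IF.fst.comp (IF.snd.comp IF.snd)
    have e0 : IF M (fun y : T × (Stc M W × Pl M W × Pl M W × Cond W × Nm M W × Nm M W) =>
        y.2.2.2) := IF.snd.comp (IF.snd.comp IF.snd)
    have e3 : IF M (fun y : T × (Stc M W × Pl M W × Pl M W × Cond W × Nm M W × Nm M W) =>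
        y.2.2.2.1) := IF.fst.comp e0
    have e4 : IF M (fun y : T × (Stc M W × Pl M W × Pl M W × Cond W × Nm M W × Nm M W) =>
        y.2.2.2.2.1) := IF.fst.comp (IF.snd.comp e0)
    have e5 : IF M (fun y : T × (Stc M W × Pl M W × Pl M W × Cond W × Nm M W × Nm M W) =>
        y.2.2.2.2.2.1) := IF.fst.comp (IF.snd.comp (IF.snd.comp e0))
    have e6 : IF M (fun y : T × (Stc M W × Pl M W × Pl M W × Cond W × Nm M W × Nm M W) =>
        y.2.2.2.2.2.2) := IF.snd.comp (IF.snd.comp (IF.snd.comp e0))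
    have eg : IF M (fun y : T × (Stc M W × Pl M W × Pl M W × Cond W × Nm M W × Nm M W) =>
        y.2.1.1) := IF.fst.comp e1
    refine In.imp (In_SV e1) (In.imp (In_SLe (hF.comp IF.fst) e1) (In.imp
      (In_Cmp (hF.comp IF.fst) e1) (In.imp (In_Mem e1 e2) (In.imp
      (In.mem ((IF_res e1 e2).pair (e4.pair (e5.pair e6))) (hT.comp IF.fst)) (In.imp
      (In_Mem e1 e3) (In.imp (In.sb (IF.fst.comp (hF.comp IF.fst)) e3) ?_))))))
    exact Good.fo eg (Good.imp eg (Good_RR eg e3 (GoodR.ev eg e5)) (Good.of_in (In.sb e2 e3))) e4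
  refine key.congr fun t => ?_
  constructor
  · intro h s h1 h2 h3 h4 h5 h6 h7 G hG hp hx
    exact h s.1 h1 h2 h3 s.2.1 h4 s.2.2.2.1 s.2.2.2.2.1 s.2.2.2.2.2 h5 s.2.2.1 h6 h7 G hG hp hx
  · intro h S h1 h2 h3 D h4 p a b h5 D' h6 h7 G hG hp hx
    exact h (S, D, D', p, a, b) h1 h2 h3 h4 h5 h6 h7 G hG hp hx

/-- Replace the quantifiers over the reals `x z z'` by names: a protected pair has the form `ev a G`, `ev b G` with names `a b : Nm M W` (definition of `PT`). The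
quantifier over `G` is `Fo c S.1 (∅, ∅)`. -/
theorem In_I3 [Countable M] {F : T → Stc M W} (hF : IF M F) {Tm : T → Tt M W} (hT : IF M Tm) :
    In M (fun t => I3 c (F t) (Tm t)) := by
  have key : In M (fun t => ∀ S : Stc M W, KK c (F t) (Tm t) S → Fo c S.1 (∅, ∅) (fun G =>
      ∀ n : Nm M W × Nm M W × Nm M W, PT (Tm t) S G (ev n.1 G) (ev n.2.1 G) →
        PT (Tm t) S G (ev n.1 G) (ev n.2.2 G) → ev n.2.1 G = ev n.2.2 G)) := by
    refine In.all (S := Stc M W) (P := fun t S => KK c (F t) (Tm t) S → Fo c S.1 (∅, ∅) (fun G =>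
      ∀ n : Nm M W × Nm M W × Nm M W, PT (Tm t) S G (ev n.1 G) (ev n.2.1 G) →
        PT (Tm t) S G (ev n.1 G) (ev n.2.2 G) → ev n.2.1 G = ev n.2.2 G)) ?_
    have eg : IF M (fun y : T × Stc M W => y.2.1) := IF.fst.comp IF.snd
    refine In.imp (In_KK (hF.comp IF.fst) (hT.comp IF.fst) IF.snd) (Good.fo eg ?_ (IF.const _))
    refine Good.all eg (S := Nm M W × Nm M W × Nm M W)
      (Q := fun (y : T × Stc M W) (n : Nm M W × Nm M W × Nm M W) G =>
        PT (Tm y.1) y.2 G (ev n.1 G) (ev n.2.1 G) →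
        PT (Tm y.1) y.2 G (ev n.1 G) (ev n.2.2 G) → ev n.2.1 G = ev n.2.2 G) ?_
    have g : IF M (fun y : (T × Stc M W) × (Nm M W × Nm M W × Nm M W) => y.1.2.1) :=
      IF.fst.comp (IF.snd.comp IF.fst)
    have gS : IF M (fun y : (T × Stc M W) × (Nm M W × Nm M W × Nm M W) => y.1.2) :=
      IF.snd.comp IF.fst
    have gT : IF M (fun y : (T × Stc M W) × (Nm M W × Nm M W × Nm M W) => Tm y.1.1) :=
      hT.comp (IF.fst.comp IF.fst)
    have n1 : IF M (fun y : (T × Stc M W) × (Nm M W × Nm M W × Nm M W) => y.2.1) :=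
      IF.fst.comp IF.snd
    have n2 : IF M (fun y : (T × Stc M W) × (Nm M W × Nm M W × Nm M W) => y.2.2.1) :=
      IF.fst.comp (IF.snd.comp IF.snd)
    have n3 : IF M (fun y : (T × Stc M W) × (Nm M W × Nm M W × Nm M W) => y.2.2.2) :=
      IF.snd.comp (IF.snd.comp IF.snd)
    exact Good.imp g (Good_PT g gT gS (GoodR.ev g n1) (GoodR.ev g n2)) (Good.imp g
      (Good_PT g gT gS (GoodR.ev g n1) (GoodR.ev g n3))
      (Good.eqR g (GoodR.ev g n2) (GoodR.ev g n3)))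
  refine key.congr fun t => ?_
  constructor
  · intro h S hS G hG _ n h1 h2
    exact h S hS G hG _ _ _ h1 h2
  · intro h S hS G hG x z z' h1 h2
    obtain ⟨D, hD, p, hp, a, b, hT, rfl, rfl⟩ := h1
    obtain ⟨D', hD', p', hp', a', b', hT', ha', rfl⟩ := h2
    exact h S hS G hG hG.empty_mem (a, b, b') ⟨D, hD, p, hp, a, b, hT, rfl, rfl⟩
      ⟨D', hD', p', hp', a', b', hT', ha', rfl⟩

theorem In_I4 [Countable M] {F : T → Stc M W} (hF : IF M F) {Tm : T → Tt M W} (hT : IF M Tm) :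
    In M (fun t => I4 c K (F t) (Tm t)) := by
  have key : In M (fun t => ∀ S : Stc M W, KK c (F t) (Tm t) S → Fo c S.1 (∅, ∅) (fun G =>
      ∀ n : Nm M W × Nm M W, PT (Tm t) S G (ev n.1 G) (ev n.2 G) →
        ¬ Kb c K (F t) (Tm t) S G (ev n.1 G) (ev n.2 G))) := by
    refine In.all (S := Stc M W) (P := fun t S => KK c (F t) (Tm t) S → Fo c S.1 (∅, ∅) (fun G =>
      ∀ n : Nm M W × Nm M W, PT (Tm t) S G (ev n.1 G) (ev n.2 G) →
        ¬ Kb c K (F t) (Tm t) S G (ev n.1 G) (ev n.2 G))) ?_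
    have eg : IF M (fun y : T × Stc M W => y.2.1) := IF.fst.comp IF.snd
    refine In.imp (In_KK (hF.comp IF.fst) (hT.comp IF.fst) IF.snd) (Good.fo eg ?_ (IF.const _))
    refine Good.all eg (S := Nm M W × Nm M W)
      (Q := fun (y : T × Stc M W) (n : Nm M W × Nm M W) G =>
        PT (Tm y.1) y.2 G (ev n.1 G) (ev n.2 G) →
        ¬ Kb c K (F y.1) (Tm y.1) y.2 G (ev n.1 G) (ev n.2 G)) ?_
    have g : IF M (fun y : (T × Stc M W) × (Nm M W × Nm M W) => y.1.2.1) :=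
      IF.fst.comp (IF.snd.comp IF.fst)
    have gS : IF M (fun y : (T × Stc M W) × (Nm M W × Nm M W) => y.1.2) := IF.snd.comp IF.fst
    have gT : IF M (fun y : (T × Stc M W) × (Nm M W × Nm M W) => Tm y.1.1) :=
      hT.comp (IF.fst.comp IF.fst)
    have gF : IF M (fun y : (T × Stc M W) × (Nm M W × Nm M W) => F y.1.1) :=
      hF.comp (IF.fst.comp IF.fst)
    have n1 : IF M (fun y : (T × Stc M W) × (Nm M W × Nm M W) => y.2.1) := IF.fst.comp IF.snd
    have n2 : IF M (fun y : (T × Stc M W) × (Nm M W × Nm M W) => y.2.2) := IF.snd.comp IF.snd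
    exact Good.imp g (Good_PT g gT gS (GoodR.ev g n1) (GoodR.ev g n2)) (Good.not g
      (Good_Kb g gF gT gS (GoodR.ev g n1) (GoodR.ev g n2)))
  refine key.congr fun t => ?_
  constructor
  · intro h S hS G hG _ n h1
    exact h S hS G hG _ _ h1
  · intro h S hS G hG x z h1
    obtain ⟨D, hD, p, hp, a, b, hT, rfl, rfl⟩ := h1
    exact h S hS G hG hG.empty_mem (a, b) ⟨D, hD, p, hp, a, b, hT, rfl, rfl⟩

theorem In_I5 [Countable M] {F : T → Stc M W} (hF : IF M F) {Tm : T → Tt M W} (hT : IF M Tm) :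
    In M (fun t => I5 c (F t) (Tm t)) := by
  have key : In M (fun t => ∀ S : Stc M W, KK c (F t) (Tm t) S → Fo c S.1 (∅, ∅) (fun G =>
      ∀ n : Nm M W × Nm M W, PT (Tm t) S G (ev n.1 G) (ev n.2 G) →
        ¬ Elc S.1 G (ev n.1 G) (ev n.2 G))) := by
    refine In.all (S := Stc M W) (P := fun t S => KK c (F t) (Tm t) S → Fo c S.1 (∅, ∅) (fun G =>
      ∀ n : Nm M W × Nm M W, PT (Tm t) S G (ev n.1 G) (ev n.2 G) →
        ¬ Elc S.1 G (ev n.1 G) (ev n.2 G))) ?_
    have eg : IF M (fun y : T × Stc M W => y.2.1) := IF.fst.comp IF.snd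
    refine In.imp (In_KK (hF.comp IF.fst) (hT.comp IF.fst) IF.snd) (Good.fo eg ?_ (IF.const _))
    refine Good.all eg (S := Nm M W × Nm M W)
      (Q := fun (y : T × Stc M W) (n : Nm M W × Nm M W) G =>
        PT (Tm y.1) y.2 G (ev n.1 G) (ev n.2 G) →
        ¬ Elc y.2.1 G (ev n.1 G) (ev n.2 G)) ?_
    have g : IF M (fun y : (T × Stc M W) × (Nm M W × Nm M W) => y.1.2.1) :=
      IF.fst.comp (IF.snd.comp IF.fst)
    have gS : IF M (fun y : (T × Stc M W) × (Nm M W × Nm M W) => y.1.2) := IF.snd.comp IF.fst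
    have gT : IF M (fun y : (T × Stc M W) × (Nm M W × Nm M W) => Tm y.1.1) :=
      hT.comp (IF.fst.comp IF.fst)
    have n1 : IF M (fun y : (T × Stc M W) × (Nm M W × Nm M W) => y.2.1) := IF.fst.comp IF.snd
    have n2 : IF M (fun y : (T × Stc M W) × (Nm M W × Nm M W) => y.2.2) := IF.snd.comp IF.snd
    exact Good.imp g (Good_PT g gT gS (GoodR.ev g n1) (GoodR.ev g n2)) (Good.not g
      (Good_El g g (GoodR.ev g n1) (GoodR.ev g n2)))
  refine key.congr fun t => ?_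
  constructor
  · intro h S hS G hG _ n h1
    exact h S hS G hG _ _ h1
  · intro h S hS G hG x z h1
    obtain ⟨D, hD, p, hp, a, b, hT, rfl, rfl⟩ := h1
    exact h S hS G hG hG.empty_mem (a, b) ⟨D, hD, p, hp, a, b, hT, rfl, rfl⟩

/-- as in `In_KK` -/
theorem In_Clean [Countable M] {F : T → Stc M W} (hF : IF M F) {Tm : T → Tt M W} (hT : IF M Tm) :
    In M (fun t => Clean c K (F t) (Tm t)) := by
  have key : In M (fun t => ∀ ν : W, ν ∈ (F t).1.dom → Fo c (F t).1 (∅, ∅) (fun G =>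
      ev ((F t).1.nm ν) G 0 = 0 →
      (∃ z', PT (Tm t) (F t) G (zx (ev ((F t).1.nm ν) G)) z') ∨
        K (RR c (F t).1 G) (zx (ev ((F t).1.nm ν) G)) (za (ev ((F t).1.nm ν) G)))) := by
    refine In.all (S := W) (P := fun t ν => ν ∈ (F t).1.dom → Fo c (F t).1 (∅, ∅) (fun G =>
      ev ((F t).1.nm ν) G 0 = 0 →
      (∃ z', PT (Tm t) (F t) G (zx (ev ((F t).1.nm ν) G)) z') ∨
        K (RR c (F t).1 G) (zx (ev ((F t).1.nm ν) G)) (za (ev ((F t).1.nm ν) G)))) ?_
    have eF : IF M (fun y : T × W => F y.1) := hF.comp IF.fst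
    have eg : IF M (fun y : T × W => (F y.1).1) := IF.fst.comp eF
    have eT : IF M (fun y : T × W => Tm y.1) := hT.comp IF.fst
    have en : IF M (fun y : T × W => (F y.1).1.nm y.2) := IF.nmP eg IF.snd
    have hX := GoodR.ev (c := c) eg en
    refine In.imp (In.pdom IF.snd eg) (Good.fo eg ?_ (IF.const _))
    refine Good.imp eg (Good.eq (GoodR.app hX (GoodF.of_if (IF.const 0)))
      (GoodF.of_if (IF.const 0))) (Good.or (Good_exPT eg eT eF (GoodR.zx hX)) ?_)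
    exact hK.out.good (T × W) (fun y => (F y.1).1) eg _ _ (GoodR.zx hX) (GoodR.za hX)
  refine key.congr fun t => ?_
  constructor
  · intro h ν hν G hG he h0
    exact h ν hν G hG he _ _ (Int3_eta _ h0)
  · intro h ν hν G hG he x z hxz
    have h1 := h ν hν G hG he (by rw [hxz, Int3_zero])
    rw [hxz, Int3_zx, Int3_za] at h1
    exact h1

end Pool.Agent.H.MP_20495c_lc
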