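import Pool.Agent.H.MP_20495c_lc.B.Str

/-!
# Part B, module Top: adding a top node to a headless structure
-/

set_option autoImplicit false
set_option linter.unusedSectionVars false

namespace Pool.Agent.H.MP_20495c_lc

open Pool.Agent.H.MP_07d118_lc Pool.Agent.H.MP_a163f2_lc

universe u v w x

variable {M : Type u} [SetStr M] [ZFC M] [Std M] {W : Type v} [LinearOrder W] [Cd M W] [Om1 M W]
variable {c : W × Hc → ℕ → ℕ} [hL : Fact (Luz M W c)]

/-! ### The default name -/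

theorem mem_dfn {q : Cond W} {t : Fs} :
    (q, t) ∈ (dfn : Nm M W) ↔ q = (∅, ∅) ∧ ∀ i < t.length, t.getD i 0 = 1 := Iff.rfl

/-- `sub`: `empty_PP`. `tot`: `r = p`, `q = (∅, ∅)`, `t = List.replicate n 1`. `cons`: two constant sequences are comparable. -/
theorem dfn_IsNm (f : Pl M W) : IsNm c f (dfn : Nm M W) := by
  have key : ∀ (q : Cond W) (t : Fs), (q, t) ∈ (dfn : Nm M W) →
      q = (∅, ∅) ∧ Pre (fun _ => 1) t := fun q t h =>
    ⟨(mem_dfn.1 h).1, pre_getD.2 (mem_dfn.1 h).2⟩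
  refine ⟨?_, ?_, ?_, ?_⟩
  · intro q u h
    rw [(key q u h).1]
    exact empty_PP f
  · intro q u q' u' h1 h2 r hr h3 h4
    exact Pre.comparable (key q u h1).2 (key q' u' h2).2
  · intro k p hp
    exact ⟨p, hp, CLe.refl _, (∅, ∅), ini (fun _ => 1) k,
      mem_dfn.2 ⟨rfl, pre_getD.1 (pre_ini _ _)⟩, le_empty _, (ini_length _ _).ge⟩
  · obtain ⟨ζ, hζ⟩ := exists_Bd M ((∅, ∅) : Cond W)
    refine ⟨ζ, ?_⟩
    intro q u h
    rw [(key q u h).1]
    exact hζ

theorem dfn_ev {f : Pl M W} {G : Set (Cond W)} (hG : Gen c f G) :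
    ev (dfn : Nm M W) G = fun _ => 1 := by
  refine Ev.ev_eq ⟨fun q u h hq => pre_getD.2 (mem_dfn.1 h).2, (Ev_ev hG (dfn_IsNm f)).2⟩

/-- `T3 x z 0 0 = 0`. -/
theorem dfn_ne {f : Pl M W} {G : Set (Cond W)} (hG : Gen c f G) (x z : ℕ → ℕ) :
    ev (dfn : Nm M W) G ≠ T3 x z 0 := by
  rw [dfn_ev hG]
  intro h
  have h0 := congrFun h 0
  simp [T3] at h0

/-! ### Adding a top node -/

/-- `S'` arises from the headless structure `S` by the new top node `ν` with the name `n`. -/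
structure IsTop (c : W × Hc → ℕ → ℕ) (S S' : Stc M W) (ν : W) (n : Nm M W) : Prop where
  sv : SV c S'
  fresh : ν ∉ S.1.dom
  pl : S'.1 = addN S.1 ν n
  sb : Sb S.1 S'.1
  dom : ∀ μ, μ ∈ S'.1.dom ↔ μ = ν ∨ μ ∈ S.1.dom
  nm : S'.1.nm ν = n
  mem : ∀ E, Mem S' E ↔ Mem S E ∨ E = S'.1
  res : ∀ E, Mem S E → MP_20495c_lc.res S' E = MP_20495c_lc.res S E

/-- Choose `ν ∉ S.1.dom` (bounded domain, `Valid.bdd`), a bound `β` of the ranks (`rbd`), put `g' = addN S.1 ν n` and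
`S' = (g', insert (β, g') S.2.1, S.2.2 ∪ {(g', m, m) : IsNm c g' m})`. `n` is a name over `S.1` (`IsNm.mono`), so `g'` is valid (`Valid_addN`), `Sb S.1 g'`
(`Sb_addN`).  `g'` is not a member of `S` and not a subplan of a member (`ν` would be in its domain, `addN_dom`).  `cap`: `plI E g' = E` for members `E`
of `S` (`plI_eq_left`).  `sup` for `ν`: the support `D`; for old nodes the old support (`Sb.nm_eq`).  New rank bound: `Ct_bound` or `Om1.bdd`. -/
theorem exists_top {S : Stc M W} (hS : HS c S) {D : Pl M W} (hD : Mem S D) {n : Nm M W}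
    (hn : IsNm c D n) : ∃ ν S', IsTop c S S' ν n := by
  obtain ⟨ν, hζ⟩ := hS.val.bdd
  have hν : ν ∉ S.1.dom := by
    rintro ⟨q, t, h⟩
    exact lt_irrefl ν (hζ ν q t h).1
  obtain ⟨β, hβ⟩ := hS.rbd
  have hn' : IsNm c S.1 n := hn.mono (hS.sub D hD).1 (hS.sub D hD).2
  obtain ⟨g, hg⟩ : ∃ g, g = addN S.1 ν n := ⟨_, rfl⟩
  have hsb : Sb S.1 g := by
    rw [hg]
    exact Sb_addN hν n
  have hval : Valid c g := by
    rw [hg]
    exact Valid_addN hS.val hν hn'
  have hdom : ∀ μ, μ ∈ g.dom ↔ μ = ν ∨ μ ∈ S.1.dom := by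
    intro μ
    rw [hg, addN_dom hn']
    exact Iff.rfl
  have hnm : g.nm ν = n := by
    rw [hg]
    exact addN_nm hν n
  have hnot : ∀ E, Mem S E → ¬ Sb g E := by
    intro E hE h
    exact hν ((hS.sub E hE).2.dom (h.dom ((hdom ν).2 (Or.inl rfl))))
  let A : ISet M (W × Pl M W) := ISet.mk (P := fun y : W × Pl M W => y ∈ S.2.1 ∨ y = (β, g))
    (S.2.1.in_mem.or (In.eq IF.id (IF.const _)))
  let B : ISet M (Pl M W × Nm M W × Nm M W) :=
    ISet.mk (P := fun y : Pl M W × Nm M W × Nm M W =>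
        y ∈ S.2.2 ∨ (y.1 = g ∧ y.2.1 = y.2.2 ∧ IsNm c g y.2.1))
      (S.2.2.in_mem.or ((In.eq IF.fst (IF.const g)).and
        ((In.eq (IF.comp IF.fst IF.snd) (IF.comp IF.snd IF.snd)).and
          (In.isNm (IF.const g) (IF.comp IF.fst IF.snd)))))
  have hA : ∀ α E, (α, E) ∈ A ↔ (α, E) ∈ S.2.1 ∨ (α = β ∧ E = g) := by
    intro α E
    show ((α, E) ∈ S.2.1 ∨ (α, E) = (β, g)) ↔ _
    rw [Prod.mk.injEq]
  have hB : ∀ E m m', (E, m, m') ∈ B ↔ (E, m, m') ∈ S.2.2 ∨ (E = g ∧ m = m' ∧ IsNm c g m) :=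
    fun E m m' => Iff.rfl
  have hmem : ∀ E, Mem (g, A, B) E ↔ Mem S E ∨ E = g := by
    intro E
    constructor
    · rintro ⟨α, h⟩
      rcases (hA α E).1 h with h | h
      · exact Or.inl ⟨α, h⟩
      · exact Or.inr h.2
    · rintro (⟨α, h⟩ | h)
      · exact ⟨α, (hA α E).2 (Or.inl h)⟩
      · exact ⟨β, (hA β E).2 (Or.inr ⟨rfl, h⟩)⟩
  have hmS : ∀ E m m', (E, m, m') ∈ S.2.2 → E ≠ g := by
    intro E m m' h hE
    refine hnot E (hS.labs E m m' h).1 ?_
    rw [hE]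
    exact Sb.refl g
  have hmS' : ∀ E, Mem S E → E ≠ g := by
    intro E h hE
    refine hnot E h ?_
    rw [hE]
    exact Sb.refl g
  have hHS : HS c ((g, A, B) : Stc M W) := by
    refine ⟨hval, ?_, ?_, ?_, ?_, ?_, ?_, ?_, ?_, ?_, ?_⟩
    · intro E hE
      rcases (hmem E).1 hE with h | h
      · exact ⟨(hS.sub E h).1, (hS.sub E h).2.trans hsb⟩
      · rw [h]
        exact ⟨hval, Sb.refl g⟩
    · intro α α' E h h'
      rcases (hA α E).1 h with h1 | h1
      · rcases (hA α' E).1 h' with h2 | h2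
        · exact hS.fn α α' E h1 h2
        · exact absurd h2.2 (hmS' E ⟨α, h1⟩)
      · rcases (hA α' E).1 h' with h2 | h2
        · exact absurd h1.2 (hmS' E ⟨α', h2⟩)
        · rw [h1.1, h2.1]
    · intro α α' E E' h h' hs hne
      rcases (hA α E).1 h with h1 | h1
      · rcases (hA α' E').1 h' with h2 | h2
        · exact hS.rk α α' E E' h1 h2 hs hne
        · rw [h2.1]
          exact hβ α E h1
      · rcases (hA α' E').1 h' with h2 | h2
        · rw [h1.2] at hs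
          exact absurd hs (hnot E' ⟨α', h2⟩)
        · exact absurd (h1.2.trans h2.2.symm) hne
    · obtain ⟨β', hβ'⟩ := Ct_bound M ({β} : Finset W)
      have h1 : β < β' := hβ' β (Finset.mem_singleton_self β)
      refine ⟨β', fun α E h => ?_⟩
      rcases (hA α E).1 h with h2 | h2
      · exact (hβ α E h2).trans h1
      · rw [h2.1]
        exact h1
    · intro E E' h h'
      rcases (hmem E).1 h with h1 | h1
      · rcases (hmem E').1 h' with h2 | h2
        · exact (hmem _).2 (Or.inl (hS.cap E E' h1 h2))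
        · rw [h2, plI_eq_left ((hS.sub E h1).2.trans hsb)]
          exact h
      · rcases (hmem E').1 h' with h2 | h2
        · rw [h1, plI_comm, plI_eq_left ((hS.sub E' h2).2.trans hsb)]
          exact h'
        · rw [h1, h2, plI_self]
          exact (hmem g).2 (Or.inr rfl)
    · intro μ hμ
      by_cases h : μ ∈ S.1.dom
      · obtain ⟨E, h1, h2, h3⟩ := hS.sup μ h
        refine ⟨E, (hmem E).2 (Or.inl h1), h2, ?_⟩
        have e : g.nm μ = S.1.nm μ := hsb.nm_eq h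
        show IsNm c E (g.nm μ)
        rw [e]
        exact h3
      · have hμν : μ = ν := ((hdom μ).1 hμ).resolve_right h
        refine ⟨D, (hmem D).2 (Or.inl hD), fun hh => h ((hS.sub D hD).2.dom hh), ?_⟩
        show IsNm c D (g.nm μ)
        rw [hμν, hnm]
        exact hn
    · intro E hE m hm
      rcases (hmem E).1 hE with h | h
      · obtain ⟨m', h1⟩ := hS.lab E h m hm
        exact ⟨m', (hB E m m').2 (Or.inl h1)⟩
      · rw [h] at hm
        exact ⟨m, (hB E m m).2 (Or.inr ⟨h, rfl, hm⟩)⟩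
    · intro E m m₁ m₂ h h'
      rcases (hB E m m₁).1 h with h1 | h1
      · rcases (hB E m m₂).1 h' with h2 | h2
        · exact hS.lab1 E m m₁ m₂ h1 h2
        · exact absurd h2.1 (hmS _ _ _ h1)
      · rcases (hB E m m₂).1 h' with h2 | h2
        · exact absurd h1.1 (hmS _ _ _ h2)
        · exact h1.2.1.symm.trans h2.2.1
    · intro E m₁ m₂ m h h'
      rcases (hB E m₁ m).1 h with h1 | h1
      · rcases (hB E m₂ m).1 h' with h2 | h2
        · exact hS.labi E m₁ m₂ m h1 h2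
        · exact absurd h2.1 (hmS _ _ _ h1)
      · rcases (hB E m₂ m).1 h' with h2 | h2
        · exact absurd h1.1 (hmS _ _ _ h2)
        · exact h1.2.1.trans h2.2.1.symm
    · intro E m m' h
      rcases (hB E m m').1 h with h1 | h1
      · exact ⟨(hmem E).2 (Or.inl (hS.labs E m m' h1).1), (hS.labs E m m' h1).2⟩
      · refine ⟨(hmem E).2 (Or.inr h1.1), ?_⟩
        rw [h1.1]
        exact h1.2.2
  refine ⟨ν, (g, A, B), ⟨⟨hHS, (hmem g).2 (Or.inr rfl)⟩, hν, hg, hsb, hdom, hnm, hmem, ?_⟩⟩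
  intro E hE
  refine Prod.ext rfl (Prod.ext (ISet.ext fun y => ?_) (ISet.ext fun y => ?_))
  · obtain ⟨α, C⟩ := y
    show ((α, C) ∈ A ∧ Sb C E) ↔ ((α, C) ∈ S.2.1 ∧ Sb C E)
    rw [hA]
    constructor
    · rintro ⟨h1 | h1, h2⟩
      · exact ⟨h1, h2⟩
      · rw [h1.2] at h2
        exact absurd h2 (hnot E hE)
    · rintro ⟨h1, h2⟩
      exact ⟨Or.inl h1, h2⟩
  · obtain ⟨C, m, m'⟩ := y
    show ((C, m, m') ∈ B ∧ Sb C E) ↔ ((C, m, m') ∈ S.2.2 ∧ Sb C E)
    rw [hB]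
    constructor
    · rintro ⟨h1 | h1, h2⟩
      · exact ⟨h1, h2⟩
      · rw [h1.1] at h2
        exact absurd h2 (hnot E hE)
    · rintro ⟨h1, h2⟩
      exact ⟨Or.inl h1, h2⟩

theorem IsTop.le {S S' S₀ : Stc M W} {ν : W} {n : Nm M W} (h : IsTop c S S' ν n)
    (h0 : Mem S S₀.1) (h1 : MP_20495c_lc.res S S₀.1 = S₀) : SLe S₀ S' :=
  ⟨(h.mem _).2 (Or.inl h0), (h.res _ h0).trans h1⟩

/-- comparability with a base which is a member -/
theorem IsTop.cmp {S S' F : Stc M W} {ν : W} {n : Nm M W} (h : IsTop c S S' ν n)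
    (hF : Mem S F.1) (hC : Cmp F S) : Cmp F S' := by
  intro D hD
  rcases (h.mem D).1 hD with h1 | h1
  · exact hC D h1
  · refine Or.inr ?_
    rw [h1]
    exact (h.sv.sub F.1 ((h.mem _).2 (Or.inl hF))).2

end Pool.Agent.H.MP_20495c_lc
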