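import Pool.Agent.H.MP_20495c_lc.B.GenX
import Pool.Agent.H.MP_20495c_lc.B.Top
import Pool.Agent.H.MP_20495c_lc.B.Chain
import Pool.Agent.H.MP_20495c_lc.B.Amal

/-!
# Part B, module Kk: closure properties of the classes `KK c F T`
-/

set_option autoImplicit false
set_option linter.unusedSectionVars false

namespace Pool.Agent.H.MP_20495c_lc

open Pool.Agent.H.MP_07d118_lc Pool.Agent.H.MP_a163f2_lc

universe u v w x

variable {M : Type u} [SetStr M] [ZFC M] [Std M] {W : Type v} [LinearOrder W] [Cd M W] [Om1 M W]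
variable {c : W × Hc → ℕ → ℕ} [hL : Fact (Luz M W c)]
variable {S S' S₁ S₂ F : Stc M W} {T T' : Tt M W}

theorem KK.anti (h : ∀ q, q ∈ T → q ∈ T') (hk : KK c F T' S) : KK c F T S := by
  exact ⟨hk.sv, hk.le, hk.cmp, fun ν hν hF G hG hp x z he hpt =>
    hk.ok ν hν hF G hG hp x z he (PT_mono h hpt)⟩

theorem KK_self (hF : SV c F) : KK c F T F := by
  exact ⟨hF, SLe.refl hF, fun D hD => Or.inl (hF.sub D hD).2, fun ν hν h => absurd hν h⟩

/-- `SV_res`, `SLe_res_of`, `Cmp.res`. `ok`: a node `ν` of `D` outside the base, `G'` generic for `D`: `exists_gen_ext0` gives `G` generic for `S.1` with `G ∩ PP c D = G'`; the value of the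
node is the same (`ev_inter`), and `PT T (res S D) G'` gives `PT T (res S D) G` (`PT_inter`), hence `PT T S G` (`PT_up`). -/
theorem KK_res [Countable M] (hI0 : I0 c T) (h : KK c F T S) {D : Pl M W} (hD : Mem S D)
    (hFD : Sb F.1 D) : KK c F T (res S D) := by
  have hsv : SV c (res S D) := SV_res h.sv.toHS hD
  refine ⟨hsv, SLe_res_of h.le hFD, h.cmp.res, ?_⟩
  intro ν hν hνF G' hG' hp x z he hpt
  have hν' : ν ∈ D.dom := hν
  obtain ⟨hvD, hsb⟩ := h.sv.sub D hD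
  have hG'' : Gen c D G' := hG'
  obtain ⟨G, hG, hGi⟩ := exists_gen_ext0 hvD h.sv.val hsb hG''
  have hnm : S.1.nm ν = D.nm ν := hsb.nm_eq hν'
  have he1 : ev (D.nm ν) G' = T3 x z 0 := he
  have he2 : ev (S.1.nm ν) G = T3 x z 0 := by
    rw [hnm, ← ev_inter (hvD.nm ν hν'), hGi]
    exact he1
  have hpt1 : PT T (res S D) (G ∩ PP c (res S D).1) x z := by
    rw [res_fst, hGi]
    exact hpt
  exact h.ok ν (hsb.dom hν') hνF G hG hG.empty_mem x z he2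
    (PT_up (SLe_res hD) ((PT_inter hI0 hsv.toHS).1 hpt1))

/-- Substructures which contain the base. -/
theorem KK.of_le [Countable M] (hI0 : I0 c T) (h : KK c F T S') (hs : SLe S S')
    (hF : Sb F.1 S.1) : KK c F T S := by
  have h1 := KK_res hI0 h hs.1 hF
  rwa [hs.2] at h1

theorem Kk_loc [Countable M] (hI0 : I0 c T) (hI2 : I2 c F T) (hS : SV c S') (hF : SLe F S')
    (hC : Cmp F S') (hs : SLe S S') (hsv : SV c S) (hFS : Sb F.1 S.1) {G : Set (Cond W)}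
    (hG : Gen c S'.1 G) {n : Nm M W} (hn : IsNm c S.1 n) {x z : ℕ → ℕ}
    (he : ev n G = T3 x z 0) (hpt : PT T S' G x z) : Gen c S.1 (G ∩ PP c S.1) ∧
      ev n (G ∩ PP c S.1) = T3 x z 0 ∧ PT T S (G ∩ PP c S.1) x z := by
  have hsb : Sb S.1 S'.1 := hs.sb hS.toHS
  have hx := (node_RR hS.val hsv.val hsb hG hn he).1
  have h1 := LOC hI2 hS hF hC hs.1 hFS hG hx hpt
  rw [hs.2] at h1
  refine ⟨hG.restrict hsv.val hsb, ?_, (PT_inter hI0 hsv.toHS).2 h1⟩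
  rw [ev_inter hn]
  exact he

/-- **General criterion.** `S'` arises by a top node from the headless `S₀`, every old node outside the base lies in a substructure of `S'` which is in the class. For such a node `μ`
in `S₁`, `G` generic for `S'.1`, pair `x z`: `x ∈ RR c S₁.1 G` (`node_RR`), so `PT T S' G x z` gives `PT T S₁ G x z` (`LOC`, `res S' S₁.1 = S₁`), hence at `G ∩ PP c S₁.1` (`PT_inter`), which
is generic for `S₁.1`; contradiction to `S₁` in the class. -/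
theorem KK_of_top [Countable M] (hI0 : I0 c T) (hI2 : I2 c F T) {S₀ : Stc M W} {ν : W}
    {n : Nm M W} (h : IsTop c S₀ S' ν n) (hF : Mem S₀ F.1) (hFr : res S₀ F.1 = F)
    (hC : Cmp F S₀)
    (hold : ∀ μ ∈ S₀.1.dom, μ ∉ F.1.dom → ∃ S₁, KK c F T S₁ ∧ SLe S₁ S' ∧ μ ∈ S₁.1.dom)
    (hnew : ∀ G, Gen c S'.1 G → ∀ x z, ev n G = T3 x z 0 → ¬ PT T S' G x z) :
    KK c F T S' := by
  have hle : SLe F S' := h.le hF hFr
  have hcmp : Cmp F S' := h.cmp hF hC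
  refine ⟨h.sv, hle, hcmp, ?_⟩
  intro μ hμ hμF G hG hp x z he hpt
  rcases (h.dom μ).1 hμ with h1 | h1
  · refine hnew G hG x z ?_ hpt
    rw [← h.nm, ← h1]
    exact he
  · obtain ⟨S₁, hK, hs, hμ1⟩ := hold μ h1 hμF
    have hsb : Sb S₁.1 S'.1 := hs.sb h.sv.toHS
    have he1 : ev (S₁.1.nm μ) G = T3 x z 0 := by
      rw [← hsb.nm_eq hμ1]
      exact he
    obtain ⟨h2, h3, h4⟩ := Kk_loc hI0 hI2 h.sv hle hcmp hs hK.sv (hK.le.sb hK.sv.toHS) hG
      (hK.sv.val.nm μ hμ1) he1 hpt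
    exact hK.ok μ hμ1 hμF _ h2 h2.empty_mem x z h3 h4

/-- New top node coding `n` over `S`: `exists_top` with `D = S.1`, `KK_of_top` with `S₀ = S₁ = S`. -/
theorem KK_top [Countable M] (hI0 : I0 c T) (hI2 : I2 c F T) (h : KK c F T S) {n : Nm M W}
    (hn : IsNm c S.1 n)
    (hnp : ∀ G, Gen c S.1 G → ∀ x z, ev n G = T3 x z 0 → ¬ PT T S G x z) :
    ∃ ν S', IsTop c S S' ν n ∧ KK c F T S' ∧ SLe S S' := by
  obtain ⟨ν, S', ht⟩ := exists_top h.sv.toHS h.sv.top hn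
  have hSS : SLe S S' := ht.le h.sv.top (res_self h.sv)
  refine ⟨ν, S', ht, ?_, hSS⟩
  refine KK_of_top hI0 hI2 ht h.le.1 h.le.2 h.cmp (fun μ hμ _ => ⟨S, h, hSS, hμ⟩) ?_
  intro G hG x z he hpt
  obtain ⟨h2, h3, h4⟩ := Kk_loc hI0 hI2 ht.sv (h.le.trans hSS) (ht.cmp h.le.1 h.cmp) hSS h.sv
    (h.le.sb h.sv.toHS) hG hn he hpt
  exact hnp _ h2 x z h3 h4

/-- Amalgamation with a default node on top: `stA_HS`, `exists_top`, `KK_of_top`, `dfn_ne`. -/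
theorem KK_amalg [Countable M] (hI0 : I0 c T) (hI2 : I2 c F T) (h1 : KK c F T S₁)
    (h2 : KK c F T S₂) {D : Pl M W} (hA : AmD c S₁ S₂ D) (hFD : Sb F.1 D) :
    ∃ ν S', IsTop c (stA S₁ S₂) S' ν dfn ∧ KK c F T S' ∧ SLe S₁ S' ∧ SLe S₂ S' := by
  obtain ⟨ν, S', ht⟩ := exists_top (stA_HS hA) (mem_stA.2 (Or.inl hA.m1)) (dfn_IsNm D)
  have hs1 : SLe S₁ S' := ht.le (mem_stA.2 (Or.inl h1.sv.top))
    ((stA_res1 hA h1.sv.top).trans (res_self h1.sv))
  have hs2 : SLe S₂ S' := ht.le (mem_stA.2 (Or.inr h2.sv.top))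
    ((stA_res2 hA h2.sv.top).trans (res_self h2.sv))
  refine ⟨ν, S', ht, ?_, hs1, hs2⟩
  refine KK_of_top hI0 hI2 ht (mem_stA.2 (Or.inl h1.le.1))
    ((stA_res1 hA h1.le.1).trans h1.le.2) ?_ ?_ ?_
  · intro E hE
    rcases mem_stA.1 hE with h3 | h3
    · exact h1.cmp E h3
    · exact h2.cmp E h3
  · intro μ hμ _
    have h0 : μ ∈ (plU S₁.1 S₂.1).dom := hμ
    rw [plU_dom] at h0
    rcases h0 with h3 | h3
    · exact ⟨S₁, h1, hs1, h3⟩
    · exact ⟨S₂, h2, hs2, h3⟩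
  · intro G hG x z he
    exact absurd he (dfn_ne hG x z)

/-- Unions of countable chains with a default node on top. -/
theorem KK_chain [Countable M] {X : Type v} [Cd M X] (hI0 : I0 c T) (hI2 : I2 c F T)
    {P : X → Prop} (hP : In M P) {Fm : X → Stc M W} (hFm : IF M Fm)
    (hch : ∀ i j, P i → P j → SLe (Fm i) (Fm j) ∨ SLe (Fm j) (Fm i)) (hne : ∃ t, P t)
    (hct : ICt M {t | P t}) (hK : ∀ t, P t → KK c F T (Fm t)) :
    ∃ ν S', IsTop c (stUn P hP Fm hFm) S' ν dfn ∧ KK c F T S' ∧ ∀ t, P t → SLe (Fm t) S' := by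
  have hv : ∀ t, P t → SV c (Fm t) := fun t ht => (hK t ht).sv
  obtain ⟨t0, ht0⟩ := hne
  obtain ⟨ν, S', ht⟩ := exists_top (stUn_HS (hP := hP) (hFm := hFm) hch hct hv)
    (mem_stUn.2 ⟨t0, ht0, (hv t0 ht0).top⟩) (dfn_IsNm (Fm t0).1)
  have hs : ∀ t, P t → SLe (Fm t) S' := fun t h => ht.le (mem_stUn.2 ⟨t, h, (hv t h).top⟩)
    ((stUn_res hch hv h (hv t h).top).trans (res_self (hv t h)))
  refine ⟨ν, S', ht, ?_, hs⟩
  refine KK_of_top hI0 hI2 ht (mem_stUn.2 ⟨t0, ht0, (hK t0 ht0).le.1⟩)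
    ((stUn_res hch hv ht0 (hK t0 ht0).le.1).trans (hK t0 ht0).le.2) ?_ ?_ ?_
  · intro E hE
    obtain ⟨t, h1, h2⟩ := mem_stUn.1 hE
    exact (hK t h1).cmp E h2
  · intro μ hμ _
    obtain ⟨t, h1, h2⟩ := stUn_dom.1 hμ
    exact ⟨Fm t, hK t h1, hs t h1, h2⟩
  · intro G hG x z he
    exact absurd he (dfn_ne hG x z)

/-- Unions of countable chains of structures (no class). -/
theorem SV_chain [Countable M] {X : Type v} [Cd M X] {P : X → Prop} (hP : In M P)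
    {Fm : X → Stc M W} (hFm : IF M Fm)
    (hch : ∀ i j, P i → P j → SLe (Fm i) (Fm j) ∨ SLe (Fm j) (Fm i)) (hne : ∃ t, P t)
    (hct : ICt M {t | P t}) (hK : ∀ t, P t → SV c (Fm t)) :
    ∃ ν S', IsTop c (stUn P hP Fm hFm) S' ν dfn ∧ ∀ t, P t → SLe (Fm t) S' := by
  obtain ⟨t0, ht0⟩ := hne
  obtain ⟨ν, S', ht⟩ := exists_top (stUn_HS (hP := hP) (hFm := hFm) hch hct hK)
    (mem_stUn.2 ⟨t0, ht0, (hK t0 ht0).top⟩) (dfn_IsNm (Fm t0).1)
  exact ⟨ν, S', ht, fun t h => ht.le (mem_stUn.2 ⟨t, h, (hK t h).top⟩)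
    ((stUn_res hch hK h (hK t h).top).trans (res_self (hK t h)))⟩

end Pool.Agent.H.MP_20495c_lc
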