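import Pool.Agent.H.MP_20495c_lc.B.Str
import Pool.Agent.H.MP_20495c_lc.B.CapR

/-!
# Part B, module Least: the least member containing given reals
-/

set_option autoImplicit false
set_option linter.unusedSectionVars false

namespace Pool.Agent.H.MP_20495c_lc

open Pool.Agent.H.MP_07d118_lc Pool.Agent.H.MP_a163f2_lc

universe u v w x

variable {M : Type u} [SetStr M] [ZFC M] [Std M] {W : Type v} [LinearOrder W] [Cd M W] [Om1 M W]
variable {c : W × Hc → ℕ → ℕ} [hL : Fact (Luz M W c)]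
variable {S S' F : Stc M W}

/-- **Least member** (pairs). Among the members `D` of `S` with `Sb F.1 D` and `x, z ∈ RR c D G` (the top `S.1` is one) choose
one with the least rank `α` (`Om1.wf`).  For another such member `D'`, `plI D D'` is a member (`cap`) with `Sb F.1 (plI D D')`
(`sb_plI`; `Sb F.1 S.1`), and `x`, `z` are in its reals (`RR_plI` in `S.1`); if it were different from `D` its rank would be smaller (`rk`,
`plI_sb_left`); so `plI D D' = D`, that is `Sb D D'` (`plI_eq_left_iff`). -/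
theorem exists_least2 [Countable M] (h : SV c S) (hF : SLe F S) {G : Set (Cond W)}
    (hG : Gen c S.1 G) {x z : ℕ → ℕ} (hx : x ∈ RR c S.1 G) (hz : z ∈ RR c S.1 G) :
    ∃ D, Mem S D ∧ Sb F.1 D ∧ x ∈ RR c D G ∧ z ∈ RR c D G ∧
      ∀ D', Mem S D' → Sb F.1 D' → x ∈ RR c D' G → z ∈ RR c D' G → Sb D D' := by
  have wf : WellFounded ((· < ·) : W → W → Prop) := Om1.wf (M := M)
  have hA : {α : W | ∃ D, (α, D) ∈ S.2.1 ∧ Sb F.1 D ∧ x ∈ RR c D G ∧ z ∈ RR c D G}.Nonempty := by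
    obtain ⟨α, hα⟩ := h.top
    exact ⟨α, S.1, hα, hF.sb h.toHS, hx, hz⟩
  obtain ⟨α, ⟨D, hD, hFD, hxD, hzD⟩, hmin⟩ := wf.has_min _ hA
  have hDm : Mem S D := ⟨α, hD⟩
  refine ⟨D, hDm, hFD, hxD, hzD, fun D' hD' hFD' hx' hz' => ?_⟩
  obtain ⟨vD, sD⟩ := h.sub D hDm
  obtain ⟨vD', sD'⟩ := h.sub D' hD'
  obtain ⟨α', hα'⟩ := h.cap D D' hDm hD'
  by_contra hn
  have hne : plI D D' ≠ D := fun e => hn ((plI_eq_left_iff sD sD').1 e)
  have hlt := h.rk α' α (plI D D') D hα' hD (plI_sb_left sD sD') hne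
  exact hmin α' ⟨plI D D', hα', sb_plI hFD hFD', (RR_plI vD vD' h.val sD sD' hG).2 ⟨hxD, hx'⟩,
    (RR_plI vD vD' h.val sD sD' hG).2 ⟨hzD, hz'⟩⟩ hlt

theorem exists_least [Countable M] (h : SV c S) (hF : SLe F S) {G : Set (Cond W)}
    (hG : Gen c S.1 G) {x : ℕ → ℕ} (hx : x ∈ RR c S.1 G) :
    ∃ D, Mem S D ∧ Sb F.1 D ∧ x ∈ RR c D G ∧
      ∀ D', Mem S D' → Sb F.1 D' → x ∈ RR c D' G → Sb D D' := by
  obtain ⟨D, h1, h2, h3, -, h5⟩ := exists_least2 h hF hG hx hx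
  exact ⟨D, h1, h2, h3, fun D' a b d => h5 D' a b d d⟩

end Pool.Agent.H.MP_20495c_lc
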