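import Pool.Agent.H.MP_20495c_lc.B.PermT

/-!
# Part B, module PermK: transport of kicks, candidates and new protections
-/

set_option autoImplicit false
set_option linter.unusedSectionVars false

namespace Pool.Agent.H.MP_20495c_lc

open Pool.Agent.H.MP_07d118_lc Pool.Agent.H.MP_a163f2_lc

universe u v w x

variable {M : Type u} [SetStr M] [ZFC M] [Std M] {W : Type v} [LinearOrder W] [Cd M W] [Om1 M W]
variable {c : W × Hc → ℕ → ℕ} [hL : Fact (Luz M W c)]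
variable {K : Set (ℕ → ℕ) → (ℕ → ℕ) → (ℕ → ℕ) → Prop} {r : Nm M W → Nm M W → Prop}
variable {S S' F : Stc M W} {π : Equiv.Perm W} {hπ : IF M π} {T : Tt M W}

/-- restriction of a moved condition -/
theorem pmC_crs {g : Pl M W} {p : Cond W} :
    crs (pmP π hπ g).dom (pmC π p) = pmC π (crs g.dom p) := by
  have h1 : ∀ ν : W, ν ∈ (pmP π hπ g).dom ↔ π.symm ν ∈ g.dom := by
    intro ν
    rw [pmP_dom]
    exact Set.mem_image_equiv
  refine Prod.ext (Finset.ext fun x => ?_) (Finset.ext fun x => ?_)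
  · rw [mem_crs1, mem_pmC1, mem_pmC1, mem_crs1, h1]
  · rw [mem_crs2, mem_pmC2, mem_pmC2, mem_crs2, h1]

theorem PermK_image (π : Equiv.Perm W) (G : Set (Cond W)) : pmC π.symm '' (pmC π '' G) = G := by
  rw [Set.image_image]
  simp only [pmC_symm, Set.image_id']

theorem PermK_Kb (hF : SV c F) (hT : I1 F T) (hf : ∀ ν ∈ F.1.dom, π ν = ν) {G : Set (Cond W)}
    {x z : ℕ → ℕ} (h : Kb c K F T S G x z) :
    Kb c K F T (pmS π hπ S) (pmC π '' G) x z := by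
  obtain ⟨S', h1, h2, p, h3, h4, a, b, h5, h6, h7, h8, h9⟩ := h
  refine ⟨pmS π hπ S', KK_pm hF hT hf h1, pmS_SLe h2, pmC π p, (pmC_PP (hπ := hπ)).2 h3, ?_,
    pmN π hπ a, pmN π hπ b, pmN_IsNm (hπ := hπ) h5, pmN_IsNm (hπ := hπ) h6, ?_, ?_, ?_⟩
  · rw [pmS_fst, pmC_crs]
    exact ⟨_, h4, rfl⟩
  · rw [pm_ev]
    exact h7
  · rw [pm_ev]
    exact h8
  · rw [pmS_fst]
    refine (pm_Fo (hπ := hπ)).2 ?_
    intro G' hG' hp
    have h10 := h9 G' hG' hp
    rw [pm_RR, pm_ev, pm_ev]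
    exact h10

/-- The witness `(S', p, a, b)` is moved: `KK_pm`, `pmS_SLe`, `pmC_PP`, `pmC_crs`, `pmN_IsNm`, `pm_ev`, and `pm_Fo` with `pm_RR`, `pm_ev` for the
forced statement. The other direction: the inverse permutation. -/
theorem Kb_pm (hF : SV c F) (hT : I1 F T) (hf : ∀ ν ∈ F.1.dom, π ν = ν) {G : Set (Cond W)}
    {x z : ℕ → ℕ} : Kb c K F T (pmS π hπ S) (pmC π '' G) x z ↔ Kb c K F T S G x z := by
  refine ⟨fun h => ?_, PermK_Kb hF hT hf⟩
  have h1 := PermK_Kb (π := π.symm) (hπ := IF.symm hπ) hF hT (Perm2_symm_fix hf) h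
  rwa [pmS_symm, PermK_image] at h1

theorem Cand_pm (hF : SV c F) (hT : I1 F T) (hf : ∀ ν ∈ F.1.dom, π ν = ν) {G : Set (Cond W)}
    {x : ℕ → ℕ} {n : Nm M W} :
    Cand c K F T (pmS π hπ S) (pmC π '' G) x (pmN π hπ n) ↔ Cand c K F T S G x n := by
  unfold Cand
  rw [pmS_fst, pmN_IsNm_iff, pm_ev, El_pm, Kb_pm hF hT hf]

/-- the labels are not moved -/
theorem Lower_pm {n n' : Nm M W} :
    Lower r (pmS π hπ S) (pmN π hπ n') (pmN π hπ n) ↔ Lower r S n' n := by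
  unfold Lower
  rw [pmS_fst]
  simp only [mem_pmS2]

theorem New_pm (hF : SV c F) (hf : ∀ ν ∈ F.1.dom, π ν = ν) {G : Set (Cond W)} {x : ℕ → ℕ} :
    New c F (pmS π hπ S) (pmC π '' G) x ↔ New c F S G x := by
  have hb : pmP π hπ F.1 = F.1 := pmP_fix hF.val hf
  have key : ∀ D, (pmP π hπ D ≠ pmP π hπ S.1 ↔ D ≠ S.1) := by
    intro D
    refine not_congr ⟨fun h => ?_, fun h => by rw [h]⟩
    have h1 := congrArg (pmP π.symm (IF.symm hπ)) h
    rwa [pmP_symm, pmP_symm] at h1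
  have key2 : ∀ D, Sb F.1 (pmP π hπ D) ↔ Sb F.1 D := by
    intro D
    have h1 : Sb (pmP π hπ F.1) (pmP π hπ D) ↔ Sb F.1 D := pmP_Sb_iff
    rwa [hb] at h1
  constructor
  · intro h D hD h1 h2
    have h3 := h (pmP π hπ D) (Mem_pmS.2 hD) ((key D).2 h1) ((key2 D).2 h2)
    rwa [RR_pm] at h3
  · intro h E hE h1 h2
    obtain ⟨D, hD, rfl⟩ := Mem_pmS'.1 hE
    rw [RR_pm]
    exact h D hD ((key D).1 h1) ((key2 D).1 h2)

theorem Th_pm (hF : SV c F) (hT : I1 F T) (hf : ∀ ν ∈ F.1.dom, π ν = ν) {G : Set (Cond W)}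
    {a b : Nm M W} : Th c K r F T (pmS π hπ S) (pmC π '' G) (pmN π hπ a) (pmN π hπ b) ↔
      Th c K r F T S G a b := by
  constructor
  · rintro ⟨h1, h2, n, h3, h4, h5⟩
    rw [pm_ev] at h1 h3
    refine ⟨(New_pm hF hf).1 h1, fun z hz => ?_, pmN π.symm (IF.symm hπ) n, ?_, ?_, ?_⟩
    · refine h2 z ?_
      rw [pm_ev]
      exact (PT_pm hT hf).2 hz
    · rw [← Cand_pm (π := π) (hπ := hπ) hF hT hf, pmN_symm']
      exact h3
    · rw [← pm_ev (π := π) (hπ := hπ), pmN_symm', h4, pm_ev]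
    · intro n' hn' hl
      refine h5 (pmN π hπ n') ?_ ?_
      · rw [pm_ev]
        exact (Cand_pm hF hT hf).2 hn'
      · have h6 := (Lower_pm (r := r) (S := S) (π := π) (hπ := hπ)).2 hl
        rwa [pmN_symm'] at h6
  · rintro ⟨h1, h2, n, h3, h4, h5⟩
    refine ⟨?_, fun z hz => ?_, pmN π hπ n, ?_, ?_, ?_⟩
    · rw [pm_ev]
      exact (New_pm hF hf).2 h1
    · rw [pm_ev] at hz
      exact h2 z ((PT_pm hT hf).1 hz)
    · rw [pm_ev]
      exact (Cand_pm hF hT hf).2 h3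
    · rw [pm_ev, pm_ev]
      exact h4
    · intro n' hn' hl
      rw [pm_ev, ← pmN_symm' (π := π) (hπ := hπ) (IF.symm hπ) n', Cand_pm hF hT hf] at hn'
      rw [← pmN_symm' (π := π) (hπ := hπ) (IF.symm hπ) n', Lower_pm] at hl
      exact h5 _ hn' hl

/-- The new protections are invariant under the permutations which fix the base. -/
theorem GamP_pm (hF : SV c F) (hT : I1 F T) (hf : ∀ ν ∈ F.1.dom, π ν = ν) {p : Cond W}
    {a b : Nm M W} (h : GamP c K r F T (S, p, a, b)) :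
    GamP c K r F T (pmS π hπ S, pmC π p, pmN π hπ a, pmN π hπ b) := by
  refine ⟨KK_pm hF hT hf h.kk, (pmC_PP (hπ := hπ)).2 h.cond, pmN_IsNm (hπ := hπ) h.nma,
    pmN_IsNm (hπ := hπ) h.nmb, ?_⟩
  refine (pm_Fo (hπ := hπ)).2 ?_
  have h1 := h.fo
  intro G hG hp
  exact (Th_pm hF hT hf).2 (h1 G hG hp)

/-- Disjoint copies over a member: `exists_rename` with `f = D`, `g = S.1`, `g' = h`. -/
theorem exists_move {S : Stc M W} (hS : SV c S) {D : Pl M W} (hD : Mem S D) {h : Pl M W}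
    (hh : Valid c h) : ∃ (π : Equiv.Perm W) (hπ : IF M π), (∀ ν ∈ D.dom, π ν = ν) ∧
      (∀ ν ∈ (pmP π hπ S.1).dom, ν ∈ h.dom → ν ∈ D.dom) ∧ pmP π hπ D = D ∧
      res (pmS π hπ S) D = res S D := by
  obtain ⟨π, hπ, h1, h2⟩ := exists_rename (M := M) hS.val hh (hS.sub D hD).2
  have h3 : pmP π hπ D = D := pmP_fix (hS.sub D hD).1 h1
  refine ⟨π, hπ, h1, ?_, h3, ?_⟩
  · intro ν hν hν'
    rw [pmP_dom] at hν
    obtain ⟨μ, hμ, rfl⟩ := hν
    by_cases h4 : μ ∈ D.dom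
    · rw [h1 μ h4]
      exact h4
    · exact absurd hν' (h2 μ hμ h4)
  · have h4 : pmS π hπ (res S D) = res S D := pmS_fix (SV_res hS.toHS hD) h1
    rw [← h4, pmS_res, h3]

end Pool.Agent.H.MP_20495c_lc
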