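import Pool.Agent.H.MP_20495c_lc.B.Kk
import Pool.Agent.H.MP_20495c_lc.B.PermK
import Pool.Agent.H.MP_20495c_lc.B.Int2

/-!
# Part B, module LemU: kickability is absolute
-/

set_option autoImplicit false
set_option linter.unusedSectionVars false

namespace Pool.Agent.H.MP_20495c_lc

open Pool.Agent.H.MP_07d118_lc Pool.Agent.H.MP_a163f2_lc

universe u v w x

variable {M : Type u} [SetStr M] [ZFC M] [Std M] {W : Type v} [LinearOrder W] [Cd M W] [Om1 M W]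
variable {c : W × Hc → ℕ → ℕ} [hL : Fact (Luz M W c)]
variable {K : Set (ℕ → ℕ) → (ℕ → ℕ) → (ℕ → ℕ) → Prop} {r : Nm M W → Nm M W → Prop}
variable {S S' F : Stc M W} {T T' : Tt M W} [hK : Fact (KOK M W c K)]

theorem Kb_anti (h : ∀ q, q ∈ T → q ∈ T') {G : Set (Cond W)} {x z : ℕ → ℕ}
    (hk : Kb c K F T' S G x z) : Kb c K F T S G x z := by
  obtain ⟨S₁, h1, h2⟩ := hk
  exact ⟨S₁, KK.anti h h1, h2⟩

/-- Downwards. Witness `(S'', p, a, b)` with names `a b` over `S'.1`; let `a₀ b₀` be names over `S.1` with the values `x z` at `G`. Some `p₁ ∈ G` below `crs S'.1.dom p` forces over `S'.1`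
that `a = a₀`, `b = b₀` (`Good.eqR`, `Good.truth`). `p₂ = cup p₁ p ∈ PP c S''.1` (`amal`), `crs S.1.dom p₂ = crs S.1.dom p₁ ∈ G` (`crs_cup_eq` for `S'.1`, `Gen.crs_mem`), and `p₂` forces
`K (RR c S''.1 ·) a₀ b₀` since for `G'` generic for `S''.1`, `p₂ ∈ G'`: `p₁ ∈ G' ∩ PP c S'.1`, which is generic for `S'.1`. -/
theorem Kb_down [Countable M] (hS' : SV c S') (h : SLe S S') {G : Set (Cond W)}
    (hG : Gen c S'.1 G) {x z : ℕ → ℕ} (hx : x ∈ RR c S.1 G) (hz : z ∈ RR c S.1 G)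
    (hk : Kb c K F T S' G x z) : Kb c K F T S G x z := by
  obtain ⟨S₂, h1, h2, p, hp, hpG, a, b, ha, hb, hax, hbz, hfo⟩ := hk
  obtain ⟨a₀, ha₀, hax₀⟩ := hx
  obtain ⟨b₀, hb₀, hbz₀⟩ := hz
  have hSv : Valid c S.1 := (h.sv hS'.toHS).val
  have hsb : Sb S.1 S'.1 := h.sb hS'.toHS
  have hsb2 : Sb S'.1 S₂.1 := h2.sb h1.sv.toHS
  have hgood : Good c (fun _ : Cond W => S'.1) (fun _ G => ev a G = ev a₀ G ∧ ev b G = ev b₀ G) :=
    Good.and (Good.eqR (IF.const _) (GoodR.ev (IF.const _) (IF.const a))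
      (GoodR.ev (IF.const _) (IF.const a₀))) (Good.eqR (IF.const _)
      (GoodR.ev (IF.const _) (IF.const b)) (GoodR.ev (IF.const _) (IF.const b₀)))
  obtain ⟨q, hqG, hq⟩ := Good.truth (t := p) (IF.const _) hgood hG
    ⟨hax.trans hax₀.symm, hbz.trans hbz₀.symm⟩
  obtain ⟨h3, h4, h5⟩ := hG.cup_mem hqG hpG
  -- `p₁ = cup q (crs S'.1.dom p)`
  generalize cup q (crs S'.1.dom p) = p₁ at h3 h4 h5
  have hp₁ : p₁ ∈ PP c S'.1 := hG.sub _ h3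
  obtain ⟨h6, h7, h8⟩ := amal hsb2 hp hp₁ h5
  refine ⟨S₂, h1, h.trans h2, cup p₁ p, h6, ?_, a₀, b₀, ha₀, hb₀, hax₀, hbz₀, ?_⟩
  · have h9 : crs S.1.dom (cup p₁ p) = crs S.1.dom p₁ := by
      have h10 := crs_cup_eq hp₁ h5
      have h11 := congrArg (crs S.1.dom) h10
      rwa [crs_crs, Set.inter_eq_left.2 hsb.dom] at h11
    rw [h9]
    exact (Gen.crs_mem hSv hsb hG h3).1
  · intro G' hG' hpG'
    have h9 : p ∈ G' := hG'.up _ hpG' _ hp h7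
    have h10 : p₁ ∈ G' := hG'.up _ hpG' _ (PP_mono hsb2 hp₁) h8
    have h11 : q ∈ G' := hG'.up _ h10 _ (PP_mono hsb2 (hG.sub _ hqG)) h4
    have hG2 := hG'.restrict hS'.val hsb2
    have h12 : ev a (G' ∩ PP c S'.1) = ev a₀ (G' ∩ PP c S'.1) ∧
        ev b (G' ∩ PP c S'.1) = ev b₀ (G' ∩ PP c S'.1) := hq _ hG2 ⟨h11, hG.sub _ hqG⟩
    have ha₁ : IsNm c S'.1 a₀ := ha₀.mono hSv hsb
    have hb₁ : IsNm c S'.1 b₀ := hb₀.mono hSv hsb
    rw [ev_inter ha, ev_inter hb, ev_inter ha₁, ev_inter hb₁] at h12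
    have h13 : K (RR c S₂.1 G') (ev a G') (ev b G') := hfo G' hG' h9
    rw [h12.1, h12.2] at h13
    exact h13

/-- Upwards (**Lemma U**). Witness `(S₁, p, a, b)` for `S`. `exists_move` for `S₁`, its member `S.1` and the plan `S'.1` gives `π` fixing `S.1.dom`; `S₂ = pmS π S₁` is in the class (`KK_pm`;
`F.1.dom ⊆ S.1.dom`), `SLe S S₂` (`pmS_SLe`, `pmS_fix`).  `AmD c S' S₂ S.1` holds, `KK_amalg` gives `S₃ ≥ S', S₂` in the class. `π p ∈ PP c S₂.1` is a condition of `S₃.1`,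
`crs S'.1.dom (π p) = crs S.1.dom p ∈ G` (its nodes outside `S.1.dom` are not in `S'.1.dom`; `pmC_fix`), names `a b` over `S.1` are names over `S'.1` (`IsNm.mono`) and are fixed by `π`
(`pmN_fix`). For `G'` generic for `S₃.1` with `π p ∈ G'`: `G' ∩ PP c S₂.1` is generic, `pm_Fo` and `pm_RR` give `K (RR c S₂.1 G') ..`, `hK.out.up` gives `K (RR c S₃.1 G') ..`. -/
theorem Kb_up [Countable M] (hI0 : I0 c T) (hI1 : I1 F T) (hI2 : I2 c F T) (hF : SV c F)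
    (hS : KK c F T S) (hS' : KK c F T S') (h : SLe S S') {G : Set (Cond W)}
    (hG : Gen c S'.1 G) {x z : ℕ → ℕ} (hk : Kb c K F T S G x z) : Kb c K F T S' G x z := by
  obtain ⟨S₁, h1, h2, p, hp, hpG, a, b, ha, hb, hax, hbz, hfo⟩ := hk
  have hSv : Valid c S.1 := hS.sv.val
  have hsb : Sb S.1 S'.1 := h.sb hS'.sv.toHS
  have hFS : Sb F.1 S.1 := hS.le.sb hS.sv.toHS
  obtain ⟨π, hπ, hf, hd, hD, hr⟩ := exists_move h1.sv h2.1 hS'.sv.val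
  have hfF : ∀ ν ∈ F.1.dom, π ν = ν := fun ν hν => hf ν (hFS.dom hν)
  have hK2 : KK c F T (pmS π hπ S₁) := KK_pm hF hI1 hfF h1
  have hm2 : Mem (pmS π hπ S₁) S.1 := by
    have h3 := (Mem_pmS (π := π) (hπ := hπ)).2 h2.1
    rwa [hD] at h3
  have hle2 : SLe S (pmS π hπ S₁) := ⟨hm2, hr.trans h2.2⟩
  have hA : AmD c S' (pmS π hπ S₁) S.1 :=
    ⟨hS'.sv, hK2.sv, h.1, hm2, h.2.trans hle2.2.symm, fun ν h3 h4 => hd ν h4 h3⟩
  obtain ⟨ν₀, S₃, -, hK3, hle3, hle4⟩ := KK_amalg hI0 hI2 hS' hK2 hA hFS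
  have hp2 : pmC π p ∈ PP c (pmS π hπ S₁).1 := (pmC_PP (hπ := hπ)).2 hp
  have hsb23 : Sb (pmS π hπ S₁).1 S₃.1 := hle4.sb hK3.sv.toHS
  have hsb2 : Sb S.1 (pmS π hπ S₁).1 := hle2.sb hK2.sv.toHS
  have ha' : IsNm c (pmS π hπ S₁).1 a := ha.mono hSv hsb2
  have hb' : IsNm c (pmS π hπ S₁).1 b := hb.mono hSv hsb2
  refine ⟨S₃, hK3, hle3, pmC π p, PP_mono hsb23 hp2, ?_, a, b, ha.mono hSv hsb, hb.mono hSv hsb,
    hax, hbz, ?_⟩
  · have h3 : crs S'.1.dom (pmC π p) = crs S.1.dom (pmC π p) := by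
      refine Prod.ext (Finset.ext fun y => ?_) (Finset.ext fun y => ?_)
      · rw [mem_crs1, mem_crs1]
        exact ⟨fun hy => ⟨hy.1, hd _ (PP.dom1 hp2 hy.1) hy.2⟩, fun hy => ⟨hy.1, hsb.dom hy.2⟩⟩
      · rw [mem_crs2, mem_crs2]
        exact ⟨fun hy => ⟨hy.1, hd _ (PP.dom2 hp2 hy.1) hy.2⟩, fun hy => ⟨hy.1, hsb.dom hy.2⟩⟩
    have h4 := pmC_crs (π := π) (hπ := hπ) (g := S.1) (p := p)
    rw [hD] at h4
    have h5 : pmC π (crs S.1.dom p) = crs S.1.dom p :=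
      pmC_fix hf (crs_PP hSv (h2.sb h1.sv.toHS) hp)
    rw [h3, h4, h5]
    exact hpG
  · intro G' hG' hpG'
    have hG2 := hG'.restrict hK2.sv.val hsb23
    have hfo2 : Fo c (pmP π hπ S₁.1) (pmC π p)
        (fun G => K (RR c (pmP π hπ S₁.1) G) (ev a G) (ev b G)) := by
      refine (pm_Fo (hπ := hπ)).2 ?_
      intro G₁ hG₁ hp₁
      have h6 : K (RR c S₁.1 G₁) (ev a G₁) (ev b G₁) := hfo G₁ hG₁ hp₁
      rw [← pm_ev (π := π) (hπ := hπ) (x := a), ← pm_ev (π := π) (hπ := hπ) (x := b),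
        pmN_fix hf ha, pmN_fix hf hb, ← pm_RR (π := π) (hπ := hπ)] at h6
      exact h6
    have h7 : K (RR c (pmS π hπ S₁).1 (G' ∩ PP c (pmS π hπ S₁).1))
        (ev a (G' ∩ PP c (pmS π hπ S₁).1)) (ev b (G' ∩ PP c (pmS π hπ S₁).1)) :=
      hfo2 (G' ∩ PP c (pmS π hπ S₁).1) hG2 ⟨hpG', hp2⟩
    rw [RR_inter, ev_inter ha', ev_inter hb'] at h7
    exact hK.out.up _ _ hK2.sv.val hK3.sv.val hsb23 G' hG' _ ⟨a, ha', rfl⟩ _ ⟨b, hb', rfl⟩ h7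

end Pool.Agent.H.MP_20495c_lc
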