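import Pool.Agent.H.MP_20495c_lc.B.MainD

/-!
# Part B, module MainB: the main theorem on the final model
-/

set_option autoImplicit false
set_option linter.unusedSectionVars false

namespace Pool.Agent.H.MP_20495c_lc

open Pool.Agent.H.MP_07d118_lc Pool.Agent.H.MP_a163f2_lc

universe u v w x

variable {M : Type u} [SetStr M] [ZFC M] [Std M] {W : Type v} [LinearOrder W] [Cd M W] [Om1 M W]
variable {c : W × Hc → ℕ → ℕ} [hL : Fact (Luz M W c)]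
variable {K : Set (ℕ → ℕ) → (ℕ → ℕ) → (ℕ → ℕ) → Prop} {r : Nm M W → Nm M W → Prop}
variable [hK : Fact (KOK M W c K)] [hr : Fact (WOr M r)]

/-- generic filters of the forcing with the states -/
abbrev QGS (c : W × Hc → ℕ → ℕ) (K : Set (ℕ → ℕ) → (ℕ → ℕ) → (ℕ → ℕ) → Prop)
    (r : Nm M W → Nm M W → Prop) (GG : Set ((Stc M W × Tt M W) × Cond W)) : Prop :=
  QG c (fun x : Stc M W × Tt M W => State c K r x) (fun y x => StLe c K r y x)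
    (fun x => x.1.1) GG

/-- The properties of `K` in the final model that are used. -/
structure KFin (c : W × Hc → ℕ → ℕ) (K : Set (ℕ → ℕ) → (ℕ → ℕ) → (ℕ → ℕ) → Prop)
    (r : Nm M W → Nm M W → Prop) (GG : Set ((Stc M W × Tt M W) × Cond W)) : Prop where
  up : ∀ s ∈ HSs GG, ∀ x ∈ RR c s.1.1 (Gss GG s), ∀ z ∈ RR c s.1.1 (Gss GG s),
    K (RR c s.1.1 (Gss GG s)) x z → K (RNs M GG) x z
  down : ∀ s ∈ HSs GG, ∀ x ∈ RR c s.1.1 (Gss GG s), ∀ z ∈ RR c s.1.1 (Gss GG s),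
    K (RNs M GG) x z → ∃ t ∈ HSs GG, StLe c K r t s ∧ K (RR c t.1.1 (Gss GG t)) x z

variable {GG : Set ((Stc M W × Tt M W) × Cond W)}

/-- values of names along extensions: `QG.coh`, `ev_inter` / `ev_restrict` -/
theorem QGS_ev [Countable M] (hG : QGS c K r GG) {s t : Stc M W × Tt M W} (hs : s ∈ HSs GG)
    (ht : t ∈ HSs GG) (h : StLe c K r t s) {n : Nm M W} (hn : IsNm c s.1.1 n) :
    ev n (Gss GG t) = ev n (Gss GG s) := by
  have h1 : Gss GG s = Gss GG t ∩ PP c s.1.1 := hG.coh hs ht h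
  rw [h1]
  exact (ev_inter hn).symm

/-- `QG.coh`, `StLe.pt`. -/
theorem QGS_pt [Countable M] (hG : QGS c K r GG) {s t : Stc M W × Tt M W} (hs : s ∈ HSs GG)
    (ht : t ∈ HSs GG) (h : StLe c K r t s) {x z : ℕ → ℕ} (hp : PT s.2 s.1 (Gss GG s) x z) :
    PT t.2 t.1 (Gss GG t) x z := by
  have h1 : Gss GG s = Gss GG t ∩ PP c s.1.1 := hG.coh hs ht h
  rw [h1] at hp
  exact StLe.pt (hG.hist hs) h (hG.gen ht) hp

/-- protected pairs lie over the plan: `I0`, `IsNm.mono` -/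
theorem QGS_pt_mem [Countable M] (hG : QGS c K r GG) {s : Stc M W × Tt M W} (hs : s ∈ HSs GG)
    {x z : ℕ → ℕ} (hp : PT s.2 s.1 (Gss GG s) x z) :
    x ∈ RR c s.1.1 (Gss GG s) ∧ z ∈ RR c s.1.1 (Gss GG s) := by
  have hst : State c K r s := hG.hist hs
  obtain ⟨D, hD, p, -, a, b, hm, h1, h2⟩ := hp
  obtain ⟨-, -, ha, hb⟩ := hst.inv.i0 _ hm
  obtain ⟨hv, hsb⟩ := hst.inv.base.sub D hD
  exact ⟨⟨a, IsNm.mono hv hsb ha, h1⟩, ⟨b, IsNm.mono hv hsb hb, h2⟩⟩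

/-- `KN_iff`: a node of some `t` codes the pair; take `t` above `s` (`QG.dirH`, `QG.node_up`). `I5` for the state `t` at the structure `t.1` (`KK_self`). -/
theorem prot_uncoded [Countable M] (hG : QGS c K r GG) {s : Stc M W × Tt M W}
    (hs : s ∈ HSs GG) {x z : ℕ → ℕ} (hp : PT s.2 s.1 (Gss GG s) x z) :
    T3 x z 0 ∉ KNs M c GG := by
  intro hk
  obtain ⟨s', hs', ν, hν, he⟩ := (KN_iff hG).1 hk
  obtain ⟨t, ht, h1, h2⟩ := hG.dirH hs hs'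
  obtain ⟨h3, h4⟩ := hG.node_up hs' ht h2 hν
  have hst : State c K r t := hG.hist ht
  exact hst.inv.i5 t.1 (KK_self hst.inv.base) (Gss GG t) (hG.gen ht) x z
    (QGS_pt hG hs ht h1 hp) ⟨ν, h3, h4.trans he.symm⟩

/-- `KFin.down` gives `t` with `K (RR c t.1.1 (Gss GG t)) x z`. With names `a b` over `t.1.1` of `x z` some `p ∈ Gss GG t` forces it (`hK.out.good`, `Good.truth`), so `Kb c K t.1 t.2 t.1 (Gss GG t) x z` (with `S' = t.1`), contradiction to `I4` for the state `t`. -/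
theorem prot_alive [Countable M] (hG : QGS c K r GG) (hF : KFin c K r GG)
    {s : Stc M W × Tt M W} (hs : s ∈ HSs GG) {x z : ℕ → ℕ} (hp : PT s.2 s.1 (Gss GG s) x z) :
    ¬ K (RNs M GG) x z := by
  intro hk
  obtain ⟨hx, hz⟩ := QGS_pt_mem hG hs hp
  obtain ⟨t, ht, hts, hkt⟩ := hF.down s hs x hx z hz hk
  have hpt := QGS_pt hG hs ht hts hp
  obtain ⟨⟨a, ha, hea⟩, ⟨b, hb, heb⟩⟩ := QGS_pt_mem hG ht hpt
  have hst : State c K r t := hG.hist ht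
  have hgen : Gen c t.1.1 (Gss GG t) := hG.gen ht
  have hgood : Good c (fun _ : Pl M W => t.1.1)
      (fun _ G => K (RR c t.1.1 G) (ev a G) (ev b G)) :=
    hK.out.good (Pl M W) (fun _ => t.1.1) (IF.const t.1.1) (fun _ G => ev a G)
      (fun _ G => ev b G) (GoodR.ev (IF.const t.1.1) (IF.const a))
      (GoodR.ev (IF.const t.1.1) (IF.const b))
  rw [← hea, ← heb] at hkt
  obtain ⟨p, hpG, hfo⟩ := Good.truth (IF.const t.1.1) hgood (t := t.1.1) hgen hkt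
  have hpP := hgen.sub p hpG
  refine hst.inv.i4 t.1 (KK_self hst.inv.base) (Gss GG t) hgen x z hpt
    ⟨t.1, KK_self hst.inv.base, SLe.refl hst.inv.base, p, hpP, ?_, a, b, ha, hb, hea, heb, hfo⟩
  rw [PP.crs_eq hpP]
  exact hpG

/-- `RN_ext`: `s' ≤ s` with `z` over `s'.1.1`; names `a b` of `x z`. `QG.meets_below` with the set of `In_code` and `dens_code`: some `(t, q) ∈ GG` below, `q` forces; so the pair is coded (`KN_iff`), or protected in `t`, then `z = z₀` by `I3`. -/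
theorem prot_coded [Countable M] (hG : QGS c K r GG) {s : Stc M W × Tt M W}
    (hs : s ∈ HSs GG) {x z₀ : ℕ → ℕ} (hp : PT s.2 s.1 (Gss GG s) x z₀) {z : ℕ → ℕ}
    (hz : z ∈ RNs M GG) (hne : z ≠ z₀) : T3 x z 0 ∈ KNs M c GG := by
  obtain ⟨s', hs', hle, b, hb, heb⟩ := RN_ext hG hs hz
  have hp' := QGS_pt hG hs hs' hle hp
  obtain ⟨⟨a, ha, hea⟩, -⟩ := QGS_pt_mem hG hs' hp'
  obtain ⟨p', hsp⟩ := hs'
  obtain ⟨⟨t, q⟩, htq, ⟨hts, -⟩, hfo⟩ := hG.meets_below hsp (In_code (c := c) a b) (by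
    rintro y ⟨hy1, hy2⟩ ⟨hy3, -⟩
    have hsb : Sb s'.1.1 y.1.1.1 := hG.sys.sb _ _ hy3
    have hv : Valid c s'.1.1 := hG.sys.valid _ (hG.hist ⟨p', hsp⟩)
    obtain ⟨t', h1, h2, q', h3, h4, h5⟩ :=
      dens_code (K := K) (r := r) hy1 hy2 (IsNm.mono hv hsb ha) (IsNm.mono hv hsb hb)
    exact ⟨(t', q'), ⟨h1, h3⟩, ⟨h2, h4⟩, h5⟩)
  have hs' : s' ∈ HSs GG := ⟨p', hsp⟩
  have ht : t ∈ HSs GG := ⟨q, htq⟩
  have hst : State c K r t := hG.hist ht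
  have hgen : Gen c t.1.1 (Gss GG t) := hG.gen ht
  have h1 : PT t.2 t.1 (Gss GG t) (ev a (Gss GG t)) (ev b (Gss GG t)) ∨
      Elc t.1.1 (Gss GG t) (ev a (Gss GG t)) (ev b (Gss GG t)) := hfo _ hgen htq
  rw [QGS_ev hG hs' ht hts ha, QGS_ev hG hs' ht hts hb, hea, heb] at h1
  rcases h1 with h1 | ⟨ν, hν, he⟩
  · exact absurd (hst.inv.i3 t.1 (KK_self hst.inv.base) (Gss GG t) hgen x z z₀ h1
      (QGS_pt hG hs' ht hts hp')) hne
  · exact (KN_iff hG).2 ⟨t, ht, ν, hν, he.symm⟩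

/-- The same with `In_dead`, `dens_dead` and `KFin.up`. -/
theorem unprot_dead [Countable M] (hG : QGS c K r GG) (hF : KFin c K r GG) {x : ℕ → ℕ}
    (hx : x ∈ RNs M GG) (hn : ∀ s ∈ HSs GG, ∀ z', ¬ PT s.2 s.1 (Gss GG s) x z') {z : ℕ → ℕ}
    (hz : z ∈ RNs M GG) : K (RNs M GG) x z := by
  obtain ⟨s, hs, hxs, hzs⟩ := RN_two hG hx hz
  obtain ⟨a, ha, hea⟩ := hxs
  obtain ⟨b, hb, heb⟩ := hzs
  obtain ⟨p', hsp⟩ := hs
  obtain ⟨⟨t, q⟩, htq, ⟨hts, -⟩, hfo⟩ := hG.meets_below hsp (In_dead (c := c) (K := K) a b) (by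
    rintro y ⟨hy1, hy2⟩ ⟨hy3, -⟩
    have hsb : Sb s.1.1 y.1.1.1 := hG.sys.sb _ _ hy3
    have hv : Valid c s.1.1 := hG.sys.valid _ (hG.hist ⟨p', hsp⟩)
    obtain ⟨t', h1, h2, q', h3, h4, h5⟩ :=
      dens_dead (K := K) (r := r) hy1 hy2 (IsNm.mono hv hsb ha) (IsNm.mono hv hsb hb)
    exact ⟨(t', q'), ⟨h1, h3⟩, ⟨h2, h4⟩, h5⟩)
  have hs : s ∈ HSs GG := ⟨p', hsp⟩
  have ht : t ∈ HSs GG := ⟨q, htq⟩
  have hgen : Gen c t.1.1 (Gss GG t) := hG.gen ht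
  have h1 : (∃ z', PT t.2 t.1 (Gss GG t) (ev a (Gss GG t)) z') ∨
      K (RR c t.1.1 (Gss GG t)) (ev a (Gss GG t)) (ev b (Gss GG t)) := hfo _ hgen htq
  have h2 := hG.RRs_mono hs ht hts
  have hx' : x ∈ RR c t.1.1 (Gss GG t) := h2 ⟨a, ha, hea⟩
  have hz' : z ∈ RR c t.1.1 (Gss GG t) := h2 ⟨b, hb, heb⟩
  rw [QGS_ev hG hs ht hts ha, QGS_ev hG hs ht hts hb, hea, heb] at h1
  rcases h1 with ⟨z', h1⟩ | h1
  · exact absurd h1 (hn t ht z')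
  · exact hF.up t ht x hx' z hz' h1

/-- **The main theorem of part (B).** -/
theorem main_B [Countable M] (hG : QGS c K r GG) (hF : KFin c K r GG) {x : ℕ → ℕ}
    (hx : x ∈ RNs M GG) :
    (∃ z₀ ∈ RNs M GG, ¬ K (RNs M GG) x z₀ ∧ T3 x z₀ 0 ∉ KNs M c GG ∧
      ∀ z ∈ RNs M GG, z ≠ z₀ → T3 x z 0 ∈ KNs M c GG) ∨ ∀ z ∈ RNs M GG, K (RNs M GG) x z := by
  by_cases h : ∃ s ∈ HSs GG, ∃ z₀, PT s.2 s.1 (Gss GG s) x z₀
  · obtain ⟨s, hs, z₀, hp⟩ := h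
    exact Or.inl ⟨z₀, RN_of_RR hG hs (QGS_pt_mem hG hs hp).2, prot_alive hG hF hs hp,
      prot_uncoded hG hs hp, fun z hz hne => prot_coded hG hs hp hz hne⟩
  · exact Or.inr fun z hz => unprot_dead hG hF hx (fun s hs z' hp => h ⟨s, hs, z', hp⟩) hz

end Pool.Agent.H.MP_20495c_lc
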