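import Pool.Agent.H.MP_20495c_lc.B.Defs
import Pool.Agent.H.MP_a163f2_lc.R.Re
import Pool.Agent.H.MP_a163f2_lc.R.Re1

/-!
# Part B, module SysF: the forcing with a countably closed system of plans

Generalises R/D0, R/D4, R/D5 of MP_a163f2_lc from histories to an arbitrary `Sys c V le pl`.
-/

set_option autoImplicit false
set_option linter.unusedSectionVars false

namespace Pool.Agent.H.MP_20495c_lc

open Pool.Agent.H.MP_07d118_lc Pool.Agent.H.MP_a163f2_lc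

universe u v w x

variable {M : Type u} [SetStr M] [ZFC M] [Std M] {W : Type v} [LinearOrder W] [Cd M W] [Om1 M W]
variable {c : W × Hc → ℕ → ℕ} [hL : Fact (Luz M W c)]
variable {X : Type v} [Cd M X]

/-- the conditions of the forcing -/
def QVs (c : W × Hc → ℕ → ℕ) (V : X → Prop) (pl : X → Pl M W) : Set (X × Cond W) :=
  {x | V x.1 ∧ x.2 ∈ PP c (pl x.1)}

/-- the order of the forcing -/
def QLs (c : W × Hc → ℕ → ℕ) (le : X → X → Prop) (x' x : X × Cond W) : Prop :=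
  le x'.1 x.1 ∧ CLe c x'.2 x.2

/-- generic filters of the forcing -/
structure QG (c : W × Hc → ℕ → ℕ) (V : X → Prop) (le : X → X → Prop) (pl : X → Pl M W)
    (GG : Set (X × Cond W)) : Prop where
  sys : Sys c V le pl
  sub : ∀ x ∈ GG, x ∈ QVs c V pl
  ne : GG.Nonempty
  up : ∀ x ∈ GG, ∀ y ∈ QVs c V pl, QLs c le x y → y ∈ GG
  dir : ∀ x ∈ GG, ∀ y ∈ GG, ∃ z ∈ GG, QLs c le z x ∧ QLs c le z y
  meets : ∀ D : ISet M (X × Cond W), (∀ x ∈ QVs c V pl, ∃ y ∈ QVs c V pl, QLs c le y x ∧ y ∈ D) →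
    ∃ x ∈ GG, x ∈ D

variable (M) in
/-- the reals of the final model -/
def RNs (GG : Set (X × Cond W)) : Set (ℕ → ℕ) :=
  {x | ∃ F : ISet M ((X × Cond W) × ℕ × ℕ), ∀ n k, x n = k ↔ ∃ y ∈ GG, (y, n, k) ∈ F}

variable (M) in
/-- the coded reals of the final model -/
def KNs (c : W × Hc → ℕ → ℕ) (GG : Set (X × Cond W)) : Set (ℕ → ℕ) :=
  {z | z ∈ RNs M GG ∧ ∃ y ∈ RNs M GG, Cod c y z}

/-- the elements of the system which occur -/
def HSs (GG : Set (X × Cond W)) : Set X := {s | ∃ p, (s, p) ∈ GG}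

/-- the conditions which occur with `s` -/
def Gss (GG : Set (X × Cond W)) (s : X) : Set (Cond W) := {p | (s, p) ∈ GG}

variable {V : X → Prop} {le : X → X → Prop} {pl : X → Pl M W} {GG : Set (X × Cond W)}

theorem Sys_qv (hS : Sys c V le pl) {T : Type w} [Cd M T] {x : T → (X × Cond W)} (hx : IF M x) :
    In M (fun t => x t ∈ QVs c V pl) :=
  In.and (hS.vin.comp (IF.comp IF.fst hx)) (In.pp (IF.comp hS.plin (IF.comp IF.fst hx))
    (IF.comp IF.snd hx))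

theorem Sys_ql (hS : Sys c V le pl) {T : Type w} [Cd M T] {x y : T → (X × Cond W)} (hx : IF M x)
    (hy : IF M y) : In M (fun t => QLs c le (x t) (y t)) :=
  In.and (In.comp2 (P := le) hS.lein (IF.comp IF.fst hx) (IF.comp IF.fst hy))
    (In.cle (IF.comp IF.snd hx) (IF.comp IF.snd hy))

theorem Sys_qrefl (hS : Sys c V le pl) (x : (X × Cond W)) : QLs c le x x :=
  ⟨hS.refl _, CLe.refl _⟩

theorem Sys_qtrans (hS : Sys c V le pl) {x y z : (X × Cond W)} (h : QLs c le x y)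
    (h' : QLs c le y z) : QLs c le x z :=
  ⟨hS.trans _ _ _ h.1 h'.1, h.2.trans h'.2⟩

theorem QG.meets_below [Countable M] (hG : QG c V le pl GG) {x : (X × Cond W)} (hx : x ∈ GG)
    {D : (X × Cond W) → Prop} (hD : In M D)
    (hd : ∀ y ∈ QVs c V pl, QLs c le y x → ∃ z ∈ QVs c V pl, QLs c le z y ∧ D z) :
    ∃ z ∈ GG, QLs c le z x ∧ D z := by
  have hD' : In M (fun z : (X × Cond W) => (QLs c le z x ∧ D z) ∨
      ¬ ∃ y : (X × Cond W), y ∈ QVs c V pl ∧ QLs c le y z ∧ QLs c le y x) := by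
    refine In.or (In.and (Sys_ql hG.sys IF.id (IF.const x)) hD) (In.not ?_)
    exact In.ex (P := fun (z y : (X × Cond W)) => y ∈ QVs c V pl ∧ QLs c le y z ∧ QLs c le y x)
      (In.and (Sys_qv hG.sys IF.snd) (In.and (Sys_ql hG.sys IF.snd IF.fst) (Sys_ql hG.sys IF.snd (IF.const x))))
  obtain ⟨z, hz, hzD⟩ := hG.meets (ISet.mk hD') (by
    intro y hy
    by_cases h : ∃ w : (X × Cond W), w ∈ QVs c V pl ∧ QLs c le w y ∧ QLs c le w x
    · obtain ⟨w, hwQ, hwy, hwx⟩ := h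
      obtain ⟨z, hz, hzw, hzD⟩ := hd w hwQ hwx
      exact ⟨z, hz, Sys_qtrans hG.sys hzw hwy, Or.inl ⟨Sys_qtrans hG.sys hzw hwx, hzD⟩⟩
    · exact ⟨y, hy, Sys_qrefl hG.sys y, Or.inr h⟩)
  rcases hzD with h | h
  · exact ⟨z, hz, h⟩
  · obtain ⟨w, hw1, hw2, hw3⟩ := hG.dir z hz x hx
    exact absurd ⟨w, hG.sub w hw1, hw2, hw3⟩ h

theorem QG.hist (hG : QG c V le pl GG) {s : X} (hs : s ∈ HSs GG) : V s := by
  obtain ⟨p, hp⟩ := hs
  exact (hG.sub _ hp).1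

/-- smaller histories -/
theorem QG.down (hG : QG c V le pl GG) {s s' : X} {p : Cond W} (h : (s, p) ∈ GG)
    (hs' : V s') (hle : le s s') : (s', crs (pl s').dom p) ∈ GG :=
  hG.up (s, p) h (s', crs (pl s').dom p) ⟨hs', crs_PP (hG.sys.valid _ hs') (hG.sys.sb _ _ hle) (hG.sub _ h).2⟩
    ⟨hle, le_crs _ _⟩

/-- the filter given by a history is generic -/
theorem QG.gen [Countable M] (hG : QG c V le pl GG) {s : X} (hs : s ∈ HSs GG) :
    Gen c (pl s) (Gss GG s) where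
  sub p hp := (hG.sub _ hp).2
  ne := hs
  up p hp q hq hle := hG.up (s, p) hp (s, q) ⟨(hG.sub _ hp).1, hq⟩ ⟨hG.sys.refl s, hle⟩
  dir p hp q hq := by
    obtain ⟨z, hz, h1, h2⟩ := hG.dir _ hp _ hq
    exact ⟨crs (pl s).dom z.2, hG.down (s := z.1) (p := z.2) hz (hG.sub _ hp).1 h1.1,
      crs_le_of_le (hG.sub _ hp).2 h1.2, crs_le_of_le (hG.sub _ hq).2 h2.2⟩
  meets D hD := by
    obtain ⟨p, hp⟩ := hs
    have hV := (hG.sub _ hp).1
    obtain ⟨z, hz, hzp, hle, d, hdD, hd, hzd⟩ := hG.meets_below (x := (s, p)) hp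
      (D := fun z => le z.1 s ∧ ∃ d : Cond W, d ∈ D ∧ d ∈ PP c (pl s) ∧ CLe c z.2 d) (by
        refine In.and (In.comp2 (P := le) hG.sys.lein IF.fst (IF.const s)) ?_
        refine In.ex (P := fun (z : (X × Cond W)) (d : Cond W) => d ∈ D ∧ d ∈ PP c (pl s) ∧ CLe c z.2 d)
          (In.and (In.mem IF.snd (IF.const D)) (In.and (In.pp (IF.const _) IF.snd)
            (In.cle (IF.comp IF.snd IF.fst) IF.snd)))) (by
        intro y hy hyx
        obtain ⟨d, hd, hdle, hdD⟩ := hD _ (crs_PP (hG.sys.valid _ hV) (hG.sys.sb _ _ hyx.1) hy.2)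
        have h1 := amal (hG.sys.sb _ _ hyx.1) hy.2 hd hdle
        exact ⟨(y.1, cup d y.2), ⟨hy.1, h1.1⟩, ⟨hG.sys.refl _, h1.2.1⟩, hyx.1, d, hdD, hd, h1.2.2⟩)
    exact ⟨d, hG.up z hz (s, d) ⟨hV, hd⟩ ⟨hle, hzd⟩, hdD⟩

/-- two occurring histories have a common occurring extension -/
theorem QG.dirH (hG : QG c V le pl GG) {s s' : X} (hs : s ∈ HSs GG) (hs' : s' ∈ HSs GG) :
    ∃ t ∈ HSs GG, le t s ∧ le t s' := by
  obtain ⟨p, hp⟩ := hs
  obtain ⟨p', hp'⟩ := hs'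
  obtain ⟨z, hz, h1, h2⟩ := hG.dir _ hp _ hp'
  exact ⟨z.1, ⟨z.2, hz⟩, h1.1, h2.1⟩

/-- the filters cohere -/
theorem QG.coh (hG : QG c V le pl GG) {s s' : X} (hs : s ∈ HSs GG) (hs' : s' ∈ HSs GG)
    (h : le s' s) : Gss GG s = Gss GG s' ∩ PP c (pl s) := by
  ext p
  constructor
  · intro hp
    obtain ⟨p', hp'⟩ := hs'
    obtain ⟨z, hz, h1, h2⟩ := hG.dir _ hp _ hp'
    have h3 := (hG.sub _ hp).2
    have h4 : p ∈ PP c (pl s') := PP_mono (hG.sys.sb _ _ h) h3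
    have h5 := hG.down (s := z.1) (p := z.2) hz (hG.sub _ hp').1 h2.1
    exact ⟨hG.up _ h5 (s', p) ⟨(hG.sub _ hp').1, h4⟩ ⟨hG.sys.refl _, crs_le_of_le h4 h1.2⟩, h3⟩
  · rintro ⟨hp, hp'⟩
    exact hG.up _ hp (s, p) ⟨hG.hist hs, hp'⟩ ⟨h, CLe.refl _⟩

theorem QG.mem_HS (_hG : QG c V le pl GG) {s : X} {p : Cond W} (h : p ∈ Gss GG s) :
    s ∈ HSs GG := ⟨p, h⟩

/-- all conditions -/
def Gi (GG : Set ((X × Cond W))) : Set (Cond W) := {p | ∃ s, (s, p) ∈ GG}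

theorem QG.Gi_iff (hG : QG c V le pl GG) {s : X} (hs : s ∈ HSs GG) {p : Cond W}
    (hp : p ∈ PP c (pl s)) : p ∈ Gi GG ↔ p ∈ Gss GG s := by
  constructor
  · rintro ⟨s', h⟩
    obtain ⟨t, ht, h1, h2⟩ := hG.dirH hs ⟨p, h⟩
    rw [hG.coh hs ht h1]
    have h3 : p ∈ Gss GG s' := h
    rw [hG.coh ⟨p, h⟩ ht h2] at h3
    exact ⟨h3.1, hp⟩
  · exact fun h => ⟨s, h⟩

theorem QG.ev_eq [Countable M] (hG : QG c V le pl GG) {s : X} (hs : s ∈ HSs GG) {n : Nm M W}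
    (hn : IsNm c (pl s) n) : ev n (Gi GG) = ev n (Gss GG s) := by
  have h := Ev_ev (hG.gen hs) hn
  refine Ev.ev_eq ⟨fun q t hq hqG => h.1 q t hq ((hG.Gi_iff hs (hn.sub q t hq)).1 hqG),
    fun k => ?_⟩
  obtain ⟨q, t, h1, h2, h3⟩ := h.2 k
  exact ⟨q, t, h1, (hG.Gi_iff hs (hn.sub q t h1)).2 h2, h3⟩

theorem QG.RRs_mono [Countable M] (hG : QG c V le pl GG) {s s' : X} (hs : s ∈ HSs GG) (hs' : s' ∈ HSs GG)
    (h : le s' s) : RR c (pl s) (Gss GG s) ⊆ RR c (pl s') (Gss GG s') := by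
  rw [hG.coh hs hs' h]
  exact RR_restrict (hG.sys.valid _ (hG.hist hs)) (hG.sys.sb _ _ h) (hG.gen hs')



theorem RN_of_RR [Countable M] (hG : QG c V le pl GG) {s : X} (hs : s ∈ HSs GG) :
    RR c (pl s) (Gss GG s) ⊆ RNs M GG := by
  rintro _ ⟨n, hn, rfl⟩
  have hg : Good c (fun _ : ℕ × ℕ => (pl s)) (fun t G => ev n G t.1 = t.2) :=
    GoodF_ev_good (IF.const (pl s)) (IF.const n) IF.fst IF.snd
  have hF : In M (fun y : (X × Cond W) × ℕ × ℕ => le y.1.1 s ∧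
      Fo c (pl s) (crs (pl s).dom y.1.2) (fun G => ev n G y.2.1 = y.2.2)) := by
    refine In.and (In.comp2 (P := le) hG.sys.lein (IF.comp IF.fst IF.fst)
      (IF.const s)) ?_
    exact Good.fo (IF.const (pl s)) (Q := fun (y : (X × Cond W) × ℕ × ℕ) G => ev n G y.2.1 = y.2.2)
      (GoodF_ev_good (IF.const (pl s)) (IF.const n) (IF.comp IF.fst IF.snd) (IF.comp IF.snd IF.snd))
      (IF.crs (IF.const (pl s)) (IF.comp IF.snd IF.fst))
  refine ⟨ISet.mk hF, fun m k => ⟨fun h => ?_, ?_⟩⟩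
  · obtain ⟨p, hp, hfo⟩ := hg.truth (IF.const (pl s)) (t := (m, k)) (hG.gen hs) h
    refine ⟨(s, p), hp, hG.sys.refl s, ?_⟩
    show Fo c (pl s) (crs (pl s).dom p) _
    rw [PP.crs_eq (hG.sub _ hp).2]
    exact hfo
  · rintro ⟨y, hy, h1, h2⟩
    exact h2 _ (hG.gen hs) (hG.down (s := y.1) (p := y.2) hy (hG.hist hs) h1)

set_option synthInstance.maxSize 1000 in
theorem RN_exists [Countable M] (hG : QG c V le pl GG) {x : ℕ → ℕ} (hx : x ∈ RNs M GG) :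
    ∃ s ∈ HSs GG, x ∈ RR c (pl s) (Gss GG s) := by
  obtain ⟨F, hF⟩ := hx
  let F' : (X × Cond W) → ℕ → ℕ → Prop := fun y n k => ∃ z : (X × Cond W), (z, n, k) ∈ F ∧ z ∈ QVs c V pl ∧ QLs c le y z
  have hF' : In M (fun y : (X × Cond W) × ℕ × ℕ => F' y.1 y.2.1 y.2.2) := by
    refine In.ex (P := fun (y : (X × Cond W) × ℕ × ℕ) (z : (X × Cond W)) =>
      (z, y.2.1, y.2.2) ∈ F ∧ z ∈ QVs c V pl ∧ QLs c le y.1 z) (In.and ?_ (In.and (Sys_qv hG.sys IF.snd) ?_))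
    · exact In.mem (IF.pair IF.snd (IF.pair (IF.comp IF.fst (IF.comp IF.snd IF.fst))
        (IF.comp IF.snd (IF.comp IF.snd IF.fst)))) (IF.const F)
    · exact Sys_ql hG.sys (IF.comp IF.fst IF.fst) IF.snd
  have hF'' : ∀ {T : Type v} [Cd M T] {y : T → (X × Cond W)} (_ : IF M y) {n k : T → ℕ} (_ : IF M n)
      (_ : IF M k), In M (fun t => F' (y t) (n t) (k t)) := by
    intro T _ y hy n k hn hk
    exact In.comp (P := fun y : (X × Cond W) × ℕ × ℕ => F' y.1 y.2.1 y.2.2) hF'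
      (IF.pair hy (IF.pair hn hk))
  let Dec : ℕ → X → Cond W → Prop := fun n s r => (∃ k, F' (s, r) n k) ∨
    ¬ ∃ z : (X × Cond W), z ∈ QVs c V pl ∧ QLs c le z (s, r) ∧ ∃ k, F' z n k
  have hDec : In M (fun y : ℕ × X × Cond W => Dec y.1 y.2.1 y.2.2) := by
    refine In.or ?_ (In.not ?_)
    · exact In.ex (P := fun (y : ℕ × X × Cond W) (k : ℕ) => F' (y.2.1, y.2.2) y.1 k)
        (hF'' (IF.pair (IF.comp IF.fst (IF.comp IF.snd IF.fst))
          (IF.comp IF.snd (IF.comp IF.snd IF.fst))) (IF.comp IF.fst IF.fst) IF.snd)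
    · refine In.ex (P := fun (y : ℕ × X × Cond W) (z : (X × Cond W)) => z ∈ QVs c V pl ∧
        QLs c le z (y.2.1, y.2.2) ∧ ∃ k, F' z y.1 k) (In.and (Sys_qv hG.sys IF.snd) (In.and ?_ ?_))
      · exact Sys_ql hG.sys IF.snd (IF.pair (IF.comp IF.fst (IF.comp IF.snd IF.fst))
          (IF.comp IF.snd (IF.comp IF.snd IF.fst)))
      · exact In.ex (P := fun (y : (ℕ × X × Cond W) × (X × Cond W)) (k : ℕ) => F' y.2 y.1.1 k)
          (hF'' (IF.comp IF.snd IF.fst) (IF.comp IF.fst (IF.comp IF.fst IF.fst)) IF.snd)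
  have hmono : ∀ n s t q r, V s → V t → le t s → q ∈ PP c (pl s) →
      r ∈ PP c (pl t) → CLe c r q → Dec n s q → Dec n t r := by
    rintro n s t q r hs ht hle hq hr hrq (⟨k, z, h1, h2, h3⟩ | h)
    · exact Or.inl ⟨k, z, h1, h2, Sys_qtrans hG.sys (y := (s, q)) ⟨hle, hrq⟩ h3⟩
    · refine Or.inr ?_
      rintro ⟨z, h1, h2, h3⟩
      exact h ⟨z, h1, Sys_qtrans hG.sys (y := (t, r)) h2 ⟨hle, hrq⟩, h3⟩
  obtain ⟨x₀, hx₀⟩ := hG.ne
  obtain ⟨⟨s, p⟩, hsp, -, hD⟩ := hG.meets_below hx₀ (D := fun z => ∀ n, ∀ q : Cond W,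
      q ∈ PP c (pl z.1) → CLe c q z.2 → ∃ r : Cond W, r ∈ PP c (pl z.1) ∧ CLe c r q ∧ Dec n z.1 r) (by
    refine In.all (P := fun (z : (X × Cond W)) (n : ℕ) => ∀ q : Cond W,
      q ∈ PP c (pl z.1) → CLe c q z.2 → ∃ r : Cond W, r ∈ PP c (pl z.1) ∧ CLe c r q ∧ Dec n z.1 r) ?_
    refine In.all (P := fun (y : (X × Cond W) × ℕ) (q : Cond W) =>
      q ∈ PP c (pl y.1.1) → CLe c q y.1.2 → ∃ r : Cond W, r ∈ PP c (pl y.1.1) ∧ CLe c r q ∧
        Dec y.2 y.1.1 r) (In.imp ?_ (In.imp ?_ ?_))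
    · exact In.pp (IF.comp hG.sys.plin (IF.comp IF.fst (IF.comp IF.fst IF.fst))) IF.snd
    · exact In.cle IF.snd (IF.comp IF.snd (IF.comp IF.fst IF.fst))
    · refine In.ex (P := fun (y : ((X × Cond W) × ℕ) × Cond W) (r : Cond W) => r ∈ PP c (pl y.1.1.1) ∧
        CLe c r y.2 ∧ Dec y.1.2 y.1.1.1 r) (In.and ?_ (In.and ?_ ?_))
      · exact In.pp (IF.comp hG.sys.plin (IF.comp IF.fst (IF.comp IF.fst
          (IF.comp IF.fst IF.fst)))) IF.snd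
      · exact In.cle IF.snd (IF.comp IF.snd IF.fst)
      · exact In.comp (P := fun y : ℕ × X × Cond W => Dec y.1 y.2.1 y.2.2) hDec
          (f := fun y : (((X × Cond W) × ℕ) × Cond W) × Cond W => (y.1.1.2, y.1.1.1.1, y.2))
          (IF.pair (IF.comp IF.snd (IF.comp IF.fst IF.fst)) (IF.pair (IF.comp IF.fst
            (IF.comp IF.fst (IF.comp IF.fst IF.fst))) IF.snd))) (by
    rintro ⟨s₀, p₀⟩ ⟨hs₀, hp₀⟩ -
    obtain ⟨s, hs, hle, h⟩ := hG.sys.decide_all hDec hmono hs₀ hp₀ (by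
      intro n s hs hss q hq hqp
      by_cases h : ∃ z : (X × Cond W), z ∈ QVs c V pl ∧ QLs c le z (s, q) ∧ ∃ k, F' z n k
      · obtain ⟨z, h1, h2, h3⟩ := h
        exact ⟨z.1, h1.1, h2.1, z.2, h1.2, h2.2, Or.inl h3⟩
      · exact ⟨s, hs, hG.sys.refl s, q, hq, CLe.refl q, Or.inr h⟩)
    refine ⟨(s, p₀), ⟨hs, PP_mono (hG.sys.sb _ _ hle) hp₀⟩, ⟨hle, CLe.refl _⟩, fun n q hq hqp => ?_⟩
    obtain ⟨r, h1, h2, h3⟩ := h n q hq hqp
    exact ⟨r, h1, h2, h3⟩)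
  have hs : s ∈ HSs GG := ⟨p, hsp⟩
  have hgen := hG.gen hs
  have hdec : ∀ n, ∃ r ∈ Gss GG s, Dec n s r := by
    intro n
    have hin : In M (fun r : Cond W => Dec n s r) :=
      In.comp (P := fun y : ℕ × X × Cond W => Dec y.1 y.2.1 y.2.2) hDec
        (f := fun r : Cond W => (n, s, r)) (IF.pair (IF.const n) (IF.pair (IF.const s) IF.id))
    obtain ⟨r, hr, -, h⟩ := hgen.meets_below (p := p) hsp (ISet.mk hin) (by
      intro q hq hqp
      obtain ⟨r, h1, h2, h3⟩ := hD n q hq hqp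
      exact ⟨r, h1, h2, h3⟩)
    exact ⟨r, hr, h⟩
  have hiff : ∀ n k, x n = k ↔ ∃ r : Cond W, r ∈ Gss GG s ∧ F' (s, r) n k := by
    intro n k
    have hback : ∀ r k', r ∈ Gss GG s → F' (s, r) n k' → x n = k' := by
      rintro r k' hr ⟨z, h1, h2, h3⟩
      exact (hF n k').2 ⟨z, hG.up _ hr z h2 h3, h1⟩
    constructor
    · intro h
      obtain ⟨y, hy, hyF⟩ := (hF n k).1 h
      obtain ⟨r, hr, ⟨k', hk'⟩ | hno⟩ := hdec n
      · have h1 := hback r k' hr hk'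
        rw [h] at h1
        subst h1
        exact ⟨r, hr, hk'⟩
      · obtain ⟨z, hz, hz1, hz2⟩ := hG.dir y hy (s, r) hr
        exact absurd ⟨z, hG.sub _ hz, hz2, k, y, hyF, hG.sub _ hy, hz1⟩ hno
    · rintro ⟨r, hr, hk⟩
      exact hback r k hr hk
  refine ⟨s, hs, mem_RR_of_good (hG.sys.valid _ (hG.hist hs)) hgen
    (Q := fun n k G => ∃ r : Cond W, r ∈ G ∧ F' (s, r) n k) ?_ hiff⟩
  refine Good.ex (Q := fun (y : ℕ × ℕ) (r : Cond W) G => r ∈ G ∧ F' (s, r) y.1 y.2) (Good.and ?_ ?_)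
  · exact Good.mem (IF.const (pl s)) IF.snd
  · exact Good.of_in (P := fun y : (ℕ × ℕ) × Cond W => F' (s, y.2) y.1.1 y.1.2)
      (In.comp (P := fun y : (X × Cond W) × ℕ × ℕ => F' y.1 y.2.1 y.2.2) hF'
        (f := fun y : (ℕ × ℕ) × Cond W => ((s, y.2), y.1.1, y.1.2))
        (IF.pair (IF.pair (IF.const s) IF.snd) (IF.pair (IF.comp IF.fst IF.fst)
          (IF.comp IF.snd IF.fst))))

/-- an occurring history extending a given one, with a given real -/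
theorem RN_ext [Countable M] (hG : QG c V le pl GG) {s : X} (hs : s ∈ HSs GG) {x : ℕ → ℕ}
    (hx : x ∈ RNs M GG) : ∃ t ∈ HSs GG, le t s ∧ x ∈ RR c (pl t) (Gss GG t) := by
  obtain ⟨s', hs', h1⟩ := RN_exists hG hx
  obtain ⟨t, ht, h2, h3⟩ := hG.dirH hs hs'
  exact ⟨t, ht, h2, hG.RRs_mono hs' ht h3 h1⟩

theorem HS_ne (hG : QG c V le pl GG) : (HSs GG).Nonempty := by
  obtain ⟨x, hx⟩ := hG.ne
  exact ⟨x.1, x.2, hx⟩

theorem RN_two [Countable M] (hG : QG c V le pl GG) {x y : ℕ → ℕ} (hx : x ∈ RNs M GG)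
    (hy : y ∈ RNs M GG) : ∃ t ∈ HSs GG, x ∈ RR c (pl t) (Gss GG t) ∧ y ∈ RR c (pl t) (Gss GG t) := by
  obtain ⟨s, hs, h1⟩ := RN_exists hG hx
  obtain ⟨t, ht, h2, h3⟩ := RN_ext hG hs hy
  exact ⟨t, ht, hG.RRs_mono hs ht h2 h1, h3⟩

theorem QG.RUs [Countable M] (hG : QG c V le pl GG) {s : X} (hs : s ∈ HSs GG) :
    RU M W (RR c (pl s) (Gss GG s)) := RR_RU (hG.sys.valid _ (hG.hist hs)) (hG.gen hs)

theorem RN_RU0 [Countable M] (hG : QG c V le pl GG) : RU M W (RNs M GG) where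
  ground x hx := by
    obtain ⟨s, hs⟩ := HS_ne hG
    exact RN_of_RR hG hs ((hG.RUs hs).ground x hx)
  comp x hx y hy := by
    obtain ⟨s, hs, h1, h2⟩ := RN_two hG hx hy
    exact RN_of_RR hG hs ((hG.RUs hs).comp x h1 y h2)
  pair x hx y hy := by
    obtain ⟨s, hs, h1, h2⟩ := RN_two hG hx hy
    exact RN_of_RR hG hs ((hG.RUs hs).pair x h1 y h2)
  jump x hx := by
    obtain ⟨s, hs, h1⟩ := RN_exists hG hx
    exact RN_of_RR hG hs ((hG.RUs hs).jump x h1)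
  prec x hx a := by
    obtain ⟨s, hs, h1⟩ := RN_exists hG hx
    exact RN_of_RR hG hs ((hG.RUs hs).prec x h1 a)
  mu x hx y h := by
    obtain ⟨s, hs, h1⟩ := RN_exists hG hx
    exact RN_of_RR hG hs ((hG.RUs hs).mu x h1 y h)
  del a ha := by
    obtain ⟨s, hs, h1⟩ := RN_exists hG ha
    rcases (hG.RUs hs).del a h1 with ⟨y, hy, h⟩ | h
    · exact Or.inl ⟨y, RN_of_RR hG hs hy, h⟩
    · exact Or.inr h

/-- the coded reals are the values of the nodes -/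
theorem KN_iff [Countable M] (hG : QG c V le pl GG) {z : ℕ → ℕ} :
    z ∈ KNs M c GG ↔ ∃ s ∈ HSs GG, ∃ ν ∈ (pl s).dom, z = ev ((pl s).nm ν) (Gss GG s) := by
  constructor
  · rintro ⟨hz, y, hy, hc⟩
    obtain ⟨s, hs, h1, h2⟩ := RN_two hG hz hy
    obtain ⟨ν, hν, h⟩ := nuc (hG.sys.valid _ (hG.hist hs)) (hG.gen hs) h2 h1 hc
    exact ⟨s, hs, ν, hν, h⟩
  · rintro ⟨s, hs, ν, hν, rfl⟩
    have hv := (hG.sys.valid _ (hG.hist hs))
    obtain ⟨n, hn, h⟩ := exists_yy hv hν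
    refine ⟨RN_of_RR hG hs (ev_mem_RR (hv.nm ν hν)), _, RN_of_RR hG hs (ev_mem_RR hn), ?_⟩
    unfold Cod
    rw [h _ (hG.gen hs)]
    exact cod_yy hv (hG.gen hs) hν

/-- node values along extensions -/
theorem QG.node_up [Countable M] (hG : QG c V le pl GG) {s s' : X} (hs : s ∈ HSs GG)
    (hs' : s' ∈ HSs GG) (h : le s' s) {ν : W} (hν : ν ∈ (pl s).dom) :
    ν ∈ (pl s').dom ∧ ev ((pl s').nm ν) (Gss GG s') = ev ((pl s).nm ν) (Gss GG s) := by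
  refine ⟨(hG.sys.sb _ _ h).dom hν, ?_⟩
  rw [(hG.sys.sb _ _ h).nm_eq hν, hG.coh hs hs' h]
  exact (ev_restrict (hG.sys.valid _ (hG.hist hs)) (hG.sys.sb _ _ h) (hG.gen hs') ((hG.sys.valid _ (hG.hist hs)).nm ν hν)).symm

end Pool.Agent.H.MP_20495c_lc
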