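import Pool.Agent.H.MP_20495c_lc.B.StS
import Pool.Agent.H.MP_20495c_lc.B.SysF

/-!
# Part B, module MainD: two densities in the system of the states
-/

set_option autoImplicit false
set_option linter.unusedSectionVars false

namespace Pool.Agent.H.MP_20495c_lc

open Pool.Agent.H.MP_07d118_lc Pool.Agent.H.MP_a163f2_lc

universe u v w x

variable {M : Type u} [SetStr M] [ZFC M] [Std M] {W : Type v} [LinearOrder W] [Cd M W] [Om1 M W]
variable {c : W × Hc → ℕ → ℕ} [hL : Fact (Luz M W c)]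
variable {K : Set (ℕ → ℕ) → (ℕ → ℕ) → (ℕ → ℕ) → Prop} {r : Nm M W → Nm M W → Prop}
variable [hK : Fact (KOK M W c K)] [hr : Fact (WOr M r)]

/-- the statement of `In_dead` is good -/
theorem MainD_dead (a b : Nm M W) : Good c (fun y : Stc M W × Tt M W => y.1.1)
    (fun y G => (∃ z', PT y.2 y.1 G (ev a G) z') ∨ K (RR c y.1.1 G) (ev a G) (ev b G)) := by
  have hf : IF M (fun y : Stc M W × Tt M W => y.1.1) := IF.comp IF.fst IF.fst
  have ha : GoodR c (fun y : Stc M W × Tt M W => y.1.1) (fun _ G => ev a G) :=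
    GoodR.ev hf (IF.const a)
  have hb : GoodR c (fun y : Stc M W × Tt M W => y.1.1) (fun _ G => ev b G) :=
    GoodR.ev hf (IF.const b)
  exact Good.or (Good_exPT hf IF.snd IF.fst ha) (hK.out.good _ _ hf _ _ ha hb)

/-- the statement of `In_code` is good -/
theorem MainD_code (a b : Nm M W) : Good c (fun y : Stc M W × Tt M W => y.1.1)
    (fun y G => PT y.2 y.1 G (ev a G) (ev b G) ∨ Elc y.1.1 G (ev a G) (ev b G)) := by
  have hf : IF M (fun y : Stc M W × Tt M W => y.1.1) := IF.comp IF.fst IF.fst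
  have ha : GoodR c (fun y : Stc M W × Tt M W => y.1.1) (fun _ G => ev a G) :=
    GoodR.ev hf (IF.const a)
  have hb : GoodR c (fun y : Stc M W × Tt M W => y.1.1) (fun _ G => ev b G) :=
    GoodR.ev hf (IF.const b)
  exact Good.or (Good_PT hf IF.snd IF.fst ha hb) (Good_El hf hf ha hb)

/-- a true good statement is forced by a condition below a given one of the filter -/
theorem MainD_truth {Q : Stc M W × Tt M W → Set (Cond W) → Prop}
    (hQ : Good c (fun y : Stc M W × Tt M W => y.1.1) Q) {t : Stc M W × Tt M W}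
    {G : Set (Cond W)} (hG : Gen c t.1.1 G) {q : Cond W} (hq : q ∈ G) (h : Q t G) :
    ∃ q' ∈ PP c t.1.1, CLe c q' q ∧ Fo c t.1.1 q' (Q t) := by
  obtain ⟨p, hp, h1⟩ := hQ.truth (IF.comp IF.fst IF.fst) (t := t) hG h
  obtain ⟨s, hs, h2, h3⟩ := hG.dir p hp q hq
  exact ⟨s, hG.sub s hs, h3, h1.mono (hG.sub p hp) h2⟩

/-- Protections persist in bigger states: `StLe` is equality (`Gen_inter_self`) or `KK c s.1 s.2 t.1` and `s.2 ⊆ t.2`: `PT_inter`, `PT_up`, `PT_mono`. -/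
theorem StLe.pt [Countable M] {s t : Stc M W × Tt M W} (hs : State c K r s)
    (h : StLe c K r t s) {G : Set (Cond W)} (hG : Gen c t.1.1 G) {x z : ℕ → ℕ}
    (hp : PT s.2 s.1 (G ∩ PP c s.1.1) x z) : PT t.2 t.1 G x z := by
  have _ := hG
  have h1 := (PT_inter hs.inv.i0 hs.inv.base.toHS).1 hp
  rcases h with h | ⟨-, -, h2, h3⟩
  · rw [h]
    exact h1
  · exact PT_mono h3 (PT_up h2.le h1)

/-- `Good_exPT`, `hK.out.good`, `Good.fo`. -/
theorem In_dead [Countable M] (a b : Nm M W) :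
    In M (fun y : (Stc M W × Tt M W) × Cond W => Fo c y.1.1.1 y.2 (fun G =>
      (∃ z', PT y.1.2 y.1.1 G (ev a G) z') ∨ K (RR c y.1.1.1 G) (ev a G) (ev b G))) :=
  Good.fo (f := fun y : (Stc M W × Tt M W) × Cond W => y.1.1.1)
    (IF.comp IF.fst (IF.comp IF.fst IF.fst)) (Good.comp (MainD_dead a b) IF.fst) IF.snd

/-- `Good_PT`, `Good_El`, `Good.fo`. -/
theorem In_code [Countable M] (a b : Nm M W) :
    In M (fun y : (Stc M W × Tt M W) × Cond W => Fo c y.1.1.1 y.2 (fun G =>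
      PT y.1.2 y.1.1 G (ev a G) (ev b G) ∨ Elc y.1.1.1 G (ev a G) (ev b G))) :=
  Good.fo (f := fun y : (Stc M W × Tt M W) × Cond W => y.1.1.1)
    (IF.comp IF.fst (IF.comp IF.fst IF.fst)) (Good.comp (MainD_code a b) IF.fst) IF.snd

/-- **First density.** Take `G` generic for `t.1.1`, `q ∈ G`, `x = ev a G`, `z = ev b G`. If `x` has a protected partner or `K (RR c t.1.1 G) x z` holds, `t' = t` (`Good.truth`; the condition can be taken below `q`). If `Elc t.1.1 G x z`, use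
`Clean`. Otherwise `K9` for `(t.1, t.2)` at `S = t.1` (`KK_self`), `D = t.1.1` (`res_self`) gives `Kb c K t.1 t.2 t.1 G x z`: a structure `S'` in the class above `t.1` and `p ∈ PP c S'.1` with `crs t.1.1.dom p ∈ G`, names `a' b'` over `t.1.1` of `x z`.
`exists_gen_ext` gives `G'` generic for `S'.1`, `p ∈ G'`, `G' ∩ PP c t.1.1 = G`; so `K (RR c S'.1 G') x z`. `State_succ` gives `t' ≤ t` with `SLe S' t'.1`; `exists_gen_ext0` gives `G''` for `t'.1.1` over `G'`; `hK.out.up` gives `K (RR c t'.1.1 G'') x z`.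
(`RR c S'.1 G'' = RR c S'.1 G'`, `ev a G'' = x`, `ev b G'' = z`, `q ∈ G''`.) `Good.truth` gives `q' ∈ G''` forcing the statement, below `q`. -/
theorem dens_dead [Countable M] {t : Stc M W × Tt M W} (ht : State c K r t) {q : Cond W}
    (hq : q ∈ PP c t.1.1) {a b : Nm M W} (ha : IsNm c t.1.1 a) (hb : IsNm c t.1.1 b) :
    ∃ t', State c K r t' ∧ StLe c K r t' t ∧ ∃ q' ∈ PP c t'.1.1, CLe c q' q ∧
      Fo c t'.1.1 q' (fun G => (∃ z', PT t'.2 t'.1 G (ev a G) z') ∨
        K (RR c t'.1.1 G) (ev a G) (ev b G)) := by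
  obtain ⟨G, hG, hqG⟩ := exists_gen hq
  by_cases hd : (∃ z', PT t.2 t.1 G (ev a G) z') ∨ K (RR c t.1.1 G) (ev a G) (ev b G)
  · exact ⟨t, ht, Or.inl rfl, MainD_truth (MainD_dead a b) hG hqG hd⟩
  rw [not_or, not_exists] at hd
  obtain ⟨hn, hnK⟩ := hd
  have hv : Valid c t.1.1 := ht.inv.base.val
  have hx : ev a G ∈ RR c t.1.1 G := ⟨a, ha, rfl⟩
  have hz : ev b G ∈ RR c t.1.1 G := ⟨b, hb, rfl⟩
  have hel : ¬ Elc t.1.1 G (ev a G) (ev b G) := by
    rintro ⟨ν, hν, he⟩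
    rcases ht.clean ν hν G hG hG.empty_mem _ _ he with ⟨z', h1⟩ | h1
    · exact hn z' h1
    · exact hnK h1
  have hkb := K9 ht.inv ht.fix (KK_self ht.inv.base) hG hn ht.inv.base.top (Sb.refl _) hx
    (fun D' _ h _ => h) hz hel
  rw [res_self ht.inv.base] at hkb
  obtain ⟨S', hS', hle, p, hp, hpG, a', b', ha', hb', ea, eb, hfo⟩ := hkb
  have hsb : Sb t.1.1 S'.1 := hle.sb hS'.sv.toHS
  obtain ⟨G', hG', hpG', hGG⟩ := exists_gen_ext hv hS'.sv.val hsb hG hp hpG
  have hev : ∀ m : Nm M W, IsNm c t.1.1 m → ev m G' = ev m G := by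
    intro m hm
    rw [← ev_inter hm, hGG]
  have hKK : K (RR c S'.1 G') (ev a G) (ev b G) := by
    have h1 : K (RR c S'.1 G') (ev a' G') (ev b' G') := hfo G' hG' hpG'
    rw [hev a' ha', hev b' hb', ea, eb] at h1
    exact h1
  obtain ⟨F₂, T₂, h1, h2, h3, h4⟩ := State_succ (F := t.1) (T := t.2) ht hS'
  have hsb2 : Sb S'.1 F₂.1 := h2.sb h1.sv.toHS
  obtain ⟨G'', hG'', hGG'⟩ := exists_gen_ext0 hS'.sv.val h1.sv.val hsb2 hG'
  have hev2 : ∀ m : Nm M W, IsNm c t.1.1 m → ev m G'' = ev m G := by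
    intro m hm
    rw [← hev m hm, ← ev_inter (hm.mono hv hsb) (G := G''), hGG']
  have hq' : q ∈ G' := by
    rw [← hGG] at hqG
    exact hqG.1
  have hq'' : q ∈ G'' := by
    rw [← hGG'] at hq'
    exact hq'.1
  have hR : RR c S'.1 G'' = RR c S'.1 G' := by
    rw [← RR_inter, hGG']
  have hK1 : K (RR c F₂.1 G'') (ev a G'') (ev b G'') := by
    refine hK.out.up S'.1 F₂.1 hS'.sv.val h1.sv.val hsb2 G'' hG'' _ ⟨a, ha.mono hv hsb, rfl⟩ _
      ⟨b, hb.mono hv hsb, rfl⟩ ?_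
    rw [hR, hev2 a ha, hev2 b hb]
    exact hKK
  exact ⟨(F₂, T₂), h3, h4, MainD_truth (t := (F₂, T₂)) (MainD_dead a b) hG'' hq'' (Or.inr hK1)⟩

open Classical in
/-- the name of the code of a pair which is not protected -/
theorem MainD_name [Countable M] (t : Stc M W × Tt M W) (hv : Valid c t.1.1) (a b : Nm M W) :
    ∃ n : Nm M W, IsNm c t.1.1 n ∧
      (∀ G, Gen c t.1.1 G → PT t.2 t.1 G (ev a G) (ev b G) → ev n G = fun _ => 1) ∧
      ∀ G, Gen c t.1.1 G → ¬ PT t.2 t.1 G (ev a G) (ev b G) →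
        ev n G = T3 (ev a G) (ev b G) 0 := by
  have hX : GoodR c (fun _ : ℕ => t.1.1) (fun _ G => ev a G) :=
    GoodR.ev (IF.const _) (IF.const a)
  have hY : GoodR c (fun _ : ℕ => t.1.1) (fun _ G => ev b G) :=
    GoodR.ev (IF.const _) (IF.const b)
  have h1 := GoodR_T3 (IF.const t.1.1) hX hY
  have h2 : GoodR c (fun _ : ℕ => t.1.1) (fun _ _ => (fun _ => 1 : ℕ → ℕ)) :=
    GoodF.of_if (IF.const 1)
  have h3 : Good c (fun _ : ℕ × ℕ => t.1.1)
      (fun _ G => PT t.2 t.1 G (ev a G) (ev b G)) :=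
    Good_PT (IF.const _) (IF.const t.2) (IF.const t.1) (GoodR.ev (IF.const _) (IF.const a))
      (GoodR.ev (IF.const _) (IF.const b))
  have h4 : GoodR c (fun _ : ℕ => t.1.1)
      (fun _ G => if PT t.2 t.1 G (ev a G) (ev b G) then (fun _ => 1 : ℕ → ℕ)
        else T3 (ev a G) (ev b G) 0) := by
    refine (GoodF.ite (f := fun _ : ℕ × ℕ => t.1.1) (IF.const _) h3 h2 h1).congr fun y G _ => ?_
    by_cases e : PT t.2 t.1 G (ev a G) (ev b G) <;> simp [e]
  obtain ⟨n, hn, h5⟩ := exists_name (IF.const t.1.1) h4 (t := 0) hv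
  refine ⟨n, hn, fun G hG hp => ?_, fun G hG hp => ?_⟩
  · rw [h5 G hG, if_pos hp]
  · rw [h5 G hG, if_neg hp]

/-- **Second density.** The real `n(G) = T3 (ev a G) (ev b G) 0` if not `PT t.2 t.1 G (ev a G) (ev b G)`, and the constant `1` otherwise, is good (definition by cases, `Good_PT`, `GoodR_T3`), so it has a name `n` over `t.1.1` (`exists_name`). It never
codes a protected pair (`T3 x z 0` determines `x`, `z`; its value at `0` is `0`), so `KK_top` gives `S'` in the class of `t` with a top node `ν` with the name `n`, and `State_succ` gives `t' ≤ t` with `SLe S' t'.1`. Take `G` generic for `t'.1.1`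
with `q ∈ G`: if the pair is protected in `t.1` at `G ∩ PP c t.1.1`, then also in `t'.1` (`StLe.pt`), otherwise the node `ν` codes it. `Good.truth`. -/
theorem dens_code [Countable M] {t : Stc M W × Tt M W} (ht : State c K r t) {q : Cond W}
    (hq : q ∈ PP c t.1.1) {a b : Nm M W} (ha : IsNm c t.1.1 a) (hb : IsNm c t.1.1 b) :
    ∃ t', State c K r t' ∧ StLe c K r t' t ∧ ∃ q' ∈ PP c t'.1.1, CLe c q' q ∧
      Fo c t'.1.1 q' (fun G => PT t'.2 t'.1 G (ev a G) (ev b G) ∨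
        Elc t'.1.1 G (ev a G) (ev b G)) := by
  obtain ⟨n, hn, hv1, hv2⟩ := MainD_name t ht.inv.base.val a b
  obtain ⟨ν, S', htop, hS', hle⟩ := KK_top ht.inv.i0 ht.inv.i2 (KK_self ht.inv.base) hn (by
    intro G hG x z he hpt
    by_cases h1 : PT t.2 t.1 G (ev a G) (ev b G)
    · rw [hv1 G hG h1] at he
      have h0 := congrFun he 0
      simp [T3] at h0
    · rw [hv2 G hG h1] at he
      have hx : ev a G = x := by
        rw [← GenX_zx (ev a G) (ev b G), he, GenX_zx]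
      have hz : ev b G = z := by
        rw [← GenX_za (ev a G) (ev b G), he, GenX_za]
      rw [hx, hz] at h1
      exact h1 hpt)
  obtain ⟨F₂, T₂, h1, h2, h3, h4⟩ := State_succ (F := t.1) (T := t.2) ht hS'
  have hsb : Sb t.1.1 S'.1 := hle.sb hS'.sv.toHS
  have hsb2 : Sb S'.1 F₂.1 := h2.sb h1.sv.toHS
  obtain ⟨G, hG, hqG⟩ := exists_gen (PP_mono (hsb.trans hsb2) hq)
  have hG0 := hG.restrict ht.inv.base.val (hsb.trans hsb2)
  have hea : ev a (G ∩ PP c t.1.1) = ev a G := ev_inter ha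
  have heb : ev b (G ∩ PP c t.1.1) = ev b G := ev_inter hb
  refine ⟨(F₂, T₂), h3, h4, MainD_truth (t := (F₂, T₂)) (MainD_code a b) hG hqG ?_⟩
  by_cases hp : PT t.2 t.1 (G ∩ PP c t.1.1) (ev a (G ∩ PP c t.1.1)) (ev b (G ∩ PP c t.1.1))
  · left
    rw [hea, heb] at hp
    exact StLe.pt (t := (F₂, T₂)) ht h4 hG hp
  · right
    refine ⟨ν, hsb2.dom ((htop.dom ν).2 (Or.inl rfl)), ?_⟩
    rw [hsb2.nm_eq ((htop.dom ν).2 (Or.inl rfl)), htop.nm, ← ev_inter hn, hv2 _ hG0 hp, hea, heb]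

end Pool.Agent.H.MP_20495c_lc
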