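import Pool.Agent.H.MP_20495c_lc.B.Fix

/-!
# Part B, module Marks: structures with marks, as a countably closed system
-/

set_option autoImplicit false
set_option linter.unusedSectionVars false

namespace Pool.Agent.H.MP_20495c_lc

open Pool.Agent.H.MP_07d118_lc Pool.Agent.H.MP_a163f2_lc

universe u v w x

variable {M : Type u} [SetStr M] [ZFC M] [Std M] {W : Type v} [LinearOrder W] [Cd M W] [Om1 M W]
variable {c : W × Hc → ℕ → ℕ} [hL : Fact (Luz M W c)]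
variable {K : Set (ℕ → ℕ) → (ℕ → ℕ) → (ℕ → ℕ) → Prop} {r : Nm M W → Nm M W → Prop}
variable {S S' F : Stc M W} {T : Tt M W}

/-- The member `E` is marked in `S`: every node outside the base has a support which does not contain `E`. -/
structure MK (c : W × Hc → ℕ → ℕ) (F S : Stc M W) (E : Pl M W) : Prop where
  mem : Mem S E
  nb : ¬ Sb E F.1
  sup : ∀ ν ∈ S.1.dom, ν ∉ F.1.dom → ∃ D, Mem S D ∧ ν ∉ D.dom ∧ IsNm c D (S.1.nm ν) ∧ ¬ Sb E D

variable (M W) in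
/-- a structure and a set of marks -/
abbrev MS : Type v := Stc M W × ISet M (Pl M W)

/-- valid pairs -/
def MV (c : W × Hc → ℕ → ℕ) (F : Stc M W) (T : Tt M W) (s : MS M W) : Prop :=
  KK c F T s.1 ∧ ∀ E, E ∈ s.2 → MK c F s.1 E

/-- order of the pairs -/
def MLe (c : W × Hc → ℕ → ℕ) (F : Stc M W) (T : Tt M W) (t s : MS M W) : Prop :=
  t = s ∨ (MV c F T t ∧ MV c F T s ∧ SLe s.1 t.1 ∧ ∀ E, E ∈ s.2 → E ∈ t.2)

theorem Marks_MK_iff {S : Stc M W} {E : Pl M W} : MK c F S E ↔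
    (Mem S E ∧ ¬ Sb E F.1 ∧ ∀ ν : W, ν ∈ S.1.dom → ν ∉ F.1.dom → ∃ D : Pl M W, Mem S D ∧
      ν ∉ D.dom ∧ IsNm c D (S.1.nm ν) ∧ ¬ Sb E D) :=
  ⟨fun h => ⟨h.mem, h.nb, h.sup⟩, fun h => ⟨h.1, h.2.1, h.2.2⟩⟩

theorem Marks_In_MK {X : Type w} [Cd M X] {S : X → Stc M W} (hS : IF M S) {E : X → Pl M W}
    (hE : IF M E) : In M (fun t => MK c F (S t) (E t)) := by
  refine In.congr (P := fun t => Mem (S t) (E t) ∧ ¬ Sb (E t) F.1 ∧ ∀ ν : W,
    ν ∈ (S t).1.dom → ν ∉ F.1.dom → ∃ D : Pl M W, Mem (S t) D ∧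
      ν ∉ D.dom ∧ IsNm c D ((S t).1.nm ν) ∧ ¬ Sb (E t) D) ?_ fun t => Marks_MK_iff
  refine In.and (In_Mem hS hE) (In.and (In.not (In.sb hE (IF.const _))) ?_)
  refine In.all (P := fun (t : X) (ν : W) => ν ∈ (S t).1.dom → ν ∉ F.1.dom →
    ∃ D : Pl M W, Mem (S t) D ∧ ν ∉ D.dom ∧ IsNm c D ((S t).1.nm ν) ∧ ¬ Sb (E t) D) ?_
  have hS1 : IF M (fun y : X × W => S y.1) := IF.comp hS IF.fst
  have hS2 : IF M (fun y : (X × W) × Pl M W => S y.1.1) := IF.comp hS (IF.comp IF.fst IF.fst)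
  have hE2 : IF M (fun y : (X × W) × Pl M W => E y.1.1) := IF.comp hE (IF.comp IF.fst IF.fst)
  have hν2 : IF M (fun y : (X × W) × Pl M W => y.1.2) := IF.comp IF.snd IF.fst
  refine In.imp (In.pdom IF.snd (IF.comp IF.fst hS1)) (In.imp (In.not
    (In.pdom IF.snd (IF.const _))) ?_)
  refine In.ex (P := fun (y : X × W) (D : Pl M W) => Mem (S y.1) D ∧ y.2 ∉ D.dom ∧
    IsNm c D ((S y.1).1.nm y.2) ∧ ¬ Sb (E y.1) D) ?_
  exact In.and (In_Mem hS2 IF.snd) (In.and (In.not (In.pdom hν2 IF.snd))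
    (In.and (In.isNm IF.snd (IF.nmP (IF.comp IF.fst hS2) hν2)) (In.not (In.sb hE2 IF.snd))))

theorem In_MV [Countable M] : In M (fun s : MS M W => MV c F T s) := by
  refine In.and (In_KK (IF.const F) (IF.const T) IF.fst) ?_
  refine In.all (P := fun (s : MS M W) (E : Pl M W) => E ∈ s.2 → MK c F s.1 E) ?_
  exact In.imp (In.mem IF.snd (IF.comp IF.snd IF.fst))
    (Marks_In_MK (S := fun y : MS M W × Pl M W => y.1.1) (IF.comp IF.fst IF.fst) IF.snd)

theorem In_MLe [Countable M] : In M (fun y : MS M W × MS M W => MLe c F T y.1 y.2) := by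
  refine In.or (In.eq IF.fst IF.snd) (In.and (In.comp In_MV IF.fst)
    (In.and (In.comp In_MV IF.snd) (In.and ?_ ?_)))
  · exact In_SLe (S := fun y : MS M W × MS M W => y.2.1) (S' := fun y : MS M W × MS M W => y.1.1)
      (IF.comp IF.fst IF.snd) (IF.comp IF.fst IF.fst)
  · refine In.all (P := fun (y : MS M W × MS M W) (E : Pl M W) => E ∈ y.2.2 → E ∈ y.1.2) ?_
    exact In.imp (In.mem IF.snd (IF.comp IF.snd (IF.comp IF.snd IF.fst)))
      (In.mem IF.snd (IF.comp IF.snd (IF.comp IF.fst IF.fst)))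

theorem MLe.trans {a b d : MS M W} (h : MLe c F T a b) (h' : MLe c F T b d) : MLe c F T a d := by
  rcases h with rfl | ⟨h1, h2, h3, h4⟩
  · exact h'
  · rcases h' with rfl | ⟨k1, k2, k3, k4⟩
    · exact Or.inr ⟨h1, h2, h3, h4⟩
    · exact Or.inr ⟨h1, k2, k3.trans h3, fun E hE => h4 E (k4 E hE)⟩

theorem MLe.sle {t s : MS M W} (h : MLe c F T t s) (hs : MV c F T s) : SLe s.1 t.1 := by
  rcases h with rfl | ⟨h1, h2, h3, h4⟩
  · exact SLe.refl hs.1.sv
  · exact h3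

/-- A mark stays a mark if every new node has a support not containing it. -/
theorem MK.up {E : Pl M W} (h : MK c F S E) (hs : SLe S S') (hS' : SV c S')
    (hnew : ∀ ν ∈ S'.1.dom, ν ∉ S.1.dom → ∃ D, Mem S' D ∧ ν ∉ D.dom ∧
      IsNm c D (S'.1.nm ν) ∧ ¬ Sb E D) : MK c F S' E := by
  refine ⟨hs.mem h.mem, h.nb, fun ν hν hF => ?_⟩
  by_cases hνS : ν ∈ S.1.dom
  · obtain ⟨D, h1, h2, h3, h4⟩ := h.sup ν hνS hF
    refine ⟨D, hs.mem h1, h2, ?_, h4⟩
    rw [(hs.sb hS'.toHS).nm_eq hνS]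
    exact h3
  · exact hnew ν hν hνS

/-- A default node on top: its support is the base `F.1` (`dfn_IsNm`), `MK.nb`. -/
theorem dfn_support {S₀ : Stc M W} {ν : W} (h : IsTop c S₀ S' ν dfn) (hF : Mem S' F.1)
    (hν : ν ∉ F.1.dom) {E : Pl M W} (hE : ¬ Sb E F.1) :
    ∃ D, Mem S' D ∧ ν ∉ D.dom ∧ IsNm c D (S'.1.nm ν) ∧ ¬ Sb E D := by
  refine ⟨F.1, hF, hν, ?_, hE⟩
  rw [h.nm]
  exact dfn_IsNm F.1

/-- The pairs form a countably closed system. `sig`: a countable chain `C` of pairs; `KK_chain` with `X = MS M W`, `P = (· ∈ C)`, `Fm = Prod.fst` (a chain for `SLe`) gives `S'`; marks: the union of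
the `s.2`, `s ∈ C`. For a mark `E ∈ s.2` and a node `ν` of `S'` outside the base: `ν` is in some `t.1`, `t ∈ C` (`stUn_dom`), in the bigger one `u` of `s`, `t` both `E ∈ u.2` and `ν ∈ u.1.1.dom`, so `MK` at `u` gives
a support; or `ν` is the default top node (`dfn_support`). -/
theorem marks_sys [Countable M] (h : INV c K F T) :
    Sys c (MV c F T) (MLe c F T) (fun s : MS M W => s.1.1) := by
  refine ⟨In_MV, In_MLe, IF.comp IF.fst IF.fst, fun s => Or.inl rfl,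
    fun a b d h1 h2 => h1.trans h2, fun s hs => hs.1.sv.val, ?_, ?_⟩
  · rintro s t (rfl | ⟨h1, h2, h3, h4⟩)
    · exact Sb.refl _
    · exact h3.sb h1.1.sv.toHS
  · intro C hct hne hV hch
    have hP : In M (fun s : MS M W => s ∈ C) := C.in_mem
    have hch' : ∀ i j : MS M W, i ∈ C → j ∈ C → SLe i.1 j.1 ∨ SLe j.1 i.1 := by
      intro i j hi hj
      rcases hch i j hi hj with h1 | h1
      · exact Or.inr (h1.sle (hV j hj))
      · exact Or.inl (h1.sle (hV i hi))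
    obtain ⟨ν, S', hT, hK', hle⟩ := KK_chain (c := c) (F := F) (T := T) h.i0 h.i2
      (P := fun s : MS M W => s ∈ C) hP (Fm := Prod.fst) IF.fst hch' hne hct
      (fun t ht => (hV t ht).1)
    have hMM : In M (fun E : Pl M W => ∃ s : MS M W, s ∈ C ∧ E ∈ s.2) := by
      refine In.ex (P := fun (E : Pl M W) (s : MS M W) => s ∈ C ∧ E ∈ s.2) ?_
      exact In.and (In.mem IF.snd (IF.const C)) (In.mem IF.fst (IF.comp IF.snd IF.snd))
    have key : ∀ u : MS M W, u ∈ C → ∀ E, MK c F u.1 E → ∀ μ ∈ u.1.1.dom, μ ∉ F.1.dom →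
        ∃ D, Mem S' D ∧ μ ∉ D.dom ∧ IsNm c D (S'.1.nm μ) ∧ ¬ Sb E D := by
      intro u hu E hE μ hμ hμF
      obtain ⟨D, h1, h2, h3, h4⟩ := hE.sup μ hμ hμF
      refine ⟨D, (hle u hu).mem h1, h2, ?_, h4⟩
      rw [((hle u hu).sb hK'.sv.toHS).nm_eq hμ]
      exact h3
    have hVt : MV c F T (S', ISet.mk (P := fun E : Pl M W => ∃ s : MS M W, s ∈ C ∧ E ∈ s.2)
        hMM) := by
      refine ⟨hK', fun E hE => ?_⟩
      obtain ⟨s, hs, hEs⟩ := hE
      have hmk : MK c F s.1 E := (hV s hs).2 E hEs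
      refine ⟨(hle s hs).mem hmk.mem, hmk.nb, fun μ hμ hμF => ?_⟩
      rcases (hT.dom μ).1 hμ with rfl | hμ'
      · exact dfn_support hT hK'.le.1 hμF hmk.nb
      · obtain ⟨t, ht, hμt⟩ := stUn_dom.1 hμ'
        rcases hch s t hs ht with h1 | h1
        · have hb : Sb t.1.1 s.1.1 := by
            rcases h1 with rfl | ⟨h1, h2, h3, h4⟩
            · exact Sb.refl _
            · exact h3.sb h1.1.sv.toHS
          exact key s hs E hmk μ (hb.dom hμt) hμF
        · have hEt : E ∈ t.2 := by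
            rcases h1 with rfl | ⟨h1, h2, h3, h4⟩
            · exact hEs
            · exact h4 E hEs
          exact key t ht E ((hV t ht).2 E hEt) μ hμt hμF
    exact ⟨_, hVt, fun s hs => Or.inr ⟨hVt, hV s hs, hle s hs, fun E hE => ⟨s, hs, hE⟩⟩⟩

end Pool.Agent.H.MP_20495c_lc
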