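import Pool.Agent.H.MP_20495c_lc.B.Str

/-!
# Part B, module PermS: permutations of structures

`pmS π hπ S` moves the nodes, not the ranks and not the labels.
-/

set_option autoImplicit false
set_option linter.unusedSectionVars false

namespace Pool.Agent.H.MP_20495c_lc

open Pool.Agent.H.MP_07d118_lc Pool.Agent.H.MP_a163f2_lc

universe u v w x

variable {M : Type u} [SetStr M] [ZFC M] [Std M] {W : Type v} [LinearOrder W] [Cd M W] [Om1 M W]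
variable {c : W × Hc → ℕ → ℕ} [hL : Fact (Luz M W c)]
variable {S S' F : Stc M W} {π : Equiv.Perm W} {hπ : IF M π}

theorem pmP_symm (hπ' : IF M π.symm) (f : Pl M W) : pmP π.symm hπ' (pmP π hπ f) = f :=
  Perm2_pmP_inv

theorem pmP_symm' (hπ' : IF M π.symm) (f : Pl M W) : pmP π hπ (pmP π.symm hπ' f) = f := by
  refine ISet.ext fun y => ?_
  rw [Perm2_mem_pmP, Perm2_mem_pmP]
  change (π (π.symm y.1), pmC π (pmC π.symm y.2.1), y.2.2) ∈ f ↔ y ∈ f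
  rw [pmC_symm', Equiv.apply_symm_apply]

theorem pmN_symm (hπ' : IF M π.symm) (n : Nm M W) : pmN π.symm hπ' (pmN π hπ n) = n := by
  refine ISet.ext fun y => ?_
  rw [Perm2_mem_pmN, Perm2_mem_pmN]
  change (pmC π.symm (pmC π y.1), y.2) ∈ n ↔ y ∈ n
  rw [pmC_symm]

theorem pmN_symm' (hπ' : IF M π.symm) (n : Nm M W) : pmN π hπ (pmN π.symm hπ' n) = n :=
  Perm2_pmN_inv

theorem pmS_fst : (pmS π hπ S).1 = pmP π hπ S.1 := rfl

theorem mem_pmS1 {α : W} {D : Pl M W} :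
    (α, pmP π hπ D) ∈ (pmS π hπ S).2.1 ↔ (α, D) ∈ S.2.1 := by
  change (α, pmP π.symm (IF.symm hπ) (pmP π hπ D)) ∈ S.2.1 ↔ _
  rw [pmP_symm]

theorem mem_pmS2 {D : Pl M W} {n m : Nm M W} :
    (pmP π hπ D, pmN π hπ n, m) ∈ (pmS π hπ S).2.2 ↔ (D, n, m) ∈ S.2.2 := by
  change (pmP π.symm (IF.symm hπ) (pmP π hπ D), pmN π.symm (IF.symm hπ) (pmN π hπ n), m) ∈ S.2.2
    ↔ _
  rw [pmP_symm, pmN_symm]

theorem Mem_pmS {D : Pl M W} : Mem (pmS π hπ S) (pmP π hπ D) ↔ Mem S D := by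
  unfold Mem
  exact exists_congr fun α => mem_pmS1

theorem PermS_ex (π : Equiv.Perm W) (hπ : IF M π) (E : Pl M W) : ∃ D, E = pmP π hπ D :=
  ⟨pmP π.symm (IF.symm hπ) E, (pmP_symm' _ _).symm⟩

theorem PermS_exn (π : Equiv.Perm W) (hπ : IF M π) (n : Nm M W) : ∃ m, n = pmN π hπ m :=
  ⟨pmN π.symm (IF.symm hπ) n, (pmN_symm' _ _).symm⟩

/-- every member of the moved structure is a moved member -/
theorem Mem_pmS' {E : Pl M W} : Mem (pmS π hπ S) E ↔ ∃ D, Mem S D ∧ E = pmP π hπ D := by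
  constructor
  · intro h
    obtain ⟨D, rfl⟩ := PermS_ex π hπ E
    exact ⟨D, Mem_pmS.1 h, rfl⟩
  · rintro ⟨D, h, rfl⟩
    exact Mem_pmS.2 h

/-- inverse permutation -/
theorem pmS_symm (hπ' : IF M π.symm) : pmS π.symm hπ' (pmS π hπ S) = S := by
  refine Stc_ext ?_ ?_ ?_
  · exact pmP_symm (hπ := hπ) hπ' S.1
  · intro α D
    change (α, pmP π hπ D) ∈ (pmS π hπ S).2.1 ↔ _
    exact mem_pmS1
  · intro D n m
    change (pmP π hπ D, pmN π hπ n, m) ∈ (pmS π hπ S).2.2 ↔ _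
    exact mem_pmS2

theorem pmS_symm' (hπ' : IF M π.symm) : pmS π hπ (pmS π.symm hπ' S) = S := by
  refine Stc_ext ?_ ?_ ?_
  · exact pmP_symm' (hπ := hπ) hπ' S.1
  · intro α D
    change (α, pmP π.symm (IF.symm hπ) D) ∈ (pmS π.symm hπ' S).2.1 ↔ _
    exact mem_pmS1
  · intro D n m
    change (pmP π.symm (IF.symm hπ) D, pmN π.symm (IF.symm hπ) n, m) ∈ (pmS π.symm hπ' S).2.2 ↔ _
    exact mem_pmS2

theorem pmP_Sb_iff {f g : Pl M W} : Sb (pmP π hπ f) (pmP π hπ g) ↔ Sb f g := by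
  refine ⟨fun h => ?_, pmP_Sb⟩
  have h1 := pmP_Sb (π := π.symm) (hπ := IF.symm hπ) h
  rwa [pmP_symm, pmP_symm] at h1

theorem pmP_Valid_iff {f : Pl M W} : Valid c (pmP π hπ f) ↔ Valid c f := by
  refine ⟨fun h => ?_, pmP_Valid⟩
  have h1 := pmP_Valid (π := π.symm) (hπ := IF.symm hπ) h
  rwa [pmP_symm] at h1

theorem pmN_IsNm_iff {f : Pl M W} {n : Nm M W} :
    IsNm c (pmP π hπ f) (pmN π hπ n) ↔ IsNm c f n := by
  refine ⟨fun h => ?_, pmN_IsNm⟩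
  have h1 := pmN_IsNm (π := π.symm) (hπ := IF.symm hπ) h
  rwa [pmP_symm, pmN_symm] at h1

theorem pmP_plI {D D' : Pl M W} : pmP π hπ (plI D D') = plI (pmP π hπ D) (pmP π hπ D') := by
  refine ISet.ext fun y => ?_
  exact Iff.rfl

/-- `Stc_ext`; for the families use that every plan is a moved plan (`pmP_symm'`). -/
theorem pmS_res {D : Pl M W} : pmS π hπ (res S D) = res (pmS π hπ S) (pmP π hπ D) := by
  refine Stc_ext rfl ?_ ?_
  · intro α E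
    obtain ⟨E, rfl⟩ := PermS_ex π hπ E
    rw [mem_pmS1, mem_res1, mem_res1, mem_pmS1, pmP_Sb_iff]
  · intro E n m
    obtain ⟨E, rfl⟩ := PermS_ex π hπ E
    obtain ⟨n, rfl⟩ := PermS_exn π hπ n
    rw [mem_pmS2, mem_res2, mem_res2, mem_pmS2, pmP_Sb_iff]

/-- field by field; members and names of the moved structure are moved ones; `pmP_nm` for the names of the nodes. -/
theorem pmS_HS (h : HS c S) : HS c (pmS π hπ S) := by
  constructor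
  · exact pmP_Valid (hπ := hπ) h.val
  · intro D hD
    obtain ⟨D₀, hD₀, rfl⟩ := Mem_pmS'.1 hD
    exact ⟨pmP_Valid (h.sub D₀ hD₀).1, pmP_Sb (h.sub D₀ hD₀).2⟩
  · intro α α' D h1 h2
    obtain ⟨D, rfl⟩ := PermS_ex π hπ D
    exact h.fn α α' D (mem_pmS1.1 h1) (mem_pmS1.1 h2)
  · intro α α' D D' h1 h2 h3 h4
    obtain ⟨D, rfl⟩ := PermS_ex π hπ D
    obtain ⟨D', rfl⟩ := PermS_ex π hπ D'
    exact h.rk α α' D D' (mem_pmS1.1 h1) (mem_pmS1.1 h2) (pmP_Sb_iff.1 h3)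
      (fun e => h4 (by rw [e]))
  · obtain ⟨β, hβ⟩ := h.rbd
    refine ⟨β, fun α D h1 => ?_⟩
    obtain ⟨D, rfl⟩ := PermS_ex π hπ D
    exact hβ α D (mem_pmS1.1 h1)
  · intro D D' h1 h2
    obtain ⟨E, h3, rfl⟩ := Mem_pmS'.1 h1
    obtain ⟨E', h4, rfl⟩ := Mem_pmS'.1 h2
    rw [← pmP_plI]
    exact Mem_pmS.2 (h.cap E E' h3 h4)
  · intro ν hν
    rw [pmS_fst, pmP_dom] at hν
    obtain ⟨μ, hμ, rfl⟩ := hν
    obtain ⟨D, h1, h2, h3⟩ := h.sup μ hμ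
    refine ⟨pmP π hπ D, Mem_pmS.2 h1, ?_, ?_⟩
    · rw [pmP_dom]
      rintro ⟨μ', h4, h5⟩
      exact h2 ((π.injective h5) ▸ h4)
    · rw [pmS_fst, pmP_nm]
      exact pmN_IsNm h3
  · intro D hD n hn
    obtain ⟨D₀, hD₀, rfl⟩ := Mem_pmS'.1 hD
    obtain ⟨n₀, rfl⟩ := PermS_exn π hπ n
    obtain ⟨m, hm⟩ := h.lab D₀ hD₀ n₀ (pmN_IsNm_iff.1 hn)
    exact ⟨m, mem_pmS2.2 hm⟩
  · intro D n m m' h1 h2
    obtain ⟨D, rfl⟩ := PermS_ex π hπ D
    obtain ⟨n, rfl⟩ := PermS_exn π hπ n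
    exact h.lab1 D n m m' (mem_pmS2.1 h1) (mem_pmS2.1 h2)
  · intro D n n' m h1 h2
    obtain ⟨D, rfl⟩ := PermS_ex π hπ D
    obtain ⟨n, rfl⟩ := PermS_exn π hπ n
    obtain ⟨n', rfl⟩ := PermS_exn π hπ n'
    rw [h.labi D n n' m (mem_pmS2.1 h1) (mem_pmS2.1 h2)]
  · intro D n m h1
    obtain ⟨D, rfl⟩ := PermS_ex π hπ D
    obtain ⟨n, rfl⟩ := PermS_exn π hπ n
    have h2 := h.labs D n m (mem_pmS2.1 h1)
    exact ⟨Mem_pmS.2 h2.1, pmN_IsNm h2.2⟩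

theorem pmS_SV (h : SV c S) : SV c (pmS π hπ S) :=
  ⟨pmS_HS h.toHS, Mem_pmS.2 h.top⟩

theorem pmS_SLe (h : SLe S S') : SLe (pmS π hπ S) (pmS π hπ S') := by
  refine ⟨Mem_pmS.2 h.1, ?_⟩
  rw [pmS_fst, ← pmS_res, h.2]

/-- If `π` fixes the nodes of `S` then it fixes the members (`pmP_fix`), the names over them (`pmN_fix`), hence the structure. -/
theorem pmS_fix (h : SV c S) (hf : ∀ ν ∈ S.1.dom, π ν = ν) : pmS π hπ S = S := by
  have hD : ∀ D, Mem S D → (∀ ν ∈ D.dom, π ν = ν) ∧ pmP π hπ D = D := by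
    intro D hD
    have h1 := h.sub D hD
    have h2 : ∀ ν ∈ D.dom, π ν = ν := fun ν hν => hf ν (h1.2.dom hν)
    exact ⟨h2, pmP_fix h1.1 h2⟩
  refine Stc_ext ?_ ?_ ?_
  · exact pmP_fix (hπ := hπ) h.val hf
  · intro α D
    constructor
    · intro h1
      obtain ⟨D, rfl⟩ := PermS_ex π hπ D
      have h2 := mem_pmS1.1 h1
      rw [(hD D ⟨α, h2⟩).2]
      exact h2
    · intro h1
      have h2 := (mem_pmS1 (π := π) (hπ := hπ)).2 h1
      rwa [(hD D ⟨α, h1⟩).2] at h2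
  · intro D n m
    constructor
    · intro h1
      obtain ⟨D, rfl⟩ := PermS_ex π hπ D
      obtain ⟨n, rfl⟩ := PermS_exn π hπ n
      have h2 := mem_pmS2.1 h1
      have h3 := h.labs D n m h2
      rw [(hD D h3.1).2, pmN_fix (hD D h3.1).1 h3.2]
      exact h2
    · intro h1
      have h3 := h.labs D n m h1
      have h2 := (mem_pmS2 (π := π) (hπ := hπ)).2 h1
      rwa [(hD D h3.1).2, pmN_fix (hD D h3.1).1 h3.2] at h2

/-- the base is fixed: `pmS_SLe`, `pmS_fix` -/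
theorem pmS_SLe_base (hF : SV c F) (hf : ∀ ν ∈ F.1.dom, π ν = ν) (h : SLe F S) :
    SLe F (pmS π hπ S) := by
  have h1 := pmS_SLe (π := π) (hπ := hπ) h
  rwa [pmS_fix hF hf] at h1

theorem pmS_Cmp (hF : SV c F) (hf : ∀ ν ∈ F.1.dom, π ν = ν) (h : Cmp F S) :
    Cmp F (pmS π hπ S) := by
  intro D hD
  obtain ⟨D₀, hD₀, rfl⟩ := Mem_pmS'.1 hD
  rcases h D₀ hD₀ with h1 | h1
  · left
    have h2 := pmP_Sb (π := π) (hπ := hπ) h1
    rwa [pmP_fix hF.val hf] at h2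
  · right
    have h2 := pmP_Sb (π := π) (hπ := hπ) h1
    rwa [pmP_fix hF.val hf] at h2

end Pool.Agent.H.MP_20495c_lc
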