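import Pool.Agent.H.MP_20495c_lc.B.PermS

/-!
# Part B, module PermT: transport of the protections and of the classes
-/

set_option autoImplicit false
set_option linter.unusedSectionVars false

namespace Pool.Agent.H.MP_20495c_lc

open Pool.Agent.H.MP_07d118_lc Pool.Agent.H.MP_a163f2_lc

universe u v w x

variable {M : Type u} [SetStr M] [ZFC M] [Std M] {W : Type v} [LinearOrder W] [Cd M W] [Om1 M W]
variable {c : W × Hc → ℕ → ℕ} [hL : Fact (Luz M W c)]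
variable {S S' F : Stc M W} {π : Equiv.Perm W} {hπ : IF M π}

/-- `pmP_nm`, `pm_ev`, `pmP_dom`. -/
theorem El_pm {g : Pl M W} {G : Set (Cond W)} {x z : ℕ → ℕ} :
    Elc (pmP π hπ g) (pmC π '' G) x z ↔ Elc g G x z := by
  constructor
  · rintro ⟨ν, hν, h⟩
    rw [pmP_dom] at hν
    obtain ⟨μ, hμ, rfl⟩ := hν
    rw [pmP_nm, pm_ev] at h
    exact ⟨μ, hμ, h⟩
  · rintro ⟨μ, hμ, h⟩
    refine ⟨π μ, ?_, ?_⟩
    · rw [pmP_dom]
      exact ⟨μ, hμ, rfl⟩
    · rw [pmP_nm, pm_ev]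
      exact h

/-- the reals of the moved plan: `pm_RR` -/
theorem RR_pm {D : Pl M W} {G : Set (Cond W)} : RR c (pmP π hπ D) (pmC π '' G) = RR c D G :=
  pm_RR

/-- `I1` is an equivalence: use the inverse permutation. -/
theorem I1.iff {T : Tt M W} (hT : I1 F T) (hf : ∀ ν ∈ F.1.dom, π ν = ν) {A : Stc M W}
    {p : Cond W} {a b : Nm M W} :
    (pmS π hπ A, pmC π p, pmN π hπ a, pmN π hπ b) ∈ T ↔ (A, p, a, b) ∈ T := by
  refine ⟨fun h => ?_, fun h => hT π hπ hf A p a b h⟩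
  have h1 := hT π.symm (IF.symm hπ) (Perm2_symm_fix hf) _ _ _ _ h
  rw [pmS_symm (IF.symm hπ), pmC_symm, pmN_symm (IF.symm hπ), pmN_symm (IF.symm hπ)] at h1
  exact h1

/-- Transport of the protections: members `Mem_pmS'`, `pmS_res`, conditions `p ∈ pmC π '' G`, names `pm_ev`, `I1.iff`. -/
theorem PT_pm {T : Tt M W} (hT : I1 F T) (hf : ∀ ν ∈ F.1.dom, π ν = ν) {G : Set (Cond W)}
    {x z : ℕ → ℕ} : PT T (pmS π hπ S) (pmC π '' G) x z ↔ PT T S G x z := by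
  constructor
  · rintro ⟨E, hE, q, hq, a, b, hm, h1, h2⟩
    obtain ⟨D, hD, rfl⟩ := Mem_pmS'.1 hE
    obtain ⟨p, hp, rfl⟩ := hq
    rw [← pmN_symm' (π := π) (hπ := hπ) (IF.symm hπ) a] at hm h1
    rw [← pmN_symm' (π := π) (hπ := hπ) (IF.symm hπ) b] at hm h2
    rw [← pmS_res, I1.iff hT hf] at hm
    rw [pm_ev] at h1 h2
    exact ⟨D, hD, p, hp, _, _, hm, h1, h2⟩
  · rintro ⟨D, hD, p, hp, a, b, hm, h1, h2⟩
    refine ⟨pmP π hπ D, Mem_pmS.2 hD, pmC π p, ⟨p, hp, rfl⟩, pmN π hπ a, pmN π hπ b, ?_, ?_, ?_⟩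
    · rw [← pmS_res, I1.iff hT hf]
      exact hm
    · rw [pm_ev]
      exact h1
    · rw [pm_ev]
      exact h2

/-- Transport of the class. `ok`: a generic filter `G` of the moved plan is `pmC π '' G₀` with `G₀ = pmC π.symm '' G` generic for `S.1` (`pm_Gen`);
a node `ν` of the moved plan outside the base is `π ν₀` with `ν₀` outside the base. -/
theorem KK_pm {T : Tt M W} (hF : SV c F) (hT : I1 F T) (hf : ∀ ν ∈ F.1.dom, π ν = ν)
    (h : KK c F T S) : KK c F T (pmS π hπ S) := by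
  refine ⟨pmS_SV h.sv, pmS_SLe_base hF hf h.le, pmS_Cmp hF hf h.cmp, fun ν hν hνF => ?_⟩
  rw [pmS_fst, pmP_dom] at hν
  obtain ⟨μ, hμ, rfl⟩ := hν
  have hμF : μ ∉ F.1.dom := fun h1 => hνF (by rw [hf μ h1]; exact h1)
  have h1 := h.ok μ hμ hμF
  have he : pmC π ((∅, ∅) : Cond W) = (∅, ∅) := by
    refine Prod.ext ?_ ?_
    · exact Finset.image_empty _
    · exact Finset.image_empty _
  rw [pmS_fst, ← he, pm_Fo]
  intro G hG hp x z hx
  rw [pmP_nm, pm_ev] at hx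
  rw [PT_pm hT hf]
  exact h1 G hG hp x z hx

end Pool.Agent.H.MP_20495c_lc
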