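import Pool.Agent.H.MP_20495c_lc.B.Marks

/-!
# Part B, module Sol: solutions of the tasks
-/

set_option autoImplicit false
set_option linter.unusedSectionVars false

namespace Pool.Agent.H.MP_20495c_lc

open Pool.Agent.H.MP_07d118_lc Pool.Agent.H.MP_a163f2_lc

universe u v w x

variable {M : Type u} [SetStr M] [ZFC M] [Std M] {W : Type v} [LinearOrder W] [Cd M W] [Om1 M W]
variable {c : W × Hc → ℕ → ℕ} [hL : Fact (Luz M W c)]
variable {K : Set (ℕ → ℕ) → (ℕ → ℕ) → (ℕ → ℕ) → Prop} {r : Nm M W → Nm M W → Prop}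
variable {S S' F : Stc M W} {T : Tt M W} [hK : Fact (KOK M W c K)]

/-- The real `w` over the marked member `E` is a good witness for `x`: `E` is the least member above the base over which both `x` and `w` lie, `w` does not lie over some member over which
`x` lies, and `(x, w)` is not kickable over `E`. -/
structure Wit (c : W × Hc → ℕ → ℕ) (K : Set (ℕ → ℕ) → (ℕ → ℕ) → (ℕ → ℕ) → Prop) (F : Stc M W)
    (T : Tt M W) (S : Stc M W) (E : Pl M W) (G : Set (Cond W)) (x w : ℕ → ℕ) : Prop where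
  xE : x ∈ RR c E G
  wE : w ∈ RR c E G
  min : ∀ D, Mem S D → Sb F.1 D → Sb D E → D ≠ E → ¬ (x ∈ RR c D G ∧ w ∈ RR c D G)
  out : ∃ C, Mem S C ∧ Sb F.1 C ∧ x ∈ RR c C G ∧ w ∉ RR c C G
  unk : ¬ Kb c K F T (res S E) G x w

/-- the pair `(x, z)` (coded) is solved in `s` -/
def Sol (c : W × Hc → ℕ → ℕ) (K : Set (ℕ → ℕ) → (ℕ → ℕ) → (ℕ → ℕ) → Prop) (F : Stc M W)
    (T : Tt M W) (s : MS M W) (G : Set (Cond W)) (x z : ℕ → ℕ) : Prop :=
  (∃ z', PT T s.1 G x z') ∨ K (RR c s.1.1 G) x z ∨ ∃ E, E ∈ s.2 ∧ ∃ w, Wit c K F T s.1 E G x w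

/-- the node `ν` is solved in `s` at `G` -/
def SolN (c : W × Hc → ℕ → ℕ) (K : Set (ℕ → ℕ) → (ℕ → ℕ) → (ℕ → ℕ) → Prop) (F : Stc M W)
    (T : Tt M W) (s : MS M W) (ν : W) (G : Set (Cond W)) : Prop :=
  ∀ x z, ev (s.1.1.nm ν) G = T3 x z 0 → Sol c K F T s G x z

/-- The statement that a real is a witness is good. -/
theorem Sol_Good_Wit [Countable M] {Y : Type v} [Cd M Y] {f : Y → Pl M W} (hf : IF M f)
    {A : Y → Stc M W} (hA : IF M A) {E : Y → Pl M W} (hE : IF M E)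
    {X Z : Y → Set (Cond W) → ℕ → ℕ} (hX : GoodR c f X) (hZ : GoodR c f Z) :
    Good c f (fun t G => Wit c K F T (A t) (E t) G (X t G) (Z t G)) := by
  have h1 := Good_RR (c := c) hf hE hX
  have h2 := Good_RR (c := c) hf hE hZ
  have hA' : IF M (fun y : Y × Pl M W => A y.1) := IF.comp hA IF.fst
  have hE' : IF M (fun y : Y × Pl M W => E y.1) := IF.comp hE IF.fst
  have hf' : IF M (fun y : Y × Pl M W => f y.1) := IF.comp hf IF.fst
  have hX' : GoodR c (fun y : Y × Pl M W => f y.1) (fun y G => X y.1 G) := hX.comp IF.fst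
  have hZ' : GoodR c (fun y : Y × Pl M W => f y.1) (fun y G => Z y.1 G) := hZ.comp IF.fst
  have hXD := Good_RR (c := c) hf' (D := fun y : Y × Pl M W => y.2) IF.snd hX'
  have hZD := Good_RR (c := c) hf' (D := fun y : Y × Pl M W => y.2) IF.snd hZ'
  have hMem : In M (fun y : Y × Pl M W => Mem (A y.1) y.2) := In_Mem hA' IF.snd
  have hFS : In M (fun y : Y × Pl M W => Sb F.1 y.2) := In.sb (IF.const F.1) IF.snd
  have h3 : Good c f (fun t G => ∀ D, Mem (A t) D → Sb F.1 D → Sb D (E t) → D ≠ E t →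
      ¬ (X t G ∈ RR c D G ∧ Z t G ∈ RR c D G)) := by
    refine Good.all (Q := fun t D G => Mem (A t) D → Sb F.1 D → Sb D (E t) → D ≠ E t →
      ¬ (X t G ∈ RR c D G ∧ Z t G ∈ RR c D G)) hf ?_
    exact Good.imp hf' (Good.of_in hMem) (Good.imp hf' (Good.of_in hFS)
      (Good.imp hf' (Good.of_in (In.sb IF.snd hE'))
        (Good.imp hf' (Good.of_in (In.eq IF.snd hE').not) (Good.not hf' (hXD.and hZD)))))
  have h4 : Good c f (fun t G => ∃ D, Mem (A t) D ∧ Sb F.1 D ∧ X t G ∈ RR c D G ∧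
      Z t G ∉ RR c D G) := by
    refine Good.ex (Q := fun t D G => Mem (A t) D ∧ Sb F.1 D ∧ X t G ∈ RR c D G ∧
      Z t G ∉ RR c D G) ?_
    exact (Good.of_in hMem).and ((Good.of_in hFS).and (hXD.and (Good.not hf' hZD)))
  have h5 : Good c f (fun t G => ¬ Kb c K F T (res (A t) (E t)) G (X t G) (Z t G)) :=
    Good.not hf (Good_Kb (K := K) hf (F := fun _ => F) (IF.const F) (Tm := fun _ => T)
      (IF.const T) (S := fun t => res (A t) (E t)) (IF_res hA hE) hX hZ)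
  refine (h1.and (h2.and (h3.and (h4.and h5)))).congr fun t G _ => ?_
  exact ⟨fun h => ⟨h.xE, h.wE, h.min, h.out, h.unk⟩, fun h => ⟨h.1, h.2.1, h.2.2.1, h.2.2.2.1,
    h.2.2.2.2⟩⟩

theorem Sol_zx_T3 (x y : ℕ → ℕ) (i : ℕ) : zx (T3 x y i) = x := by
  funext n
  simp only [zx, T3]
  rw [if_neg (by omega), if_pos (by omega)]
  congr 1
  omega

theorem Sol_za_T3 (x y : ℕ → ℕ) (i : ℕ) : za (T3 x y i) = y := by
  funext n
  simp only [za, T3]
  rw [if_neg (by omega), if_neg (by omega)]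
  congr 1
  omega

theorem Sol_T3_eta (z : ℕ → ℕ) : T3 (zx z) (za z) (z 0) = z := by
  funext n
  simp only [zx, za, T3]
  split_ifs with h1 h2
  · rw [h1]
  · congr 1
    omega
  · congr 1
    omega

theorem Sol_T3_iff {x z y : ℕ → ℕ} : y = T3 x z 0 ↔ y 0 = 0 ∧ x = zx y ∧ z = za y := by
  constructor
  · rintro rfl
    exact ⟨rfl, (Sol_zx_T3 x z 0).symm, (Sol_za_T3 x z 0).symm⟩
  · rintro ⟨h, rfl, rfl⟩
    rw [← h]
    exact (Sol_T3_eta y).symm

/-- `Good_exPT`, `hK.out.good`, `Good_RR`, `Good_Kb`; quantifiers over the real `w` by names over `E`; the quantifier over `x z` as in `In_KK`. -/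
theorem Good_SolN [Countable M] {X : Type v} [Cd M X] {s : X → MS M W} (hs : IF M s)
    {ν : X → W} (hν : IF M ν) :
    Good c (fun t => (s t).1.1) (fun t G => SolN c K F T (s t) (ν t) G) := by
  have hs1 : IF M (fun t => (s t).1) := IF.comp IF.fst hs
  have hs2 : IF M (fun t => (s t).2) := IF.comp IF.snd hs
  have hf : IF M (fun t => (s t).1.1) := IF.comp IF.fst hs1
  have hN : IF M (fun t => (s t).1.1.nm (ν t)) := IF.nmP hf hν
  have hR : GoodR c (fun t => (s t).1.1) (fun t G => ev ((s t).1.1.nm (ν t)) G) :=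
    GoodR.ev hf hN
  have hX := GoodR.zx hR
  have hZ := GoodR.za hR
  have h0 : Good c (fun t => (s t).1.1) (fun t G => ev ((s t).1.1.nm (ν t)) G 0 = 0) :=
    GoodF_ev_good hf hN (IF.const 0) (IF.const 0)
  have h1 := Good_exPT (c := c) hf (Tm := fun _ : X => T) (IF.const T) hs1 hX
  have h2 := hK.out.good X (fun t => (s t).1.1) hf _ _ hX hZ
  have h3 : Good c (fun t => (s t).1.1) (fun t G => ∃ E, E ∈ (s t).2 ∧ ∃ w,
      Wit c K F T (s t).1 E G (zx (ev ((s t).1.1.nm (ν t)) G)) w) := by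
    have hY : Good c (fun y : (X × Pl M W) × Nm M W => (s y.1.1).1.1) (fun y G =>
        Wit c K F T (s y.1.1).1 y.1.2 G (zx (ev ((s y.1.1).1.1.nm (ν y.1.1)) G))
          (ev y.2 G)) := by
      have i1 : IF M (fun y : (X × Pl M W) × Nm M W => y.1.1) := IF.comp IF.fst IF.fst
      exact Sol_Good_Wit (IF.comp hf i1) (IF.comp hs1 i1) (IF.comp IF.snd IF.fst)
        (hX.comp i1) (GoodR.ev (IF.comp hf i1) IF.snd)
    have hY2 : Good c (fun y : X × Pl M W => (s y.1).1.1) (fun y G => ∃ w,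
        Wit c K F T (s y.1).1 y.2 G (zx (ev ((s y.1).1.1.nm (ν y.1)) G)) w) := by
      refine (Good.ex (Q := fun (y : X × Pl M W) (n : Nm M W) G =>
        Wit c K F T (s y.1).1 y.2 G (zx (ev ((s y.1).1.1.nm (ν y.1)) G)) (ev n G)) hY).congr
        fun y G _ => ⟨?_, fun h => ⟨_, h.choose_spec⟩⟩
      rintro ⟨w, hw⟩
      obtain ⟨n, -, hn⟩ := hw.wE
      exact ⟨n, by rw [hn]; exact hw⟩
    refine Good.ex (Q := fun t E G => E ∈ (s t).2 ∧ ∃ w,
      Wit c K F T (s t).1 E G (zx (ev ((s t).1.1.nm (ν t)) G)) w) ?_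
    exact (Good.of_in (In.mem IF.snd (IF.comp hs2 IF.fst))).and hY2
  refine (Good.imp hf h0 (h1.or (h2.or h3))).congr fun t G _ => ?_
  constructor
  · intro h h'
    exact h _ _ (Sol_T3_iff.2 ⟨h', rfl, rfl⟩)
  · intro h x z h'
    obtain ⟨e0, e1, e2⟩ := Sol_T3_iff.1 h'
    subst e1 e2
    exact h e0

/-- `Wit` depends only on `G ∩ PP c S.1` -/
theorem Wit_inter (hS : SV c S) {E : Pl M W} (hE : Mem S E) {G : Set (Cond W)} {x w : ℕ → ℕ} :
    Wit c K F T S E (G ∩ PP c S.1) x w ↔ Wit c K F T S E G x w := by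
  have hi : ∀ D, Mem S D → (G ∩ PP c S.1) ∩ PP c D = G ∩ PP c D := by
    intro D hD
    rw [Set.inter_assoc, Set.inter_eq_right.2 (PP_mono (hS.sub D hD).2)]
  have hR : ∀ D, Mem S D → RR c D (G ∩ PP c S.1) = RR c D G := by
    intro D hD
    rw [← RR_inter (G := G ∩ PP c S.1), hi D hD, RR_inter]
  have hKb : ∀ y, Kb c K F T (res S E) (G ∩ PP c S.1) x y ↔ Kb c K F T (res S E) G x y := by
    intro y
    have hv : Valid c (res S E).1 := (hS.sub E hE).1
    rw [← Kb_inter hv, ← Kb_inter (G := G) hv]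
    show Kb c K F T (res S E) ((G ∩ PP c S.1) ∩ PP c E) x y ↔
      Kb c K F T (res S E) (G ∩ PP c E) x y
    rw [hi E hE]
  constructor
  · intro h
    refine ⟨?_, ?_, ?_, ?_, ?_⟩
    · rw [← hR E hE]; exact h.xE
    · rw [← hR E hE]; exact h.wE
    · intro D h1 h2 h3 h4
      rw [← hR D h1]
      exact h.min D h1 h2 h3 h4
    · obtain ⟨C, h1, h2, h3, h4⟩ := h.out
      refine ⟨C, h1, h2, ?_, ?_⟩
      · rw [← hR C h1]; exact h3
      · rw [← hR C h1]; exact h4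
    · rw [← hKb]; exact h.unk
  · intro h
    refine ⟨?_, ?_, ?_, ?_, ?_⟩
    · rw [hR E hE]; exact h.xE
    · rw [hR E hE]; exact h.wE
    · intro D h1 h2 h3 h4
      rw [hR D h1]
      exact h.min D h1 h2 h3 h4
    · obtain ⟨C, h1, h2, h3, h4⟩ := h.out
      refine ⟨C, h1, h2, ?_, ?_⟩
      · rw [hR C h1]; exact h3
      · rw [hR C h1]; exact h4
    · rw [hKb]; exact h.unk

/-- Persistence of witnesses: members of `S'` below the member `E` of `S` are members of `S` (`SLe.mem_iff`, `Sb.trans`), `res S' E = res S E`. -/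
theorem Wit.up (hS' : SV c S') (h : SLe S S') {E : Pl M W} (hE : Mem S E) {G : Set (Cond W)}
    {x w : ℕ → ℕ} (hw : Wit c K F T S E G x w) : Wit c K F T S' E G x w := by
  refine ⟨hw.xE, hw.wE, ?_, ?_, ?_⟩
  · intro D h1 h2 h3 h4
    exact hw.min D (h.mem_iff.2 ⟨h1, h3.trans (h.mem_iff.1 hE).2⟩) h2 h3 h4
  · obtain ⟨C, h1, h2⟩ := hw.out
    exact ⟨C, h.mem h1, h2⟩
  · rw [h.res_eq hE]
    exact hw.unk

/-- Persistence of solutions: `PT_up`, `hK.out.up`, `Wit.up`, and the values of the old node do not change. `G ∩ PP c s.1.1` is generic for `s.1.1`. The pair of the node `ν` lies over `s.1.1` (`node_RR`). -/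
theorem SolN.up [Countable M] {s t : MS M W} (hI0 : I0 c T) (hs : MV c F T s) (h : MLe c F T t s)
    {ν : W} (hν : ν ∈ s.1.1.dom) {G : Set (Cond W)} (hG : Gen c t.1.1 G)
    (hsol : SolN c K F T s ν (G ∩ PP c s.1.1)) : SolN c K F T t ν G := by
  rcases h with rfl | ⟨ht, -, hle, hmk⟩
  · rwa [Gen_inter_self hG] at hsol
  intro x z he
  have hsv : SV c s.1 := hs.1.sv
  have hsb : Sb s.1.1 t.1.1 := hle.sb ht.1.sv.toHS
  have hnm : t.1.1.nm ν = s.1.1.nm ν := hsb.nm_eq hν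
  have hIs : IsNm c s.1.1 (s.1.1.nm ν) := hsv.val.nm ν hν
  rw [hnm] at he
  have he' : ev (s.1.1.nm ν) (G ∩ PP c s.1.1) = T3 x z 0 := by rw [ev_inter hIs, he]
  obtain ⟨hx, hz⟩ := node_RR ht.1.sv.val hsv.val hsb hG hIs he
  rcases hsol x z he' with ⟨z', h1⟩ | h1 | ⟨E, hE, w, h1⟩
  · exact Or.inl ⟨z', PT_up hle ((PT_inter hI0 hsv.toHS).1 h1)⟩
  · rw [RR_inter] at h1
    exact Or.inr (Or.inl (hK.out.up _ _ hsv.val ht.1.sv.val hsb G hG x hx z hz h1))
  · have hEm : Mem s.1 E := (hs.2 E hE).mem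
    exact Or.inr (Or.inr ⟨E, hmk E hE, w, ((Wit_inter hsv hEm).1 h1).up ht.1.sv hle hEm⟩)

/-- A witness for `x` at a mark is not coded: a node `μ` outside the base has a support `D` with `¬ Sb E D` (`MK.sup`); if it codes `(x, w)` both reals lie over `D` (`node_RR`). If `Sb D F.1` then `w` lies over
`F.1`, hence over `C` (`Wit.out`), contradiction. Otherwise `Sb F.1 D` (`Cmp`) and both lie over `plI D E` (`RR_plI`), a member above the base (`HS.cap`, `sb_plI`; `Sb F.1 E` since `Sb F.1 C'`.. : `E` is comparable and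
`¬ Sb E F.1`), below `E` and different from `E`; contradiction to `min`. A node of the base: `w` would lie over the base. -/
theorem Wit.not_el [Countable M] (hS : KK c F T S) {E : Pl M W} (hE : MK c F S E)
    {G : Set (Cond W)} (hG : Gen c S.1 G) {x w : ℕ → ℕ} (hw : Wit c K F T S E G x w) :
    ¬ Elc S.1 G x w := by
  rintro ⟨μ, hμ, he⟩
  have hFm : Mem S F.1 := hS.le.1
  have hF := hS.sv.sub F.1 hFm
  obtain ⟨C, hC, hFC, -, hwC⟩ := hw.out
  -- the real `w` does not lie over the base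
  have hwF : w ∉ RR c F.1 G := fun h => hwC (RR_mono hF.1 hFC h)
  by_cases hμF : μ ∈ F.1.dom
  · have hnm : S.1.nm μ = F.1.nm μ := hF.2.nm_eq hμF
    rw [hnm] at he
    exact hwF (node_RR hS.sv.val hF.1 hF.2 hG (hF.1.nm μ hμF) he).2
  · obtain ⟨D, hD, -, hIs, hED⟩ := hE.sup μ hμ hμF
    have hDv := hS.sv.sub D hD
    obtain ⟨hx, hwD⟩ := node_RR hS.sv.val hDv.1 hDv.2 hG hIs he
    rcases hS.cmp D hD with h1 | h1
    · exact hwF (RR_mono hDv.1 h1 hwD)
    · have hEv := hS.sv.sub E hE.mem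
      have hFE : Sb F.1 E := (hS.cmp E hE.mem).resolve_left hE.nb
      have hne : plI D E ≠ E := by
        intro h2
        rw [plI_comm] at h2
        exact hED ((plI_eq_left_iff hEv.2 hDv.2).1 h2)
      refine hw.min (plI D E) (hS.sv.cap D E hD hE.mem) (sb_plI h1 hFE)
        (plI_sb_right hDv.2 hEv.2) hne ⟨?_, ?_⟩
      · exact (RR_plI hDv.1 hEv.1 hS.sv.val hDv.2 hEv.2 hG).2 ⟨hx, hw.xE⟩
      · exact (RR_plI hDv.1 hEv.1 hS.sv.val hDv.2 hEv.2 hG).2 ⟨hwD, hw.wE⟩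

end Pool.Agent.H.MP_20495c_lc
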