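import Pool.Agent.H.MP_20495c_lc.B.Bc

/-!
# Part B, module StS: the states form a countably closed system; the first state
-/

set_option autoImplicit false
set_option linter.unusedSectionVars false

namespace Pool.Agent.H.MP_20495c_lc

open Pool.Agent.H.MP_07d118_lc Pool.Agent.H.MP_a163f2_lc

universe u v w x

variable {M : Type u} [SetStr M] [ZFC M] [Std M] {W : Type v} [LinearOrder W] [Cd M W] [Om1 M W]
variable {c : W × Hc → ℕ → ℕ} [hL : Fact (Luz M W c)]
variable {K : Set (ℕ → ℕ) → (ℕ → ℕ) → (ℕ → ℕ) → Prop} {r : Nm M W → Nm M W → Prop}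
variable {S S' F F₁ : Stc M W} {T T₁ : Tt M W} [hK : Fact (KOK M W c K)] [hr : Fact (WOr M r)]

/-- the union of the protections of a set of states -/
noncomputable def unT (C : ISet M (Stc M W × Tt M W)) : Tt M W :=
  ISet.mk (P := fun q : Qd M W => ∃ s : Stc M W × Tt M W, s ∈ C ∧ q ∈ s.2)
    (In.ex (P := fun (q : Qd M W) (s : Stc M W × Tt M W) => s ∈ C ∧ q ∈ s.2)
      ((In.mem IF.snd (IF.const C)).and (In.mem IF.fst (IF.comp IF.snd IF.snd))))

theorem mem_unT {C : ISet M (Stc M W × Tt M W)} {q : Qd M W} :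
    q ∈ unT C ↔ ∃ s : Stc M W × Tt M W, s ∈ C ∧ q ∈ s.2 := Iff.rfl

/-- A chain of states with a common upper structure. -/
structure Lim (c : W × Hc → ℕ → ℕ) (K : Set (ℕ → ℕ) → (ℕ → ℕ) → (ℕ → ℕ) → Prop)
    (r : Nm M W → Nm M W → Prop) (C : ISet M (Stc M W × Tt M W)) (S' : Stc M W) : Prop where
  ne : ∃ s, s ∈ C
  st : ∀ s, s ∈ C → State c K r s
  ch : ∀ s t, s ∈ C → t ∈ C → StLe c K r s t ∨ StLe c K r t s
  kk : ∀ s, s ∈ C → KK c s.1 s.2 S'
  nd : ∀ ν ∈ S'.1.dom, (∃ s, s ∈ C ∧ ν ∈ s.1.1.dom) ∨ S'.1.nm ν = dfn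

theorem StS_T {a b : Stc M W × Tt M W} (h : StLe c K r a b) : ∀ q, q ∈ b.2 → q ∈ a.2 := by
  rcases h with h | h
  · rw [h]
    exact fun q hq => hq
  · exact h.2.2.2

theorem StS_kk {a b : Stc M W × Tt M W} (h : StLe c K r a b) (hb : State c K r b) :
    KK c b.1 b.2 a.1 := by
  rcases h with h | h
  · rw [h]
    exact KK_self hb.inv.base
  · exact h.2.2.1

theorem StS_PT {C : ISet M (Stc M W × Tt M W)} {G : Set (Cond W)} {x z : ℕ → ℕ}
    (h : PT (unT C) S G x z) : ∃ s, s ∈ C ∧ PT s.2 S G x z := by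
  obtain ⟨D, hD, p, hp, a, b, hy, h1, h2⟩ := h
  obtain ⟨s, hs, hy⟩ := mem_unT.1 hy
  exact ⟨s, hs, D, hD, p, hp, a, b, hy, h1, h2⟩

/-- `SV_chain` with `X = Stc M W × Tt M W`, `P = (· ∈ C)`, `Fm = Prod.fst` gives `S'` (top node with the default name). `kk` for `s ∈ C`: `KK_of_top` with `S₀` the union; `Mem S₀ s.1.1`, `res S₀ s.1.1 = s.1` (`mem_stUn`, `stUn_res`, `res_self`);
`Cmp`: a member `D` of `u.1`, `u ∈ C`: if `u` is above `s`, `KK c s.1 s.2 u.1` gives it (or `u = s`), if `s` is above `u` then `Sb D u.1.1`, `Sb u.1.1 s.1.1`. `hold`: a node outside `s.1.1` is in `u.1.1` for some `u` above `s`, `S₁ = u.1`. `hnew`: `dfn_ne`. -/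
theorem exists_Lim [Countable M] (C : ISet M (Stc M W × Tt M W)) (hct : ICt M C.1)
    (hne : ∃ s, s ∈ C) (hst : ∀ s, s ∈ C → State c K r s)
    (hch : ∀ s t, s ∈ C → t ∈ C → StLe c K r s t ∨ StLe c K r t s) :
    ∃ S', Lim c K r C S' := by
  have hchS : ∀ i j : Stc M W × Tt M W, i ∈ C → j ∈ C → SLe i.1 j.1 ∨ SLe j.1 i.1 := by
    intro i j hi hj
    rcases hch i j hi hj with h | h
    · exact Or.inr (StLe_sle h (hst j hj))
    · exact Or.inl (StLe_sle h (hst i hi))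
  have hv : ∀ s : Stc M W × Tt M W, s ∈ C → SV c s.1 := fun s hs => (hst s hs).inv.base
  obtain ⟨ν, S', ht, hle⟩ := SV_chain (c := c) (P := fun s : Stc M W × Tt M W => s ∈ C)
    (Fm := fun s => s.1) C.in_mem IF.fst hchS hne hct hv
  refine ⟨S', hne, hst, hch, ?_, ?_⟩
  · intro s hs
    refine KK_of_top (hst s hs).inv.i0 (hst s hs).inv.i2 ht (mem_stUn.2 ⟨s, hs, (hv s hs).top⟩)
      ((stUn_res (P := fun s : Stc M W × Tt M W => s ∈ C) (Fm := fun s => s.1)
        hchS hv hs (hv s hs).top).trans (res_self (hv s hs))) ?_ ?_ ?_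
    · intro D hD
      obtain ⟨u, hu, hDu⟩ := mem_stUn.1 hD
      rcases hch u s hu hs with h | h
      · exact (StS_kk h (hst s hs)).cmp D hDu
      · have h1 : SLe u.1 s.1 := StLe_sle h (hst u hu)
        exact Or.inl (((hv u hu).sub D hDu).2.trans (h1.sb (hv s hs).toHS))
    · intro μ hμ hμs
      obtain ⟨u, hu, hμu⟩ := stUn_dom.1 hμ
      rcases hch u s hu hs with h | h
      · exact ⟨u.1, StS_kk h (hst s hs), hle u hu, hμu⟩
      · have h1 : SLe u.1 s.1 := StLe_sle h (hst u hu)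
        exact absurd ((h1.sb (hv s hs).toHS).dom hμu) hμs
    · intro G hG x z he
      exact absurd he (dfn_ne hG x z)
  · intro μ hμ
    rcases (ht.dom μ).1 hμ with h | h
    · refine Or.inr ?_
      rw [h]
      exact ht.nm
    · obtain ⟨u, hu, hμu⟩ := stUn_dom.1 h
      exact Or.inl ⟨u, hu, hμu⟩

/-- The classes get smaller: `KK.anti`, `KK_base`. -/
theorem Lim.kk_le [Countable M] {C : ISet M (Stc M W × Tt M W)} (h : Lim c K r C S') {T' : Tt M W}
    (hT' : ∀ q, q ∈ unT C → q ∈ T') (hS : KK c S' T' S) {s : Stc M W × Tt M W} (hs : s ∈ C) :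
    KK c s.1 s.2 S := by
  have h1 : KK c S' s.2 S := KK.anti (fun q hq => hT' q (mem_unT.2 ⟨s, hs, hq⟩)) hS
  exact KK_base (h.st s hs).inv.i0 (h.st s hs).inv.i2 (h.kk s hs) h1

/-- `I2`: for an entry of `s.2`, `s ∈ C`: `SLe s.1 S` (`KK.le` of `h.kk s`), `Cmp s.1 S` (`Cmp_base`). `I3`: both entries are in the bigger one of two `s.2`, then `Lim.kk_le`. `I4`: `Lim.kk_le` also for the kick. -/
theorem Lim.inv [Countable M] {C : ISet M (Stc M W × Tt M W)} (h : Lim c K r C S') :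
    INV c K S' (unT C) := by
  have hU : ∀ q, q ∈ unT C → q ∈ unT C := fun q hq => hq
  have hkk : ∀ {S₁ : Stc M W}, KK c S' (unT C) S₁ → ∀ {s : Stc M W × Tt M W}, s ∈ C →
      KK c s.1 s.2 S₁ := fun h1 s hs => h.kk_le hU h1 hs
  obtain ⟨s₀, hs₀⟩ := h.ne
  refine ⟨(h.kk s₀ hs₀).sv, ?_, ?_, ?_, ?_, ?_, ?_⟩
  · intro y hy
    obtain ⟨s, hs, hy⟩ := mem_unT.1 hy
    exact (h.st s hs).inv.i0 y hy
  · intro π hπ hf S p a b hy
    obtain ⟨s, hs, hy⟩ := mem_unT.1 hy
    have hsb : Sb s.1.1 S'.1 := (h.kk s hs).le.sb (h.kk s hs).sv.toHS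
    exact mem_unT.2 ⟨s, hs, (h.st s hs).inv.i1 π hπ (fun ν hν => hf ν (hsb.dom hν)) S p a b hy⟩
  · intro S hS hle hC D hD p a b hy D' hD' hFD' G hG hp hx
    obtain ⟨s, hs, hy⟩ := mem_unT.1 hy
    have hsb : Sb s.1.1 S'.1 := (h.kk s hs).le.sb (h.kk s hs).sv.toHS
    exact (h.st s hs).inv.i2 S hS ((h.kk s hs).le.trans hle)
      (Cmp_base hS hle hC (h.kk s hs)) D hD p a b hy D' hD' (hsb.trans hFD') G hG hp hx
  · intro S hS G hG x z z' h1 h2
    obtain ⟨s, hs, h1⟩ := StS_PT h1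
    obtain ⟨t, ht, h2⟩ := StS_PT h2
    rcases h.ch s t hs ht with h3 | h3
    · exact (h.st s hs).inv.i3 S (hkk hS hs) G hG x z z' h1 (PT_mono (StS_T h3) h2)
    · exact (h.st t ht).inv.i3 S (hkk hS ht) G hG x z z' (PT_mono (StS_T h3) h1) h2
  · intro S hS G hG x z h1 h2
    obtain ⟨s, hs, h1⟩ := StS_PT h1
    refine (h.st s hs).inv.i4 S (hkk hS hs) G hG x z h1 ?_
    obtain ⟨S₁, h3, h4⟩ := h2
    exact ⟨S₁, hkk h3 hs, h4⟩
  · intro S hS G hG x z h1 h2
    obtain ⟨s, hs, h1⟩ := StS_PT h1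
    exact (h.st s hs).inv.i5 S (hkk hS hs) G hG x z h1 h2

/-- `exists_fix` for `Lim.inv`; `Clean`: a node of `S'` is a node of some `s.1`, `s ∈ C`: `Clean` at `s`, `PT_up`, `PT_mono`, `hK.out.up`, `PT_inter`; or its name is `dfn` (`dfn_ne`). -/
theorem Lim.state [Countable M] {C : ISet M (Stc M W × Tt M W)} (h : Lim c K r C S') :
    ∃ T', State c K r (S', T') ∧ ∀ s, s ∈ C → StLe c K r (S', T') s := by
  obtain ⟨T', hT', hinv, hfix⟩ := exists_fix (r := r) h.inv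
  have hcl : Clean c K S' T' := by
    intro ν hν G hG hp x z he
    rcases h.nd ν hν with ⟨s, hs, hνs⟩ | hd
    · have hle : SLe s.1 S' := (h.kk s hs).le
      have hsv : SV c S' := (h.kk s hs).sv
      have hss : SV c s.1 := (h.st s hs).inv.base
      have hsb : Sb s.1.1 S'.1 := hle.sb hsv.toHS
      have hG' := hG.restrict hss.val hsb
      have hn : IsNm c s.1.1 (s.1.1.nm ν) := hss.val.nm ν hνs
      rw [hsb.nm_eq hνs] at he
      have h1 := (h.st s hs).clean ν hνs _ hG' hG'.empty_mem x z (by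
        rw [ev_inter hn]
        exact he)
      rcases h1 with ⟨z', h1⟩ | h1
      · refine Or.inl ⟨z', PT_mono (fun q hq => hT' q (mem_unT.2 ⟨s, hs, hq⟩))
          (PT_up hle ((PT_inter (h.st s hs).inv.i0 hss.toHS).1 h1))⟩
      · refine Or.inr ?_
        rw [RR_inter] at h1
        obtain ⟨hx, hz⟩ := node_RR hsv.val hss.val hsb hG hn he
        exact hK.out.up s.1.1 S'.1 hss.val hsv.val hsb G hG x hx z hz h1
    · rw [hd] at he
      exact absurd he (dfn_ne hG x z)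
  have hst : State c K r (S', T') := ⟨hinv, hfix, hcl⟩
  exact ⟨T', hst, fun s hs => Or.inr ⟨hst, h.st s hs, h.kk s hs, fun q hq =>
    hT' q (mem_unT.2 ⟨s, hs, hq⟩)⟩⟩

/-- **The states form a countably closed system.** -/
theorem state_sys [Countable M] : Sys c (fun x : Stc M W × Tt M W => State c K r x)
    (fun y x => StLe c K r y x) (fun x => x.1.1) := by
  refine ⟨In_State (c := c) (K := K) hr.out.int IF.id,
    In_StLe (c := c) (K := K) hr.out.int IF.fst IF.snd, IF.comp IF.fst IF.fst, fun s => Or.inl rfl,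
    fun a b d h h' => StLe_trans h h', fun s hs => hs.inv.base.val, ?_, ?_⟩
  · rintro s t (h | h)
    · rw [h]
      exact Sb.refl _
    · exact h.2.2.1.le.sb h.2.2.1.sv.toHS
  · intro C hct hne hst hch
    obtain ⟨S', hS'⟩ := exists_Lim C hct hne hst hch
    obtain ⟨T', h1, h2⟩ := hS'.state
    exact ⟨(S', T'), h1, h2⟩

/-- The first state: `F = (f, {(α, f)}, {(f, n, n) | IsNm c f n})` with the empty plan `f`, `T = ∅`: `INV` is trivial, then `exists_fix`; `Clean` is trivial (no nodes). -/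
theorem exists_state [Countable M] : ∃ x : Stc M W × Tt M W, State c K r x := by
  obtain ⟨α⟩ := Om1.ne (M := M) (W := W)
  let f : Pl M W := ISet.mk (P := fun _ : W × Cond W × Fs => False) (In.const False)
  have hf : ∀ y : W × Cond W × Fs, y ∉ f := fun y hy => hy
  have hfd : ∀ ν : W, ν ∉ f.dom := by
    rintro ν ⟨q, t, h⟩
    exact hf _ h
  have hfv : Valid c f := ⟨⟨α, fun ν q t h => absurd h (hf _)⟩, fun ν hν => absurd hν (hfd ν)⟩
  let A : ISet M (W × Pl M W) := ISet.mk (P := fun y : W × Pl M W => y = (α, f))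
    (In.eq IF.id (IF.const _))
  let B : ISet M (Pl M W × Nm M W × Nm M W) :=
    ISet.mk (P := fun y : Pl M W × Nm M W × Nm M W =>
        y.1 = f ∧ y.2.1 = y.2.2 ∧ IsNm c f y.2.1)
      ((In.eq IF.fst (IF.const f)).and ((In.eq (IF.comp IF.fst IF.snd)
        (IF.comp IF.snd IF.snd)).and (In.isNm (IF.const f) (IF.comp IF.fst IF.snd))))
  have hA : ∀ β E, (β, E) ∈ A ↔ β = α ∧ E = f := by
    intro β E
    show (β, E) = (α, f) ↔ _
    rw [Prod.mk.injEq]
  have hB : ∀ E m m', (E, m, m') ∈ B ↔ E = f ∧ m = m' ∧ IsNm c f m := fun E m m' => Iff.rfl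
  have hmem : ∀ E, Mem ((f, A, B) : Stc M W) E ↔ E = f := by
    intro E
    constructor
    · rintro ⟨β, h⟩
      exact ((hA β E).1 h).2
    · intro h
      exact ⟨α, (hA α E).2 ⟨rfl, h⟩⟩
  have hsv : SV c ((f, A, B) : Stc M W) := by
    refine ⟨⟨hfv, ?_, ?_, ?_, ?_, ?_, ?_, ?_, ?_, ?_, ?_⟩, (hmem f).2 rfl⟩
    · intro E hE
      rw [(hmem E).1 hE]
      exact ⟨hfv, Sb.refl f⟩
    · intro β β' E h h'
      rw [((hA β E).1 h).1, ((hA β' E).1 h').1]
    · intro β β' E E' h h' _ hne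
      exact absurd (((hA β E).1 h).2.trans ((hA β' E').1 h').2.symm) hne
    · obtain ⟨β, hβ⟩ := Ct_bound M ({α} : Finset W)
      refine ⟨β, fun γ E h => ?_⟩
      rw [((hA γ E).1 h).1]
      exact hβ α (Finset.mem_singleton_self α)
    · intro E E' h h'
      rw [(hmem E).1 h, (hmem E').1 h', plI_self]
      exact (hmem f).2 rfl
    · intro ν hν
      exact absurd hν (hfd ν)
    · intro E hE n hn
      rw [(hmem E).1 hE] at hn ⊢
      exact ⟨n, (hB f n n).2 ⟨rfl, rfl, hn⟩⟩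
    · intro E n m m' h h'
      exact ((hB E n m).1 h).2.1.symm.trans ((hB E n m').1 h').2.1
    · intro E n n' m h h'
      exact ((hB E n m).1 h).2.1.trans ((hB E n' m).1 h').2.1.symm
    · intro E n m h
      obtain ⟨h1, h2, h3⟩ := (hB E n m).1 h
      rw [h1]
      exact ⟨(hmem f).2 rfl, h3⟩
  let T₀ : Tt M W := ISet.mk (P := fun _ : Qd M W => False) (In.const False)
  have hT₀ : ∀ q : Qd M W, q ∉ T₀ := fun q hq => hq
  have hPT : ∀ {S : Stc M W} {G : Set (Cond W)} {x z : ℕ → ℕ}, ¬ PT T₀ S G x z := by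
    rintro S G x z ⟨D, hD, p, hp, a, b, hy, h1, h2⟩
    exact hT₀ _ hy
  have hinv : INV c K ((f, A, B) : Stc M W) T₀ := by
    refine ⟨hsv, fun y hy => absurd hy (hT₀ y), ?_, ?_, ?_, ?_, ?_⟩
    · intro π hπ hf S p a b hy
      exact absurd hy (hT₀ _)
    · intro S hS hle hC D hD p a b hy
      exact absurd hy (hT₀ _)
    · intro S hS G hG x z z' h1
      exact absurd h1 hPT
    · intro S hS G hG x z h1
      exact absurd h1 hPT
    · intro S hS G hG x z h1
      exact absurd h1 hPT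
  obtain ⟨T', hT', hinv', hfix⟩ := exists_fix (r := r) hinv
  exact ⟨((f, A, B), T'), hinv', hfix, fun ν hν => absurd hν (hfd ν)⟩

end Pool.Agent.H.MP_20495c_lc
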