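import Pool.Agent.H.MP_20495c_lc.B.LemU
import Pool.Agent.H.MP_20495c_lc.B.Least

/-!
# Part B, module Step: one step of the recursion preserves the invariant
-/

set_option autoImplicit false
set_option linter.unusedSectionVars false

namespace Pool.Agent.H.MP_20495c_lc

open Pool.Agent.H.MP_07d118_lc Pool.Agent.H.MP_a163f2_lc

universe u v w x

variable {M : Type u} [SetStr M] [ZFC M] [Std M] {W : Type v} [LinearOrder W] [Cd M W] [Om1 M W]
variable {c : W × Hc → ℕ → ℕ} [hL : Fact (Luz M W c)]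
variable {K : Set (ℕ → ℕ) → (ℕ → ℕ) → (ℕ → ℕ) → Prop} {r : Nm M W → Nm M W → Prop}
variable {S F : Stc M W} {T T' : Tt M W} [hK : Fact (KOK M W c K)] [hr : Fact (WOr M r)]

variable (c K r F) in
/-- the new protections as an internal set -/
noncomputable def Gam [Countable M] (T : Tt M W) : Tt M W :=
  ISet.mk (P := fun y : Qd M W => GamP c K r F T y)
    (In_GamP hr.out.int (IF.const F) (IF.const T) IF.id)

theorem mem_Gam [Countable M] {y : Qd M W} : y ∈ Gam c K r F T ↔ GamP c K r F T y := Iff.rfl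

/-- union of two sets of quadruples -/
noncomputable def uT (T T' : Tt M W) : Tt M W :=
  ISet.mk (P := fun y : Qd M W => y ∈ T ∨ y ∈ T') (T.in_mem.or T'.in_mem)

theorem mem_uT {y : Qd M W} : y ∈ uT T T' ↔ y ∈ T ∨ y ∈ T' := Iff.rfl

theorem PT_uT {G : Set (Cond W)} {x z : ℕ → ℕ} :
    PT (uT T T') S G x z ↔ PT T S G x z ∨ PT T' S G x z := by
  constructor
  · rintro ⟨D, hD, p, hp, a, b, h | h, h1, h2⟩
    · exact Or.inl ⟨D, hD, p, hp, a, b, h, h1, h2⟩
    · exact Or.inr ⟨D, hD, p, hp, a, b, h, h1, h2⟩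
  · rintro (⟨D, hD, p, hp, a, b, h, h1, h2⟩ | ⟨D, hD, p, hp, a, b, h, h1, h2⟩)
    · exact ⟨D, hD, p, hp, a, b, Or.inl h, h1, h2⟩
    · exact ⟨D, hD, p, hp, a, b, Or.inr h, h1, h2⟩

/-- A new protection in `S` (with `SLe F S`) sits at a member `D` with `Sb F.1 D`, `res S D` is in the class, and at `G ∩ PP c D` the property `Th` holds. -/
theorem PT_Gam [Countable M] (hS : SV c S) {G : Set (Cond W)} (hG : Gen c S.1 G) {x z : ℕ → ℕ}
    (h : PT (Gam c K r F T) S G x z) : ∃ D, Mem S D ∧ Sb F.1 D ∧ KK c F T (res S D) ∧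
      ∃ a b, IsNm c D a ∧ IsNm c D b ∧ ev a G = x ∧ ev b G = z ∧
        Th c K r F T (res S D) (G ∩ PP c D) a b := by
  obtain ⟨D, hD, p, hp, a, b, hy, hx, hz⟩ := h
  have hg : GamP c K r F T (res S D, p, a, b) := mem_Gam.1 hy
  obtain ⟨vD, sD⟩ := hS.sub D hD
  have hk : KK c F T (res S D) := hg.kk
  have hpD : p ∈ PP c D := hg.cond
  exact ⟨D, hD, hk.le.sb hk.sv.toHS, hk, a, b, hg.nma, hg.nmb, hx, hz,
    hg.fo (G ∩ PP c D) (hG.restrict vD sD) ⟨hp, hpD⟩⟩

theorem Step_RR {E D : Pl M W} (h : Sb E D) {G : Set (Cond W)} :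
    RR c E (G ∩ PP c D) = RR c E G := by
  have h1 : (G ∩ PP c D) ∩ PP c E = G ∩ PP c E := by
    ext p
    constructor
    · rintro ⟨⟨h1, _⟩, h2⟩
      exact ⟨h1, h2⟩
    · rintro ⟨h1, h2⟩
      exact ⟨⟨h1, PP_mono h h2⟩, h2⟩
  rw [← RR_inter (D := E) (G := G ∩ PP c D), h1, RR_inter]

theorem Step_least [Countable M] (hS : SV c S) {G : Set (Cond W)} (hG : Gen c S.1 G)
    {D : Pl M W} (hD : Mem S D) (hFD : Sb F.1 D) {a : Nm M W} (ha : IsNm c D a)
    (hn : New c F (res S D) (G ∩ PP c D) (ev a (G ∩ PP c D))) {D' : Pl M W} (hD' : Mem S D')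
    (hFD' : Sb F.1 D') (hx : ev a G ∈ RR c D' G) : Sb D D' := by
  obtain ⟨vD, sD⟩ := hS.sub D hD
  obtain ⟨vD', sD'⟩ := hS.sub D' hD'
  by_contra hcon
  have hne : plI D D' ≠ D := fun e => hcon ((plI_eq_left_iff sD sD').1 e)
  have h1 : Mem (res S D) (plI D D') := Mem_res.2 ⟨hS.cap D D' hD hD', plI_sb_left sD sD'⟩
  refine hn (plI D D') h1 hne (sb_plI hFD hFD') ?_
  rw [Step_RR (plI_sb_left sD sD'), ev_inter ha]
  exact (RR_plI vD vD' hS.val sD sD' hG).2 ⟨⟨a, ha, rfl⟩, hx⟩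

theorem step_I0 [Countable M] (h : INV c K F T) : I0 c (uT T (Gam c K r F T)) := by
  rintro y (hy | hy)
  · exact h.i0 y hy
  · have hg := mem_Gam.1 hy
    exact ⟨hg.kk.sv, hg.cond, hg.nma, hg.nmb⟩

/-- `GamP_pm` and `h.i1`. -/
theorem step_I1 [Countable M] (h : INV c K F T) : I1 F (uT T (Gam c K r F T)) := by
  rintro π hπ hf S p a b (hy | hy)
  · exact Or.inl (h.i1 π hπ hf S p a b hy)
  · exact Or.inr (mem_Gam.2 (GamP_pm h.base h.i1 hf (mem_Gam.1 hy)))

/-- New entry at `D`: `ev a G` is new in `res S D` at `G ∩ PP c D` (`GamP.fo`, `p ∈ G ∩ PP c D`).  For `D'` with `Sb F.1 D'`, `ev a G ∈ RR c D' G`: it is in the reals of `plI D D'`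
(`RR_plI`, `a` is a name over `D`), a member of `res S D` containing the base; so `plI D D' = D`, `Sb D D'` (`plI_eq_left_iff`). -/
theorem step_I2 [Countable M] (h : INV c K F T) : I2 c F (uT T (Gam c K r F T)) := by
  intro S hS hFS hC D hD p a b hy D' hD' hFD' G hG hp hx
  rcases hy with hy | hy
  · exact h.i2 S hS hFS hC D hD p a b hy D' hD' hFD' G hG hp hx
  · have hg : GamP c K r F T (res S D, p, a, b) := mem_Gam.1 hy
    obtain ⟨vD, sD⟩ := hS.sub D hD
    have hk : KK c F T (res S D) := hg.kk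
    have hpD : p ∈ PP c D := hg.cond
    have hT : Th c K r F T (res S D) (G ∩ PP c D) a b :=
      hg.fo (G ∩ PP c D) (hG.restrict vD sD) ⟨hp, hpD⟩
    exact Step_least hS hG hD (hk.le.sb hk.sv.toHS) hg.nma hT.new hD' hFD' hx

/-- Two old protections: `h.i3` and `KK.anti`. Old and new: the new one at `D` (`PT_Gam`) excludes protections of `x` in `res S D` at `G ∩ PP c D`, but the old one is local (`LOC` with
`h.i2`, `PT_inter`). Two new ones, at `D` and `D'`: `step_I2` twice gives `D = D'` (`Sb.antisymm`); the two first candidates `n`, `n'` (`Th.cand`) have labels `m`, `m'` at `D` (`HS.lab`), not `r m m'`, not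
`r m' m`, so `m = m'` (`hr.out.tri`), `n = n'` (`HS.labi`). -/
theorem step_I3 [Countable M] (h : INV c K F T) : I3 c F (uT T (Gam c K r F T)) := by
  intro S hk G hG x z z' h1 h2
  have hk0 : KK c F T S := KK.anti (fun q hq => Or.inl hq) hk
  have mixed : ∀ z z', PT T S G x z → PT (Gam c K r F T) S G x z' → False := by
    intro z z' h1 h2
    obtain ⟨D, hD, hFD, hkD, a, b, ha, hb, hxa, hzb, hTh⟩ := PT_Gam hk.sv hG h2
    have hx : x ∈ RR c D G := ⟨a, ha, hxa⟩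
    have h3 := LOC h.i2 hk.sv hk.le hk.cmp hD hFD hG hx h1
    have h4 := (PT_inter h.i0 hkD.sv.toHS).2 h3
    have h5 := hTh.np z
    rw [ev_inter ha, hxa] at h5
    exact h5 h4
  rcases PT_uT.1 h1 with h1 | h1 <;> rcases PT_uT.1 h2 with h2 | h2
  · exact h.i3 S hk0 G hG x z z' h1 h2
  · exact (mixed z z' h1 h2).elim
  · exact (mixed z' z h2 h1).elim
  · obtain ⟨D, hD, hFD, hkD, a, b, ha, hb, hxa, hzb, hTh⟩ := PT_Gam hk.sv hG h1
    obtain ⟨D', hD', hFD', hkD', a', b', ha', hb', hxa', hzb', hTh'⟩ := PT_Gam hk.sv hG h2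
    have e : D = D' := by
      refine Sb.antisymm ?_ ?_
      · refine Step_least hk.sv hG hD hFD ha hTh.new hD' hFD' ?_
        rw [hxa]
        exact ⟨a', ha', hxa'⟩
      · refine Step_least hk.sv hG hD' hFD' ha' hTh'.new hD hFD ?_
        rw [hxa']
        exact ⟨a, ha, hxa⟩
    subst e
    obtain ⟨n, hn, hn1, hn2⟩ := hTh.cand
    obtain ⟨n', hn', hn1', hn2'⟩ := hTh'.cand
    rw [ev_inter ha, hxa] at hn hn2
    rw [ev_inter ha', hxa'] at hn' hn2'
    have hs := hkD.sv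
    have hm0 : Mem (res S D) D := hs.top
    obtain ⟨m, hm⟩ := hs.lab D hm0 n hn.1
    obtain ⟨m', hm'⟩ := hs.lab D hm0 n' hn'.1
    have c1 : ¬ r m' m := fun hr' => hn2 n' hn' ⟨m', m, hm', hm, hr'⟩
    have c2 : ¬ r m m' := fun hr' => hn2' n hn ⟨m, m', hm, hm', hr'⟩
    have e1 : m = m' := by
      rcases hr.out.tri m m' with h3 | h3 | h3
      · exact absurd h3 c2
      · exact h3
      · exact absurd h3 c1
    subst e1
    have e2 : n = n' := hs.labi D n n' m hm hm'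
    subst e2
    rw [ev_inter hb, hzb] at hn1
    rw [ev_inter hb', hzb'] at hn1'
    rw [← hn1, ← hn1']

/-- Old: `h.i4`, `KK.anti`, `Kb_anti`. New at `D`: not kickable at `res S D` (`Cand`; `ev n G = z`, `Kb_inter`), hence not kickable at `S`: a kick of `S` for the bigger set is a kick for `T` (`Kb_anti`), and `Kb_down`
to `res S D`. -/
theorem step_I4 [Countable M] (h : INV c K F T) : I4 c K F (uT T (Gam c K r F T)) := by
  intro S hk G hG x z h1 h2
  have hk0 : KK c F T S := KK.anti (fun q hq => Or.inl hq) hk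
  have h3 : Kb c K F T S G x z := Kb_anti (fun q hq => Or.inl hq) h2
  rcases PT_uT.1 h1 with h1 | h1
  · exact h.i4 S hk0 G hG x z h1 h3
  · obtain ⟨D, hD, hFD, hkD, a, b, ha, hb, hxa, hzb, hTh⟩ := PT_Gam hk.sv hG h1
    obtain ⟨n, hn, hn1, -⟩ := hTh.cand
    rw [ev_inter ha, hxa] at hn
    have h4 := hn.2.2
    rw [hn1, ev_inter hb, hzb] at h4
    apply h4
    have h5 : Kb c K F T (res S D) G x z :=
      Kb_down hk.sv (SLe_res hD) hG ⟨a, ha, hxa⟩ ⟨b, hb, hzb⟩ h3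
    exact (Kb_inter (hk.sv.sub D hD).1).2 h5

/-- Old: `h.i5`. New at `D`: nodes of `D`: `Cand` (`El_inter`, names of `D` and of `S.1` agree, `Sb.nm_eq`); nodes outside `D` are outside the base, `KK.ok` for the bigger set. -/
theorem step_I5 [Countable M] (h : INV c K F T) : I5 c F (uT T (Gam c K r F T)) := by
  intro S hk G hG x z h1 h2
  have hk0 : KK c F T S := KK.anti (fun q hq => Or.inl hq) hk
  have h1' := h1
  rcases PT_uT.1 h1 with h1 | h1
  · exact h.i5 S hk0 G hG x z h1 h2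
  · obtain ⟨D, hD, hFD, hkD, a, b, ha, hb, hxa, hzb, hTh⟩ := PT_Gam hk.sv hG h1
    obtain ⟨n, hn, hn1, -⟩ := hTh.cand
    rw [ev_inter ha, hxa] at hn
    have h4 := hn.2.1
    rw [hn1, ev_inter hb, hzb] at h4
    obtain ⟨ν, hν, hev⟩ := h2
    obtain ⟨vD, sD⟩ := hk.sv.sub D hD
    by_cases hνD : ν ∈ D.dom
    · apply h4
      refine (El_inter vD).2 ⟨ν, hνD, ?_⟩
      rw [← sD.nm_eq hνD]
      exact hev
    · have hνF : ν ∉ F.1.dom := fun h5 => hνD (hFD.dom h5)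
      exact hk.ok ν hν hνF G hG hG.empty_mem x z hev h1'

theorem step_INV [Countable M] (h : INV c K F T) : INV c K F (uT T (Gam c K r F T)) :=
  ⟨h.base, step_I0 h, step_I1 h, step_I2 h, step_I3 h, step_I4 h, step_I5 h⟩

/-- Unions of nonempty chains. A protection for the union is a protection for a member of the chain; `KK c F U S` implies `KK c F T S` for the members `T` (`KK.anti`), two protections are
protections for the bigger one of two members. -/
theorem INV_union [Countable M] (Ch : ISet M (Tt M W)) (hne : ∃ T, T ∈ Ch)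
    (hch : ∀ T ∈ Ch, ∀ T' ∈ Ch, (∀ q, q ∈ T → q ∈ T') ∨ ∀ q, q ∈ T' → q ∈ T)
    (hI : ∀ T ∈ Ch, INV c K F T) {U : Tt M W} (hU : ∀ q, q ∈ U ↔ ∃ T, T ∈ Ch ∧ q ∈ T) :
    INV c K F U := by
  have hPT : ∀ {S : Stc M W} {G : Set (Cond W)} {x z : ℕ → ℕ}, PT U S G x z →
      ∃ T, T ∈ Ch ∧ PT T S G x z := by
    rintro S G x z ⟨D, hD, p, hp, a, b, hy, h1, h2⟩
    obtain ⟨T, hT, hy⟩ := (hU _).1 hy
    exact ⟨T, hT, D, hD, p, hp, a, b, hy, h1, h2⟩
  have hle : ∀ T, T ∈ Ch → ∀ q, q ∈ T → q ∈ U := fun T hT q hq => (hU q).2 ⟨T, hT, hq⟩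
  obtain ⟨T0, hT0⟩ := hne
  refine ⟨(hI T0 hT0).base, ?_, ?_, ?_, ?_, ?_, ?_⟩
  · intro y hy
    obtain ⟨T, hT, hy⟩ := (hU y).1 hy
    exact (hI T hT).i0 y hy
  · intro π hπ hf S p a b hy
    obtain ⟨T, hT, hy⟩ := (hU _).1 hy
    exact (hU _).2 ⟨T, hT, (hI T hT).i1 π hπ hf S p a b hy⟩
  · intro S hS hFS hC D hD p a b hy D' hD' hFD' G hG hp hx
    obtain ⟨T, hT, hy⟩ := (hU _).1 hy
    exact (hI T hT).i2 S hS hFS hC D hD p a b hy D' hD' hFD' G hG hp hx
  · intro S hk G hG x z z' h1 h2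
    obtain ⟨T, hT, h1⟩ := hPT h1
    obtain ⟨T', hT', h2⟩ := hPT h2
    rcases hch T hT T' hT' with h3 | h3
    · exact (hI T' hT').i3 S (KK.anti (hle T' hT') hk) G hG x z z' (PT_mono h3 h1) h2
    · exact (hI T hT).i3 S (KK.anti (hle T hT) hk) G hG x z z' h1 (PT_mono h3 h2)
  · intro S hk G hG x z h1 h2
    obtain ⟨T, hT, h1⟩ := hPT h1
    exact (hI T hT).i4 S (KK.anti (hle T hT) hk) G hG x z h1 (Kb_anti (hle T hT) h2)
  · intro S hk G hG x z h1 h2
    obtain ⟨T, hT, h1⟩ := hPT h1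
    exact (hI T hT).i5 S (KK.anti (hle T hT) hk) G hG x z h1 h2

end Pool.Agent.H.MP_20495c_lc
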