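import Pool.Agent.H.MP_20495c_lc.B.Cap

/-!
# Part B, module Str: structures, restrictions, least members
-/

set_option autoImplicit false
set_option linter.unusedSectionVars false

namespace Pool.Agent.H.MP_20495c_lc

open Pool.Agent.H.MP_07d118_lc Pool.Agent.H.MP_a163f2_lc

universe u v w x

variable {M : Type u} [SetStr M] [ZFC M] [Std M] {W : Type v} [LinearOrder W] [Cd M W] [Om1 M W]
variable {c : W × Hc → ℕ → ℕ} [hL : Fact (Luz M W c)]
variable {S S' S'' F : Stc M W}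

theorem res_fst (S : Stc M W) (D : Pl M W) : (res S D).1 = D := rfl

theorem mem_res1 {D : Pl M W} {y : W × Pl M W} :
    y ∈ (res S D).2.1 ↔ y ∈ S.2.1 ∧ Sb y.2 D := Iff.rfl

theorem mem_res2 {D : Pl M W} {y : Pl M W × Nm M W × Nm M W} :
    y ∈ (res S D).2.2 ↔ y ∈ S.2.2 ∧ Sb y.1 D := Iff.rfl

theorem Mem_res {D E : Pl M W} : Mem (res S D) E ↔ Mem S E ∧ Sb E D := by
  constructor
  · rintro ⟨α, h⟩
    exact ⟨⟨α, (mem_res1.1 h).1⟩, (mem_res1.1 h).2⟩
  · rintro ⟨⟨α, h⟩, h'⟩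
    exact ⟨α, mem_res1.2 ⟨h, h'⟩⟩

/-- `ISet.ext`, `Prod.ext` -/
theorem res_res {D E : Pl M W} (h : Sb E D) : res (res S D) E = res S E := by
  refine Prod.ext rfl (Prod.ext (ISet.ext fun y => ?_) (ISet.ext fun y => ?_))
  · show y ∈ (res (res S D) E).2.1 ↔ y ∈ (res S E).2.1
    rw [mem_res1, mem_res1, mem_res1]
    exact ⟨fun h1 => ⟨h1.1.1, h1.2⟩, fun h1 => ⟨⟨h1.1, h1.2.trans h⟩, h1.2⟩⟩
  · show y ∈ (res (res S D) E).2.2 ↔ y ∈ (res S E).2.2
    rw [mem_res2, mem_res2, mem_res2]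
    exact ⟨fun h1 => ⟨h1.1.1, h1.2⟩, fun h1 => ⟨⟨h1.1, h1.2.trans h⟩, h1.2⟩⟩

/-- equality of structures, componentwise -/
theorem Stc_ext {A B : Stc M W} (h1 : A.1 = B.1) (h2 : ∀ α D, (α, D) ∈ A.2.1 ↔ (α, D) ∈ B.2.1)
    (h3 : ∀ D n m, (D, n, m) ∈ A.2.2 ↔ (D, n, m) ∈ B.2.2) : A = B := by
  refine Prod.ext h1 (Prod.ext (ISet.ext fun y => ?_) (ISet.ext fun y => ?_))
  · exact h2 y.1 y.2
  · exact h3 y.1 y.2.1 y.2.2

/-- all members are subplans of the top -/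
theorem res_self (h : SV c S) : res S S.1 = S := by
  refine Stc_ext rfl (fun α D => ?_) fun D n m => ?_
  · rw [mem_res1]
    exact ⟨fun h1 => h1.1, fun h1 => ⟨h1, (h.sub D ⟨α, h1⟩).2⟩⟩
  · rw [mem_res2]
    exact ⟨fun h1 => h1.1, fun h1 => ⟨h1, (h.sub D (h.labs D n m h1).1).2⟩⟩

/-- `val` from `sub`. `sub`: members `E` of `res S D` have `Sb E D`. `fn`, `rk`, `rbd`, `lab1`, `labi` are inherited. `cap`: `plI_sb_left`
and `Sb.trans`. `sup`: a node `ν` of `D` is a node of `S.1` (`Sb.dom`) with the same name (`Sb.nm_eq`); take the support `D₀` given by `S`; `plI D₀ D` is a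
member (`cap`), a subplan of `D`, `ν` is not in its domain (`plI_dom`) and the name is over it (`IsNm_plI`; the name is over `D` by validity of `D`). -/
theorem SV_res (h : HS c S) {D : Pl M W} (hD : Mem S D) : SV c (res S D) where
  val := (h.sub D hD).1
  sub := fun E hE => ⟨(h.sub E (Mem_res.1 hE).1).1, (Mem_res.1 hE).2⟩
  fn := fun α α' E h1 h2 => h.fn α α' E (mem_res1.1 h1).1 (mem_res1.1 h2).1
  rk := fun α α' E E' h1 h2 => h.rk α α' E E' (mem_res1.1 h1).1 (mem_res1.1 h2).1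
  rbd := by
    obtain ⟨β, hβ⟩ := h.rbd
    exact ⟨β, fun α E h1 => hβ α E (mem_res1.1 h1).1⟩
  cap := by
    intro E E' h1 h2
    rw [Mem_res] at h1 h2 ⊢
    exact ⟨h.cap E E' h1.1 h2.1,
      (plI_sb_left (h.sub E h1.1).2 (h.sub E' h2.1).2).trans h1.2⟩
  sup := by
    intro ν hν
    have h1 : Sb D S.1 := (h.sub D hD).2
    have hν' : ν ∈ D.dom := hν
    obtain ⟨D₀, h2, h3, h4⟩ := h.sup ν (h1.dom hν')
    refine ⟨plI D₀ D, Mem_res.2 ⟨h.cap D₀ D h2 hD, plI_sb_right (h.sub D₀ h2).2 h1⟩,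
      fun h5 => h3 ((plI_dom (h.sub D₀ h2).2 h1).1 h5).1, ?_⟩
    have h6 : S.1.nm ν = D.nm ν := h1.nm_eq hν'
    rw [h6] at h4
    exact IsNm_plI (h.sub D₀ h2).1 (h.sub D hD).1 (h.sub D₀ h2).2 h1 h4
      ((h.sub D hD).1.nm ν hν')
  lab := by
    intro E hE n hn
    rw [Mem_res] at hE
    obtain ⟨m, hm⟩ := h.lab E hE.1 n hn
    exact ⟨m, mem_res2.2 ⟨hm, hE.2⟩⟩
  lab1 := fun E n m m' h1 h2 => h.lab1 E n m m' (mem_res2.1 h1).1 (mem_res2.1 h2).1
  labi := fun E n n' m h1 h2 => h.labi E n n' m (mem_res2.1 h1).1 (mem_res2.1 h2).1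
  labs := fun E n m h1 => ⟨Mem_res.2 ⟨(h.labs E n m (mem_res2.1 h1).1).1, (mem_res2.1 h1).2⟩,
    (h.labs E n m (mem_res2.1 h1).1).2⟩
  top := Mem_res.2 ⟨hD, Sb.refl D⟩

theorem SLe_res {D : Pl M W} (hD : Mem S D) : SLe (res S D) S := ⟨hD, rfl⟩

theorem SLe.refl (h : SV c S) : SLe S S := ⟨h.top, res_self h⟩

/-- `S.1` is a member of `S'` and of `S'' ` (as `S' = res S'' S'.1`), `Sb S.1 S'.1`, `res_res`. -/
theorem SLe.trans (h : SLe S S') (h' : SLe S' S'') : SLe S S'' := by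
  have h1 : Mem (res S'' S'.1) S.1 := by
    rw [h'.2]
    exact h.1
  rw [Mem_res] at h1
  refine ⟨h1.1, ?_⟩
  rw [← res_res h1.2, h'.2, h.2]

theorem SLe.antisymm (h : SLe S S') (h' : SLe S' S) : S = S' := by
  have h1 : Sb S.1 S'.1 := by
    have h2 : Mem (res S S'.1) S.1 := by
      rw [h'.2]
      exact h.1
    exact (Mem_res.1 h2).2
  have h1' : Sb S'.1 S.1 := by
    have h2 : Mem (res S' S.1) S'.1 := by
      rw [h.2]
      exact h'.1
    exact (Mem_res.1 h2).2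
  refine Stc_ext (h1.antisymm h1') (fun α D => ⟨fun h2 => ?_, fun h2 => ?_⟩)
    fun D n m => ⟨fun h2 => ?_, fun h2 => ?_⟩
  · rw [← h.2] at h2
    exact (mem_res1.1 h2).1
  · rw [← h'.2] at h2
    exact (mem_res1.1 h2).1
  · rw [← h.2] at h2
    exact (mem_res2.1 h2).1
  · rw [← h'.2] at h2
    exact (mem_res2.1 h2).1

theorem SLe.sv (h : SLe S S') (h' : HS c S') : SV c S := by
  have h1 := SV_res h' h.1
  rwa [h.2] at h1

theorem SLe.sb (h : SLe S S') (h' : HS c S') : Sb S.1 S'.1 := (h'.sub _ h.1).2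

theorem SLe.mem (h : SLe S S') {D : Pl M W} (hD : Mem S D) : Mem S' D := by
  rw [← h.2] at hD
  exact (Mem_res.1 hD).1

/-- members of the smaller structure -/
theorem SLe.mem_iff (h : SLe S S') {D : Pl M W} : Mem S D ↔ Mem S' D ∧ Sb D S.1 := by
  have h1 := Mem_res (S := S') (D := S.1) (E := D)
  rwa [h.2] at h1

theorem SLe.res_eq (h : SLe S S') {D : Pl M W} (hD : Mem S D) : res S' D = res S D := by
  have h1 := res_res (S := S') (h.mem_iff.1 hD).2
  rw [h.2] at h1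
  exact h1.symm

/-- labels at the top of the smaller structure are the labels in the bigger one -/
theorem SLe.lab_iff (h : SLe S S') {D : Pl M W} (hD : Mem S D) {n m : Nm M W} :
    (D, n, m) ∈ S.2.2 ↔ (D, n, m) ∈ S'.2.2 := by
  have h1 := mem_res2 (S := S') (D := S.1) (y := (D, n, m))
  rw [h.2] at h1
  rw [h1]
  exact ⟨fun h2 => h2.1, fun h2 => ⟨h2, (h.mem_iff.1 hD).2⟩⟩

/-- two structures below the same structure with the same plan are equal -/
theorem SLe.eq_of_fst (h : SLe S S'') (h' : SLe S' S'') (e : S.1 = S'.1) : S = S' :=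
  h.2.symm.trans ((congrArg (res S'') e).trans h'.2)

/-- if `S`, `S'` are below `S''` and `Sb S.1 S'.1` then `SLe S S'` -/
theorem SLe.of_sb (h : SLe S S'') (h' : SLe S' S'') (e : Sb S.1 S'.1) : SLe S S' := by
  have h1 : Mem S' S.1 := h'.mem_iff.2 ⟨h.1, e⟩
  exact ⟨h1, (h'.res_eq h1).symm.trans h.2⟩

/-- Comparability passes to substructures that contain the base. -/
theorem Cmp.res {D : Pl M W} (h : Cmp F S) : Cmp F (res S D) :=
  fun E hE => h E (Mem_res.1 hE).1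

theorem SLe_res_of (h : SLe F S) {D : Pl M W} (hFD : Sb F.1 D) : SLe F (res S D) :=
  ⟨Mem_res.2 ⟨h.1, hFD⟩, (res_res hFD).trans h.2⟩

theorem Gen_inter_self {f : Pl M W} {G : Set (Cond W)} (hG : Gen c f G) : G ∩ PP c f = G :=
  Set.inter_eq_left.2 hG.sub

end Pool.Agent.H.MP_20495c_lc
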