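import Pool.Agent.H.MP_20495c_lc.B.Int1
import Pool.Agent.H.MP_20495c_lc.El

/-!
# Part B, module TSb: the predicate for the uniformization on the level `n + 1`
-/

set_option autoImplicit false
set_option linter.unusedSectionVars false

namespace Pool.Agent.H.MP_20495c_lc

open Pool.Agent.H.MP_07d118_lc Pool.Agent.H.MP_a163f2_lc

universe u v w x

section good

variable {M : Type u} [SetStr M] [ZFC M] [Std M] {W : Type v} [LinearOrder W] [Cd M W] [Om1 M W]
variable {c : W × Hc → ℕ → ℕ} [hL : Fact (Luz M W c)]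

/-- projective statements over the reals of the extension by a plan are good -/
theorem Good_TS (n : ℕ) : ∀ {T : Type v} [Cd M T] {f : T → Pl M W}, IF M f →
    ∀ {B X : T → Set (Cond W) → ℕ → ℕ}, GoodR c f B → GoodR c f X →
      Good c f (fun t G => TS (RR c (f t) G) n (B t G) (X t G)) := by
  induction n with
  | zero =>
    intro T _ f hf B X hB hX
    have hf' : IF M (fun y : T × ℕ => f y.1) := IF.comp hf IF.fst
    refine Good.ex (Q := fun (t : T) (k : ℕ) G => B t G (MP_a163f2_lc.cd (X t G) k) ≠ 0) ?_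
    refine Good.not hf' (Good.eq (GoodR.app (GoodR.comp hB IF.fst)
      (GoodF.cd hf' (GoodR.comp hX IF.fst) (GoodF.of_if IF.snd))) (GoodF.of_if (IF.const 0)))
  | succ n ih =>
    intro T _ f hf B X hB hX
    have hf' : IF M (fun y : T × Nm M W => f y.1) := IF.comp hf IF.fst
    refine Good.exRR hf (Q := fun (t : T) y G => ¬ TS (RR c (f t) G) n (B t G)
      (MP_a163f2_lc.jn (X t G) y)) ?_
    refine Good.not hf' (ih (T := T × Nm M W) hf' (GoodR.comp hB IF.fst) ?_)
    exact GoodR.jn (GoodR.comp hX IF.fst) (GoodR.ev hf' IF.snd)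

theorem GoodR_lf {T : Type v} [Cd M T] {f : T → Pl M W} {X : T → Set (Cond W) → ℕ → ℕ}
    (hX : GoodR c f X) : GoodR c f (fun t G => lf (X t G)) :=
  GoodF_appI hX (IF.prim (Primrec.nat_mul.comp (Primrec.const 2) Primrec.id))

theorem GoodR_rg {T : Type v} [Cd M T] {f : T → Pl M W} {X : T → Set (Cond W) → ℕ → ℕ}
    (hX : GoodR c f X) : GoodR c f (fun t G => rg (X t G)) :=
  GoodF_appI hX (IF.prim (Primrec.succ.comp (Primrec.nat_mul.comp (Primrec.const 2) Primrec.id)))

end good

/-- `x` is the pair of a real and of a code of a Pi-1-(n+1) set; the pair `(x, z)` is not in the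
set. -/
def KT (n : ℕ) (R : Set (ℕ → ℕ)) (x z : ℕ → ℕ) : Prop := TS R (n + 1) (rg x) (jn (lf x) z)

end Pool.Agent.H.MP_20495c_lc
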