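import Pool.Agent.H.MP_20495c_lc.B.Sol

/-!
# Part B, module Task: one task
-/

set_option autoImplicit false
set_option linter.unusedSectionVars false

namespace Pool.Agent.H.MP_20495c_lc

open Pool.Agent.H.MP_07d118_lc Pool.Agent.H.MP_a163f2_lc

universe u v w x

variable {M : Type u} [SetStr M] [ZFC M] [Std M] {W : Type v} [LinearOrder W] [Cd M W] [Om1 M W]
variable {c : W × Hc → ℕ → ℕ} [hL : Fact (Luz M W c)]
variable {K : Set (ℕ → ℕ) → (ℕ → ℕ) → (ℕ → ℕ) → Prop} {r : Nm M W → Nm M W → Prop}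
variable {S S' F : Stc M W} {T : Tt M W} [hK : Fact (KOK M W c K)] [hr : Fact (WOr M r)]

theorem Task_T3 {x z x' z' : ℕ → ℕ} (h : T3 x z 0 = T3 x' z' 0) : x = x' ∧ z = z' := by
  have hx : ∀ x y : ℕ → ℕ, ∀ n, T3 x y 0 (2 * n + 1) = x n := by
    intro x y n
    simp only [T3]
    rw [if_neg (by omega), if_pos (by omega)]
    congr 1
    omega
  have hz : ∀ x y : ℕ → ℕ, ∀ n, T3 x y 0 (2 * n + 2) = y n := by
    intro x y n
    simp only [T3]
    rw [if_neg (by omega), if_neg (by omega)]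
    congr 1
    omega
  constructor
  · funext n
    rw [← hx x z n, h, hx]
  · funext n
    rw [← hz x z n, h, hz]

/-- a node of the base which codes an unprotected pair is solved by the cleanness -/
theorem Task_clean [Countable M] (hst : State c K r (F, T)) (hS : KK c F T S)
    {G : Set (Cond W)} (hG : Gen c S.1 G) {x z : ℕ → ℕ} (hn : ∀ w, ¬ PT T S G x w)
    (hk : ¬ K (RR c S.1 G) x z) {μ : W} (hμ : μ ∈ F.1.dom)
    (he : ev (S.1.nm μ) G = T3 x z 0) : False := by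
  have hF : SV c F := hst.inv.base
  have hI0 : I0 c T := hst.inv.i0
  have hsb : Sb F.1 S.1 := hS.le.sb hS.sv.toHS
  have hGF : Gen c F.1 (G ∩ PP c F.1) := Gen.restrict hF.val hsb hG
  have hnm : S.1.nm μ = F.1.nm μ := hsb.nm_eq hμ
  have hisn : IsNm c F.1 (F.1.nm μ) := hF.val.nm μ hμ
  have hc := hst.clean μ hμ (G ∩ PP c F.1) hGF hGF.empty_mem x z
    (by rw [ev_inter hisn]; rw [hnm] at he; exact he)
  rcases hc with ⟨z', hz'⟩ | hK'
  · exact hn z' (PT_up hS.le ((PT_inter hI0 hF.toHS).1 hz'))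
  · have hR : RR c F.1 (G ∩ PP c F.1) = RR c F.1 G := RR_inter
    rw [hR] at hK'
    rw [hnm] at he
    obtain ⟨hx, hz⟩ := node_RR hS.sv.val hF.val hsb hG hisn he
    exact hk (hK.out.up F.1 S.1 hF.val hS.sv.val hsb G hG x hx z hz hK')

/-- an old mark does not lie below the least member of the pair of a node -/
theorem Task_min [Countable M] (hS : KK c F T S) {G : Set (Cond W)}
    (hG : Gen c S.1 G) {ν : W} (hν : ν ∈ S.1.dom) (hνF : ν ∉ F.1.dom) {x z : ℕ → ℕ}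
    (he : ev (S.1.nm ν) G = T3 x z 0) {E : Pl M W}
    (hmin : ∀ D', Mem S D' → Sb F.1 D' → x ∈ RR c D' G → z ∈ RR c D' G → Sb E D')
    {E' : Pl M W} (hE' : MK c F S E') : ¬ Sb E' E := by
  intro hs
  obtain ⟨D, hD, hνD, hnD, hED⟩ := hE'.sup ν hν hνF
  obtain ⟨hDv, hDs⟩ := hS.sv.sub D hD
  obtain ⟨hx, hz⟩ := node_RR hS.sv.val hDv hDs hG hnD he
  rcases hS.cmp D hD with h1 | h1
  · have hx' := RR_mono hDv h1 (G := G) hx
    have hz' := RR_mono hDv h1 (G := G) hz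
    exact hE'.nb (hs.trans (hmin F.1 hS.le.1 (Sb.refl _) hx' hz'))
  · exact hED (hs.trans (hmin D hD h1 hx hz))

/-- glueing a moved copy of `A` to `S` over the common member `D` -/
theorem Task_glue [Countable M] (h : INV c K F T) {A : Stc M W} (hS : KK c F T S)
    (hA : KK c F T A) {D : Pl M W} (hD : Mem S D) (hDA : Mem A D) (hFD : Sb F.1 D)
    (hr : res A D = res S D) :
    ∃ (π : Equiv.Perm W) (hπ : IF M π) (ν' : W) (S' : Stc M W), (∀ ν ∈ D.dom, π ν = ν) ∧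
      (∀ ν ∈ F.1.dom, π ν = ν) ∧ pmP π hπ D = D ∧ pmP π hπ F.1 = F.1 ∧
      KK c F T (pmS π hπ A) ∧ AmD c S (pmS π hπ A) D ∧
      IsTop c (stA S (pmS π hπ A)) S' ν' dfn ∧ KK c F T S' ∧ SLe S S' ∧
      SLe (pmS π hπ A) S' := by
  obtain ⟨π, hπ, hfix, hdis, hpD, hres⟩ := exists_move hA.sv hDA hS.sv.val
  have hfF : ∀ ν ∈ F.1.dom, π ν = ν := fun ν hν => hfix ν (hFD.dom hν)
  have hK2 : KK c F T (pmS π hπ A) := KK_pm h.base h.i1 hfF hA
  have hAm : AmD c S (pmS π hπ A) D :=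
    { sv1 := hS.sv
      sv2 := hK2.sv
      m1 := hD
      m2 := by
        have := (Mem_pmS (π := π) (hπ := hπ)).2 hDA
        rw [hpD] at this
        exact this
      eq := by rw [hres, hr]
      dis := fun ν h1 h2 => hdis ν h2 h1 }
  obtain ⟨ν', S', htop, hKK, h1, h2⟩ := KK_amalg h.i0 h.i2 hS hK2 hAm hFD
  exact ⟨π, hπ, ν', S', hfix, hfF, hpD, pmP_fix h.base.val hfF, hK2, hAm, htop, hKK, h1, h2⟩

/-- the restriction of the moved condition to the old plan -/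
theorem Task_crs {π : Equiv.Perm W} {hπ : IF M π} {A D g : Pl M W} (hDv : Valid c D)
    (hDA : Sb D A) (hDg : Sb D g) (hfix : ∀ ν ∈ D.dom, π ν = ν) (hpD : pmP π hπ D = D)
    (hdis : ∀ ν ∈ g.dom, ν ∈ (pmP π hπ A).dom → ν ∈ D.dom) {p : Cond W} (hp : p ∈ PP c A) :
    crs g.dom (pmC π p) = crs D.dom p := by
  have h1 : crs D.dom (pmC π p) = crs D.dom p := by
    have := pmC_crs (π := π) (hπ := hπ) (g := D) (p := p)
    rw [hpD] at this
    rw [this]
    exact pmC_fix hfix (crs_PP hDv hDA hp)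
  rw [← h1]
  have hπp : pmC π p ∈ PP c (pmP π hπ A) := pmC_PP.2 hp
  refine Prod.ext (Finset.ext fun y => ?_) (Finset.ext fun y => ?_)
  · rw [mem_crs1, mem_crs1]
    exact ⟨fun hy => ⟨hy.1, hdis _ hy.2 (PP.dom1 hπp hy.1)⟩, fun hy => ⟨hy.1, hDg.dom hy.2⟩⟩
  · rw [mem_crs2, mem_crs2]
    exact ⟨fun hy => ⟨hy.1, hdis _ hy.2 (PP.dom2 hπp hy.1)⟩, fun hy => ⟨hy.1, hDg.dom hy.2⟩⟩

/-- the top node of the amalgam is outside the old plans -/
theorem Task_top {S₂ : Stc M W} {ν' : W} (htop : IsTop c (stA S S₂) S' ν' dfn) {μ : W}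
    (hμ : μ ∈ S'.1.dom) (hμS : μ ∉ S.1.dom) : μ = ν' ∨ μ ∈ S₂.1.dom := by
  rcases (htop.dom μ).1 hμ with h1 | h1
  · exact Or.inl h1
  · have h2 : μ ∈ (plU S.1 S₂.1).dom := h1
    rw [plU_dom] at h2
    rcases h2 with h2 | h2
    · exact absurd h2 hμS
    · exact Or.inr h2

/-- old marks survive the amalgamation -/
theorem Task_mark {S₂ : Stc M W} {D : Pl M W} (hA : AmD c S S₂ D) {ν' : W}
    (htop : IsTop c (stA S S₂) S' ν' dfn) (hKK : KK c F T S') (hFS : Sb F.1 S.1)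
    (h1 : SLe S S') (h2 : SLe S₂ S') {E' : Pl M W} (hE : MK c F S E') (hD : ¬ Sb E' D) :
    MK c F S' E' := by
  refine hE.up h1 hKK.sv fun μ hμ hμS => ?_
  have hμF : μ ∉ F.1.dom := fun h => hμS (hFS.dom h)
  rcases Task_top htop hμ hμS with rfl | h3
  · exact dfn_support htop hKK.le.1 hμF hE.nb
  · obtain ⟨D', hD', hμD', hn'⟩ := hA.sv2.sup μ h3
    refine ⟨D', h2.mem hD', hμD', ?_, ?_⟩
    · rw [(h2.sb hKK.sv.toHS).nm_eq h3]
      exact hn'
    · intro hs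
      apply hD
      have := sb_plI (hA.sv1.sub _ hE.mem).2 (hs.trans (hA.sv2.sub _ hD').2)
      rw [hA.plI_eq] at this
      exact this

/-- The pair of a node `ν` outside the base (not solved) is not coded in the least member `E` over which both of its reals lie. Let `μ ∈ E.dom` code `(x, z)`. If `μ ∉ F.1.dom`: `μ` has a support `D₀` in `S`
(`HS.sup`, `μ ∉ D₀.dom`); both reals lie over `D₀` (`node_RR`). If `Sb D₀ F.1`, they lie over `F.1`, so `Sb E F.1` by minimality and `μ ∈ F.1.dom`, contradiction; if `Sb F.1 D₀` then `Sb E D₀`, `μ ∈ D₀.dom`, contradiction.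
If `μ ∈ F.1.dom`: `Clean` at `G ∩ PP c F.1`: either a protected pair for `x` in `F` (then in `S`: `PT_up`, `PT_inter`) or `K (RR c F.1 G) x z`, then `K (RR c S.1 G) x z` (`hK.out.up`, the reals of the node `μ` of the
base lie over the base). -/
theorem not_el_least [Countable M] (hst : State c K r (F, T)) (hS : KK c F T S)
    {G : Set (Cond W)} (hG : Gen c S.1 G) {x z : ℕ → ℕ} (hn : ∀ w, ¬ PT T S G x w)
    (hk : ¬ K (RR c S.1 G) x z) {E : Pl M W} (hE : Mem S E) (hFE : Sb F.1 E)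
    (hmin : ∀ D', Mem S D' → Sb F.1 D' → x ∈ RR c D' G → z ∈ RR c D' G → Sb E D') :
    ¬ Elc E G x z := by
  rintro ⟨μ, hμ, he⟩
  obtain ⟨hEv, hEs⟩ := hS.sv.sub E hE
  have hnm : S.1.nm μ = E.nm μ := hEs.nm_eq hμ
  rw [← hnm] at he
  by_cases hμF : μ ∈ F.1.dom
  · exact Task_clean hst hS hG hn hk hμF he
  · obtain ⟨D₀, hD₀, hμD, hn₀⟩ := hS.sv.sup μ (hEs.dom hμ)
    obtain ⟨hDv, hDs⟩ := hS.sv.sub D₀ hD₀
    obtain ⟨hx, hz⟩ := node_RR hS.sv.val hDv hDs hG hn₀ he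
    rcases hS.cmp D₀ hD₀ with h1 | h1
    · have hx' := RR_mono hDv h1 (G := G) hx
      have hz' := RR_mono hDv h1 (G := G) hz
      exact hμF ((hmin F.1 hS.le.1 (Sb.refl _) hx' hz').dom hμ)
    · exact hμD ((hmin D₀ hD₀ h1 hx hz).dom hμ)

/-- **Case (i)**, kickable over `E`: the marks of `s` survive the amalgamation with the moved kick. Let `(S₁, p, a, b)` be the kick of `res s.1 E`; `exists_move` for `S₁`, its member `E`, and the plan `s.1.1`; `S₂ = pmS π S₁`;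
`KK_amalg` over `E` gives `S'`. `t = (S', s.2)`. `MK.up` for a mark `E'` of `s`: new nodes are nodes `μ` of `S₂` outside `E`, or the default top (`dfn_support`). `μ` has a support `D'` in `S₂` (`HS.sup`); if `Sb E' D'` then
`E'` lies below `plI S₂.1 s.1.1 = E` (`AmD.plI_eq`, `sb_plI`); but the node `ν` of `s` has a support `D` with `¬ Sb E' D` (`MK.sup`) and `E ≤ D` (if `Sb F.1 D` by minimality of `E`, since the pair of `ν` lies over `D`; if `Sb D F.1`
then the pair lies over the base and `Sb E F.1`, so `Sb E' F.1`, contradiction to `MK.nb`).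
The generic filter: `exists_gen_ext` for `s.1.1 ≤ S'.1`, `G`, and `π p` (`crs s.1.1.dom (π p) = crs E.dom p ∈ G`). Then `K (RR c S₂.1 G') x z` (moved by `pm_Fo`, `pm_RR`, as in `Kb_up`) and `K (RR c S'.1 G') x z`. -/
theorem task_kick [Countable M] (h : INV c K F T) {s : MS M W} (hs : MV c F T s) {ν : W}
    (hν : ν ∈ s.1.1.dom) (hνF : ν ∉ F.1.dom) {G : Set (Cond W)} (hG : Gen c s.1.1 G)
    {x z : ℕ → ℕ} (he : ev (s.1.1.nm ν) G = T3 x z 0) {E : Pl M W} (hE : Mem s.1 E)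
    (hFE : Sb F.1 E) (hx : x ∈ RR c E G) (hz : z ∈ RR c E G)
    (hmin : ∀ D', Mem s.1 D' → Sb F.1 D' → x ∈ RR c D' G → z ∈ RR c D' G → Sb E D')
    (hk : Kb c K F T (res s.1 E) G x z) :
    ∃ t, MV c F T t ∧ MLe c F T t s ∧ ∃ G', Gen c t.1.1 G' ∧ G' ∩ PP c s.1.1 = G ∧
      K (RR c t.1.1 G') x z := by
  have hS := hs.1
  obtain ⟨hEv, hEs⟩ := hS.sv.sub E hE
  obtain ⟨S₁, hK1, hle1, p, hp, hpG, a, b, ha, hb, hea, heb, hfo⟩ := hk
  have hEm : Mem S₁ E := hle1.1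
  have hr : res S₁ E = res s.1 E := hle1.2
  obtain ⟨π, hπ, ν', S', hfix, hfF, hpE, hpF, hK2, hAm, htop, hKK, h1, h2⟩ :=
    Task_glue h hS hK1 hE hEm hFE hr
  have hES₁ : Sb E S₁.1 := (hK1.sv.sub E hEm).2
  have hcrs : crs s.1.1.dom (pmC π p) = crs E.dom p :=
    Task_crs hEv hES₁ hEs hfix hpE hAm.dis hp
  have hπp2 : pmC π p ∈ PP c (pmP π hπ S₁.1) := (pmC_PP (π := π) (hπ := hπ)).2 hp
  have hsb1 : Sb s.1.1 S'.1 := h1.sb hKK.sv.toHS
  have hsb2 : Sb (pmS π hπ S₁).1 S'.1 := h2.sb hKK.sv.toHS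
  obtain ⟨G', hG', hπpG, hGG⟩ := exists_gen_ext hS.sv.val hKK.sv.val hsb1 hG
    (PP_mono hsb2 hπp2) (by rw [hcrs]; exact hpG)
  have hG2 : Gen c (pmS π hπ S₁).1 (G' ∩ PP c (pmS π hπ S₁).1) :=
    Gen.restrict hK2.sv.val hsb2 hG'
  have hES2 : Sb E (pmS π hπ S₁).1 := (hK2.sv.sub E hAm.m2).2
  have hval : ∀ n : Nm M W, IsNm c E n → ev n (G' ∩ PP c (pmS π hπ S₁).1) = ev n G := by
    intro n hn
    rw [ev_inter (hn.mono hEv hES2), ← hGG, ev_inter (hn.mono hEv hEs)]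
  have hfo2 : Fo c (pmP π hπ S₁.1) (pmC π p) (fun G₂ =>
      K (RR c (pmS π hπ S₁).1 G₂) (ev a G₂) (ev b G₂)) := by
    rw [pm_Fo]
    refine hfo.imp fun G₀ _ _ hK0 => ?_
    show K (RR c (pmP π hπ S₁.1) (pmC π '' G₀)) (ev a (pmC π '' G₀)) (ev b (pmC π '' G₀))
    have e1 : ev a (pmC π '' G₀) = ev a G₀ := by
      conv_lhs => rw [← pmN_fix (hπ := hπ) hfix ha]
      exact pm_ev
    have e2 : ev b (pmC π '' G₀) = ev b G₀ := by
      conv_lhs => rw [← pmN_fix (hπ := hπ) hfix hb]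
      exact pm_ev
    rw [pm_RR, e1, e2]
    exact hK0
  have hK3 := hfo2 _ hG2 ⟨hπpG, hπp2⟩
  have hR2 : RR c (pmS π hπ S₁).1 (G' ∩ PP c (pmS π hπ S₁).1) = RR c (pmS π hπ S₁).1 G' :=
    RR_inter
  simp only at hK3
  rw [hval a ha, hval b hb, hea, heb, hR2] at hK3
  have hx2 : x ∈ RR c (pmS π hπ S₁).1 G' := by
    rw [← hea, ← hval a ha, ← hR2]
    exact ev_mem_RR (ha.mono hEv hES2)
  have hz2 : z ∈ RR c (pmS π hπ S₁).1 G' := by
    rw [← heb, ← hval b hb, ← hR2]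
    exact ev_mem_RR (hb.mono hEv hES2)
  have hK4 : K (RR c S'.1 G') x z :=
    hK.out.up _ _ hK2.sv.val hKK.sv.val hsb2 G' hG' x hx2 z hz2 hK3
  have hFS : Sb F.1 s.1.1 := hS.le.sb hS.sv.toHS
  have hMV : MV c F T ((S', s.2) : MS M W) := ⟨hKK, fun E' hE' =>
    Task_mark hAm htop hKK hFS h1 h2 (hs.2 E' hE')
      (Task_min hS hG hν hνF he hmin (hs.2 E' hE'))⟩
  exact ⟨(S', s.2), hMV, Or.inr ⟨hMV, hs, h1, fun _ h => h⟩, G', hG', hGG, hK4⟩

/-- **Case (ii)**, not kickable over `E`, `C` the least member over which `x` lies, `z` not over `C`: a copy of `res s.1 E` over `C`. Names `a` over `C` of `x`, `b` over `E` of `z`. The statement `Φ(G₀)`: (`ev b G₀ ∉ RR c C G₀`; for the members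
`D` of `res s.1 E` above the base, different from `E`: not both values in `RR c D G₀`; not `Kb (res s.1 E) G₀ (ev a G₀) (ev b G₀)`) is good over `E` and true at `G ∩ PP c E`; let `p ∈ G ∩ PP c E` force it. `exists_move` for `res s.1 E`, its
member `C` and the plan `s.1.1`; `S₂ = pmS π (res s.1 E)`; `KK_amalg` over `C` gives `S'`; `t = (S', s.2 ∪ {π E})`. `exists_gen_ext` with `G`, `π p` (`crs s.1.1.dom (π p) = crs C.dom p ∈ G`) gives `G'`. `G'' = π⁻¹ (G' ∩ PP c (π E))` is generic for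
`E`, contains `p`, so `Φ(G'')`; `ev a G'' = x` (`a` over `C`, `G'' ∩ PP c C = G ∩ PP c C`), `w = ev b G'' = ev (π b) G'`. This gives `Wit .. (π E) G' x w` (members of `S'` below `π E` are members of `S₂`; `Kb_pm`; `Kb_inter`).
Marks: `π E` is a mark: not below the base (`w` not over `C`); old nodes outside the base: any support `D` in `s.1`: `Sb (π E) D` would give `π E ≤ plI .. = C`, but `w` lies over `π E` and not over `C`; nodes `μ` of `S₂` outside `C`: a support in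
`S₂` avoids `μ`; the default top. Old marks: as in case (i) with `plI S₂.1 s.1.1 = C ≤ E`. -/
theorem task_copy [Countable M] (h : INV c K F T) {s : MS M W} (hs : MV c F T s) {ν : W}
    (hν : ν ∈ s.1.1.dom) (hνF : ν ∉ F.1.dom) {G : Set (Cond W)} (hG : Gen c s.1.1 G)
    {x z : ℕ → ℕ} (he : ev (s.1.1.nm ν) G = T3 x z 0) {E : Pl M W} (hE : Mem s.1 E)
    (hFE : Sb F.1 E) (hx : x ∈ RR c E G) (hz : z ∈ RR c E G)
    (hmin : ∀ D', Mem s.1 D' → Sb F.1 D' → x ∈ RR c D' G → z ∈ RR c D' G → Sb E D')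
    (hk : ¬ Kb c K F T (res s.1 E) G x z) {C : Pl M W} (hC : Mem s.1 C) (hFC : Sb F.1 C)
    (hxC : x ∈ RR c C G) (hCE : Sb C E) (hzC : z ∉ RR c C G) :
    ∃ t, MV c F T t ∧ MLe c F T t s ∧ ∃ G', Gen c t.1.1 G' ∧ G' ∩ PP c s.1.1 = G ∧
      ∃ E', E' ∈ t.2 ∧ ∃ w, Wit c K F T t.1 E' G' x w := by
  have hS := hs.1
  obtain ⟨hEv, hEs⟩ := hS.sv.sub E hE
  obtain ⟨hCv, hCs⟩ := hS.sv.sub C hC
  obtain ⟨a, ha, hea⟩ := hxC
  obtain ⟨b, hb, heb⟩ := hz
  -- the statement to be forced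
  have hgoodE : Good c (fun _ : Pl M W => E) (fun _ G₀ => ev b G₀ ∉ RR c C G₀ ∧
      (∀ D : Pl M W, ¬ ((Mem s.1 D ∧ Sb F.1 D ∧ Sb D E ∧ D ≠ E) ∧
        (ev a G₀ ∈ RR c D G₀ ∧ ev b G₀ ∈ RR c D G₀))) ∧
      ¬ Kb c K F T (res s.1 E) G₀ (ev a G₀) (ev b G₀)) := by
    have hEc : IF M (fun _ : Pl M W => E) := IF.const E
    have hEc2 : IF M (fun _ : Pl M W × Pl M W => E) := IF.const E
    refine Good.and ?_ (Good.and ?_ ?_)
    · exact Good.not hEc (Good_RR hEc (IF.const C) (GoodR.ev hEc (IF.const b)))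
    · refine Good.all hEc (Good.not hEc2 (Good.and (Good.of_in ?_) (Good.and ?_ ?_)))
      · exact (In_Mem (IF.const s.1) IF.snd).and ((In.sb (IF.const F.1) IF.snd).and
          ((In.sb IF.snd (IF.const E)).and (In.not (In.eq IF.snd (IF.const E)))))
      · exact Good_RR hEc2 IF.snd (GoodR.ev hEc2 (IF.const a))
      · exact Good_RR hEc2 IF.snd (GoodR.ev hEc2 (IF.const b))
    · exact Good.not hEc (Good_Kb hEc (IF.const F) (IF.const T) (IF.const (res s.1 E))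
        (GoodR.ev hEc (IF.const a)) (GoodR.ev hEc (IF.const b)))
  have hGE : Gen c E (G ∩ PP c E) := Gen.restrict hEv hEs hG
  have hCR : ∀ D, Sb D E → ∀ G₀ : Set (Cond W), RR c D (G₀ ∩ PP c E) = RR c D G₀ := by
    intro D hDE G₀
    rw [← RR_inter (D := D) (G := G₀), ← RR_inter (D := D) (G := G₀ ∩ PP c E)]
    congr 1
    ext y
    exact ⟨fun hy => ⟨hy.1.1, hy.2⟩, fun hy => ⟨⟨hy.1, PP_mono hDE hy.2⟩, hy.2⟩⟩
  have haE : IsNm c E a := ha.mono hCv hCE
  have hPhi : ev b (G ∩ PP c E) ∉ RR c C (G ∩ PP c E) ∧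
      (∀ D : Pl M W, ¬ ((Mem s.1 D ∧ Sb F.1 D ∧ Sb D E ∧ D ≠ E) ∧
        (ev a (G ∩ PP c E) ∈ RR c D (G ∩ PP c E) ∧
          ev b (G ∩ PP c E) ∈ RR c D (G ∩ PP c E)))) ∧
      ¬ Kb c K F T (res s.1 E) (G ∩ PP c E) (ev a (G ∩ PP c E)) (ev b (G ∩ PP c E)) := by
    rw [ev_inter haE, ev_inter hb, hea, heb]
    refine ⟨?_, ?_, ?_⟩
    · rw [hCR C hCE]
      exact hzC
    · rintro D ⟨⟨hD1, hD2, hD3, hD4⟩, hD5, hD6⟩
      rw [hCR D hD3] at hD5 hD6
      exact hD4 (Sb.antisymm hD3 (hmin D hD1 hD2 hD5 hD6))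
    · intro hkb
      exact hk ((Kb_inter (S := res s.1 E) hEv).1 hkb)
  obtain ⟨p, hpGE, hfo⟩ := Good.truth (IF.const E) hgoodE (t := E) hGE hPhi
  have hpG : p ∈ G := hpGE.1
  have hpE : p ∈ PP c E := hpGE.2
  -- the copy
  have hKE : KK c F T (res s.1 E) := KK_res h.i0 hS hE hFE
  have hCr : Mem (res s.1 E) C := Mem_res.2 ⟨hC, hCE⟩
  obtain ⟨π, hπ, ν', S', hfix, hfF, hpC, hpF, hK2, hAm, htop, hKK, h1, h2⟩ :=
    Task_glue h hS hKE hC hCr hFC (res_res hCE)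
  have hcrs : crs s.1.1.dom (pmC π p) = crs C.dom p :=
    Task_crs hCv hCE hCs hfix hpC hAm.dis hpE
  have hπp2 : pmC π p ∈ PP c (pmP π hπ E) := (pmC_PP (π := π) (hπ := hπ)).2 hpE
  have hsb1 : Sb s.1.1 S'.1 := h1.sb hKK.sv.toHS
  have hsb2 : Sb (pmP π hπ E) S'.1 := h2.sb hKK.sv.toHS
  have hv2 : Valid c (pmP π hπ E) := hK2.sv.val
  have hC2 : Sb C (pmP π hπ E) := (hK2.sv.sub C hAm.m2).2
  obtain ⟨G', hG', hπpG, hGG⟩ := exists_gen_ext hS.sv.val hKK.sv.val hsb1 hG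
    (PP_mono hsb2 hπp2) (by rw [hcrs]; exact (Gen.crs_mem hCv hCs hG hpG).1)
  have hG2 : Gen c (pmP π hπ E) (G' ∩ PP c (pmP π hπ E)) := Gen.restrict hv2 hsb2 hG'
  obtain ⟨G₀, hG₀⟩ : ∃ G₀, G₀ = pmC π.symm '' (G' ∩ PP c (pmP π hπ E)) := ⟨_, rfl⟩
  have hG₀g : Gen c E G₀ := by
    have := pm_Gen (π := π.symm) (hπ := IF.symm hπ) hG2
    rw [pmP_symm (IF.symm hπ) E] at this
    rw [hG₀]
    exact this
  have himg : pmC π '' G₀ = G' ∩ PP c (pmP π hπ E) := by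
    rw [hG₀]
    exact PermK_image π.symm _
  have hpG₀ : p ∈ G₀ := by
    rw [hG₀]
    exact ⟨pmC π p, ⟨hπpG, hπp2⟩, pmC_symm π p⟩
  obtain ⟨hP1, hP2, hP3⟩ := hfo G₀ hG₀g hpG₀
  -- reals over the moved members
  have hRm : ∀ D, Sb D E → RR c (pmP π hπ D) G' = RR c D G₀ := by
    intro D hDE
    rw [← pm_RR (π := π) (hπ := hπ) (f := D) (G := G₀), himg,
      ← RR_inter (D := pmP π hπ D) (G := G'),
      ← RR_inter (D := pmP π hπ D) (G := G' ∩ PP c (pmP π hπ E))]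
    congr 1
    ext y
    exact ⟨fun hy => ⟨⟨hy.1, PP_mono (pmP_Sb hDE) hy.2⟩, hy.2⟩,
      fun hy => ⟨hy.1.1, hy.2⟩⟩
  have hnmv : ∀ n : Nm M W, IsNm c E n → ev (pmN π hπ n) G' = ev n G₀ := by
    intro n hn
    rw [← pm_ev (π := π) (hπ := hπ) (x := n) (G := G₀), himg]
    exact (ev_inter (pmN_IsNm hn)).symm
  have hax : ev a G₀ = x := by
    rw [← hnmv a haE, pmN_fix hfix ha, ← hea, ← hGG, ev_inter (ha.mono hCv hCs)]
  obtain ⟨w, hw⟩ : ∃ w, w = ev b G₀ := ⟨_, rfl⟩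
  rw [hax, ← hw] at hP3
  rw [← hw] at hP1
  have hxE2 : x ∈ RR c (pmP π hπ E) G' := by
    rw [hRm E (Sb.refl _), ← hax]
    exact ev_mem_RR haE
  have hwE2 : w ∈ RR c (pmP π hπ E) G' := by
    rw [hRm E (Sb.refl _), hw]
    exact ev_mem_RR hb
  have hCG : RR c C G' = RR c C G₀ := by
    have := hRm C hCE
    rw [hpC] at this
    exact this
  have hwC : w ∉ RR c C G' := by
    rw [hCG]
    exact hP1
  have hxC' : x ∈ RR c C G' := by
    rw [hCG, ← hax]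
    exact ev_mem_RR ha
  have hwit : Wit c K F T S' (pmP π hπ E) G' x w := by
    refine ⟨hxE2, hwE2, ?_, ⟨C, h1.mem hC, hFC, hxC', hwC⟩, ?_⟩
    · rintro D hD hFD hDE hne ⟨hx1, hw1⟩
      have hD2 : Mem (pmS π hπ (res s.1 E)) D := h2.mem_iff.2 ⟨hD, hDE⟩
      obtain ⟨D₀, hD₀, rfl⟩ := Mem_pmS'.1 hD2
      obtain ⟨hD₁, hD₂⟩ := Mem_res.1 hD₀
      rw [hRm D₀ hD₂] at hx1 hw1
      refine hP2 D₀ ⟨⟨hD₁, ?_, hD₂, ?_⟩, ?_, ?_⟩
      · rw [← hpF] at hFD
        exact pmP_Sb_iff.1 hFD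
      · rintro rfl
        exact hne rfl
      · rw [hax]
        exact hx1
      · rw [← hw]
        exact hw1
    · intro hkb
      have hres2 : res S' (pmP π hπ E) = pmS π hπ (res s.1 E) := h2.2
      rw [hres2] at hkb
      have hkb2 := (Kb_inter (S := pmS π hπ (res s.1 E)) hv2).2 hkb
      have himg' : G' ∩ PP c (pmS π hπ (res s.1 E)).1 = pmC π '' G₀ := himg.symm
      rw [himg'] at hkb2
      exact hP3 ((Kb_pm h.base h.i1 hfF).1 hkb2)
  have hFS : Sb F.1 s.1.1 := hS.le.sb hS.sv.toHS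
  have hnC : ¬ Sb (pmP π hπ E) C := fun hs' => hwC (RR_mono hv2 hs' hwE2)
  have hnF : ¬ Sb (pmP π hπ E) F.1 := fun hs' => hnC (hs'.trans hFC)
  have hMKn : MK c F S' (pmP π hπ E) := by
    refine ⟨h2.1, hnF, fun μ hμ hμF => ?_⟩
    by_cases hμS : μ ∈ s.1.1.dom
    · obtain ⟨D, hD, hμD, hnD⟩ := hS.sv.sup μ hμS
      refine ⟨D, h1.mem hD, hμD, ?_, ?_⟩
      · rw [hsb1.nm_eq hμS]
        exact hnD
      · intro hs'
        apply hnC
        have := sb_plI (hs'.trans (hS.sv.sub D hD).2) (Sb.refl (pmP π hπ E))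
        have hpl : plI s.1.1 (pmP π hπ E) = C := hAm.plI_eq
        rw [hpl] at this
        exact this
    · rcases Task_top htop hμ hμS with rfl | h3
      · exact dfn_support htop hKK.le.1 hμF hnF
      · obtain ⟨D', hD', hμD', hn'⟩ := hK2.sv.sup μ h3
        refine ⟨D', h2.mem hD', hμD', ?_, fun hs' => hμD' (hs'.dom h3)⟩
        have e3 : S'.1.nm μ = (pmS π hπ (res s.1 E)).1.nm μ := hsb2.nm_eq h3
        rw [e3]
        exact hn'
  have hMV : MV c F T ((S', ISet.mk (P := fun D : Pl M W => D ∈ s.2 ∨ D = pmP π hπ E)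
      (s.2.in_mem.or (In.eq IF.id (IF.const _)))) : MS M W) := by
    refine ⟨hKK, fun E' hE' => ?_⟩
    have hE'' : E' ∈ s.2 ∨ E' = pmP π hπ E := hE'
    rcases hE'' with hE'' | rfl
    · exact Task_mark hAm htop hKK hFS h1 h2 (hs.2 E' hE'')
        (fun hs' => Task_min hS hG hν hνF he hmin (hs.2 E' hE'') (hs'.trans hCE))
    · exact hMKn
  exact ⟨_, hMV, Or.inr ⟨hMV, hs, h1, fun E' hE' => Or.inl hE'⟩, G', hG', hGG,
    pmP π hπ E, Or.inr rfl, w, hwit⟩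

/-- **One task.** Take `G` generic for `s.1.1`, `q ∈ G` (`exists_gen`). If `SolN c K F T s ν G`, `Good_SolN` and `Good.truth` give `q' ∈ G` forcing it; `t = s`. Otherwise there are `x z` coded by `ν` with no protected pair for
`x`, not `K`, no witness. `ν ∉ F.1.dom` (else `Clean` at `G ∩ PP c F.1` gives a solution as in `not_el_least`). `E` := least member over which `x`, `z` lie (`exists_least2`), `C` := the one of `x`, `Sb C E`. If kickable over `E`: `task_kick`.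
If not: `not_el_least`, and if `z` were over `C` then `Sb E C`, `E = C`, and `K9` contradicts; so `task_copy`. In both cases `Sol` holds at `G'` for `x z`, hence `SolN c K F T t ν G'` (the value of the node at `G'` is the one at
`G`, so `x`, `z` are determined: `zx`, `za`), and `q ∈ G'`; `Good_SolN`, `Good.truth` give `r' ∈ G'` forcing it, which may be taken below `q`. -/
theorem one_task [Countable M] (hst : State c K r (F, T)) {s : MS M W} (hs : MV c F T s)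
    {ν : W} (hν : ν ∈ s.1.1.dom) {q : Cond W} (hq : q ∈ PP c s.1.1) :
    ∃ t, MV c F T t ∧ MLe c F T t s ∧ ∃ r' ∈ PP c t.1.1, CLe c r' q ∧
      Fo c t.1.1 r' (fun G => SolN c K F T t ν G) := by
  obtain ⟨G, hG, hqG⟩ := exists_gen hq
  have h : INV c K F T := hst.inv
  have hS := hs.1
  -- it is enough to solve the node at one filter
  have key : ∀ t : MS M W, MV c F T t → MLe c F T t s → ∀ G', Gen c t.1.1 G' → q ∈ G' →
      SolN c K F T t ν G' → ∃ t, MV c F T t ∧ MLe c F T t s ∧ ∃ r' ∈ PP c t.1.1, CLe c r' q ∧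
      Fo c t.1.1 r' (fun G => SolN c K F T t ν G) := by
    intro t ht hts G' hG' hq' hsol
    have hgood : Good c (fun _ : Pl M W => t.1.1) (fun _ G => SolN c K F T t ν G) :=
      Good_SolN (IF.const t) (IF.const ν)
    obtain ⟨q', hq'G, hfo⟩ := Good.truth (IF.const t.1.1) hgood (t := t.1.1) hG' hsol
    obtain ⟨r', hr', h1, h2⟩ := hG'.dir q hq' q' hq'G
    exact ⟨t, ht, hts, r', hG'.sub r' hr', h1, hfo.mono (hG'.sub q' hq'G) h2⟩
  by_cases hsol : SolN c K F T s ν G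
  · exact key s hs (Or.inl rfl) G hG hqG hsol
  · have hsol' : ∃ x z, ev (s.1.1.nm ν) G = T3 x z 0 ∧ ¬ Sol c K F T s G x z := by
      by_contra hcon
      apply hsol
      intro x z he
      by_contra hcon2
      exact hcon ⟨x, z, he, hcon2⟩
    obtain ⟨x, z, he, hns⟩ := hsol'
    have hn : ∀ w, ¬ PT T s.1 G x w := fun w hw => hns (Or.inl ⟨w, hw⟩)
    have hk : ¬ K (RR c s.1.1 G) x z := fun hw => hns (Or.inr (Or.inl hw))
    have hνF : ν ∉ F.1.dom := fun hν' => Task_clean hst hS hG hn hk hν' he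
    obtain ⟨hx, hz⟩ := node_RR hS.sv.val hS.sv.val (Sb.refl _) hG (hS.sv.val.nm ν hν) he
    obtain ⟨E, hE, hFE, hxE, hzE, hmin⟩ := exists_least2 hS.sv hS.le hG hx hz
    obtain ⟨C, hC, hFC, hxC, hminC⟩ := exists_least hS.sv hS.le hG hx
    have hCE : Sb C E := hminC E hE hFE hxE
    have fin : ∀ t : MS M W, MV c F T t → MLe c F T t s → ∀ G', Gen c t.1.1 G' →
        G' ∩ PP c s.1.1 = G → Sol c K F T t G' x z → ∃ t, MV c F T t ∧ MLe c F T t s ∧
        ∃ r' ∈ PP c t.1.1, CLe c r' q ∧ Fo c t.1.1 r' (fun G => SolN c K F T t ν G) := by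
      intro t ht hts G' hG' hGG hsolt
      have hq' : q ∈ G' := by
        rw [← hGG] at hqG
        exact hqG.1
      refine key t ht hts G' hG' hq' fun x' z' he' => ?_
      have hsb : Sb s.1.1 t.1.1 := (hts.sle hs).sb ht.1.sv.toHS
      rw [hsb.nm_eq hν, ← ev_inter (hS.sv.val.nm ν hν), hGG, he] at he'
      obtain ⟨rfl, rfl⟩ := Task_T3 he'
      exact hsolt
    by_cases hkb : Kb c K F T (res s.1 E) G x z
    · obtain ⟨t, ht, hts, G', hG', hGG, hK'⟩ :=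
        task_kick h hs hν hνF hG he hE hFE hxE hzE hmin hkb
      exact fin t ht hts G' hG' hGG (Or.inr (Or.inl hK'))
    · have hzC : z ∉ RR c C G := by
        intro hzC
        have hEC : Sb E C := hmin C hC hFC hxC hzC
        have hEq : E = C := Sb.antisymm hEC hCE
        subst hEq
        exact hkb (K9 h hst.fix hS hG hn hE hFE hxE hminC hzE
          (not_el_least hst hS hG hn hk hE hFE hmin))
      obtain ⟨t, ht, hts, G', hG', hGG, E', hE', w, hw⟩ :=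
        task_copy h hs hν hνF hG he hE hFE hxE hzE hmin hkb hC hFC hxC hCE hzC
      exact fin t ht hts G' hG' hGG (Or.inr (Or.inr ⟨E', hE', w, hw⟩))

end Pool.Agent.H.MP_20495c_lc
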