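import Pool.Agent.H.MP_20495c_lc.B.MainB
import Pool.Agent.H.MP_20495c_lc.B.TSb
import Pool.Agent.H.MP_20495c_lc.Def
import Pool.Agent.H.MP_20495c_lc.Def2
import Pool.Agent.H.MP_20495c_lc.TE

/-!
# Part B, module UnifB: the uniformization theorem
-/

set_option autoImplicit false
set_option linter.unusedSectionVars false
set_option linter.style.haveILetI false

namespace Pool.Agent.H.MP_20495c_lc

open Pool.Agent.H.MP_07d118_lc Pool.Agent.H.MP_a163f2_lc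

universe u v w x

/-- Boldface Pi-1-n uniformization over the set `R` of reals: for every Sigma-1-n set `A` (the set
of the pairs `x, z` with `jn x z ∉ A` is uniformized) there is a Sigma-1-n set `B` such that the
set of the pairs with `jn x z ∉ B` is a uniformization. -/
def UnifPi (R : Set (ℕ → ℕ)) (n : ℕ) : Prop :=
  ∀ A, Sig R n A → ∃ B, Sig R n B ∧ (∀ x ∈ R, ∀ z ∈ R, jn x z ∉ B → jn x z ∉ A) ∧
    ∀ x ∈ R, (∃ z ∈ R, jn x z ∉ A) → ∃ z ∈ R, jn x z ∉ B ∧ ∀ z' ∈ R, jn x z' ∉ B → z' = z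

/-- the combinatorial property of the final model -/
theorem unif_of_main {R : Set (ℕ → ℕ)} (hR : RC R) {n : ℕ} {D : Set (ℕ → ℕ)}
    (hD : Sig R (n + 1) D)
    (hm : ∀ x ∈ R, (∃ z₀ ∈ R, ¬ KT n R x z₀ ∧ T3 x z₀ 0 ∉ D ∧
      ∀ z ∈ R, z ≠ z₀ → T3 x z 0 ∈ D) ∨ ∀ z ∈ R, KT n R x z) : UnifPi R (n + 1) := by
  intro A hA
  obtain ⟨b, hb, rfl⟩ := (sig_iff_TS hR (n + 1)).1 hA
  have hDR : D ⊆ R := by
    obtain ⟨d, hd, rfl⟩ := (sig_iff_TS hR (n + 1)).1 hD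
    exact fun x hx => hx.1
  have h1 : SigP R (n + 1) (fun t => TS R (n + 1) b t) := hA
  have h2 : SigP R (n + 1) (fun t => t ∈ D) := (SigP.iff_Sig hDR).1 hD
  have hid := CF.id' hR
  have hF : MP_a163f2_lc.CF R (fun t k => T3 (jn (lf t) b) (rg t) 0 k) := by
    have h3 := CF.T3 hR (φ := fun _ (_ : Unit) => 0) (CF.num hR (RF.const hR 0))
      (F := fun t k => jn (lf t) b k) (G := fun t k => rg t k)
      (CF.jn hR (F := fun t => lf t) (G := fun _ => b) (CF.lf hR hid) (CF.cst hR hb))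
      (CF.rg hR hid)
    exact h3
  have h3 : SigP R (n + 1) (fun t => T3 (jn (lf t) b) (rg t) 0 ∈ D) := SigP.subst hR h2 hF
  have h4 := SigP.or hR h1 h3
  have e : ∀ x ∈ R, ∀ z ∈ R, (jn x z ∈ {t | t ∈ R ∧ (TS R (n + 1) b t ∨
      T3 (jn (lf t) b) (rg t) 0 ∈ D)} ↔ TS R (n + 1) b (jn x z) ∨ T3 (jn x b) z 0 ∈ D) := by
    intro x hx z hz
    show jn x z ∈ R ∧ (TS R (n + 1) b (jn x z) ∨
      T3 (jn (lf (jn x z)) b) (rg (jn x z)) 0 ∈ D) ↔ _
    rw [P3_lf_jn, P3_rg_jn]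
    exact ⟨fun h => h.2, fun h => ⟨P5_jn_mem hR hx hz, h⟩⟩
  have eA : ∀ x ∈ R, ∀ z ∈ R, (jn x z ∈ {t | t ∈ R ∧ TS R (n + 1) b t} ↔
      KT n R (jn x b) z) := by
    intro x hx z hz
    unfold KT
    rw [P3_lf_jn, P3_rg_jn]
    exact ⟨fun h => h.2, fun h => ⟨P5_jn_mem hR hx hz, h⟩⟩
  refine ⟨_, h4, ?_, ?_⟩
  · intro x hx z hz h
    rw [e x hx z hz] at h
    rintro ⟨-, h5⟩
    exact h (Or.inl h5)
  · rintro x hx ⟨z, hz, hzA⟩
    rw [eA x hx z hz] at hzA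
    rcases hm (jn x b) (P5_jn_mem hR hx hb) with ⟨z₀, hz₀, h5, h6, h7⟩ | h5
    · have h8 : ¬ TS R (n + 1) b (jn x z₀) := by
        unfold KT at h5
        rwa [P3_lf_jn, P3_rg_jn] at h5
      refine ⟨z₀, hz₀, ?_, ?_⟩
      · rw [e x hx z₀ hz₀]
        rintro (h9 | h9)
        · exact h8 h9
        · exact h6 h9
      · intro z' hz' h9
        rw [e x hx z' hz'] at h9
        by_contra h10
        exact h9 (Or.inr (h7 z' hz' h10))
    · exact absurd (h5 z hz) hzA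

section

variable {S₀ : Set ZFSet.{0}} [Mdl S₀] {W : Type v} [LinearOrder W] [Cd S₀ W]
  {S : Set ZFSet.{0}} [Mdl S] [Cd S W] [Om1 S W] {c : W × Hc → ℕ → ℕ} {n : ℕ}
  {WW : Set (Set (ℕ → ℕ))}

theorem AI.rr (h : AI S₀ n S c WW) {f : Pl S W} {G : Set (Cond W)} (hf : Valid c f)
    (hG : Gen c f G) : RR c f G ∈ WW := by
  haveI : Fact (Luz S W c) := ⟨h.luz⟩
  rw [← reals_ext_plan hf hG]
  exact h.pl0 f G hf hG

theorem AI.kok (h : AI S₀ n S c WW) : KOK S W c (KT n) := by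
  haveI : Fact (Luz S W c) := ⟨h.luz⟩
  constructor
  · intro T _ f hf X Z hX hZ
    exact Good_TS (n + 1) hf (GoodR_rg hX) (GoodR.jn (GoodR_lf hX) hZ)
  · intro f g hf hg hs G hG x hx z hz hK
    have hG' := hG.restrict hf hs
    have e : RR c f (G ∩ PP c f) = RR c f G := RR_inter
    have h1 : RR c f G ∈ WW := by
      rw [← e]
      exact h.rr hf hG'
    have h2 : RR c g G ∈ WW := h.rr hg hG
    have hR := (h.ru _ h1).rc
    refine ts_up (h.el _ h1 _ h2 ?_) (fun x hx y hy => P5_jn_mem hR hx hy)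
      (P3b_rg_mem hR hx) (P5_jn_mem hR (P3b_lf_mem hR hx) hz) hK
    rw [← e]
    exact RR_restrict hf hs hG

/-- the reals of the final model are a world -/
theorem AI.rn (h : AI S₀ n S c WW) {X : Type v} [Cd S X] {V : X → Prop} {le : X → X → Prop}
    {pl : X → Pl S W} {GG : Set (X × Cond W)} (hG : QG c V le pl GG) : RNs S GG ∈ WW := by
  haveI : Fact (Luz S W c) := ⟨h.luz⟩
  have e : RNs S GG = ⋃₀ {R | ∃ s ∈ HSs GG, R = RR c (pl s) (Gss GG s)} := by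
    ext x
    constructor
    · intro hx
      obtain ⟨s, hs, h1⟩ := RN_exists hG hx
      exact ⟨_, ⟨s, hs, rfl⟩, h1⟩
    · rintro ⟨_, ⟨s, hs, rfl⟩, h1⟩
      exact RN_of_RR hG hs h1
  rw [e]
  refine h.dir _ ?_ ?_ ?_
  · rintro _ ⟨s, hs, rfl⟩
    exact h.rr (hG.sys.valid _ (hG.hist hs)) (hG.gen hs)
  · obtain ⟨s, hs⟩ := HS_ne hG
    exact ⟨_, s, hs, rfl⟩
  · rintro _ ⟨s, hs, rfl⟩ _ ⟨t, ht, rfl⟩
    obtain ⟨u, hu, h1, h2⟩ := hG.dirH hs ht
    exact ⟨_, ⟨u, hu, rfl⟩, hG.RRs_mono hs hu h1, hG.RRs_mono ht hu h2⟩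

theorem AI.kfin (h : AI S₀ n S c WW) {r : Nm S W → Nm S W → Prop}
    {GG : Set ((Stc S W × Tt S W) × Cond W)} (hG : QGS c (KT n) r GG) : KFin c (KT n) r GG := by
  haveI : Fact (Luz S W c) := ⟨h.luz⟩
  have hN := h.rn hG
  have key : ∀ s ∈ HSs GG, El n (RR c s.1.1 (Gss GG s)) (RNs S GG) := by
    intro s hs
    exact h.el _ (h.rr (hG.sys.valid _ (hG.hist hs)) (hG.gen hs)) _ hN (RN_of_RR hG hs)
  constructor
  · intro s hs x hx z hz hK
    have hR := (h.ru _ (h.rr (hG.sys.valid _ (hG.hist hs)) (hG.gen hs))).rc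
    exact ts_up (key s hs) (fun x hx y hy => P5_jn_mem hR hx hy)
      (P3b_rg_mem hR hx) (P5_jn_mem hR (P3b_lf_mem hR hx) hz) hK
  · intro s hs x hx z hz hK
    obtain ⟨y, hy, h1⟩ := hK
    obtain ⟨t, ht, h2, h3⟩ := RN_ext hG hs hy
    have hR := (h.ru _ (h.rr (hG.sys.valid _ (hG.hist ht)) (hG.gen ht))).rc
    have hx' := hG.RRs_mono hs ht h2 hx
    have hz' := hG.RRs_mono hs ht h2 hz
    refine ⟨t, ht, h2, y, h3, fun h4 => h1 ?_⟩
    exact ((key t ht).2 n le_rfl _ (P3b_rg_mem hR hx') _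
      (P5_jn_mem hR (P5_jn_mem hR (P3b_lf_mem hR hx') hz') h3)).1 h4

/-- the poset of a system -/
theorem po_sys [Fact (Luz S W c)] {X : Type v} [Cd S X] {V : X → Prop} {le : X → X → Prop}
    {pl : X → Pl S W} (hS : Sys c V le pl) : Po S (QVs c V pl) (QLs c le) where
  inV := Sys_qv hS IF.id
  inle := In.and (Sys_qv hS IF.fst) (In.and (Sys_qv hS IF.snd) (Sys_ql hS IF.fst IF.snd))
  refl := fun p _ => Sys_qrefl hS p
  trans := fun _ _ _ _ _ _ h1 h2 => Sys_qtrans hS h1 h2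

theorem qg_of_gt {X : Type v} [Cd S X] {V : X → Prop} {le : X → X → Prop}
    {pl : X → Pl S W} (hS : Sys c V le pl) {GG : Set (X × Cond W)}
    (h : Gt S (QVs c V pl) (QLs c le) GG) : QG c V le pl GG :=
  ⟨hS, h.sub, h.ne, h.up, h.dir, h.meets⟩

theorem reals_ext_sys [Fact (Luz S W c)] {X : Type v} [Cd S X] {V : X → Prop}
    {le : X → X → Prop} {pl : X → Pl S W} (hS : Sys c V le pl) {GG : Set (X × Cond W)}
    (h : Gt S (QVs c V pl) (QLs c le) GG) : Reals (ext S GG) = RNs S GG := by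
  ext x
  exact reals_ext_iff (po_sys hS) h

/-- **Uniformization from the interface.** -/
theorem unif_of_AI (h : AI S₀ n S c WW) (hn : 1 ≤ n) :
    ∃ N, GExt S N ∧ UnifPi (Reals N) (n + 1) := by
  haveI hL : Fact (Luz S W c) := ⟨h.luz⟩
  haveI hK : Fact (KOK S W c (KT n)) := ⟨h.kok⟩
  obtain ⟨r, hr⟩ := exists_wo (M := S) (Nm S W)
  haveI hr' : Fact (WOr S r) := ⟨hr⟩
  have hsys : Sys c (fun x : Stc S W × Tt S W => State c (KT n) r x)
    (fun y x => StLe c (KT n) r y x) (fun x => x.1.1) := state_sys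
  obtain ⟨x₀, hx₀⟩ := exists_state (c := c) (K := KT n) (r := r)
  have hP := po_sys hsys
  obtain ⟨GG, hGt, -⟩ := exists_gt hP (p := (x₀, (∅, ∅))) ⟨hx₀, empty_PP _⟩
  have hG : QGS c (KT n) r GG := qg_of_gt hsys hGt
  refine ⟨ext S GG, gext_ext hP hGt, ?_⟩
  rw [reals_ext_sys hsys hGt]
  have hN := h.rn hG
  have hR : RC (RNs S GG) := (h.ru _ hN).rc
  have hc : ∀ κ, c κ ∈ RNs S GG := fun κ =>
    h.sub _ hN (mem_reals.2 (IF.comp (f := fun m : ℕ => (κ, m)) h.luz.int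
      (IF.pair (IF.const κ) IF.id)))
  exact unif_of_main hR (sig_cod hR hn hc (h.fam _ hN)) (fun x hx => main_B hG (h.kfin hG) hx)

end

end Pool.Agent.H.MP_20495c_lc
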